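import Pool.Agent.Lib.P28u.Defs2

set_option autoImplicit false
set_option maxSynthPendingDepth 3

/-!
# Calculus of matrix valued functions

PROOF. Everything is entry by entry. `(M x * N x) k l = ∑ r, M x k r * N x r l`: `ContDiffAt.sum`, `ContDiffAt.mul`; `fderiv` of sums and products. `SM.inv`: `(M x)⁻¹ = (det (M x))⁻¹ • adjugate (M x)` near `x` (`Matrix.inv_def`, `Ring.inverse_eq_inv'`), the determinant and the entries of the adjugate are polynomials in the entries
(`Matrix.det_apply`, `Matrix.adjugate_apply` = a determinant of an updated matrix), `det (M x) ≠ 0`. `DE_inv`: near `x` the matrix is a unit (`det` is continuous), so `(M y)⁻¹ * M y = 1` near `x`; differentiate: `DE (M⁻¹) * M + M⁻¹ * DE M = 0`, multiply by `(M x)⁻¹` from the right.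
`fderiv_inn`, `fderiv_fr2`: product rule (`fr2 M = inn M M`).
-/

open MeasureTheory Set Metric
open scoped ContDiff Topology ENNReal

namespace Pool.Agent.Lib.P28u

open Pool.Agent.P28b04d Pool.Agent.Lib.P28e Pool.Agent.Lib.P28c Pool.Agent.Lib.P28t
open Pool.Agent.Lib.P28f (V EV)

variable {n : ℕ}

variable {E : Type*} [NormedAddCommGroup E] [NormedSpace ℝ E] {N : WithTop ℕ∞} {M M' : E → MR n} {x : E}

theorem SM.mono {N' : WithTop ℕ∞} (h : SM N M x) (hN : N' ≤ N) : SM N' M x :=
  fun k l => (h k l).of_le hN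

theorem SM.const (A : MR n) : SM N (fun _ : E => A) x := fun _ _ => contDiffAt_const

theorem SM.mul (h : SM N M x) (h' : SM N M' x) : SM N (fun y => M y * M' y) x := by
  intro k l
  simp only [Matrix.mul_apply]
  exact ContDiffAt.sum fun r _ => (h k r).mul (h' r l)

theorem SM.add (h : SM N M x) (h' : SM N M' x) : SM N (fun y => M y + M' y) x :=
  fun k l => (h k l).add (h' k l)

theorem SM.sub (h : SM N M x) (h' : SM N M' x) : SM N (fun y => M y - M' y) x :=
  fun k l => (h k l).sub (h' k l)

namespace MatGAux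

theorem det (h : SM N M x) : ContDiffAt ℝ N (fun y => (M y).det) x := by
  simp only [Matrix.det_apply]
  refine ContDiffAt.sum fun σ _ => ContDiffAt.const_smul _ ?_
  exact contDiffAt_prod fun i _ => h (σ i) i

theorem adj (h : SM N M x) : SM N (fun y => (M y).adjugate) x := by
  intro k l
  simp only [Matrix.adjugate_apply]
  refine det (M := fun y => (M y).updateRow l (Pi.single k 1)) fun a c => ?_
  by_cases ha : a = l
  · subst ha
    simp only [Matrix.updateRow_self]
    exact contDiffAt_const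
  · simp only [Matrix.updateRow_ne ha]
    exact h a c

end MatGAux

theorem SM.inv (h : SM N M x) (hu : IsUnit (M x)) : SM N (fun y => (M y)⁻¹) x := by
  intro k l
  have hd : (M x).det ≠ 0 := ((Matrix.isUnit_iff_isUnit_det _).1 hu).ne_zero
  have e : (fun y => (M y)⁻¹ k l) = fun y => ((M y).det)⁻¹ * (M y).adjugate k l := by
    funext y
    rw [Matrix.inv_def, Ring.inverse_eq_inv', Matrix.smul_apply, smul_eq_mul]
  rw [e]
  exact ((MatGAux.det h).inv hd).mul (MatGAux.adj h k l)

theorem SM.inn (h : SM N M x) (h' : SM N M' x) : ContDiffAt ℝ N (fun y => inn (M y) (M' y)) x :=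
  ContDiffAt.sum fun k _ => ContDiffAt.sum fun l _ => (h k l).mul (h' k l)

theorem SM.fr2 (h : SM N M x) : ContDiffAt ℝ N (fun y => fr2 (M y)) x :=
  ContDiffAt.sum fun k _ => ContDiffAt.sum fun l _ => (h k l).pow 2

theorem SM.congr (h : SM N M x) (he : M' =ᶠ[𝓝 x] M) : SM N M' x :=
  fun k l => (h k l).congr_of_eventuallyEq (he.mono fun y hy => by simp only [hy])

theorem SM.ev_unit (h : SM N M x) (hu : IsUnit (M x)) : ∀ᶠ y in 𝓝 x, IsUnit (M y) := by
  have hd : (M x).det ≠ 0 := ((Matrix.isUnit_iff_isUnit_det _).1 hu).ne_zero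
  filter_upwards [(MatGAux.det h).continuousAt.eventually_ne hd] with y hy
  exact (Matrix.isUnit_iff_isUnit_det _).2 (isUnit_iff_ne_zero.2 hy)

theorem DE_congr (he : M' =ᶠ[𝓝 x] M) (v : E) : DE M' x v = DE M x v := by
  ext k l
  have h : (fun y => M' y k l) =ᶠ[𝓝 x] fun y => M y k l := he.mono fun y hy => by simp only [hy]
  change fderiv ℝ (fun y => M' y k l) x v = fderiv ℝ (fun y => M y k l) x v
  rw [h.fderiv_eq]

theorem DE_const (A : MR n) (v : E) : DE (fun _ : E => A) x v = 0 := by
  ext k l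
  change fderiv ℝ (fun _ : E => A k l) x v = 0
  simp

theorem DE_mul (h : SM 1 M x) (h' : SM 1 M' x) (v : E) :
    DE (fun y => M y * M' y) x v = DE M x v * M' x + M x * DE M' x v := by
  ext k l
  have hd : ∀ r, DifferentiableAt ℝ (fun y => M y k r) x := fun r =>
    (h k r).differentiableAt (by norm_num)
  have hd' : ∀ r, DifferentiableAt ℝ (fun y => M' y r l) x := fun r =>
    (h' r l).differentiableAt (by norm_num)
  have e : HasFDerivAt (fun y => (M y * M' y) k l)
      (∑ r, (M x k r • fderiv ℝ (fun y => M' y r l) x + M' x r l • fderiv ℝ (fun y => M y k r) x))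
      x := by
    simp only [Matrix.mul_apply]
    exact HasFDerivAt.fun_sum fun r _ => (hd r).hasFDerivAt.mul (hd' r).hasFDerivAt
  change fderiv ℝ (fun y => (M y * M' y) k l) x v = _
  rw [e.fderiv, Matrix.add_apply, Matrix.mul_apply, Matrix.mul_apply, ← Finset.sum_add_distrib]
  simp only [sum_apply, add_apply, smul_apply, smul_eq_mul]
  refine Finset.sum_congr rfl fun r _ => ?_
  change _ = fderiv ℝ (fun y => M y k r) x v * M' x r l + M x k r * fderiv ℝ (fun y => M' y r l) x v
  ring

theorem DE_inv (h : SM 1 M x) (hu : IsUnit (M x)) (v : E) :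
    DE (fun y => (M y)⁻¹) x v = -((M x)⁻¹ * DE M x v * (M x)⁻¹) := by
  have h1 := DE_mul (h.inv hu) h v
  have h2 : (fun y => (M y)⁻¹ * M y) =ᶠ[𝓝 x] fun _ => 1 := by
    filter_upwards [h.ev_unit hu] with y hy
    exact Matrix.nonsing_inv_mul _ ((Matrix.isUnit_iff_isUnit_det _).1 hy)
  rw [DE_congr h2, DE_const] at h1
  have h3 : M x * (M x)⁻¹ = 1 := Matrix.mul_nonsing_inv _ ((Matrix.isUnit_iff_isUnit_det _).1 hu)
  have h4 := congrArg (fun T => T * (M x)⁻¹) h1
  simp only [zero_mul, add_mul, mul_assoc, h3, mul_one] at h4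
  rw [mul_assoc]
  exact (neg_eq_of_add_eq_zero_left h4.symm).symm

theorem fderiv_inn (h : SM 1 M x) (h' : SM 1 M' x) (v : E) :
    fderiv ℝ (fun y => inn (M y) (M' y)) x v = inn (DE M x v) (M' x) + inn (M x) (DE M' x v) := by
  have hd : ∀ k l, DifferentiableAt ℝ (fun y => M y k l) x := fun k l =>
    (h k l).differentiableAt (by norm_num)
  have hd' : ∀ k l, DifferentiableAt ℝ (fun y => M' y k l) x := fun k l =>
    (h' k l).differentiableAt (by norm_num)
  have e : HasFDerivAt (fun y => inn (M y) (M' y))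
      (∑ k, ∑ l, (M x k l • fderiv ℝ (fun y => M' y k l) x +
        M' x k l • fderiv ℝ (fun y => M y k l) x)) x :=
    HasFDerivAt.fun_sum fun k _ => HasFDerivAt.fun_sum fun l _ =>
      (hd k l).hasFDerivAt.mul (hd' k l).hasFDerivAt
  rw [e.fderiv, inn, inn, ← Finset.sum_add_distrib]
  simp only [sum_apply, add_apply, smul_apply, smul_eq_mul]
  refine Finset.sum_congr rfl fun k _ => ?_
  rw [← Finset.sum_add_distrib]
  refine Finset.sum_congr rfl fun l _ => ?_
  change _ = fderiv ℝ (fun y => M y k l) x v * M' x k l + M x k l * fderiv ℝ (fun y => M' y k l) x v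
  ring

theorem fderiv_fr2 (h : SM 1 M x) (v : E) :
    fderiv ℝ (fun y => fr2 (M y)) x v = 2 * inn (M x) (DE M x v) := by
  have e : (fun y => Pool.Agent.Lib.P28u.fr2 (M y)) =
      fun y => Pool.Agent.Lib.P28u.inn (M y) (M y) := by
    funext y
    simp only [Pool.Agent.Lib.P28u.fr2, Pool.Agent.Lib.P28u.inn, pow_two]
  have e2 : inn (DE M x v) (M x) = inn (M x) (DE M x v) := by
    simp only [Pool.Agent.Lib.P28u.inn]
    exact Finset.sum_congr rfl fun k _ => Finset.sum_congr rfl fun l _ => mul_comm _ _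
  rw [e, fderiv_inn h h v, e2]
  ring

end Pool.Agent.Lib.P28u
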