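import Pool.Agent.Lib.P28u.EbF
import Pool.Agent.Lib.P28u.MatG
import Pool.Agent.Lib.P28t.Form

set_option autoImplicit false
set_option maxSynthPendingDepth 3

/-!
# The matrix of the form in a unitary frame

PROOF. `Wm α g k l = dw α (g 0) (mx g (Eb k)) (mx g (Eb l))`; `g ↦ g 0` and `g ↦ mx g p` are continuous linear (real), `dw α` is smooth at `g 0 ≠ 0` (`Con.contDiffAt_dw`): `ContDiffAt.clm_apply`. For `H : XX n`: `fderiv ℝ (fun g => Wm α g k l) g H = fderiv ℝ (dw α) (g 0) (H 0) (mx g (Eb k)) (mx g (Eb l)) + dw α (g 0) (mx H (Eb k)) (mx g (Eb l)) + dw α (g 0) (mx g (Eb k)) (mx H (Eb l))`.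
`DM_Wm`: `H = rm g (Xm i)`: `H 0 = mx g (Eb i)`, `mx H (Eb k) = mx g (mx (Xm i) (Eb k)) = - hip (Eb i) (Eb k) • g 0` (`mx_Xm`, `Eb k 0 = 0`, `mx_e0`), killed by `Con.dw_left`, `Con.dw_right`. `brk_Wm`: `H = rm g (brk i j)`; with `c = hip (Eb j) (Eb i) - hip (Eb i) (Eb j)`: `H 0 = c • g 0` and
`mx H (Eb k) = mx g (hip (Eb i) (Eb k) • Eb j - hip (Eb j) (Eb k) • Eb i)` (`mx_brk`). HOMOGENEITY: from `dw α (λ z) (λ v) (λ w) = dw α z v w` (`Con.dw_hom`; differentiate at `λ = 1` in the direction `c`): `fderiv ℝ (dw α) z (c • z) v w = - dw α z (c • v) w - dw α z v (c • w)` for `z ≠ 0`, `c : ℂ` (`hom_dw`). So the derivative is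
`dw α (g 0) (mx g (Rf (Eb i) (Eb j) (Eb k))) (mx g (Eb l)) + dw α (g 0) (mx g (Eb k)) (mx g (Rf (Eb i) (Eb j) (Eb l)))`; expand by `Rf_coord`: `∑ r, Rm i j r k * Wm r l + ∑ r, Rm i j r l * Wm k r`.
`rad_dw`: differentiate `dw α x (c • x) w = 0` (all `x ≠ 0`) at `z` in the direction `v`.
-/

open MeasureTheory Set Metric
open scoped ContDiff Topology ENNReal

namespace Pool.Agent.Lib.P28u

open Pool.Agent.P28b04d Pool.Agent.Lib.P28e Pool.Agent.Lib.P28c Pool.Agent.Lib.P28t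
open Pool.Agent.Lib.P28f (V EV)

variable {n : ℕ}

namespace WmFAux

/-- `X ↦ X p`, real linear. -/
noncomputable def mp (p : W n) : XX n →L[ℝ] W n :=
  ∑ j, ((p j • (ContinuousLinearMap.proj (R := ℂ) (φ := fun _ : Fin (n + 1) => W n) j) :
    XX n →L[ℂ] W n)).restrictScalars ℝ

theorem mp_apply (p : W n) (X : XX n) : mp p X = mx X p := by
  simp [mp, mx]

/-- `X ↦ X 0`, real linear. -/
noncomputable def p0 (n : ℕ) : XX n →L[ℝ] W n :=
  ContinuousLinearMap.proj (R := ℝ) (φ := fun _ : Fin (n + 1) => W n) 0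

theorem p0_apply (X : XX n) : p0 n X = X 0 := rfl

theorem dA {α : FW n} (hα : Con α) {z : W n} (hz : z ≠ 0) : DifferentiableAt ℝ (dw α) z :=
  (hα.contDiffAt_dw hz).differentiableAt (by simp)

theorem hasF {α : FW n} (hα : Con α) {g : XX n} (hg : g 0 ≠ 0) (p q : W n) :
    HasFDerivAt (fun g : XX n => dw α (g 0) (mx g p) (mx g q))
      (((dw α (g 0) (mx g p)).comp (mp q)) +
        ((dw α (g 0)).comp (mp p) + ((fderiv ℝ (dw α) (g 0)).comp (p0 n)).flip (mx g p)).flip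
          (mx g q)) g := by
  have h1 : HasFDerivAt (fun g : XX n => p0 n g) (p0 n) g := (p0 n).hasFDerivAt
  have hd : HasFDerivAt (dw α) (fderiv ℝ (dw α) (g 0)) (p0 n g) := (dA hα hg).hasFDerivAt
  have h2 : HasFDerivAt (fun g : XX n => dw α (p0 n g)) ((fderiv ℝ (dw α) (g 0)).comp (p0 n)) g :=
    hd.comp g h1
  have h3 : HasFDerivAt (fun g : XX n => mp p g) (mp p) g := (mp p).hasFDerivAt
  have h4 : HasFDerivAt (fun g : XX n => mp q g) (mp q) g := (mp q).hasFDerivAt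
  have h5 := (h2.clm_apply h3).clm_apply h4
  simp only [mp_apply, p0_apply] at h5
  exact h5

theorem DE_Wm {α : FW n} (hα : Con α) {g : XX n} (hg : g 0 ≠ 0) (H : XX n)
    (k l : Fin (n * 2)) :
    DE (Wm α) g H k l = fderiv ℝ (dw α) (g 0) (H 0) (mx g (Eb k)) (mx g (Eb l)) +
      dw α (g 0) (mx H (Eb k)) (mx g (Eb l)) + dw α (g 0) (mx g (Eb k)) (mx H (Eb l)) := by
  have h := (hasF hα hg (Eb k) (Eb l)).fderiv
  unfold DE
  have h2 : (fun x : XX n => Wm α x k l) = fun g : XX n => dw α (g 0) (mx g (Eb k)) (mx g (Eb l)) :=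
    rfl
  rw [h2, h]
  simp only [ContinuousLinearMap.add_apply, ContinuousLinearMap.comp_apply,
    ContinuousLinearMap.flip_apply, mp_apply, p0_apply]
  ring

theorem Eb0 (k : Fin (n * 2)) : (Eb k : W n) 0 = 0 := by
  exact (hip_e0 (Eb k)).symm.trans (hip_e0_Eb k)

theorem hip_Eb_e0 (k : Fin (n * 2)) : hip (Eb k : W n) (e0 n) = 0 := by
  have h := Eb0 k
  simp [hip, e0, Fin.sum_univ_succ, h]

theorem e00 : (e0 n : W n) 0 = 1 := by
  simp [e0]

theorem mx_sum {ι : Type*} (s : Finset ι) (g : XX n) (f : ι → W n) :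
    mx g (∑ i ∈ s, f i) = ∑ i ∈ s, mx g (f i) := by
  rw [← mxL_apply, map_sum]
  refine Finset.sum_congr rfl (fun i _ => ?_)
  rw [mxL_apply]

theorem mx_brk' (i j k : Fin (n * 2)) : mx (brk i j) (Eb k : W n) =
    Rf (Eb i) (Eb j) (Eb k) + (hip (Eb j) (Eb i) - hip (Eb i) (Eb j)) • Eb k := by
  rw [mx_brk, Eb0, zero_mul, zero_smul, add_zero, Rf]
  module

theorem brk0 (i j : Fin (n * 2)) : (brk i j : XX n) 0 =
    (hip (Eb j) (Eb i) - hip (Eb i) (Eb j) : ℂ) • e0 n := by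
  rw [← mx_e0 (brk i j), mx_brk, hip_Eb_e0, hip_Eb_e0, e00]
  simp

end WmFAux

open WmFAux

theorem sm_Wm {α : FW n} (hα : Con α) {g : XX n} (hg : g 0 ≠ 0) : SM ∞ (Wm α) g := by
  intro k l
  have hd : ContDiffAt ℝ ∞ (dw α) (p0 n g) := hα.contDiffAt_dw hg
  have h1 : ContDiffAt ℝ ∞ (fun g : XX n => dw α (p0 n g)) g :=
    hd.comp g (p0 n).contDiff.contDiffAt
  have h2 := (h1.clm_apply (mp (Eb k)).contDiff.contDiffAt).clm_apply
    (mp (Eb l)).contDiff.contDiffAt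
  simp only [mp_apply] at h2
  exact h2

theorem DM_Wm {α : FW n} (hα : Con α) {g : XX n} (hg : g 0 ≠ 0) (i k l : Fin (n * 2)) :
    DM i (Wm α) g k l = fderiv ℝ (dw α) (g 0) (mx g (Eb i)) (mx g (Eb k)) (mx g (Eb l)) := by
  have hk : ∀ k : Fin (n * 2), mx (rm g (Xm i)) (Eb k) = (-hip (Eb i) (Eb k)) • g 0 := by
    intro k
    rw [mx_rm, mx_Xm, Eb0, zero_smul, zero_sub, ← neg_smul, mx_smul, mx_e0]
  have h0 : rm g (Xm i) 0 = mx g (Eb i) := by
    show mx g (Xm i 0) = mx g (Eb i)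
    rw [Xm_zero]
  rw [DM, DE_Wm hα hg, hk, hk, h0, hα.dw_left hg, hα.dw_right hg, add_zero, add_zero]

theorem hom_dw {α : FW n} (hα : Con α) {z : W n} (hz : z ≠ 0) (c : ℂ) (v w : W n) :
    fderiv ℝ (dw α) z (c • z) v w = -dw α z (c • v) w - dw α z v (c • w) := by
  have h1 : HasFDerivAt (fun c : ℂ => FormAux.mz z c) (FormAux.mz z) 1 :=
    (FormAux.mz z).hasFDerivAt
  have h2 : HasFDerivAt (fun c : ℂ => FormAux.mz v c) (FormAux.mz v) 1 :=
    (FormAux.mz v).hasFDerivAt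
  have h2' : HasFDerivAt (fun c : ℂ => FormAux.mz w c) (FormAux.mz w) 1 :=
    (FormAux.mz w).hasFDerivAt
  have hd : HasFDerivAt (dw α) (fderiv ℝ (dw α) z) (FormAux.mz z 1) := by
    rw [FormAux.mz_apply, one_smul]
    exact (dA hα hz).hasFDerivAt
  have h3 : HasFDerivAt (fun c : ℂ => dw α (FormAux.mz z c))
      ((fderiv ℝ (dw α) z).comp (FormAux.mz z)) 1 := hd.comp 1 h1
  have h4 := (h3.clm_apply h2).clm_apply h2'
  have h5 : (fun c : ℂ => dw α (FormAux.mz z c) (FormAux.mz v c) (FormAux.mz w c))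
      =ᶠ[𝓝 1] fun _ => dw α z v w := by
    have : ∀ᶠ c : ℂ in 𝓝 1, c ≠ 0 := isOpen_ne.mem_nhds one_ne_zero
    filter_upwards [this] with c hc
    rw [FormAux.mz_apply, FormAux.mz_apply, FormAux.mz_apply, hα.dw_hom hc hz]
  have h6 := (h5.hasFDerivAt_iff (f' := _)).1 h4
  have h7 := h6.unique (hasFDerivAt_const (dw α z v w) (1 : ℂ))
  have h8 := congrArg (fun L : ℂ →L[ℝ] ℝ => L c) h7
  simp only [ContinuousLinearMap.add_apply, ContinuousLinearMap.comp_apply,
    ContinuousLinearMap.flip_apply, FormAux.mz_apply, one_smul,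
    ContinuousLinearMap.zero_apply] at h8
  linarith

theorem rad_dw {α : FW n} (hα : Con α) {z : W n} (hz : z ≠ 0) (c : ℂ) (v w : W n) :
    fderiv ℝ (dw α) z v (c • z) w = -dw α z (c • v) w := by
  have h1 : HasFDerivAt (fun x : W n => FormAux.mc c x) (FormAux.mc c) z :=
    (FormAux.mc c).hasFDerivAt
  have hd : HasFDerivAt (dw α) (fderiv ℝ (dw α) z) z := (dA hα hz).hasFDerivAt
  have h4 := (hd.clm_apply h1).clm_apply (hasFDerivAt_const w z)
  have h5 : (fun x : W n => dw α x (FormAux.mc c x) w) =ᶠ[𝓝 z] fun _ => (0 : ℝ) := by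
    filter_upwards [FormAux.ne_near hz] with x hx
    rw [FormAux.mc_apply, hα.dw_left hx]
  have h6 := (h5.hasFDerivAt_iff (f' := _)).1 h4
  have h7 := h6.unique (hasFDerivAt_const (0 : ℝ) z)
  have h8 := congrArg (fun L : W n →L[ℝ] ℝ => L v) h7
  simp only [ContinuousLinearMap.add_apply, ContinuousLinearMap.comp_apply,
    ContinuousLinearMap.flip_apply, FormAux.mc_apply, ContinuousLinearMap.zero_apply,
    map_zero, zero_add] at h8
  linarith

theorem skew_dw3 {α : FW n} (hα : Con α) {z : W n} (hz : z ≠ 0) (u v w : W n) :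
    fderiv ℝ (dw α) z u v w = -fderiv ℝ (dw α) z u w v := by
  have hd : HasFDerivAt (dw α) (fderiv ℝ (dw α) z) z := (dA hα hz).hasFDerivAt
  have h1 := (hd.clm_apply (hasFDerivAt_const v z)).clm_apply (hasFDerivAt_const w z)
  have h2 := ((hd.clm_apply (hasFDerivAt_const w z)).clm_apply (hasFDerivAt_const v z)).neg
  have h5 : (fun x : W n => dw α x v w) = fun x => -dw α x w v := by
    funext x
    exact dw_skew α x v w
  rw [h5] at h1
  have h8 := congrArg (fun L : W n →L[ℝ] ℝ => L u) (h1.unique h2)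
  simp only [ContinuousLinearMap.add_apply, ContinuousLinearMap.comp_apply,
    ContinuousLinearMap.flip_apply, ContinuousLinearMap.zero_apply, ContinuousLinearMap.neg_apply,
    map_zero, zero_add] at h8
  exact h8

theorem brk_Wm {α : FW n} (hα : Con α) {g : XX n} (hg : g 0 ≠ 0) (i j : Fin (n * 2)) :
    DE (Wm α) g (rm g (brk i j)) = (Rm i j).transpose * Wm α g + Wm α g * Rm i j := by
  ext k l
  have h0 : rm g (brk i j) 0 = (hip (Eb j) (Eb i) - hip (Eb i) (Eb j) : ℂ) • g 0 := by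
    show mx g (brk i j 0) = _
    rw [brk0, mx_smul, mx_e0]
  have hk : ∀ k : Fin (n * 2), mx (rm g (brk i j)) (Eb k) =
      mx g (Rf (Eb i) (Eb j) (Eb k)) + (hip (Eb j) (Eb i) - hip (Eb i) (Eb j) : ℂ) •
        mx g (Eb k) := by
    intro k
    rw [mx_rm, mx_brk', mx_add, mx_smul]
  have hR : ∀ k : Fin (n * 2), mx g (Rf (Eb i) (Eb j) (Eb k)) =
      ∑ r, Rm i j r k • mx g (Eb r) := by
    intro k
    rw [Rf_coord, mx_sum]
    refine Finset.sum_congr rfl (fun r _ => ?_)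
    rw [mx_rsmul]
  rw [DE_Wm hα hg, hk, hk, h0, hom_dw hα hg, map_add, map_add, ContinuousLinearMap.add_apply,
    hR, hR, map_sum, map_sum, ContinuousLinearMap.sum_apply, Matrix.add_apply, Matrix.mul_apply,
    Matrix.mul_apply]
  have e1 : ∑ r, (dw α (g 0)) (Rm i j r k • mx g (Eb r)) (mx g (Eb l)) =
      ∑ r, (Rm i j).transpose k r * Wm α g r l := by
    refine Finset.sum_congr rfl (fun r _ => ?_)
    rw [map_smul, ContinuousLinearMap.smul_apply, smul_eq_mul]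
    rfl
  have e2 : ∑ r, (dw α (g 0)) (mx g (Eb k)) (Rm i j r l • mx g (Eb r)) =
      ∑ r, Wm α g k r * Rm i j r l := by
    refine Finset.sum_congr rfl (fun r _ => ?_)
    rw [map_smul, smul_eq_mul, mul_comm]
    rfl
  rw [e1, e2]
  ring

end Pool.Agent.Lib.P28u
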