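import Pool.Agent.Lib.P28u.UnA

set_option autoImplicit false
set_option maxSynthPendingDepth 3

/-!
# The real basis of `ℂ^n` and the matrices `X_i`

PROOF. `Lv n y = Fin.cons 0 (kap n y)` (`Lv_apply`, `kap_apply`): the coordinate `k + 1` is `y (k, 0) + i y (k, 1)` (`finProdFinEquiv`). `Lv_sum`: linearity and `y = ∑ y i • Pi.single i 1`. `re_hip_Lv`: `re (star (a + i b) (c + i d)) = a c + b d`, sum over `k` and reindex by `finProdFinEquiv`.
`mx_Xm`: `mx (Xm i) z = z 0 • Eb i + ∑ k, z k.succ • (-star (Eb i k.succ)) • e0 n` (`Fin.sum_univ_succ`) and `hip (Eb i) z = ∑ k, star (Eb i k.succ) * z k.succ` because `Eb i 0 = 0`. `mx_brk`: `mx (brk i j) z = mx (Xm i) (mx (Xm j) z) - mx (Xm j) (mx (Xm i) z)` and `mx_Xm` twice.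
`exists_Lv`: `hip (e0 n) q = q 0`; `y = (kap n).symm (Fin.tail q)`. `coord`: expand `q = Lv n y` by `Lv_sum` and `re_hip_Lv`. `Rf_coord`: apply `coord` to `Rf (Eb i) (Eb j) (Eb l)`.
-/

open MeasureTheory Set Metric
open scoped ContDiff Topology ENNReal

namespace Pool.Agent.Lib.P28u

open Pool.Agent.P28b04d Pool.Agent.Lib.P28e Pool.Agent.Lib.P28c Pool.Agent.Lib.P28t
open Pool.Agent.Lib.P28f (V EV)

variable {n : ℕ}

namespace EbFAux

theorem Lv_zero (y : V (n * 2)) : Lv n y 0 = 0 := by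
  rw [Lv_apply]
  rfl

theorem Lv_succ (y : V (n * 2)) (k : Fin n) : Lv n y k.succ = kap n y k := by
  rw [Lv_apply]
  rfl

theorem Eb_zero (i : Fin (n * 2)) : (Eb i : W n) 0 = 0 := Lv_zero _

theorem e0_zero : e0 n 0 = 1 := rfl

theorem e0_succ (k : Fin n) : e0 n k.succ = 0 := rfl

theorem hip_succ (z w : W n) : hip z w = star (z 0) * w 0 + ∑ k : Fin n, star (z k.succ) * w k.succ := by
  unfold hip
  rw [Fin.sum_univ_succ]

theorem hip_sub' (z v w : W n) : hip z (v - w) = hip z v - hip z w := by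
  unfold hip
  rw [← Finset.sum_sub_distrib]
  exact Finset.sum_congr rfl fun k _ => by rw [Pi.sub_apply, mul_sub]

theorem hip_smul' (z v : W n) (c : ℂ) : hip z (c • v) = c * hip z v := by
  unfold hip
  rw [Finset.mul_sum]
  exact Finset.sum_congr rfl fun k _ => by rw [Pi.smul_apply, smul_eq_mul]; ring

theorem hip_Eb_e0 (i : Fin (n * 2)) : hip (Eb i) (e0 n) = 0 := by
  rw [hip_succ, Eb_zero]
  simp [e0_succ]

theorem mx_sub' (A B : XX n) (z : W n) : mx (A - B) z = mx A z - mx B z := by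
  unfold mx
  rw [← Finset.sum_sub_distrib]
  exact Finset.sum_congr rfl fun k _ => by rw [Pi.sub_apply, smul_sub]

end EbFAux

open EbFAux

theorem Lv_sum (y : V (n * 2)) : Lv n y = ∑ i, y i • Eb i := by
  have h : y = ∑ i, y i • (Pi.single i (1 : ℝ) : V (n * 2)) := by
    conv_lhs => rw [← Finset.univ_sum_single y]
    refine Finset.sum_congr rfl fun i _ => ?_
    rw [← Pi.single_smul, smul_eq_mul, mul_one]
  conv_lhs => rw [h]
  rw [map_sum]
  refine Finset.sum_congr rfl fun i _ => ?_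
  rw [map_smul]
  rfl

theorem re_hip_Lv (x y : V (n * 2)) : (hip (Lv n x) (Lv n y)).re = ∑ i, x i * y i := by
  rw [hip_succ, Lv_zero, Lv_zero, mul_zero, zero_add, Complex.re_sum,
    ← Equiv.sum_comp finProdFinEquiv, Fintype.sum_prod_type]
  refine Finset.sum_congr rfl fun k _ => ?_
  rw [Lv_succ, Lv_succ, kap_apply, kap_apply, Fin.sum_univ_two]
  show ((starRingEnd ℂ) _ * _ : ℂ).re = _
  rw [Complex.mul_re, Complex.conj_re, Complex.conj_im]
  ring

theorem hip_e0 (z : W n) : hip (e0 n) z = z 0 := by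
  rw [hip_succ, e0_zero]
  simp [e0_succ]

theorem hip_e0_Lv (y : V (n * 2)) : hip (e0 n) (Lv n y) = 0 := by
  rw [hip_e0, Lv_zero]

theorem hip_e0_Eb (i : Fin (n * 2)) : hip (e0 n) (Eb i) = 0 := hip_e0_Lv _

theorem hip_Eb_self (i : Fin (n * 2)) : hip (Eb i) (Eb i) = 1 := by
  have h := re_hip_Lv (n := n) (Pi.single i 1) (Pi.single i 1)
  have h2 : ∑ j, (Pi.single i (1 : ℝ) : V (n * 2)) j * (Pi.single i (1 : ℝ) : V (n * 2)) j = 1 := by
    rw [Finset.sum_eq_single i]
    · simp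
    · intro j _ hj
      simp [Pi.single_eq_of_ne hj]
    · intro h
      exact absurd (Finset.mem_univ i) h
  rw [h2] at h
  have h3 : (hip (Eb i) (Eb i)).re = 1 := h
  rw [hip_self] at h3 ⊢
  rw [Complex.ofReal_re] at h3
  rw [h3, Complex.ofReal_one]

theorem norm_Eb_le (i : Fin (n * 2)) : ‖Eb i‖ ≤ 1 := by
  have h := hip_Eb_self (n := n) i
  rw [hip_self] at h
  have h1 : nsq (Eb i) = 1 := by exact_mod_cast h
  have h2 := le_nsq (Eb i)
  rw [h1] at h2
  nlinarith [norm_nonneg (Eb i)]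

theorem Xm_zero (i : Fin (n * 2)) : Xm i 0 = Eb i := rfl

theorem mx_Xm (i : Fin (n * 2)) (z : W n) : mx (Xm i) z = z 0 • Eb i - hip (Eb i) z • e0 n := by
  have h1 : mx (Xm i) z = z 0 • Eb i +
      ∑ k : Fin n, z k.succ • ((-star ((Eb i : W n) k.succ)) • e0 n) := by
    unfold mx
    rw [Fin.sum_univ_succ]
    rfl
  rw [h1, hip_succ, Eb_zero, star_zero, zero_mul, zero_add, sub_eq_add_neg, ← neg_smul,
    ← Finset.sum_neg_distrib, Finset.sum_smul]
  congr 1
  refine Finset.sum_congr rfl fun k _ => ?_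
  rw [smul_smul]
  congr 1
  ring

theorem mx_brk (i j : Fin (n * 2)) (z : W n) : mx (brk i j) z = hip (Eb i) z • Eb j - hip (Eb j) z • Eb i +
    (z 0 * (hip (Eb j) (Eb i) - hip (Eb i) (Eb j))) • e0 n := by
  have key : ∀ a b : Fin (n * 2), mx (Xm a) (mx (Xm b) z) =
      -(hip (Eb b) z • Eb a) - (z 0 * hip (Eb a) (Eb b)) • e0 n := by
    intro a b
    rw [mx_Xm a, mx_Xm b]
    have e1 : (z 0 • (Eb b : W n) - hip (Eb b) z • e0 n) 0 = - hip (Eb b) z := by
      rw [Pi.sub_apply, Pi.smul_apply, Pi.smul_apply, Eb_zero, e0_zero, smul_zero, smul_eq_mul,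
        mul_one, zero_sub]
    rw [e1, hip_sub', hip_smul', hip_smul', hip_Eb_e0, mul_zero, sub_zero, neg_smul]
  unfold brk
  rw [mx_sub', mx_rm, mx_rm, key i j, key j i, mul_sub, sub_smul]
  abel

theorem exists_Lv {q : W n} (h : q 0 = 0) : ∃ y, q = Lv n y := by
  refine ⟨(kap n).symm (Fin.tail q), ?_⟩
  rw [Lv_apply, ContinuousLinearEquiv.apply_symm_apply]
  refine (Fin.cons_self_tail q).symm.trans ?_
  rw [h]

/-- the coordinates of a vector of `ℂ^n` in the basis `Eb` -/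
theorem coord {q : W n} (h : q 0 = 0) : q = ∑ k, (hip (Eb k) q).re • Eb k := by
  obtain ⟨y, rfl⟩ := exists_Lv h
  conv_lhs => rw [Lv_sum]
  refine Finset.sum_congr rfl fun k _ => ?_
  congr 1
  have h1 := re_hip_Lv (n := n) (Pi.single k 1) y
  rw [Finset.sum_eq_single k] at h1
  · rw [Pi.single_eq_same, one_mul] at h1
    exact h1.symm
  · intro j _ hj
    rw [Pi.single_eq_of_ne hj, zero_mul]
  · intro h
    exact absurd (Finset.mem_univ k) h

theorem Rf_coord (i j l : Fin (n * 2)) : Rf (Eb i) (Eb j) (Eb l) = ∑ k, Rm i j k l • Eb k := by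
  have h : (Rf (Eb i) (Eb j) (Eb l) : W n) 0 = 0 := by
    unfold Rf
    simp only [Pi.add_apply, Pi.sub_apply, Pi.smul_apply, Eb_zero, smul_zero, sub_zero, add_zero]
  exact coord h

end Pool.Agent.Lib.P28u
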