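import Pool.Agent.Lib.P28u.UnA

set_option autoImplicit false
set_option maxSynthPendingDepth 3

/-!
# An invariant measure on the unitary matrices

PROOF. The group `G = Matrix.unitaryGroup (Fin (n + 1)) ℂ` with the subspace topology is a compact topological group (multiplication is continuous, the inverse is `star`; closed and bounded in the matrices: the entries of a unitary matrix have norm at most one). Take a left invariant Haar probability measure `μ`
(`MeasureTheory.Measure.haarMeasure ⊤`), `μ' = μ.inv` is right invariant (`Measure.inv`), and `ν` the push-forward of `μ'` by the embedding `M ↦ (fun j k => M k j)` (columns). The image of the embedding is `Un n` (`star M * M = 1` says that the columns are orthonormal) and the product `M N` corresponds to `rm g k`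
(`(M N) k j = ∑ l, M k l * N l j`, i.e. column `j` of `M N` is `mx g (k j)`). Every `k ∈ Un n` comes from a matrix of `G`, so `ν.map (rm · k) = ν`. (If an instance is missing prove it by hand; or construct the measure on any compact group isomorphic to `Un n`.)
-/

open MeasureTheory Set Metric
open scoped ContDiff Topology ENNReal

namespace Pool.Agent.Lib.P28u

open Pool.Agent.P28b04d Pool.Agent.Lib.P28e Pool.Agent.Lib.P28c Pool.Agent.Lib.P28t
open Pool.Agent.Lib.P28f (V EV)

variable {n : ℕ}

namespace HaarUAux

/-- the unitary group -/
abbrev G (n : ℕ) : Type := Matrix.unitaryGroup (Fin (n + 1)) ℂ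

/-- the columns -/
def emb (M : G n) : XX n := fun j i => (M : Matrix (Fin (n + 1)) (Fin (n + 1)) ℂ) i j

/-- the matrix of the columns -/
def mat (g : XX n) : Matrix (Fin (n + 1)) (Fin (n + 1)) ℂ := fun i j => g j i

theorem continuous_emb : Continuous (emb (n := n)) := by
  refine continuous_pi fun j => continuous_pi fun i => ?_
  exact (continuous_apply_apply i j).comp continuous_subtype_val

theorem continuous_mat : Continuous (mat (n := n)) :=
  continuous_pi fun i => continuous_pi fun j => continuous_apply_apply j i

theorem mat_mem {g : XX n} (hg : g ∈ Un n) : mat g ∈ Matrix.unitaryGroup (Fin (n + 1)) ℂ := by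
  rw [Matrix.mem_unitaryGroup_iff']
  ext j k
  have := hg j k
  simp only [hip] at this
  rw [Matrix.mul_apply, Matrix.one_apply, ← this]
  exact Finset.sum_congr rfl fun i _ => rfl

theorem emb_mem (M : G n) : emb M ∈ Un n := by
  intro j k
  have h := (Matrix.mem_unitaryGroup_iff' (A := (M : Matrix (Fin (n + 1)) (Fin (n + 1)) ℂ))).1 M.2
  have h2 := congrFun (congrFun h j) k
  rw [Matrix.mul_apply, Matrix.one_apply] at h2
  rw [← h2]
  rfl

theorem emb_mul (M K : G n) : rm (emb M) (emb K) = emb (M * K) := by
  funext j i
  simp only [rm, mx, emb, Finset.sum_apply, Pi.smul_apply, smul_eq_mul,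
    Submonoid.coe_mul, Matrix.mul_apply]
  exact Finset.sum_congr rfl fun l _ => mul_comm _ _

instance compG : CompactSpace (G n) := by
  have h : IsCompact ((Matrix.unitaryGroup (Fin (n + 1)) ℂ : Submonoid _) :
      Set (Matrix (Fin (n + 1)) (Fin (n + 1)) ℂ)) := by
    have h1 := (isCompact_Un (n := n)).image (continuous_mat (n := n))
    have h2 : mat '' (Un n) = ((Matrix.unitaryGroup (Fin (n + 1)) ℂ : Submonoid _) :
      Set (Matrix (Fin (n + 1)) (Fin (n + 1)) ℂ)) := by
      ext M
      constructor
      · rintro ⟨g, hg, rfl⟩
        exact mat_mem hg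
      · intro hM
        exact ⟨emb ⟨M, hM⟩, emb_mem _, rfl⟩
    rwa [h2] at h1
  exact isCompact_iff_compactSpace.1 h

end HaarUAux

open HaarUAux

theorem exists_haar (n : ℕ) : ∃ ν : Measure (XX n), Haar ν := by
  letI : MeasurableSpace (G n) := borel (G n)
  haveI : BorelSpace (G n) := ⟨rfl⟩
  let μ : Measure (G n) := Measure.haarMeasure (⊤ : TopologicalSpace.PositiveCompacts (G n))
  haveI : IsProbabilityMeasure μ := by
    refine ⟨?_⟩
    have := Measure.haarMeasure_self (K₀ := (⊤ : TopologicalSpace.PositiveCompacts (G n)))
    simpa using this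
  haveI : IsProbabilityMeasure μ.inv := by
    refine ⟨?_⟩
    rw [Measure.inv_apply]
    simp
  have he : Measurable (emb (n := n)) := continuous_emb.measurable
  refine ⟨μ.inv.map emb, ⟨Measure.isProbabilityMeasure_map he.aemeasurable, ?_, ?_⟩⟩
  · rw [Measure.map_apply he (isCompact_Un (n := n)).isClosed.measurableSet.compl]
    have : emb (n := n) ⁻¹' (Un n)ᶜ = ∅ := by
      ext M
      simp [emb_mem M]
    rw [this]
    exact measure_empty
  · intro k hk
    obtain ⟨K, rfl⟩ : ∃ K : G n, emb K = k := ⟨⟨mat k, mat_mem hk⟩, rfl⟩
    have hr : Measurable fun g : XX n => rm g (emb K) :=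
      ((continuous_rm (n := n)).comp (Continuous.prodMk continuous_id continuous_const)).measurable
    rw [Measure.map_map hr he]
    have h1 : (fun g : XX n => rm g (emb K)) ∘ emb = emb ∘ fun M : G n => M * K := by
      funext M
      exact emb_mul M K
    have hm : Measurable fun M : G n => M * K := (continuous_mul_right K).measurable
    rw [h1, ← Measure.map_map he hm]
    congr 1
    exact map_mul_right_eq_self μ.inv K

end Pool.Agent.Lib.P28u
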