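import Pool.Agent.Lib.P28u.EbF

set_option autoImplicit false
set_option maxSynthPendingDepth 3

/-!
# Integration by parts on the unitary group

PROOF. `integrable_un`: `ν = ν.restrict (Un n)` (`Haar.supp`, `Un n` compact, hence measurable), `ContinuousOn.aestronglyMeasurable`, bounded on the compact set `Un n`, finite measure.
`int_Dv`: write `X = Xm i` and `k t = idm n + Real.sin t • X + (1 - Real.cos t) • rm X X`. By `mx_Xm` (with `h = hip (Eb i) z`, `Eb i 0 = 0`, `hip (Eb i) (Eb i) = 1`): `mx (rm X X) z = - h • Eb i - z 0 • e0`, so `mx (k t) z = z + (sin t z_0 - (1 - cos t) h) • Eb i - (sin t h + (1 - cos t) z_0) • e0`, i.e. with `z = z_0 e0 + h Eb i + z'`, `z'` orthogonal to `e0` and `Eb i`,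
`mx (k t) z = (cos t z_0 - sin t h) e0 + (cos t h + sin t z_0) Eb i + z'`: a rotation, `k t ∈ Un n`. `rm X (rm X X) = - X`, so `deriv k t = cos t X + sin t X X = rm (k t) X`. For `g ∈ Un n` the function `t ↦ F (rm g (k t))` has the derivative `fderiv ℝ F (rm g (k t)) (rm g (rm (k t) X)) = Dv i F (rm g (k t))` (`rm_assoc`; `rm g (k t) ∈ Un n`).
`Dv i F` is continuous on `Un n` (as a function on the subset: `fderiv ℝ F` is continuous at the points of `Un n`, `ContDiffAt.fderiv_right` or `ContDiffAt.continuousAt_fderiv`). So `F (rm g (k 1)) - F g = ∫ t in 0..1, Dv i F (rm g (k t))` for `g ∈ Un n`. Integrate over `ν`: the left side gives `0` by `Haar.inv` (`integral_map`); Fubini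
(the function `(g, t) ↦ Dv i F (rm g (k t))` is continuous on `Un n ×ˢ univ`, bounded on the compact `Un n ×ˢ Icc 0 1`) and `Haar.inv` again give `∫ t in 0..1, ∫ g, Dv i F g ∂ν = ∫ g, Dv i F g ∂ν` on the right.
-/

open MeasureTheory Set Metric
open scoped ContDiff Topology ENNReal

namespace Pool.Agent.Lib.P28u

open Pool.Agent.P28b04d Pool.Agent.Lib.P28e Pool.Agent.Lib.P28c Pool.Agent.Lib.P28t
open Pool.Agent.Lib.P28f (V EV)

variable {n : ℕ}

namespace IntDAux

theorem restrict_un {ν : Measure (XX n)} (hν : Haar ν) : ν.restrict (Un n) = ν := by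
  apply Measure.restrict_eq_self_of_ae_mem
  have h := hν.supp
  rw [ae_iff]
  exact h

theorem mx_add_left (X Y : XX n) (z : W n) : mx (X + Y) z = mx X z + mx Y z := by
  simp [mx, smul_add, Finset.sum_add_distrib]

theorem mx_smul_left (r : ℝ) (X : XX n) (z : W n) : mx (r • X) z = r • mx X z := by
  simp only [mx, Pi.smul_apply, Finset.smul_sum]
  refine Finset.sum_congr rfl fun j _ => ?_
  rw [smul_comm]

theorem rm_add (g X Y : XX n) : rm g (X + Y) = rm g X + rm g Y := by
  funext j
  show mx g ((X + Y) j) = mx g (X j) + mx g (Y j)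
  rw [Pi.add_apply, mx_add]

theorem rm_rsmul (g : XX n) (r : ℝ) (X : XX n) : rm g (r • X) = r • rm g X := by
  funext j
  show mx g ((r • X) j) = r • mx g (X j)
  rw [Pi.smul_apply, mx_rsmul]

theorem rm_add_left (g h X : XX n) : rm (g + h) X = rm g X + rm h X := by
  funext j
  exact mx_add_left g h (X j)

theorem rm_smul_left (r : ℝ) (g X : XX n) : rm (r • g) X = r • rm g X := by
  funext j
  exact mx_smul_left r g (X j)

theorem Eb_zero (i : Fin (n * 2)) : Eb i 0 = 0 := by
  rw [← hip_e0 (Eb i), hip_e0_Eb]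

theorem hip_star (z w : W n) : hip z w = star (hip w z) := by
  simp only [hip, star_sum, star_mul', star_star]
  refine Finset.sum_congr rfl fun k _ => ?_
  ring

theorem hip_add_r (z v w : W n) : hip z (v + w) = hip z v + hip z w := by
  simp only [hip, Pi.add_apply, mul_add, Finset.sum_add_distrib]

theorem hip_sub_r (z v w : W n) : hip z (v - w) = hip z v - hip z w := by
  simp only [hip, Pi.sub_apply, mul_sub, Finset.sum_sub_distrib]

theorem hip_smul_r (z v : W n) (c : ℂ) : hip z (c • v) = c * hip z v := by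
  simp only [hip, Pi.smul_apply, smul_eq_mul, Finset.mul_sum]
  refine Finset.sum_congr rfl fun k _ => ?_
  ring

theorem hip_add_l (z v w : W n) : hip (v + w) z = hip v z + hip w z := by
  simp only [hip, Pi.add_apply, star_add, add_mul, Finset.sum_add_distrib]

theorem hip_sub_l (z v w : W n) : hip (v - w) z = hip v z - hip w z := by
  simp only [hip, Pi.sub_apply, star_sub, sub_mul, Finset.sum_sub_distrib]

theorem hip_smul_l (z v : W n) (c : ℂ) : hip (c • v) z = star c * hip v z := by
  simp only [hip, Pi.smul_apply, smul_eq_mul, Finset.mul_sum, star_mul']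
  refine Finset.sum_congr rfl fun k _ => ?_
  ring

theorem hip_Eb_e0 (i : Fin (n * 2)) : hip (Eb i) (e0 n) = 0 := by
  rw [hip_star, hip_e0_Eb, star_zero]

theorem e0_zero : (e0 n) 0 = 1 := rfl

theorem hip_e0_e0 : hip (e0 n) (e0 n) = 1 := by
  rw [hip_e0, e0_zero]

theorem mx_XX (i : Fin (n * 2)) (z : W n) :
    mx (rm (Xm i) (Xm i)) z = (-hip (Eb i) z) • Eb i - z 0 • e0 n := by
  rw [mx_rm, mx_Xm, mx_Xm]
  have h1 : (z 0 • Eb i - hip (Eb i) z • e0 n) 0 = -hip (Eb i) z := by
    simp [Eb_zero, e0_zero]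
  have h2 : hip (Eb i) (z 0 • Eb i - hip (Eb i) z • e0 n) = z 0 := by
    rw [hip_sub_r, hip_smul_r, hip_smul_r, hip_Eb_self, hip_Eb_e0]
    ring
  rw [h1, h2]

theorem rm_XXX (i : Fin (n * 2)) : rm (rm (Xm i) (Xm i)) (Xm i) = -Xm i := by
  apply ext_mx
  intro z
  rw [mx_rm, mx_XX]
  have h1 : (mx (Xm i) z) 0 = -hip (Eb i) z := by
    rw [mx_Xm]
    simp [Eb_zero, e0_zero]
  have h2 : hip (Eb i) (mx (Xm i) z) = z 0 := by
    rw [mx_Xm, hip_sub_r, hip_smul_r, hip_smul_r, hip_Eb_self, hip_Eb_e0]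
    ring
  have h3 : mx (-Xm i) z = -mx (Xm i) z := by
    simp [mx]
  rw [h1, h2, h3, mx_Xm]
  simp only [neg_smul]
  abel

/-- the rotation -/
noncomputable def kk (i : Fin (n * 2)) (t : ℝ) : XX n :=
  idm n + Real.sin t • Xm i + (1 - Real.cos t) • rm (Xm i) (Xm i)

theorem kk_zero (i : Fin (n * 2)) : kk i 0 = idm n := by
  simp [kk]

theorem rm_kk (i : Fin (n * 2)) (t : ℝ) (g : XX n) :
    rm g (kk i t) = g + Real.sin t • rm g (Xm i) + (1 - Real.cos t) • rm g (rm (Xm i) (Xm i)) := by
  rw [kk, rm_add, rm_add, rm_rsmul, rm_rsmul, rm_idm]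

theorem kk_rm (i : Fin (n * 2)) (t : ℝ) :
    rm (kk i t) (Xm i) = Real.cos t • Xm i + Real.sin t • rm (Xm i) (Xm i) := by
  rw [kk, rm_add_left, rm_add_left, rm_smul_left, rm_smul_left, rm_XXX, idm_rm, sub_smul, one_smul,
    smul_neg]
  abel

theorem hasDerivAt_kk (i : Fin (n * 2)) (g : XX n) (t : ℝ) :
    HasDerivAt (fun t => rm g (kk i t)) (rm (rm g (kk i t)) (Xm i)) t := by
  have h1 : HasDerivAt (fun t => g + Real.sin t • rm g (Xm i) +
      (1 - Real.cos t) • rm g (rm (Xm i) (Xm i)))
      (Real.cos t • rm g (Xm i) + Real.sin t • rm g (rm (Xm i) (Xm i))) t := by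
    have ha := ((Real.hasDerivAt_sin t).smul_const (rm g (Xm i))).const_add g
    have hb := (((Real.hasDerivAt_cos t).const_sub 1).smul_const (rm g (rm (Xm i) (Xm i))))
    have hc := ha.add hb
    rw [neg_neg] at hc
    exact hc
  have h2 : rm (rm g (kk i t)) (Xm i) =
      Real.cos t • rm g (Xm i) + Real.sin t • rm g (rm (Xm i) (Xm i)) := by
    rw [rm_assoc, kk_rm, rm_add, rm_rsmul, rm_rsmul]
  rw [h2]
  refine h1.congr_of_eventuallyEq (Filter.Eventually.of_forall fun s => ?_)
  exact rm_kk i s g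

theorem mx_kk (i : Fin (n * 2)) (t : ℝ) (z : W n) :
    mx (kk i t) z = z + ((Real.sin t : ℂ) * z 0 - (1 - (Real.cos t : ℂ)) * hip (Eb i) z) • Eb i -
      ((Real.sin t : ℂ) * hip (Eb i) z + (1 - (Real.cos t : ℂ)) * z 0) • e0 n := by
  rw [kk, mx_add_left, mx_add_left, mx_smul_left, mx_smul_left, mx_idm, mx_Xm, mx_XX]
  funext j
  simp only [Pi.add_apply, Pi.sub_apply, Pi.smul_apply, smul_eq_mul, Complex.real_smul,
    Complex.ofReal_sub, Complex.ofReal_one]
  ring

theorem hip_kk (i : Fin (n * 2)) (t : ℝ) (z w : W n) :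
    hip (mx (kk i t) z) (mx (kk i t) w) = hip z w := by
  rw [mx_kk, mx_kk]
  set s : ℂ := (Real.sin t : ℂ) with hs
  set c : ℂ := (Real.cos t : ℂ) with hc
  have hss : star s = s := by rw [hs]; exact Complex.conj_ofReal _
  have hcc : star c = c := by rw [hc]; exact Complex.conj_ofReal _
  have hsc : s ^ 2 + c ^ 2 = 1 := by
    rw [hs, hc]
    norm_cast
    exact Real.sin_sq_add_cos_sq t
  have e1 : hip z (Eb i) = star (hip (Eb i) z) := hip_star _ _
  have e2 : hip z (e0 n) = star (z 0) := by rw [hip_star, hip_e0]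
  simp only [hip_add_r, hip_sub_r, hip_smul_r, hip_add_l, hip_sub_l, hip_smul_l, hip_Eb_self,
    hip_Eb_e0, hip_e0, e1, e2, star_add, star_sub, star_mul', hss, hcc, star_one, Eb_zero, e0_zero]
  generalize star (hip (Eb i) z) = H
  generalize star (z 0) = Z
  generalize hip (Eb i) w = h
  generalize w 0 = w0
  generalize hip z w = p
  linear_combination (H * h + Z * w0) * hsc

theorem kk_mem (i : Fin (n * 2)) (t : ℝ) : kk i t ∈ Un n := by
  intro j l
  have h1 : ∀ j, kk i t j = mx (kk i t) (idm n j) := by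
    intro j
    have := congrFun (rm_idm (kk i t)) j
    exact this.symm
  rw [h1, h1, hip_kk]
  exact idm_mem j l

theorem continuous_kk (i : Fin (n * 2)) : Continuous (kk i) := by
  unfold kk
  fun_prop

theorem contOn_Dv (i : Fin (n * 2)) {F : XX n → ℝ} (hF : ∀ g ∈ Un n, ContDiffAt ℝ 1 F g) :
    ContinuousOn (Dv i F) (Un n) := by
  intro g hg
  have h1 : ContinuousAt (fderiv ℝ F) g := (hF g hg).continuousAt_fderiv one_ne_zero
  have h2 : Continuous fun g : XX n => rm g (Xm i) :=
    continuous_rm.comp (continuous_id.prodMk continuous_const)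
  have h3 : ContinuousAt (Dv i F) g := h1.clm_apply h2.continuousAt
  exact h3.continuousWithinAt

theorem integral_rm {ν : Measure (XX n)} (hν : Haar ν) {F : XX n → ℝ}
    (hFi : Integrable F ν) {k : XX n} (hk : k ∈ Un n) :
    ∫ g, F (rm g k) ∂ν = ∫ g, F g ∂ν := by
  have h2 : Continuous fun g : XX n => rm g k :=
    continuous_rm.comp (continuous_id.prodMk continuous_const)
  have h := integral_map (μ := ν) (φ := fun g => rm g k) h2.measurable.aemeasurable
    (f := F) (by rw [hν.inv k hk]; exact hFi.aestronglyMeasurable)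
  rw [← h, hν.inv k hk]

end IntDAux

open IntDAux

theorem integrable_un {ν : Measure (XX n)} (hν : Haar ν) {F : XX n → ℝ} (hF : ContinuousOn F (Un n)) :
    Integrable F ν := by
  have := hν.prob
  have h : IntegrableOn F (Un n) ν := hF.integrableOn_compact isCompact_Un
  rw [IntegrableOn, restrict_un hν] at h
  exact h

theorem int_Dv {ν : Measure (XX n)} (hν : Haar ν) (i : Fin (n * 2)) {F : XX n → ℝ}
    (hF : ∀ g ∈ Un n, ContDiffAt ℝ 1 F g) : ∫ g, Dv i F g ∂ν = 0 := by
  have := hν.prob
  have hFc : ContinuousOn F (Un n) := fun g hg => (hF g hg).continuousAt.continuousWithinAt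
  have hDc := contOn_Dv i hF
  have hD := integrable_un hν hDc
  have hFi := integrable_un hν hFc
  have hder : ∀ g ∈ Un n, ∀ t : ℝ,
      HasDerivAt (fun t => F (rm g (kk i t))) (Dv i F (rm g (kk i t))) t := by
    intro g hg t
    have h1 := hasDerivAt_kk i g t
    have h2 : HasFDerivAt F (fderiv ℝ F (rm g (kk i t))) (rm g (kk i t)) :=
      ((hF _ (rm_mem hg (kk_mem i t))).differentiableAt one_ne_zero).hasFDerivAt
    exact h2.comp_hasDerivAt t h1
  have hcont : ContinuousOn (fun p : XX n × ℝ => Dv i F (rm p.1 (kk i p.2))) (Un n ×ˢ Icc 0 1) := by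
    refine hDc.comp (t := Un n) ?_ ?_
    · have : Continuous fun p : XX n × ℝ => rm p.1 (kk i p.2) :=
        continuous_rm.comp (continuous_fst.prodMk ((continuous_kk i).comp continuous_snd))
      exact this.continuousOn
    · rintro ⟨g, t⟩ ⟨hg, -⟩
      exact rm_mem hg (kk_mem i t)
  have hft : ∀ g ∈ Un n, ∫ t in (0 : ℝ)..1, Dv i F (rm g (kk i t)) =
      F (rm g (kk i 1)) - F g := by
    intro g hg
    have hc : Continuous fun t => Dv i F (rm g (kk i t)) := by
      rw [continuous_iff_continuousAt]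
      intro t
      have h1 : ContinuousAt (Dv i F) (rm g (kk i t)) := by
        have h1 : ContinuousAt (fderiv ℝ F) (rm g (kk i t)) :=
          (hF _ (rm_mem hg (kk_mem i t))).continuousAt_fderiv one_ne_zero
        have h2 : Continuous fun g : XX n => rm g (Xm i) :=
          continuous_rm.comp (continuous_id.prodMk continuous_const)
        exact h1.clm_apply h2.continuousAt
      have h2 : Continuous fun t => rm g (kk i t) :=
        continuous_rm.comp (continuous_const.prodMk (continuous_kk i))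
      exact ContinuousAt.comp (f := fun t => rm g (kk i t)) h1 h2.continuousAt
    rw [intervalIntegral.integral_eq_sub_of_hasDerivAt (fun t _ => hder g hg t)
      (hc.intervalIntegrable _ _), kk_zero, rm_idm]
  have hprod : Integrable (fun p : XX n × ℝ => Dv i F (rm p.1 (kk i p.2)))
      (ν.prod (volume.restrict (Ioc (0 : ℝ) 1))) := by
    have h1 : IntegrableOn (fun p : XX n × ℝ => Dv i F (rm p.1 (kk i p.2))) (Un n ×ˢ Icc 0 1)
        (ν.prod volume) := hcont.integrableOn_compact (isCompact_Un.prod isCompact_Icc)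
    have h2 := h1.mono_set (prod_mono subset_rfl Ioc_subset_Icc_self)
    rw [IntegrableOn, ← Measure.prod_restrict, restrict_un hν] at h2
    exact h2
  have hswap := integral_integral_swap (f := fun g t => Dv i F (rm g (kk i t))) hprod
  have hL : ∫ g, (∫ t in Ioc (0 : ℝ) 1, Dv i F (rm g (kk i t))) ∂ν = 0 := by
    have h1 : ∫ g, (∫ t in Ioc (0 : ℝ) 1, Dv i F (rm g (kk i t))) ∂ν =
        ∫ g, (F (rm g (kk i 1)) - F g) ∂ν := by
      apply integral_congr_ae
      have hae : ∀ᵐ g ∂ν, g ∈ Un n := by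
        rw [ae_iff]
        exact hν.supp
      filter_upwards [hae] with g hg
      rw [← hft g hg, intervalIntegral.integral_of_le zero_le_one]
    have hk1 := kk_mem (n := n) i 1
    have h2 : Continuous fun g : XX n => rm g (kk i 1) :=
      continuous_rm.comp (continuous_id.prodMk continuous_const)
    have h3 : Integrable (fun g => F (rm g (kk i 1))) ν := by
      apply integrable_un hν
      exact hFc.comp h2.continuousOn fun g hg => rm_mem hg hk1
    rw [h1, integral_sub h3 hFi, integral_rm hν hFi hk1, sub_self]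
  have hR : ∫ t in Ioc (0 : ℝ) 1, (∫ g, Dv i F (rm g (kk i t)) ∂ν) = ∫ g, Dv i F g ∂ν := by
    have h1 : ∀ t, ∫ g, Dv i F (rm g (kk i t)) ∂ν = ∫ g, Dv i F g ∂ν := fun t =>
      integral_rm hν hD (kk_mem i t)
    simp only [h1]
    simp
  rw [← hR, ← hswap, hL]

/-- a property which holds on the unitary matrices holds almost everywhere -/
theorem ae_un {ν : Measure (XX n)} (hν : Haar ν) {p : XX n → Prop} (h : ∀ g ∈ Un n, p g) : ∀ᵐ g ∂ν, p g := by
  have hae : ∀ᵐ g ∂ν, g ∈ Un n := by
    rw [ae_iff]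
    exact hν.supp
  filter_upwards [hae] with g hg
  exact h g hg

end Pool.Agent.Lib.P28u
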