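import Pool.Agent.Lib.P28u.Defs

set_option autoImplicit false
set_option maxSynthPendingDepth 3

/-!
# The condition number of a symplectic form is integrable: definitions

`XX n`: complex `(n+1) × (n+1)` matrices, given by their columns; `Un n` the unitary ones, `rm g X` the product `g X`, `mx g z` the product `g z`.
`Eb i` is the real basis of `ℂ^n ⊂ ℂ^(n+1)` (first coordinate zero), `Xm i` the skew-Hermitian matrix with `e0 ↦ Eb i`, `p ↦ - ⟨Eb i, p⟩ e0` for `p ∈ ℂ^n`.
`Dv i F g` is the derivative of `F` at `g` in the direction `g Xm i`; `DM` the same for matrix valued functions, entry by entry. `Wm α g` is the matrix of the form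
`dw α` at `g e0` in the frame `g (Eb k)`, `Am α i = W⁻¹ D_i W`, `Rm i j` the curvature matrices, `Qm α i j = W⁻¹ (Rm i j)ᵀ W`. `fr2` is the square of the Frobenius norm.
`Frm K z S`: `S : ℝ^(2n) → W n` is a frame transversal to `ℂ z`, with constant `K`; `FM α z S` the matrix of `dw α z` in this frame, `FD α z S i` the matrix of
its derivative in the direction `S e_i`. `Tj j`: the exchange of the coordinates `0` and `j`; `Tm α j y` the matrix of `dw α` in the chart `y ↦ Tj j (1, y)`.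
`Mos K a κ F`: the hypotheses of the iteration theorem; `lv κ t` is the volume of the set `{e^t ≤ κ²}`, `ge a κ t h` the energy in `{e^t ≤ κ² < e^(t+h)}`.
-/

open MeasureTheory Set Metric
open scoped ContDiff Topology ENNReal

namespace Pool.Agent.Lib.P28u

open Pool.Agent.P28b04d Pool.Agent.Lib.P28e Pool.Agent.Lib.P28c Pool.Agent.Lib.P28t
open Pool.Agent.Lib.P28f (V EV)

variable {n : ℕ}

/-- Unitary matrices, by columns. -/
def Un (n : ℕ) : Set (XX n) := {g | ∀ j k, hip (g j) (g k) = if j = k then 1 else 0}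

/-- The identity matrix. -/
noncomputable def idm (n : ℕ) : XX n := fun j => Pi.single j 1

/-- The product `g X`. -/
noncomputable def rm (g X : XX n) : XX n := fun j => mx g (X j)

/-- The operator `mx g`. -/
noncomputable def mxL (g : XX n) : EndW n :=
  ∑ j, (((ContinuousLinearMap.proj (R := ℂ) (φ := fun _ : Fin (n + 1) => ℂ) j).smulRight (g j)) :
    W n →L[ℂ] W n).restrictScalars ℝ

/-- The real basis of `ℂ^n`. -/
noncomputable def Eb (i : Fin (n * 2)) : W n := Lv n (Pi.single i 1)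

/-- `e0 ↦ Eb i`, `p ↦ - ⟨Eb i, p⟩ e0`. -/
noncomputable def Xm (i : Fin (n * 2)) : XX n :=
  Fin.cons (Eb i) fun k => (-star (Eb i k.succ)) • e0 n

/-- `g ↦ D_g F (g X_i)`. -/
noncomputable def Dv (i : Fin (n * 2)) (F : XX n → ℝ) (g : XX n) : ℝ := fderiv ℝ F g (rm g (Xm i))

/-- Square real matrices. -/
abbrev MR (n : ℕ) : Type := Matrix (Fin (n * 2)) (Fin (n * 2)) ℝ

/-- Matrix valued functions with entries of class `C^N` at `x`. -/
def SM {E : Type*} [NormedAddCommGroup E] [NormedSpace ℝ E] (N : WithTop ℕ∞) (M : E → MR n) (x : E) : Prop :=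
  ∀ k l, ContDiffAt ℝ N (fun x => M x k l) x

/-- Derivative of a matrix valued function at `x` in the direction `v`, entry by entry. -/
noncomputable def DE {E : Type*} [NormedAddCommGroup E] [NormedSpace ℝ E] (M : E → MR n) (x v : E) : MR n :=
  fun k l => fderiv ℝ (fun x => M x k l) x v

/-- Derivative in the direction `g X_i`. -/
noncomputable def DM (i : Fin (n * 2)) (M : XX n → MR n) (g : XX n) : MR n := DE M g (rm g (Xm i))

/-- The matrix of the form in the frame `g`. -/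
noncomputable def Wm (α : FW n) (g : XX n) : MR n :=
  fun k l => dw α (g 0) (mx g (Eb k)) (mx g (Eb l))

/-- The connection matrices. -/
noncomputable def Am (α : FW n) (i : Fin (n * 2)) (g : XX n) : MR n := (Wm α g)⁻¹ * DM i (Wm α) g

/-- The curvature map. -/
noncomputable def Rf (u v p : W n) : W n :=
  hip u p • v - hip v p • u + (hip u v - hip v u) • p

/-- The curvature matrices. -/
noncomputable def Rm (i j : Fin (n * 2)) : MR n := fun k l => (hip (Eb k) (Rf (Eb i) (Eb j) (Eb l))).re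

/-- `W⁻¹ Rᵀ W`. -/
noncomputable def Qm (α : FW n) (i j : Fin (n * 2)) (g : XX n) : MR n :=
  (Wm α g)⁻¹ * (Rm i j).transpose * Wm α g

/-- Square of the Frobenius norm. -/
def fr2 (M : MR n) : ℝ := ∑ k, ∑ l, M k l ^ 2

/-- Frobenius inner product. -/
def inn (M N : MR n) : ℝ := ∑ k, ∑ l, M k l * N k l

/-- Right invariant probability measures on the unitary matrices. -/
structure Haar (ν : Measure (XX n)) : Prop where
  prob : IsProbabilityMeasure ν
  supp : ν (Un n)ᶜ = 0
  inv : ∀ k ∈ Un n, ν.map (fun g => rm g k) = ν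

/-- The commutator `[X_i, X_j]`. -/
noncomputable def brk (i j : Fin (n * 2)) : XX n := rm (Xm i) (Xm j) - rm (Xm j) (Xm i)

/-- A frame transversal to `ℂ z`. -/
structure Frm (K : ℝ) (z : W n) (S : V (n * 2) →L[ℝ] W n) : Prop where
  pos : 0 < K
  cov : ∀ q : W n, ∃ (y : V (n * 2)) (c : ℂ), q = S y + c • z
  inj : ∀ (y : V (n * 2)) (c : ℂ), ‖y‖ ≤ K * ‖S y + c • z‖
  le : ∀ y : V (n * 2), ‖S y‖ ≤ K * ‖y‖
  zle : ‖z‖ ≤ K
  lez : 1 ≤ K * ‖z‖

/-- The matrix of `dw α z` in a frame. -/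
noncomputable def FM (α : FW n) (z : W n) (S : V (n * 2) →L[ℝ] W n) : MR n :=
  fun k l => dw α z (S (Pi.single k 1)) (S (Pi.single l 1))

/-- The derivative of `dw α` in a frame. -/
noncomputable def FD (α : FW n) (z : W n) (S : V (n * 2) →L[ℝ] W n) (i : Fin (n * 2)) : MR n :=
  fun k l => fderiv ℝ (dw α) z (S (Pi.single i 1)) (S (Pi.single k 1)) (S (Pi.single l 1))

/-- The exchange of the coordinates `0` and `j`. -/
noncomputable def Tj (j : Fin (n + 1)) : W n ≃L[ℝ] W n :=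
  (LinearEquiv.funCongrLeft ℝ ℂ (Equiv.swap 0 j)).toContinuousLinearEquiv

theorem Tj_apply (j : Fin (n + 1)) (z : W n) (k : Fin (n + 1)) : Tj j z k = z (Equiv.swap 0 j k) := rfl

/-- The frame of the chart `j`. -/
noncomputable def Sj (j : Fin (n + 1)) : V (n * 2) →L[ℝ] W n := (Tj j : W n →L[ℝ] W n).comp (Lv n)

/-- The matrix of the form in the chart `y ↦ Tj j (sl n y)`. -/
noncomputable def Tm (α : FW n) (j : Fin (n + 1)) (y : V (n * 2)) : MR n :=
  FM α (Tj j (sl n y)) (Sj j)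

/-- The logarithm of the condition number in the chart. -/
noncomputable def fj (α : FW n) (j : Fin (n + 1)) (y : V (n * 2)) : ℝ :=
  Real.log (fr2 (Tm α j y)) + Real.log (fr2 (Tm α j y)⁻¹)

/-- The hypotheses of the iteration theorem. -/
structure Mos (K : ℝ) (a κ : W n → ℝ) (F : Fin (n + 1) → V (n * 2) → ℝ) : Prop where
  ca : ContinuousOn a {0}ᶜ
  ck : ContinuousOn κ {0}ᶜ
  ha : ∀ (c : ℂ) (z : W n), c ≠ 0 → z ≠ 0 → a (c • z) = a z
  hk : ∀ (c : ℂ) (z : W n), c ≠ 0 → z ≠ 0 → κ (c • z) = κ z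
  na : ∀ z, 0 ≤ a z
  nk : ∀ z, 0 ≤ κ z
  sm : ∀ j, ContDiff ℝ 1 (F j)
  der : ∀ j y, ‖y‖ ≤ 2 → ‖fderiv ℝ (F j) y‖ ≤ K * (1 + a (Tj j (sl n y)))
  lo : ∀ j y, ‖y‖ ≤ 2 → κ (Tj j (sl n y)) ^ 2 ≤ K * Real.exp (F j y)
  up : ∀ j y, ‖y‖ ≤ 2 → Real.exp (F j y) ≤ K * κ (Tj j (sl n y)) ^ 2

/-- The exponent `1 / (2n - 1)`. -/
noncomputable def qe (n : ℕ) : ℝ := 1 / (2 * n - 1)

/-- The volume of a superlevel set. -/
noncomputable def lv (κ : W n → ℝ) (t : ℝ) : ℝ≥0∞ :=
  volume (ball (0 : W n) 1 ∩ {z | Real.exp t ≤ κ z ^ 2})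

/-- The energy between two levels. -/
noncomputable def ge (a κ : W n → ℝ) (t h : ℝ) : ℝ≥0∞ :=
  ∫⁻ z in ball (0 : W n) 1 ∩ {z | Real.exp t ≤ κ z ^ 2 ∧ κ z ^ 2 < Real.exp (t + h)},
    ENNReal.ofReal (a z) ^ (2 * n)

end Pool.Agent.Lib.P28u
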