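import Pool.Agent.Lib.P28u.FrC
import Pool.Agent.Lib.P28u.WmF

set_option autoImplicit false
set_option maxSynthPendingDepth 3

/-!
# The derivative of the form in a frame

PROOF. Let `b = dw α z`, `D = fderiv ℝ (dw α) z`, `P = 1 - Pj z`, for `v : W n` `c_v = hip z v / nsq z`, so `v = P v + c_v • z` (`Pj_apply`). `D (c • z) p q = - b (c • p) q - b p (c • q)` (`hom_dw`), `D v (c • z) q = - b (c • v) q` (`rad_dw`), `D v p (c • z) = - b p (c • v)` (`skew_dw3`, `rad_dw`, `dw_skew`). With `a = c_v`: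
`D v p q = - b (a • p) q - b p (a • q) + D (P v) p q`; `D (P v) p q = D (P v) (P p) q - b (c_p • P v) q`; `D (P v) (P p) q = T3 α z v p q - b (P p) (c_q • P v)` and `b (P p) = b p`. So with the real-linear map `N p = - a • p - c_p • P v`: `D v p q = T3 α z v p q + b (N p) q + b p (N q)`.
Take `v = S e_i`; `‖c_v‖ ≤ (n + 1) ‖v‖ / ‖z‖ ≤ (n + 1) K²`, `‖P v‖ ≤ (n + 2) ‖v‖` (`norm_Pj_le`), so `‖N p‖ ≤ C ‖p‖`. `N (S e_k) = S y_k + c z` (`cov`), `‖y_k‖ ≤ K ‖N (S e_k)‖` (`inj`); `L r k = y_k r`. Then `b (N (S e_k)) (S e_l) = ∑ r, L r k * FM r l = (Lᵀ * FM) k l` and `b (S e_k) (N (S e_l)) = ∑ r, L r l * FM k r = (FM * L) k l`.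
`H k l = T3 α z (S e_i) (S e_k) (S e_l)`, `|H k l| ≤ ‖T3‖ K³`; `fr2_le`.
-/

open MeasureTheory Set Metric
open scoped ContDiff Topology ENNReal

namespace Pool.Agent.Lib.P28u

open Pool.Agent.P28b04d Pool.Agent.Lib.P28e Pool.Agent.Lib.P28c Pool.Agent.Lib.P28t
open Pool.Agent.Lib.P28f (V EV)

variable {n : ℕ}

namespace FrDAux

/-- The coefficient of the projection onto `ℂ z`. -/
noncomputable def cf (z v : W n) : ℂ := (((nsq z)⁻¹ : ℝ) : ℂ) * hip z v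

theorem Pj_eq (z v : W n) : Pj z v = cf z v • z := by
  rw [Pj_apply, cf, mul_smul, Complex.coe_smul]

theorem norm_cf_le {K : ℝ} {z : W n} {S : V (n * 2) →L[ℝ] W n} (h : Frm K z S) (v : W n) :
    ‖cf z v‖ ≤ ((n : ℝ) + 1) * K * ‖v‖ := by
  have h1 : ‖cf z v‖ * ‖z‖ ≤ ((n : ℝ) + 1) * ‖v‖ := by
    rw [← norm_smul, ← Pj_eq]
    exact norm_Pj_le h.ne v
  have h2 : ‖cf z v‖ * 1 ≤ ‖cf z v‖ * (K * ‖z‖) :=
    mul_le_mul_of_nonneg_left h.lez (norm_nonneg _)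
  have h3 : K * (‖cf z v‖ * ‖z‖) ≤ K * (((n : ℝ) + 1) * ‖v‖) :=
    mul_le_mul_of_nonneg_left h1 h.pos.le
  calc ‖cf z v‖ = ‖cf z v‖ * 1 := by ring
    _ ≤ ‖cf z v‖ * (K * ‖z‖) := h2
    _ = K * (‖cf z v‖ * ‖z‖) := by ring
    _ ≤ K * (((n : ℝ) + 1) * ‖v‖) := h3
    _ = ((n : ℝ) + 1) * K * ‖v‖ := by ring

theorem norm_P_le {z : W n} (hz : z ≠ 0) (v : W n) :
    ‖v - cf z v • z‖ ≤ ((n : ℝ) + 2) * ‖v‖ := by
  have h1 : ‖cf z v • z‖ ≤ ((n : ℝ) + 1) * ‖v‖ := by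
    rw [← Pj_eq]; exact norm_Pj_le hz v
  calc ‖v - cf z v • z‖ ≤ ‖v‖ + ‖cf z v • z‖ := norm_sub_le _ _
    _ ≤ ‖v‖ + ((n : ℝ) + 1) * ‖v‖ := by linarith
    _ = ((n : ℝ) + 2) * ‖v‖ := by ring

/-- The correction term. -/
noncomputable def Nf (z v p : W n) : W n := -(cf z v • p) - cf z p • (v - cf z v • z)

theorem T3_eq (α : FW n) (z v p q : W n) :
    T3 α z v p q = fderiv ℝ (dw α) z (v - cf z v • z) (p - cf z p • z) (q - cf z q • z) := by
  rw [T3_apply]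
  have h : ∀ x : W n, (1 - Pj z) x = x - cf z x • z := by
    intro x
    rw [← Pj_eq]
    rfl
  rw [h, h, h]

/-- The derivative of the form, decomposed. -/
theorem main {α : FW n} (hα : Con α) {z : W n} (hz : z ≠ 0) (v p q : W n) :
    fderiv ℝ (dw α) z v p q =
      T3 α z v p q + dw α z (Nf z v p) q + dw α z p (Nf z v q) := by
  set D := fderiv ℝ (dw α) z with hD
  set b := dw α z with hb
  set Pv := v - cf z v • z with hPv
  set Pp := p - cf z p • z with hPp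
  have e1 : D v p q = D Pv p q + D (cf z v • z) p q := by
    have : v = Pv + cf z v • z := by rw [hPv]; abel
    conv_lhs => rw [this]
    rw [map_add]; rfl
  have e2 : D (cf z v • z) p q = -b (cf z v • p) q - b p (cf z v • q) :=
    hom_dw hα hz _ _ _
  have e3 : D Pv p q = D Pv Pp q + D Pv (cf z p • z) q := by
    have : p = Pp + cf z p • z := by rw [hPp]; abel
    conv_lhs => rw [this]
    rw [map_add]; rfl
  have e4 : D Pv (cf z p • z) q = -b (cf z p • Pv) q := rad_dw hα hz _ _ _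
  have e5 : D Pv Pp q = D Pv Pp (q - cf z q • z) + D Pv Pp (cf z q • z) := by
    rw [← map_add]
    congr 1
    abel
  have e6 : D Pv Pp (cf z q • z) = -b p (cf z q • Pv) := by
    rw [hD, skew_dw3 hα hz, rad_dw hα hz, neg_neg, ← hb, hb, dw_skew]
    have : Pp = p + (-(cf z p)) • z := by rw [hPp, neg_smul]; abel
    rw [this, map_add, add_apply, hα.dw_left hz, add_zero]
  have e7 : T3 α z v p q = D Pv Pp (q - cf z q • z) := T3_eq α z v p q
  have e8 : b (Nf z v p) q = -b (cf z v • p) q - b (cf z p • Pv) q := by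
    unfold Nf
    rw [map_sub, map_neg]
    rfl
  have e9 : b p (Nf z v q) = -b p (cf z v • q) - b p (cf z q • Pv) := by
    unfold Nf
    rw [map_sub, map_neg]
  rw [e1, e2, e3, e4, e5, e6, e7, e8, e9]
  ring

theorem norm_Nf_le {K : ℝ} {z : W n} {S : V (n * 2) →L[ℝ] W n} (h : Frm K z S) {v p : W n}
    (hv : ‖v‖ ≤ K) (hp : ‖p‖ ≤ K) : ‖Nf z v p‖ ≤ ((n : ℝ) + 1) * ((n : ℝ) + 3) * K ^ 3 := by
  have hK := h.pos
  have h1 : ‖cf z v‖ ≤ ((n : ℝ) + 1) * K * K :=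
    (norm_cf_le h v).trans (mul_le_mul_of_nonneg_left hv (by positivity))
  have h2 : ‖cf z p‖ ≤ ((n : ℝ) + 1) * K * K :=
    (norm_cf_le h p).trans (mul_le_mul_of_nonneg_left hp (by positivity))
  have h3 : ‖v - cf z v • z‖ ≤ ((n : ℝ) + 2) * K :=
    (norm_P_le h.ne v).trans (mul_le_mul_of_nonneg_left hv (by positivity))
  unfold Nf
  calc ‖-(cf z v • p) - cf z p • (v - cf z v • z)‖
      ≤ ‖-(cf z v • p)‖ + ‖cf z p • (v - cf z v • z)‖ := norm_sub_le _ _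
    _ = ‖cf z v‖ * ‖p‖ + ‖cf z p‖ * ‖v - cf z v • z‖ := by
        rw [norm_neg, norm_smul, norm_smul]
    _ ≤ (((n : ℝ) + 1) * K * K) * K + (((n : ℝ) + 1) * K * K) * (((n : ℝ) + 2) * K) := by
        gcongr
    _ = ((n : ℝ) + 1) * ((n : ℝ) + 3) * K ^ 3 := by ring

theorem norm_single (i : Fin (n * 2)) : ‖(Pi.single i (1 : ℝ) : V (n * 2))‖ = 1 := by
  rw [Pi.norm_single, norm_one]

theorem norm_Se_le {K : ℝ} {z : W n} {S : V (n * 2) →L[ℝ] W n} (h : Frm K z S)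
    (i : Fin (n * 2)) : ‖S (Pi.single i 1)‖ ≤ K := by
  have := h.le (Pi.single i 1)
  rwa [norm_single, mul_one] at this

theorem S_sum (S : V (n * 2) →L[ℝ] W n) (y : V (n * 2)) :
    S y = ∑ r, y r • S (Pi.single r 1) := by
  conv_lhs => rw [pi_eq_sum_univ' y]
  rw [map_sum]
  refine Finset.sum_congr rfl fun r _ => ?_
  rw [← map_smul]

end FrDAux

theorem fr_d (n : ℕ) (K : ℝ) : ∃ C : ℝ, 0 < C ∧ ∀ α : FW n, Symp α → ∀ (z : W n) (S : V (n * 2) →L[ℝ] W n), Frm K z S →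
    ∀ i : Fin (n * 2), ∃ H L : MR n, FD α z S i = H + L.transpose * FM α z S + FM α z S * L ∧
      fr2 H ≤ C * ‖T3 α z‖ ^ 2 ∧ fr2 L ≤ C := by
  refine ⟨((n : ℝ) * 2) ^ 2 * (K ^ 3) ^ 2 +
    ((n : ℝ) * 2) ^ 2 * (K * (((n : ℝ) + 1) * ((n : ℝ) + 3) * K ^ 3)) ^ 2 + 1, by positivity, ?_⟩
  intro α hα z S hS i
  have hz : z ≠ 0 := hS.ne
  have hK := hS.pos
  set e : Fin (n * 2) → W n := fun k => S (Pi.single k 1) with he
  have hcov := fun k => hS.cov (FrDAux.Nf z (e i) (e k))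
  choose y c hyc using hcov
  refine ⟨fun k l => T3 α z (e i) (e k) (e l), fun r k => y k r, ?_, ?_, ?_⟩
  · ext k l
    rw [Matrix.add_apply, Matrix.add_apply, Matrix.mul_apply, Matrix.mul_apply]
    have h1 := FrDAux.main hα.1 hz (e i) (e k) (e l)
    have h2 : dw α z (FrDAux.Nf z (e i) (e k)) (e l) = ∑ r, y k r * dw α z (e r) (e l) := by
      rw [hyc k, map_add, add_apply, hα.1.dw_left hz, add_zero,
        FrDAux.S_sum, map_sum, sum_apply]
      refine Finset.sum_congr rfl fun r _ => ?_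
      rw [map_smul, smul_apply, smul_eq_mul]
    have h3 : dw α z (e k) (FrDAux.Nf z (e i) (e l)) = ∑ r, y l r * dw α z (e k) (e r) := by
      rw [hyc l, map_add, hα.1.dw_right hz, add_zero, FrDAux.S_sum, map_sum]
      refine Finset.sum_congr rfl fun r _ => ?_
      rw [map_smul, smul_eq_mul]
    change fderiv ℝ (dw α) z (e i) (e k) (e l) = _
    rw [h1, h2, h3]
    congr 1
    refine Finset.sum_congr rfl fun r _ => ?_
    rw [mul_comm]
    rfl
  · have hT := norm_nonneg (T3 α z)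
    have h1 : ∀ k l, |T3 α z (e i) (e k) (e l)| ≤ ‖T3 α z‖ * K ^ 3 := by
      intro k l
      rw [← Real.norm_eq_abs]
      calc ‖T3 α z (e i) (e k) (e l)‖ ≤ ‖T3 α z (e i) (e k)‖ * ‖e l‖ :=
            (T3 α z (e i) (e k)).le_opNorm _
        _ ≤ ‖T3 α z (e i)‖ * ‖e k‖ * ‖e l‖ := by
            gcongr; exact (T3 α z (e i)).le_opNorm _
        _ ≤ ‖T3 α z‖ * ‖e i‖ * ‖e k‖ * ‖e l‖ := by
            gcongr; exact (T3 α z).le_opNorm _
        _ ≤ ‖T3 α z‖ * K * K * K := by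
            gcongr
            · exact FrDAux.norm_Se_le hS i
            · exact FrDAux.norm_Se_le hS k
            · exact FrDAux.norm_Se_le hS l
        _ = ‖T3 α z‖ * K ^ 3 := by ring
    have h2 := fr2_le (M := fun k l => T3 α z (e i) (e k) (e l)) (by positivity) h1
    refine h2.trans ?_
    have h3 : 0 ≤ ((n : ℝ) * 2) ^ 2 * (K * (((n : ℝ) + 1) * ((n : ℝ) + 3) * K ^ 3)) ^ 2 + 1 := by
      positivity
    nlinarith [mul_nonneg h3 (sq_nonneg ‖T3 α z‖)]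
  · have h1 : ∀ r k, |y k r| ≤ K * (((n : ℝ) + 1) * ((n : ℝ) + 3) * K ^ 3) := by
      intro r k
      rw [← Real.norm_eq_abs]
      calc ‖y k r‖ ≤ ‖y k‖ := norm_le_pi_norm _ _
        _ ≤ K * ‖S (y k) + c k • z‖ := hS.inj _ _
        _ = K * ‖FrDAux.Nf z (e i) (e k)‖ := by rw [← hyc k]
        _ ≤ K * (((n : ℝ) + 1) * ((n : ℝ) + 3) * K ^ 3) :=
            mul_le_mul_of_nonneg_left (FrDAux.norm_Nf_le hS (FrDAux.norm_Se_le hS i)
              (FrDAux.norm_Se_le hS k)) hK.le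
    have h2 := fr2_le (M := fun r k => y k r) (by positivity) h1
    refine h2.trans ?_
    have h3 : 0 ≤ ((n : ℝ) * 2) ^ 2 * (K ^ 3) ^ 2 := by positivity
    linarith

end Pool.Agent.Lib.P28u
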