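import Pool.Agent.Lib.P28u.EbF

set_option autoImplicit false
set_option maxSynthPendingDepth 3

/-!
# Affine frames

PROOF. `Tj j` permutes coordinates: `‖Tj j z‖ = ‖z‖`, complex-linear, an involution. `Sj j y = Tj j (Lv n y)`. `cov`: `q = Tj j w`, `w = w 0 • sl n y + (w - w 0 • sl n y)`, the last vector has coordinate zero `0` (`sl n y 0 = 1`), so it is `Lv n y'` (`exists_Lv`). `inj`: for `w = Lv n y' + c • sl n y`: `w 0 = c`, `Lv n y' = w - w 0 • sl n y`,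
`‖y'‖ ≤ ‖kap n y'‖ ≤ ‖Lv n y'‖ ≤ ‖w‖ (1 + ‖sl n y‖) ≤ 5 ‖w‖`, since `‖sl n y‖ ≤ max 1 ‖kap n y‖ ≤ 4` (`norm_kap_le`). `K = 5`. `1 ≤ ‖sl n y‖` (coordinate `0`).
-/

open MeasureTheory Set Metric
open scoped ContDiff Topology ENNReal

namespace Pool.Agent.Lib.P28u

open Pool.Agent.P28b04d Pool.Agent.Lib.P28e Pool.Agent.Lib.P28c Pool.Agent.Lib.P28t
open Pool.Agent.Lib.P28f (V EV)

variable {n : ℕ}

theorem Tj_norm (j : Fin (n + 1)) (z : W n) : ‖Tj j z‖ = ‖z‖ := by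
  refine le_antisymm ?_ ?_
  · rw [pi_norm_le_iff_of_nonneg (norm_nonneg _)]
    intro k
    rw [Tj_apply]
    exact norm_le_pi_norm z _
  · rw [pi_norm_le_iff_of_nonneg (norm_nonneg _)]
    intro k
    have h : z k = Tj j z (Equiv.swap 0 j k) := by
      rw [Tj_apply]
      exact congrArg z ((Equiv.swap 0 j).symm_apply_apply k).symm
    rw [h]
    exact norm_le_pi_norm (Tj j z) _

theorem Tj_smul (j : Fin (n + 1)) (c : ℂ) (z : W n) : Tj j (c • z) = c • Tj j z := by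
  funext k
  rw [Pi.smul_apply, Tj_apply, Tj_apply, Pi.smul_apply]

namespace FrTjAux

theorem Tj_Tj (j : Fin (n + 1)) (z : W n) : Tj j (Tj j z) = z := by
  funext k
  rw [Tj_apply, Tj_apply]
  exact congrArg z ((Equiv.swap 0 j).symm_apply_apply k)

theorem sl_zero (y : V (n * 2)) : sl n y 0 = 1 := by
  simp [sl]

theorem one_le_sl (y : V (n * 2)) : 1 ≤ ‖sl n y‖ := by
  have h := norm_le_pi_norm (sl n y) 0
  rw [sl_zero, norm_one] at h
  exact h

theorem Lv_zero (y : V (n * 2)) : Lv n y 0 = 0 := by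
  rw [Lv_apply]
  simp

theorem kap_le_Lv (y : V (n * 2)) : ‖kap n y‖ ≤ ‖Lv n y‖ := by
  rw [pi_norm_le_iff_of_nonneg (norm_nonneg _)]
  intro k
  have h := norm_le_pi_norm (Lv n y) k.succ
  rw [Lv_apply, Fin.cons_succ] at h
  exact h

theorem frm (j : Fin (n + 1)) (y : V (n * 2)) {K : ℝ} (hK : 2 + ‖sl n y‖ ≤ K) :
    Frm K (Tj j (sl n y)) (Sj j) := by
  have h0 : 0 ≤ ‖sl n y‖ := norm_nonneg _
  have h1 := one_le_sl y
  have hS : ∀ y' : V (n * 2), Sj j y' = Tj j (Lv n y') := fun _ => rfl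
  refine ⟨by linarith, ?_, ?_, ?_, ?_, ?_⟩
  · intro q
    obtain ⟨y', hy'⟩ := exists_Lv (q := Tj j q - (Tj j q 0) • sl n y) (by
      rw [Pi.sub_apply, Pi.smul_apply, sl_zero, smul_eq_mul, mul_one, sub_self])
    refine ⟨y', Tj j q 0, ?_⟩
    rw [hS, ← hy', map_sub, Tj_Tj, Tj_smul, sub_add_cancel]
  · intro y' c
    have e1 : Sj j y' + c • Tj j (sl n y) = Tj j (Lv n y' + c • sl n y) := by
      rw [hS, map_add, Tj_smul]
    rw [e1, Tj_norm]
    set w : W n := Lv n y' + c • sl n y with hw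
    have e2 : w 0 = c := by
      rw [hw, Pi.add_apply, Pi.smul_apply, sl_zero, Lv_zero, smul_eq_mul, mul_one, zero_add]
    have e3 : Lv n y' = w - w 0 • sl n y := by
      rw [e2, hw, add_sub_cancel_right]
    calc ‖y'‖ ≤ ‖kap n y'‖ := norm_le_kap n y'
      _ ≤ ‖Lv n y'‖ := kap_le_Lv y'
      _ = ‖w - w 0 • sl n y‖ := by rw [← e3]
      _ ≤ ‖w‖ + ‖w 0 • sl n y‖ := norm_sub_le _ _
      _ = ‖w‖ + ‖w 0‖ * ‖sl n y‖ := by rw [norm_smul]
      _ ≤ ‖w‖ + ‖w‖ * ‖sl n y‖ := by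
          have := mul_le_mul_of_nonneg_right (norm_le_pi_norm w 0) h0
          linarith
      _ = (1 + ‖sl n y‖) * ‖w‖ := by ring
      _ ≤ K * ‖w‖ := mul_le_mul_of_nonneg_right (by linarith) (norm_nonneg _)
  · intro y'
    rw [hS, Tj_norm]
    exact (norm_Lv_le y').trans (mul_le_mul_of_nonneg_right (by linarith) (norm_nonneg _))
  · rw [Tj_norm]
    linarith
  · rw [Tj_norm]
    nlinarith

end FrTjAux

open FrTjAux

theorem Tj_ne (j : Fin (n + 1)) (y : V (n * 2)) : Tj j (sl n y) ≠ 0 := by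
  intro h
  have h1 := one_le_sl y
  rw [← Tj_norm j, h, norm_zero] at h1
  linarith

theorem frm_tj (n : ℕ) : ∃ K : ℝ, 0 < K ∧ ∀ (j : Fin (n + 1)) (y : V (n * 2)), ‖y‖ ≤ 2 →
    Frm K (Tj j (sl n y)) (Sj j) := by
  refine ⟨7, by norm_num, fun j y hy => frm j y ?_⟩
  have h1 : ‖e0 n‖ ≤ 1 := by
    rw [pi_norm_le_iff_of_nonneg zero_le_one]
    intro k
    refine Fin.cases ?_ (fun k => ?_) k
    · simp [e0]
    · simp [e0]
  have h2 : ‖sl n y‖ ≤ 5 := by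
    rw [sl_eq]
    refine (norm_add_le _ _).trans ?_
    have := norm_Lv_le y
    linarith
  linarith

/-- without the bound on `y` the frame is still a frame, with a constant depending on `y` -/
theorem frm_tj' (j : Fin (n + 1)) (y : V (n * 2)) : ∃ K : ℝ, Frm K (Tj j (sl n y)) (Sj j) :=
  ⟨2 + ‖sl n y‖, frm j y le_rfl⟩

end Pool.Agent.Lib.P28u
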