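import Pool.Agent.Lib.P28u.GiF

set_option autoImplicit false
set_option maxSynthPendingDepth 3

/-!
# Continuity and homogeneity of the densities

PROOF. CONTINUITY at `z ≠ 0`: `dw α` and `fderiv ℝ (dw α)` are continuous at `z` (`Con.contDiffAt_dw`, `ContDiffAt.fderiv_right`); `Pj` is continuous at `z` (`hL z` is a finite sum of continuous expressions, `nsq z ≠ 0`, `ContinuousLinearMap.toSpanSingleton` is linear in `z`: write `Pj` through continuous bilinear operations, or use that a map into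
the finite-dimensional space `EndW n` is continuous iff all `z ↦ Pj z v` are (`continuousAt_clm_apply` or the like) and `Pj_apply`); `BB α z = repL.comp (dw α z)`; `Ring.inverse` is continuous at units (`NormedRing.inverse_continuousAt`), `isUnit_BP`; `T3`: `R2 P` is continuous in `P` (compositions of continuous linear maps).
HOMOGENEITY, `c ≠ 0`: `hip (c z) v = star c hip z v`, `nsq (c z) = |c|² nsq z`, so `Pj (c z) = Pj z`. `norm_T3`: `T3 α (c z) (c v) (c p) (c q) = T3 α z v p q` (`FormAux.fd2_hom`, `Pj (c z) = Pj z` commutes with the multiplication by `c`), so `‖T3 α (c z)‖ ≤ |c|⁻³ ‖T3 α z‖`, and equality by symmetry (`FormAux.scale_eq`).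
`Gi_smul`: `BB α (c z) (c v) = (star c)⁻¹ BB α z v` (test with `hip _ (c q)`: `re (hip (BB α (c z) (c v)) (c q)) = dw α (c z) (c v) (c q) = dw α z v q`, `re (hip ((star c)⁻¹ u) (c q)) = re (hip u q)`, and a vector `x` with `re (hip x q) = 0` for all `q` is `0`). Put `u = c Gi α z ((star c) w)`; `hip (c z) u = 0` and
`BB α (c z) u = (star c)⁻¹ BB α z (Gi α z ((star c) w)) = (star c)⁻¹ (1 - Pj z) ((star c) w) = (1 - Pj (c z)) w`; `Gi_unique`. `norm_Gi`: hence `‖Gi α (c z)‖ ≤ |c|² ‖Gi α z‖`, equality by symmetry. The rest: `Con.norm_dw`, `‖c z‖ = |c| ‖z‖`.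
-/

open MeasureTheory Set Metric
open scoped ContDiff Topology ENNReal

namespace Pool.Agent.Lib.P28u

open Pool.Agent.P28b04d Pool.Agent.Lib.P28e Pool.Agent.Lib.P28c Pool.Agent.Lib.P28t

variable {n : ℕ}

namespace GiCAux

theorem hip_cs (c : ℂ) (z v : W n) : hip (c • z) v = star c * hip z v := by
  simp only [hip, Pi.smul_apply, smul_eq_mul, star_mul', Finset.mul_sum]
  exact Finset.sum_congr rfl fun k _ => by ring

theorem ncs (c : ℂ) (z : W n) : nsq (c • z) = Complex.normSq c * nsq z :=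
  Pool.Agent.P28b04d.nsq_smul c z

theorem ne_of {z : W n} (hz : z ∈ ({0}ᶜ : Set (W n))) : z ≠ 0 := by
  simpa using hz

theorem cont_nsq : Continuous fun z : W n => nsq z := by
  unfold nsq
  refine continuous_finsetSum _ fun k _ => ?_
  exact Complex.continuous_normSq.comp (continuous_apply k)

theorem cont_hip (v : W n) : Continuous fun z : W n => hip z v := by
  unfold hip
  refine continuous_finsetSum _ fun k _ => ?_
  exact (continuous_star.comp (continuous_apply k)).mul continuous_const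

theorem cont_dw {α : FW n} (h : Con α) : ContinuousOn (dw α) {0}ᶜ := fun _ hz =>
  (h.contDiffAt_dw (ne_of hz)).continuousAt.continuousWithinAt

theorem cont_fdw {α : FW n} (h : Con α) : ContinuousOn (fderiv ℝ (dw α)) {0}ᶜ := fun z hz => by
  have h1 : ContDiffAt ℝ ∞ (fderiv ℝ (dw α)) z :=
    (h.contDiffAt_dw (ne_of hz)).fderiv_right (m := ∞) (by simp)
  exact h1.continuousAt.continuousWithinAt

theorem cont_BB {α : FW n} (h : Con α) : ContinuousOn (BB α) {0}ᶜ := by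
  have h1 : ContinuousOn (fun z : W n => (ContinuousLinearMap.compL ℝ (W n) (W n →L[ℝ] ℝ) (W n)
      repL) (dw α z)) {0}ᶜ :=
    (ContinuousLinearMap.compL ℝ (W n) (W n →L[ℝ] ℝ) (W n) repL).continuous.comp_continuousOn
      (cont_dw h)
  exact h1

theorem Pj_cs (z v : W n) (c : ℂ) : Pj z (c • v) = c • Pj z v := by
  rw [Pj_apply, Pj_apply, FormAux.hip_smul]
  ext k
  simp only [Pi.smul_apply, smul_eq_mul, Complex.real_smul]
  ring

theorem sub_cs (z v : W n) (c : ℂ) : (1 - Pj z) (c • v) = c • (1 - Pj z) v := by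
  have h1 : ∀ x : W n, (1 - Pj z) x = x - Pj z x := fun _ => rfl
  rw [h1, h1, Pj_cs, smul_sub]

theorem ext_hip {x y : W n} (h : ∀ q : W n, (hip x q).re = (hip y q).re) : x = y := by
  have hs : ∀ (x : W n) (k : Fin (n + 1)) (a : ℂ), hip x (Pi.single k a) = star (x k) * a := by
    intro x k a
    unfold hip
    rw [Finset.sum_eq_single k]
    · rw [Pi.single_eq_same]
    · intro j _ hj
      rw [Pi.single_eq_of_ne hj, mul_zero]
    · intro hk
      exact absurd (Finset.mem_univ k) hk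
  ext k
  have h1 := h (Pi.single k 1)
  have h2 := h (Pi.single k Complex.I)
  rw [hs, hs] at h1 h2
  apply Complex.ext
  · simpa using h1
  · simpa using h2

end GiCAux

open GiCAux

theorem cont_Pj : ContinuousOn (fun z : W n => Pj z) {0}ᶜ := by
  rw [continuousOn_clm_apply]
  intro v
  have h2 : ContinuousOn (fun z : W n => (nsq z)⁻¹) {0}ᶜ :=
    cont_nsq.continuousOn.inv₀ fun z hz => (nsq_pos (ne_of hz)).ne'
  have h3 : ContinuousOn (fun z : W n => hip z v • z) {0}ᶜ :=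
    ((cont_hip v).smul continuous_id).continuousOn
  have h1 : ContinuousOn (fun z : W n => ((nsq z)⁻¹ : ℝ) • (hip z v • z)) {0}ᶜ := h2.smul h3
  exact h1.congr fun z _ => Pj_apply z v

theorem cont_Gi {α : FW n} (h : Symp α) : ContinuousOn (Gi α) {0}ᶜ := by
  have h1 : ContinuousOn (fun z : W n => BB α z + Pj z) {0}ᶜ := (cont_BB h.1).add cont_Pj
  have h2 : ContinuousOn (fun z : W n => (1 : EndW n) - Pj z) {0}ᶜ :=
    continuousOn_const.sub cont_Pj
  have h3 : ContinuousOn (fun z : W n => Ring.inverse (BB α z + Pj z)) {0}ᶜ := by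
    intro z hz
    obtain ⟨u, hu⟩ := isUnit_BP h (ne_of hz)
    have h4 : ContinuousAt Ring.inverse (BB α z + Pj z) := by
      rw [← hu]
      exact NormedRing.inverse_continuousAt u
    exact ContinuousAt.comp_continuousWithinAt (g := Ring.inverse)
      (f := fun z : W n => BB α z + Pj z) h4 (h1 z hz)
  exact h3.mul h2

theorem cont_T3 {α : FW n} (h : Con α) : ContinuousOn (T3 α) {0}ᶜ := by
  rw [continuousOn_clm_apply]
  intro v
  rw [continuousOn_clm_apply]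
  intro p
  rw [continuousOn_clm_apply]
  intro q
  have h2 : ContinuousOn (fun z : W n => (1 : EndW n) - Pj z) {0}ᶜ :=
    continuousOn_const.sub cont_Pj
  have h3 : ∀ v : W n, ContinuousOn (fun z : W n => ((1 : EndW n) - Pj z) v) {0}ᶜ := fun v =>
    h2.clm_apply continuousOn_const
  have h4 : ContinuousOn (fun z : W n => fderiv ℝ (dw α) z (((1 : EndW n) - Pj z) v)
      (((1 : EndW n) - Pj z) p) (((1 : EndW n) - Pj z) q)) {0}ᶜ :=
    (((cont_fdw h).clm_apply (h3 v)).clm_apply (h3 p)).clm_apply (h3 q)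
  exact h4.congr fun z _ => T3_apply α z v p q

theorem cont_aO {α : FW n} (h : Symp α) : ContinuousOn (aO α) {0}ᶜ := by
  have h1 : ContinuousOn (fun z : W n => ‖z‖ * ‖T3 α z‖ * ‖Gi α z‖) {0}ᶜ :=
    (continuousOn_id.norm.mul (cont_T3 h.1).norm).mul (cont_Gi h).norm
  exact h1

theorem cont_kO {α : FW n} (h : Symp α) : ContinuousOn (kO α) {0}ᶜ := by
  have h1 : ContinuousOn (fun z : W n => ‖dw α z‖ * ‖Gi α z‖) {0}ᶜ :=
    (cont_dw h.1).norm.mul (cont_Gi h).norm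
  exact h1

theorem Pj_hom {c : ℂ} (hc : c ≠ 0) (z : W n) : Pj (c • z) = Pj z := by
  refine ContinuousLinearMap.ext fun v => ?_
  rw [Pj_apply, Pj_apply, hip_cs, ncs]
  ext k
  simp only [Pi.smul_apply, smul_eq_mul, Complex.real_smul, mul_inv, Complex.ofReal_mul]
  have h1 : ((Complex.normSq c)⁻¹ : ℝ) * (star c * c) = (1 : ℂ) := by
    have h2 : (Complex.normSq c : ℂ) = star c * c := by
      rw [mul_comm]
      exact (Complex.mul_conj c).symm
    rw [← h2, Complex.ofReal_inv, inv_mul_cancel₀]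
    exact_mod_cast (Complex.normSq_pos.2 hc).ne'
  calc ((Complex.normSq c)⁻¹ : ℝ) * ((nsq z)⁻¹ : ℝ) * (star c * hip z v * (c * z k))
      = (((Complex.normSq c)⁻¹ : ℝ) * (star c * c)) * (((nsq z)⁻¹ : ℝ) * (hip z v * z k)) := by ring
    _ = ((nsq z)⁻¹ : ℝ) * (hip z v * z k) := by rw [h1, one_mul]

namespace GiCAux

theorem T3_hom {α : FW n} (h : Con α) {c : ℂ} (hc : c ≠ 0) {z : W n} (hz : z ≠ 0)
    (v p q : W n) : T3 α (c • z) (c • v) (c • p) (c • q) = T3 α z v p q := by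
  rw [T3_apply, T3_apply, Pj_hom hc, sub_cs, sub_cs, sub_cs, FormAux.fd2_hom h hc hz]

theorem norm_T3_le {α : FW n} (h : Con α) {c : ℂ} (hc : c ≠ 0) {z : W n} (hz : z ≠ 0) :
    ‖T3 α (c • z)‖ ≤ (‖c‖⁻¹) ^ 3 * ‖T3 α z‖ := by
  have hc0 : 0 ≤ ‖c‖⁻¹ := inv_nonneg.2 (norm_nonneg c)
  refine ContinuousLinearMap.opNorm_le_bound _ (by positivity) fun u => ?_
  refine ContinuousLinearMap.opNorm_le_bound _ (by positivity) fun v => ?_
  refine ContinuousLinearMap.opNorm_le_bound _ (by positivity) fun w => ?_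
  have h1 := T3_hom h hc hz (c⁻¹ • u) (c⁻¹ • v) (c⁻¹ • w)
  rw [smul_inv_smul₀ hc, smul_inv_smul₀ hc, smul_inv_smul₀ hc] at h1
  rw [h1]
  calc ‖T3 α z (c⁻¹ • u) (c⁻¹ • v) (c⁻¹ • w)‖
      ≤ ‖T3 α z (c⁻¹ • u)‖ * ‖c⁻¹ • v‖ * ‖c⁻¹ • w‖ :=
        (T3 α z (c⁻¹ • u)).le_opNorm₂ _ _
    _ ≤ (‖T3 α z‖ * ‖c⁻¹ • u‖) * ‖c⁻¹ • v‖ * ‖c⁻¹ • w‖ := by
        gcongr
        exact (T3 α z).le_opNorm _
    _ = (‖c‖⁻¹) ^ 3 * ‖T3 α z‖ * ‖u‖ * ‖v‖ * ‖w‖ := by
        rw [norm_smul, norm_smul, norm_smul, norm_inv]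
        ring

theorem BB_cs {α : FW n} (h : Con α) {c : ℂ} (hc : c ≠ 0) {z : W n} (hz : z ≠ 0) (v : W n) :
    BB α (c • z) (c • v) = (star c)⁻¹ • BB α z v := by
  apply ext_hip
  intro q
  rw [BB_hip, hip_cs]
  have h1 : dw α (c • z) (c • v) q = dw α z v (c⁻¹ • q) := by
    have h2 := h.dw_hom hc hz v (c⁻¹ • q)
    rwa [smul_inv_smul₀ hc] at h2
  have h3 : star ((star c)⁻¹) = c⁻¹ := by
    rw [star_inv₀, star_star]
  rw [h1, h3, ← FormAux.hip_smul, BB_hip]

end GiCAux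

theorem norm_T3 {α : FW n} (h : Con α) {c : ℂ} (hc : c ≠ 0) {z : W n} (hz : z ≠ 0) :
    ‖T3 α (c • z)‖ = (‖c‖⁻¹) ^ 3 * ‖T3 α z‖ :=
  FormAux.scale_eq (f := fun z => ‖T3 α z‖) (fun _ _ hc hz => norm_T3_le h hc hz) hc hz

theorem Gi_smul {α : FW n} (h : Symp α) {c : ℂ} (hc : c ≠ 0) {z : W n} (hz : z ≠ 0) (w : W n) :
    Gi α (c • z) w = c • Gi α z ((star c) • w) := by
  symm
  apply Gi_unique h (smul_ne_zero hc hz)
  · rw [hip_cs, FormAux.hip_smul, Gi_mem h hz, mul_zero, mul_zero]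
  · rw [BB_cs h.1 hc hz, BB_Gi h hz, sub_cs, Pj_hom hc, inv_smul_smul₀ (star_ne_zero.2 hc)]

namespace GiCAux

theorem norm_Gi_le {α : FW n} (h : Symp α) {c : ℂ} (hc : c ≠ 0) {z : W n} (hz : z ≠ 0) :
    ‖Gi α (c • z)‖ ≤ ‖c‖ ^ 2 * ‖Gi α z‖ := by
  refine ContinuousLinearMap.opNorm_le_bound _ (by positivity) fun w => ?_
  rw [Gi_smul h hc hz]
  calc ‖c • Gi α z (star c • w)‖ = ‖c‖ * ‖Gi α z (star c • w)‖ := norm_smul _ _
    _ ≤ ‖c‖ * (‖Gi α z‖ * ‖star c • w‖) := by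
        gcongr
        exact (Gi α z).le_opNorm _
    _ = ‖c‖ ^ 2 * ‖Gi α z‖ * ‖w‖ := by
        rw [norm_smul, norm_star]
        ring

end GiCAux

theorem norm_Gi {α : FW n} (h : Symp α) {c : ℂ} (hc : c ≠ 0) {z : W n} (hz : z ≠ 0) :
    ‖Gi α (c • z)‖ = ‖c‖ ^ 2 * ‖Gi α z‖ := by
  apply le_antisymm (norm_Gi_le h hc hz)
  have h1 := norm_Gi_le h (inv_ne_zero hc) (smul_ne_zero hc hz)
  rw [inv_smul_smul₀ hc, norm_inv] at h1
  have h2 : 0 < ‖c‖ := norm_pos_iff.2 hc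
  calc ‖c‖ ^ 2 * ‖Gi α z‖ ≤ ‖c‖ ^ 2 * ((‖c‖⁻¹) ^ 2 * ‖Gi α (c • z)‖) := by
        apply mul_le_mul_of_nonneg_left h1 (by positivity)
    _ = ‖Gi α (c • z)‖ := by
        rw [← mul_assoc, ← mul_pow, mul_inv_cancel₀ h2.ne', one_pow, one_mul]

theorem aO_smul {α : FW n} (h : Symp α) {c : ℂ} (hc : c ≠ 0) {z : W n} (hz : z ≠ 0) :
    aO α (c • z) = aO α z := by
  have h2 : ‖c‖ ≠ 0 := norm_ne_zero_iff.2 hc
  unfold aO
  rw [norm_T3 h.1 hc hz, norm_Gi h hc hz, norm_smul]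
  field_simp

theorem kO_smul {α : FW n} (h : Symp α) {c : ℂ} (hc : c ≠ 0) {z : W n} (hz : z ≠ 0) :
    kO α (c • z) = kO α z := by
  have h2 : ‖c‖ ≠ 0 := norm_ne_zero_iff.2 hc
  unfold kO
  rw [h.1.norm_dw hc hz, norm_Gi h hc hz]
  field_simp

end Pool.Agent.Lib.P28u
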