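import Pool.Agent.Lib.P28u.LogF
import Pool.Agent.Lib.P28u.FrD
import Pool.Agent.Lib.P28u.FrTj
import Pool.Agent.Lib.P28u.GiC

set_option autoImplicit false
set_option maxSynthPendingDepth 3

/-!
# The condition number in the charts

PROOF. `Tm α j y k l = dw α (Tj j (sl n y)) (Sj j e_k) (Sj j e_l)`; `sl n y = e0 n + Lv n y` (`sl_eq`), `Tj j (sl n y) ≠ 0` (`Tj_ne`), `dw α` is smooth off `0` (`Con.contDiffAt_dw`): `SM 1 (Tm α j) y` (even `SM ∞`) and `DE (Tm α j) y (Pi.single i 1) = FD α (Tj j (sl n y)) (Sj j) i` (`fderiv` of `y ↦ Tj j (sl n y)` is `Sj j`).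
`fm_unit` with `frm_tj'`: units everywhere, `log_smooth`: `fj α j` is `C^1`. Let `K₀` from `frm_tj`, `C₁` from `fr_c`, `C₂` from `fr_d`. For `‖y‖ ≤ 2`, `z = Tj j (sl n y)`: by `fr_d` and `log_f` `|fderiv (fj α j) y e_i| ≤ 4 √(C₂) ‖T3 α z‖ √(C₁) ‖Gi α z‖ + 8 √(C₂)` and `‖T3‖ ‖Gi‖ ≤ K₀ ‖z‖ ‖T3‖ ‖Gi‖ = K₀ aO α z` (`Frm.lez`);
`‖ℓ‖ ≤ ∑ i, |ℓ e_i|` for a functional on `V` (max norm): `‖fderiv (fj α j) y‖ ≤ K (1 + aO α z)`. `exp (fj α j y) = fr2 T * fr2 T⁻¹` (`Real.exp_log`, positive), and `kO² = ‖dw α z‖² ‖Gi α z‖² ≤ C₁² fr2 T fr2 T⁻¹`, `fr2 T fr2 T⁻¹ ≤ C₁² kO²`. Continuity and homogeneity: `cont_aO`, `cont_kO`, `aO_smul`, `kO_smul`. Take `K` large, `1 ≤ K`.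
-/

open MeasureTheory Set Metric
open scoped ContDiff Topology ENNReal

namespace Pool.Agent.Lib.P28u

open Pool.Agent.P28b04d Pool.Agent.Lib.P28e Pool.Agent.Lib.P28c Pool.Agent.Lib.P28t
open Pool.Agent.Lib.P28f (V EV)

variable {n : ℕ}

namespace ChUAux

theorem phi_fd (j : Fin (n + 1)) (y : V (n * 2)) :
    HasFDerivAt (fun y : V (n * 2) => Tj j (sl n y)) (Sj j) y := by
  have h1 : HasFDerivAt (fun y : V (n * 2) => e0 n + Lv n y) (Lv n) y :=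
    (Lv n).hasFDerivAt.const_add _
  have h2 : (fun y : V (n * 2) => Tj j (sl n y)) = fun y => (Tj j : W n →L[ℝ] W n) (e0 n + Lv n y) := by
    funext y
    rw [sl_eq]
    rfl
  rw [h2]
  exact ((Tj j : W n →L[ℝ] W n).hasFDerivAt).comp y h1

theorem phi_smooth (j : Fin (n + 1)) : ContDiff ℝ 1 (fun y : V (n * 2) => Tj j (sl n y)) := by
  have h2 : (fun y : V (n * 2) => Tj j (sl n y)) = fun y => (Tj j : W n →L[ℝ] W n) (e0 n + Lv n y) := by
    funext y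
    rw [sl_eq]
    rfl
  rw [h2]
  exact (Tj j : W n →L[ℝ] W n).contDiff.comp (contDiff_const.add (Lv n).contDiff)

theorem sm_Tm {α : FW n} (hα : Con α) (j : Fin (n + 1)) (y : V (n * 2)) : SM 1 (Tm α j) y := by
  intro k l
  have h0 : ContDiffAt ℝ 1 (dw α) (Tj j (sl n y)) := (hα.contDiffAt_dw (Tj_ne j y)).of_le (by simp)
  have h1 : ContDiffAt ℝ 1 (fun y : V (n * 2) => dw α (Tj j (sl n y))) y :=
    ContDiffAt.comp (g := dw α) (f := fun y : V (n * 2) => Tj j (sl n y)) y h0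
      (phi_smooth j).contDiffAt
  exact (h1.clm_apply contDiffAt_const).clm_apply contDiffAt_const

theorem de_Tm {α : FW n} (hα : Con α) (j : Fin (n + 1)) (y : V (n * 2)) (i : Fin (n * 2)) :
    DE (Tm α j) y (Pi.single i 1) = FD α (Tj j (sl n y)) (Sj j) i := by
  funext k l
  have h0 : HasFDerivAt (dw α) (fderiv ℝ (dw α) (Tj j (sl n y))) (Tj j (sl n y)) :=
    ((hα.contDiffAt_dw (Tj_ne j y)).differentiableAt (by simp)).hasFDerivAt
  have h1 : HasFDerivAt (fun y : V (n * 2) => dw α (Tj j (sl n y)))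
      ((fderiv ℝ (dw α) (Tj j (sl n y))).comp (Sj j)) y :=
    HasFDerivAt.comp (g := dw α) (f := fun y : V (n * 2) => Tj j (sl n y)) y h0 (phi_fd j y)
  have h2 := (h1.clm_apply (hasFDerivAt_const (Sj j (Pi.single k 1)) y)).clm_apply
    (hasFDerivAt_const (Sj j (Pi.single l 1)) y)
  have h3 : (fun y : V (n * 2) => Tm α j y k l) =
      fun y => dw α (Tj j (sl n y)) (Sj j (Pi.single k 1)) (Sj j (Pi.single l 1)) := rfl
  show fderiv ℝ (fun y : V (n * 2) => Tm α j y k l) y (Pi.single i 1) = _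
  rw [h3, h2.fderiv]
  simp [FD]

theorem clm_le {m : ℕ} (L : V m →L[ℝ] ℝ) : ‖L‖ ≤ ∑ i, |L (Pi.single i 1)| := by
  refine ContinuousLinearMap.opNorm_le_bound _ (Finset.sum_nonneg fun i _ => abs_nonneg _) fun x => ?_
  have h1 : L x = ∑ i, x i * L (Pi.single i 1) := by
    conv_lhs => rw [← Finset.univ_sum_single x]
    rw [map_sum]
    refine Finset.sum_congr rfl fun i _ => ?_
    have h2 : (Pi.single i (x i) : V m) = x i • (Pi.single i (1 : ℝ) : V m) := by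
      funext j
      by_cases hj : j = i
      · subst hj
        simp
      · simp [hj]
    rw [h2, map_smul, smul_eq_mul]
  rw [h1, Finset.sum_mul]
  refine (norm_sum_le _ _).trans (Finset.sum_le_sum fun i _ => ?_)
  rw [norm_mul, Real.norm_eq_abs (L _), mul_comm]
  exact mul_le_mul_of_nonneg_left (norm_le_pi_norm x i) (abs_nonneg _)

theorem sqrt_le' {a C x : ℝ} (hC : 0 ≤ C) (hx : 0 ≤ x) (h : a ≤ C * x ^ 2) :
    Real.sqrt a ≤ Real.sqrt C * x := by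
  calc Real.sqrt a ≤ Real.sqrt (C * x ^ 2) := Real.sqrt_le_sqrt h
    _ = Real.sqrt C * x := by rw [Real.sqrt_mul hC, Real.sqrt_sq hx]

end ChUAux

open ChUAux

theorem ch_u (n : ℕ) (hn : 1 ≤ n) : ∃ K : ℝ, 1 ≤ K ∧ ∀ α : FW n, Symp α → Mos K (aO α) (kO α) (fj α) := by
  obtain ⟨K₀, hK₀, hfr⟩ := frm_tj n
  obtain ⟨C₁, hC₁, hc⟩ := fr_c n K₀
  obtain ⟨C₂, hC₂, hd⟩ := fr_d n K₀
  set M : ℝ := 4 * (Real.sqrt C₂ * Real.sqrt C₁ * K₀) + 8 * Real.sqrt C₂ with hM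
  have hM0 : 0 ≤ M := by positivity
  refine ⟨1 + ((n : ℝ) * 2) * M + C₁ ^ 2, by nlinarith [mul_nonneg (mul_nonneg (Nat.cast_nonneg (α := ℝ) n) zero_le_two) hM0, sq_nonneg C₁], ?_⟩
  intro α hα
  have hu : ∀ (j : Fin (n + 1)) (y : V (n * 2)), IsUnit (Tm α j y) := by
    intro j y
    obtain ⟨K, hK⟩ := frm_tj' j y
    exact fm_unit hα hK
  have hna : ∀ z, 0 ≤ aO α z := fun z => by unfold aO; positivity
  have hnk : ∀ z, 0 ≤ kO α z := fun z => by unfold kO; positivity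
  have hexp : ∀ (j : Fin (n + 1)) (y : V (n * 2)),
      Real.exp (fj α j y) = fr2 (Tm α j y) * fr2 (Tm α j y)⁻¹ := by
    intro j y
    unfold fj
    rw [Real.exp_add, Real.exp_log (fr2_pos hn (hu j y)), Real.exp_log (fr2_inv_pos hn (hu j y))]
  refine ⟨cont_aO hα, cont_kO hα, fun c z hc hz => aO_smul hα hc hz, fun c z hc hz => kO_smul hα hc hz,
    hna, hnk, ?_, ?_, ?_, ?_⟩
  · intro j
    rw [contDiff_iff_contDiffAt]
    intro y
    exact log_smooth hn (sm_Tm hα.1 j y) (hu j y)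
  · intro j y hy
    have hF := hfr j y hy
    obtain ⟨c1, c2, c3, c4⟩ := hc α hα _ _ hF
    have hi : ∀ i : Fin (n * 2), |fderiv ℝ (fj α j) y (Pi.single i 1)| ≤ M * (1 + aO α (Tj j (sl n y))) := by
      intro i
      obtain ⟨H, L, h1, h2, h3⟩ := hd α hα _ _ hF i
      have h4 : DE (Tm α j) y (Pi.single i 1) = H + L.transpose * Tm α j y + Tm α j y * L := by
        rw [de_Tm hα.1]
        exact h1
      have h5 := log_f hn (sm_Tm hα.1 j y) (hu j y) h4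
      have h6 : Real.sqrt (fr2 H) ≤ Real.sqrt C₂ * ‖T3 α (Tj j (sl n y))‖ :=
        sqrt_le' hC₂.le (norm_nonneg _) h2
      have h7 : Real.sqrt (fr2 (Tm α j y)⁻¹) ≤ Real.sqrt C₁ * ‖Gi α (Tj j (sl n y))‖ :=
        sqrt_le' hC₁.le (norm_nonneg _) c4
      have h8 : Real.sqrt (fr2 L) ≤ Real.sqrt C₂ := Real.sqrt_le_sqrt h3
      have h9 : ‖T3 α (Tj j (sl n y))‖ * ‖Gi α (Tj j (sl n y))‖ ≤ K₀ * aO α (Tj j (sl n y)) := by
        have h10 := hF.lez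
        have h11 : 0 ≤ ‖T3 α (Tj j (sl n y))‖ * ‖Gi α (Tj j (sl n y))‖ := by positivity
        calc ‖T3 α (Tj j (sl n y))‖ * ‖Gi α (Tj j (sl n y))‖
            = 1 * (‖T3 α (Tj j (sl n y))‖ * ‖Gi α (Tj j (sl n y))‖) := (one_mul _).symm
          _ ≤ (K₀ * ‖Tj j (sl n y)‖) * (‖T3 α (Tj j (sl n y))‖ * ‖Gi α (Tj j (sl n y))‖) :=
              mul_le_mul_of_nonneg_right h10 h11
          _ = K₀ * aO α (Tj j (sl n y)) := by
              unfold aO
              ring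
      have h12 : Real.sqrt (fr2 H) * Real.sqrt (fr2 (Tm α j y)⁻¹) ≤
          Real.sqrt C₂ * Real.sqrt C₁ * K₀ * aO α (Tj j (sl n y)) := by
        calc Real.sqrt (fr2 H) * Real.sqrt (fr2 (Tm α j y)⁻¹)
            ≤ (Real.sqrt C₂ * ‖T3 α (Tj j (sl n y))‖) * (Real.sqrt C₁ * ‖Gi α (Tj j (sl n y))‖) :=
              mul_le_mul h6 h7 (Real.sqrt_nonneg _) (by positivity)
          _ = Real.sqrt C₂ * Real.sqrt C₁ * (‖T3 α (Tj j (sl n y))‖ * ‖Gi α (Tj j (sl n y))‖) := by ring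
          _ ≤ Real.sqrt C₂ * Real.sqrt C₁ * (K₀ * aO α (Tj j (sl n y))) :=
              mul_le_mul_of_nonneg_left h9 (by positivity)
          _ = _ := by ring
      have h13 : |fderiv ℝ (fj α j) y (Pi.single i 1)| ≤
          4 * (Real.sqrt (fr2 H) * Real.sqrt (fr2 (Tm α j y)⁻¹)) + 8 * Real.sqrt (fr2 L) := h5
      have h14 := hna (Tj j (sl n y))
      have h15 : 0 ≤ Real.sqrt C₂ * Real.sqrt C₁ * K₀ := by positivity
      have h16 : 0 ≤ Real.sqrt C₂ := Real.sqrt_nonneg _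
      rw [hM]
      nlinarith [mul_nonneg h16 h14]
    calc ‖fderiv ℝ (fj α j) y‖ ≤ ∑ i, |fderiv ℝ (fj α j) y (Pi.single i 1)| := clm_le _
      _ ≤ ∑ _i : Fin (n * 2), M * (1 + aO α (Tj j (sl n y))) := Finset.sum_le_sum fun i _ => hi i
      _ = ((n : ℝ) * 2) * M * (1 + aO α (Tj j (sl n y))) := by
          rw [Finset.sum_const, Finset.card_univ, Fintype.card_fin, nsmul_eq_mul]
          push_cast
          ring
      _ ≤ (1 + ((n : ℝ) * 2) * M + C₁ ^ 2) * (1 + aO α (Tj j (sl n y))) := by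
          refine mul_le_mul_of_nonneg_right ?_ (by linarith [hna (Tj j (sl n y))])
          nlinarith [sq_nonneg C₁]
  · intro j y hy
    obtain ⟨c1, c2, c3, c4⟩ := hc α hα _ _ (hfr j y hy)
    rw [hexp]
    have h1 : 0 ≤ fr2 (Tm α j y) := fr2_nonneg _
    have h2 : 0 ≤ fr2 (Tm α j y)⁻¹ := fr2_nonneg _
    calc kO α (Tj j (sl n y)) ^ 2 = ‖dw α (Tj j (sl n y))‖ ^ 2 * ‖Gi α (Tj j (sl n y))‖ ^ 2 := by
          unfold kO
          ring
      _ ≤ (C₁ * fr2 (Tm α j y)) * (C₁ * fr2 (Tm α j y)⁻¹) :=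
          mul_le_mul c1 c3 (by positivity) (by positivity)
      _ = C₁ ^ 2 * (fr2 (Tm α j y) * fr2 (Tm α j y)⁻¹) := by ring
      _ ≤ (1 + ((n : ℝ) * 2) * M + C₁ ^ 2) * (fr2 (Tm α j y) * fr2 (Tm α j y)⁻¹) := by
          refine mul_le_mul_of_nonneg_right ?_ (mul_nonneg h1 h2)
          have : 0 ≤ ((n : ℝ) * 2) * M := by positivity
          linarith
  · intro j y hy
    obtain ⟨c1, c2, c3, c4⟩ := hc α hα _ _ (hfr j y hy)
    rw [hexp]
    have h2 : 0 ≤ fr2 (Tm α j y)⁻¹ := fr2_nonneg _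
    calc fr2 (Tm α j y) * fr2 (Tm α j y)⁻¹
        ≤ (C₁ * ‖dw α (Tj j (sl n y))‖ ^ 2) * (C₁ * ‖Gi α (Tj j (sl n y))‖ ^ 2) :=
          mul_le_mul c2 c4 h2 (by positivity)
      _ = C₁ ^ 2 * kO α (Tj j (sl n y)) ^ 2 := by
          unfold kO
          ring
      _ ≤ (1 + ((n : ℝ) * 2) * M + C₁ ^ 2) * kO α (Tj j (sl n y)) ^ 2 := by
          refine mul_le_mul_of_nonneg_right ?_ (by positivity)
          have : 0 ≤ ((n : ℝ) * 2) * M := by positivity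
          linarith

end Pool.Agent.Lib.P28u
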