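import Pool.Agent.Lib.P28u.Defs
import Pool.Agent.Lib.P28t.Form

set_option autoImplicit false
set_option maxSynthPendingDepth 3

/-!
# The projection onto `ℂ z` and the inverse of `dw α z` on `z^⊥`: algebra

PROOF. `nsq z > 0` for `z ≠ 0` (`P28b04d`), `hip z z = nsq z`. `Pj_apply`: `Pj z v = (hip z v / nsq z) z`, so `hip z (Pj z v) = hip z v`, `Pj z v = v` for `v = c z`, `Pj z v = 0` iff `hip z v = 0`.
`BB_hip`: with `u = BB α z p`: `u k = φ e_k + i φ (i e_k)`, `φ = dw α z p`; `re (star (u k) q_k) = re q_k φ e_k + im q_k φ (i e_k)` and `q = ∑ k (re q_k e_k + im q_k (i e_k))`, `φ` is real-linear. `hip_BB`: `re (hip z (BB p)) = re (hip (BB p) z) = dw α z p z = 0` and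
`im (hip z (BB p)) = - re (hip z (BB p) i) ..`: precisely `hip u (i z) = i hip u z`, `re (hip u (i z)) = - im (hip u z)`, both `dw α z p z` and `dw α z p (i z)` vanish (`Con.dw_right`), and `hip z u = star (hip u z)`. `BB_self`: `dw α z (c z) = 0` by `Con.dw_left`.
`isUnit_BP`: `BB α z + Pj z` is injective: if `BB v + Pj v = 0`, apply `hip z`: `hip z (Pj v) = 0`, so `hip z v = 0` and `Pj v = 0`, `BB v = 0`; then `dw α z v w = re (hip (BB v) w) = 0` for all `w`, so `v = c z` by `NdAt`, and `hip z v = 0` gives `c = 0`. An injective endomorphism of a finite-dimensional space is a unit.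
`Gi_mem`, `BB_Gi`: put `w = Gi v = (BB + Pj)⁻¹ ((1 - Pj) v)`, so `BB w + Pj w = (1 - Pj) v`; apply `hip z`: `hip z w = 0`, so `Pj w = 0`, `BB w = (1 - Pj) v`. `Gi_BB`: `(1 - Pj) (BB v) = BB v = (BB + Pj) ((1 - Pj) v)` (since `BB (Pj v) = 0`, `Pj ((1 - Pj) v) = 0`).
`Gi_unique`: `BB (u - Gi w) = 0` and `hip z (u - Gi w) = 0`, as in `isUnit_BP`. `rep_norm`: each component of `repL φ` has norm at most `2 ‖φ‖`.
-/

open MeasureTheory Set Metric
open scoped ContDiff Topology ENNReal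

namespace Pool.Agent.Lib.P28u

open Pool.Agent.P28b04d Pool.Agent.Lib.P28e Pool.Agent.Lib.P28c Pool.Agent.Lib.P28t

variable {n : ℕ}

namespace GiFAux

theorem smulR (r : ℝ) (v : W n) : r • v = (r : ℂ) • v := by
  funext k
  simp [Complex.real_smul]

theorem hip_smulR (z v : W n) (r : ℝ) : hip z (r • v) = (r : ℂ) * hip z v := by
  rw [smulR, FormAux.hip_smul]

theorem hip_star (u z : W n) : hip z u = star (hip u z) := by
  unfold hip
  rw [star_sum]
  refine Finset.sum_congr rfl fun k _ => ?_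
  rw [star_mul, star_star]

theorem Pj_eq (z v : W n) : Pj z v = (((nsq z)⁻¹ : ℝ) * hip z v : ℂ) • z := by
  rw [Pj_apply, smulR, smul_smul]

theorem split_val (φ : W n →L[ℝ] ℝ) (q : W n) :
    φ q = ∑ k, ((q k).re * φ (Pi.single k 1) + (q k).im * φ (Pi.single k Complex.I)) := by
  have e : q = ∑ k, ((q k).re • (Pi.single k (1 : ℂ) : W n) + (q k).im • (Pi.single k Complex.I : W n)) := by
    conv_lhs => rw [← Finset.univ_sum_single q]
    refine Finset.sum_congr rfl fun k _ => ?_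
    funext j
    by_cases hj : j = k
    · subst hj
      simp only [Pi.single_eq_same, Pi.add_apply, Pi.smul_apply, Complex.real_smul, mul_one]
      exact (Complex.re_add_im (q j)).symm
    · simp [hj]
  conv_lhs => rw [e]
  rw [map_sum]
  refine Finset.sum_congr rfl fun k _ => ?_
  rw [map_add, map_smul, map_smul, smul_eq_mul, smul_eq_mul]

theorem repL_apply (φ : W n →L[ℝ] ℝ) (k : Fin (n + 1)) :
    repL φ k = (φ (Pi.single k 1) : ℂ) + Complex.I * (φ (Pi.single k Complex.I) : ℂ) := by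
  simp [repL]

theorem single_norm (k : Fin (n + 1)) (c : ℂ) (hc : ‖c‖ ≤ 1) : ‖(Pi.single k c : W n)‖ ≤ 1 := by
  rw [pi_norm_le_iff_of_nonneg zero_le_one]
  intro j
  by_cases hj : j = k
  · subst hj
    simpa using hc
  · simp [hj]

theorem unit_of_inj {A : EndW n} (h : ∀ v, A v = 0 → v = 0) : IsUnit A := by
  have hi : Function.Injective (A : W n →ₗ[ℝ] W n) :=
    (injective_iff_map_eq_zero _).2 fun v hv => h v hv
  exact ⟨ContinuousLinearEquiv.toUnit (LinearEquiv.ofInjectiveEndo (A : W n →ₗ[ℝ] W n) hi).toContinuousLinearEquiv, rfl⟩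

end GiFAux

theorem hip_Pj {z : W n} (hz : z ≠ 0) (v : W n) : hip z (Pj z v) = hip z v := by
  rw [GiFAux.Pj_eq, FormAux.hip_smul, hip_self]
  have h := nsq_ne hz
  rw [mul_comm ((((nsq z)⁻¹ : ℝ) : ℂ)) (hip z v), mul_assoc]
  push_cast
  rw [inv_mul_cancel₀ h, mul_one]

theorem hip_sub_Pj {z : W n} (hz : z ≠ 0) (v : W n) : hip z ((1 - Pj z) v) = 0 := by
  rw [sub_apply, FormAux.hip_sub, hip_Pj hz]
  simp

theorem Pj_smul {z : W n} (hz : z ≠ 0) (c : ℂ) : Pj z (c • z) = c • z := by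
  rw [GiFAux.Pj_eq, FormAux.hip_smul, hip_self]
  have h := nsq_ne hz
  congr 1
  push_cast
  field_simp

theorem Pj_eq_zero {z v : W n} (h : hip z v = 0) : Pj z v = 0 := by
  rw [GiFAux.Pj_eq, h, mul_zero, zero_smul]

theorem sub_Pj_eq {z v : W n} (h : hip z v = 0) : (1 - Pj z) v = v := by
  rw [sub_apply, Pj_eq_zero h, sub_zero]
  rfl

theorem rep_hip (φ : W n →L[ℝ] ℝ) (q : W n) : (hip (repL φ) q).re = φ q := by
  rw [GiFAux.split_val φ q]
  unfold hip
  rw [Complex.re_sum]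
  refine Finset.sum_congr rfl fun k _ => ?_
  rw [GiFAux.repL_apply]
  simp [Complex.mul_re, Complex.add_re, Complex.add_im]
  ring

theorem rep_norm (φ : W n →L[ℝ] ℝ) : ‖repL φ‖ ≤ 2 * ‖φ‖ := by
  rw [pi_norm_le_iff_of_nonneg (by positivity)]
  intro k
  rw [GiFAux.repL_apply]
  refine (norm_add_le _ _).trans ?_
  rw [norm_mul, Complex.norm_I, one_mul, Complex.norm_real, Complex.norm_real]
  have h1 : ‖φ (Pi.single k 1)‖ ≤ ‖φ‖ := by
    refine (φ.le_opNorm _).trans ?_
    exact mul_le_of_le_one_right (norm_nonneg _) (GiFAux.single_norm k 1 (by simp))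
  have h2 : ‖φ (Pi.single k Complex.I)‖ ≤ ‖φ‖ := by
    refine (φ.le_opNorm _).trans ?_
    exact mul_le_of_le_one_right (norm_nonneg _) (GiFAux.single_norm k _ (by simp))
  linarith

theorem BB_hip (α : FW n) (z p q : W n) : (hip (BB α z p) q).re = dw α z p q := by
  exact rep_hip (dw α z p) q

theorem BB_norm (α : FW n) (z p : W n) : ‖BB α z p‖ ≤ 2 * ‖dw α z p‖ := by
  exact rep_norm (dw α z p)

theorem hip_BB {α : FW n} (h : Con α) {z : W n} (hz : z ≠ 0) (p : W n) :
    hip z (BB α z p) = 0 := by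
  have h1 : (hip (BB α z p) z).re = 0 := by
    rw [BB_hip]
    have := h.dw_right hz 1 p
    rwa [one_smul] at this
  have h2 : (hip (BB α z p) z).im = 0 := by
    have h3 := BB_hip α z p (Complex.I • z)
    rw [h.dw_right hz, FormAux.hip_smul] at h3
    simpa using h3
  have h4 : hip (BB α z p) z = 0 := Complex.ext h1 h2
  rw [GiFAux.hip_star, h4, star_zero]

theorem BB_self {α : FW n} (h : Con α) {z : W n} (hz : z ≠ 0) (c : ℂ) :
    BB α z (c • z) = 0 := by
  have h1 : dw α z (c • z) = 0 := by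
    ext w
    exact h.dw_left hz c w
  show repL (dw α z (c • z)) = 0
  rw [h1, map_zero]

namespace GiFAux

theorem inj {α : FW n} (h : Symp α) {z : W n} (hz : z ≠ 0) {v : W n} (hv : BB α z v = 0)
    (h0 : hip z v = 0) : v = 0 := by
  obtain ⟨c, hc⟩ := h.2 z hz v fun w => by
    rw [← BB_hip, hv]
    simp [hip]
  rw [hc, FormAux.hip_smul, hip_self] at h0
  rcases mul_eq_zero.1 h0 with h1 | h1
  · rw [hc, h1, zero_smul]
  · exact absurd h1 (nsq_ne hz)

end GiFAux

theorem isUnit_BP {α : FW n} (h : Symp α) {z : W n} (hz : z ≠ 0) :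
    IsUnit (BB α z + Pj z) := by
  refine GiFAux.unit_of_inj fun v hv => ?_
  rw [add_apply] at hv
  have h1 : hip z v = 0 := by
    have h2 := congrArg (hip z) hv
    rw [FormAux.hip_add, hip_BB h.1 hz, hip_Pj hz, zero_add] at h2
    rw [h2]
    simp [hip]
  rw [Pj_eq_zero h1, add_zero] at hv
  exact GiFAux.inj h hz hv h1

namespace GiFAux

theorem Gi_spec {α : FW n} (h : Symp α) {z : W n} (hz : z ≠ 0) (v : W n) :
    hip z (Gi α z v) = 0 ∧ BB α z (Gi α z v) = (1 - Pj z) v := by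
  have h4 : (BB α z + Pj z) * Ring.inverse (BB α z + Pj z) = 1 := Ring.mul_inverse_cancel _ (isUnit_BP h hz)
  have h5 : (BB α z + Pj z) (Gi α z v) = (1 - Pj z) v :=
    congrArg (fun A : EndW n => A ((1 - Pj z) v)) h4
  rw [add_apply] at h5
  have h1 : hip z (Gi α z v) = 0 := by
    have h2 := congrArg (hip z) h5
    rw [FormAux.hip_add, hip_BB h.1 hz, hip_Pj hz, zero_add, hip_sub_Pj hz] at h2
    exact h2
  rw [Pj_eq_zero h1, add_zero] at h5
  exact ⟨h1, h5⟩

end GiFAux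

theorem Gi_mem {α : FW n} (h : Symp α) {z : W n} (hz : z ≠ 0) (v : W n) :
    hip z (Gi α z v) = 0 := by
  exact (GiFAux.Gi_spec h hz v).1

theorem BB_Gi {α : FW n} (h : Symp α) {z : W n} (hz : z ≠ 0) (v : W n) :
    BB α z (Gi α z v) = (1 - Pj z) v := by
  exact (GiFAux.Gi_spec h hz v).2

theorem Gi_BB {α : FW n} (h : Symp α) {z : W n} (hz : z ≠ 0) (v : W n) :
    Gi α z (BB α z v) = (1 - Pj z) v := by
  have h1 : (1 - Pj z) (BB α z v) = BB α z v := sub_Pj_eq (hip_BB h.1 hz v)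
  have h2 : (BB α z + Pj z) ((1 - Pj z) v) = BB α z v := by
    rw [add_apply, Pj_eq_zero (hip_sub_Pj hz v), add_zero, sub_apply,
      map_sub, GiFAux.Pj_eq, BB_self h.1 hz, sub_zero]
    rfl
  have h3 : Gi α z (BB α z v) = Ring.inverse (BB α z + Pj z) ((1 - Pj z) (BB α z v)) := rfl
  rw [h3, h1, ← h2]
  have h4 : Ring.inverse (BB α z + Pj z) * (BB α z + Pj z) = 1 := Ring.inverse_mul_cancel _ (isUnit_BP h hz)
  exact congrArg (fun A : EndW n => A ((1 - Pj z) v)) h4

theorem Gi_self {α : FW n} {z : W n} (hz : z ≠ 0) (c : ℂ) :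
    Gi α z (c • z) = 0 := by
  have h3 : Gi α z (c • z) = Ring.inverse (BB α z + Pj z) ((1 - Pj z) (c • z)) := rfl
  rw [h3, sub_apply, Pj_smul hz]
  simp

theorem Gi_unique {α : FW n} (h : Symp α) {z : W n} (hz : z ≠ 0) {u w : W n}
    (hu : hip z u = 0) (hw : BB α z u = (1 - Pj z) w) : u = Gi α z w := by
  have h1 : BB α z (u - Gi α z w) = 0 := by
    rw [map_sub, hw, BB_Gi h hz, sub_self]
  have h2 : hip z (u - Gi α z w) = 0 := by
    rw [FormAux.hip_sub, hu, Gi_mem h hz, sub_zero]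
  exact sub_eq_zero.1 (GiFAux.inj h hz h1 h2)

end Pool.Agent.Lib.P28u
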