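import Pool.Agent.Lib.P28u.FrA
import Pool.Agent.Lib.P28u.GiF
import Pool.Agent.Lib.P28t.MFacts

set_option autoImplicit false
set_option maxSynthPendingDepth 3

/-!
# The form in a frame

PROOF. Let `z ≠ 0` (`Frm.lez`), `b = dw α z`, `T = FM α z S`, `N = 2 n`. AUXILIARY: `‖Pj z v‖ ≤ (n + 1) ‖v‖` (`Pj_apply`, `‖hip z v‖ ≤ (n + 1) ‖z‖ ‖v‖`, `‖z‖² ≤ nsq z`). `b (c • z) w = 0 = b w (c • z)` (`Con.dw_left`, `Con.dw_right`). For `x, y : V (n * 2)`: `(x ᵥ* T) l = b (S x) (S e_l)` and `b (S x) (S y) = ∑ l, y l * (x ᵥ* T) l` (linearity, `x = ∑ x k • e_k`).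
UNIT: if `x ᵥ* T = 0` then `b (S x) (S y + c • z) = 0` for all `y`, `c`, so by `cov` and `Symp` (`NdAt`) `S x = c • z` and `inj` gives `x = 0`; injectivity of `x ↦ x ᵥ* T` gives `IsUnit T` (`Matrix.vecMul_injective_iff_isUnit`).
(1) `v = S y + c z`, `w = S y' + c' z`, `‖y‖ ≤ K ‖v‖`, `‖y'‖ ≤ K ‖w‖` (`inj`): `|b v w| = |b (S y) (S y')| ≤ N² ‖y‖ ‖y'‖ √(fr2 T)`. So `‖b‖² ≤ (N² K²)² fr2 T` (`ContinuousLinearMap.opNorm_le_bound` twice). (2) `|T k l| ≤ ‖b‖ K²` (`‖e_k‖ = 1`), `fr2_le`.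
(3) For `x : V`, `r = x ᵥ* T`: `p = (1 - Pj z) (S x)`, `hip z p = 0`, `p = S x + c z`, so `‖x‖ ≤ K ‖p‖` (`inj`); `Gi α z (BB α z p) = (1 - Pj z) p = p` (`Gi_BB`, `sub_Pj_eq`), so `‖p‖ ≤ ‖Gi‖ ‖BB p‖ ≤ 2 ‖Gi‖ ‖b p‖` (`BB_norm`); `b p w = b (S x) (S y) = ∑ y_l r_l` for `w = S y + c z`, so `‖b p‖ ≤ N K ‖r‖`. Hence
`‖x‖ ≤ 2 N K² ‖Gi‖ ‖x ᵥ* T‖`. For the row `x = T⁻¹ k`: `x ᵥ* T = e_k`, so all entries of `T⁻¹` are at most `2 N K² ‖Gi‖`; `fr2_le`. (4) `v : W n`, `p = Gi α z v`, `hip z p = 0` (`Gi_mem`), `BB α z p = (1 - Pj z) v = q` (`BB_Gi`). `p = S x + c z` (`cov`). `r = x ᵥ* T`, `r_l = b (S x) (S e_l) = b p (S e_l) = re (hip q (S e_l))` (`BB_hip`),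
`|r_l| ≤ (n + 1) ‖q‖ K ≤ (n + 1) (n + 2) K ‖v‖`; `x = r ᵥ* T⁻¹`, `‖x‖ ≤ N √(fr2 T⁻¹) ‖r‖` (`norm_vecMul_le`); `p = (1 - Pj z) p = (1 - Pj z) (S x)`, `‖p‖ ≤ (n + 2) K ‖x‖`. The constant depends on `n` and `K` only.
-/

open MeasureTheory Set Metric
open scoped ContDiff Topology ENNReal

namespace Pool.Agent.Lib.P28u

open Pool.Agent.P28b04d Pool.Agent.Lib.P28e Pool.Agent.Lib.P28c Pool.Agent.Lib.P28t
open Pool.Agent.Lib.P28f (V EV)

variable {n : ℕ}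

theorem norm_Pj_le {z : W n} (hz : z ≠ 0) (v : W n) : ‖Pj z v‖ ≤ ((n : ℝ) + 1) * ‖v‖ := by
  have hz0 : 0 < ‖z‖ := norm_pos_iff.2 hz
  have h1 := MFactsAux.sq_le_nsq z
  have h2 := MFactsAux.norm_hip z v
  have hn : 0 < nsq z := by nlinarith
  rw [Pj_apply, norm_smul, norm_smul, Real.norm_of_nonneg (inv_nonneg.2 hn.le),
    inv_mul_le_iff₀ hn]
  have h3 : ‖hip z v‖ * ‖z‖ ≤ ((n : ℝ) + 1) * (‖z‖ * ‖v‖) * ‖z‖ :=
    mul_le_mul_of_nonneg_right h2 hz0.le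
  have h4 : ((n : ℝ) + 1) * ‖v‖ * ‖z‖ ^ 2 ≤ ((n : ℝ) + 1) * ‖v‖ * nsq z :=
    mul_le_mul_of_nonneg_left h1 (by positivity)
  linarith

theorem Frm.ne {K : ℝ} {z : W n} {S : V (n * 2) →L[ℝ] W n} (h : Frm K z S) : z ≠ 0 := by
  intro h0
  have h1 := h.lez
  rw [h0, norm_zero, mul_zero] at h1
  linarith

namespace FrCAux

theorem e_norm (i : Fin (n * 2)) : ‖(Pi.single i (1 : ℝ) : V (n * 2))‖ ≤ 1 := by
  rw [pi_norm_le_iff_of_nonneg zero_le_one]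
  intro j
  by_cases hj : j = i
  · subst hj; simp
  · simp [hj]

theorem lin_sum {E : Type*} [NormedAddCommGroup E] [NormedSpace ℝ E] (L : V (n * 2) →L[ℝ] E)
    (x : V (n * 2)) : L x = ∑ k, x k • L (Pi.single k 1) := by
  conv_lhs => rw [← Finset.univ_sum_single x]
  rw [map_sum]
  refine Finset.sum_congr rfl fun k _ => ?_
  rw [← map_smul]
  congr 1
  funext j
  by_cases hj : j = k
  · subst hj; simp
  · simp [hj]

theorem sum_le (u w : V (n * 2)) : |∑ i, u i * w i| ≤ ((n : ℝ) * 2) * (‖u‖ * ‖w‖) := by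
  refine (Finset.abs_sum_le_sum_abs _ _).trans ?_
  have h1 : ∀ i ∈ (Finset.univ : Finset (Fin (n * 2))), |u i * w i| ≤ ‖u‖ * ‖w‖ := by
    intro i _
    rw [abs_mul]
    exact mul_le_mul (norm_le_pi_norm u i) (norm_le_pi_norm w i) (abs_nonneg _) (norm_nonneg _)
  refine (Finset.sum_le_card_nsmul _ _ _ h1).trans (le_of_eq ?_)
  rw [Finset.card_univ, Fintype.card_fin, nsmul_eq_mul]
  push_cast
  ring

theorem vm_apply (α : FW n) (z : W n) (S : V (n * 2) →L[ℝ] W n) (x : V (n * 2))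
    (l : Fin (n * 2)) :
    Matrix.vecMul x (FM α z S) l = dw α z (S x) (S (Pi.single l 1)) := by
  have h := lin_sum (((dw α z).flip (S (Pi.single l 1))).comp S) x
  have e : dw α z (S x) (S (Pi.single l 1)) =
      (((dw α z).flip (S (Pi.single l 1))).comp S) x := rfl
  rw [e, h]
  unfold Matrix.vecMul dotProduct
  rfl

theorem form_sum (α : FW n) (z : W n) (S : V (n * 2) →L[ℝ] W n) (x y : V (n * 2)) :
    dw α z (S x) (S y) = ∑ l, y l * Matrix.vecMul x (FM α z S) l := by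
  have h := lin_sum ((dw α z (S x)).comp S) y
  have e : dw α z (S x) (S y) = ((dw α z (S x)).comp S) y := rfl
  rw [e, h]
  refine Finset.sum_congr rfl fun l _ => ?_
  rw [vm_apply]
  rfl

theorem form_add {α : FW n} (hα : Con α) {z : W n} (hz : z ≠ 0) (p q : W n) (c d : ℂ) :
    dw α z (p + c • z) (q + d • z) = dw α z p q := by
  simp only [map_add, add_apply, hα.dw_left hz, hα.dw_right hz, add_zero]

theorem form_le {α : FW n} (hα : Con α) {K : ℝ} {z : W n} {S : V (n * 2) →L[ℝ] W n}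
    (h : Frm K z S) (x : V (n * 2)) (c : ℂ) :
    ‖dw α z (S x + c • z)‖ ≤ ((n : ℝ) * 2) * K * ‖Matrix.vecMul x (FM α z S)‖ := by
  have hK := h.pos
  refine ContinuousLinearMap.opNorm_le_bound _ (by positivity) fun w => ?_
  obtain ⟨y, d, hw⟩ := h.cov w
  have h1 : ‖y‖ ≤ K * ‖w‖ := by
    rw [hw]
    exact h.inj y d
  have h2 : dw α z (S x + c • z) w = ∑ l, y l * Matrix.vecMul x (FM α z S) l := by
    rw [← form_sum, ← form_add hα h.ne (S x) (S y) c d, ← hw]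
  rw [h2, Real.norm_eq_abs]
  refine (sum_le _ _).trans ?_
  have h3 : ‖y‖ * ‖Matrix.vecMul x (FM α z S)‖ ≤ K * ‖w‖ * ‖Matrix.vecMul x (FM α z S)‖ :=
    mul_le_mul_of_nonneg_right h1 (norm_nonneg _)
  calc ((n : ℝ) * 2) * (‖y‖ * ‖Matrix.vecMul x (FM α z S)‖) ≤
      ((n : ℝ) * 2) * (K * ‖w‖ * ‖Matrix.vecMul x (FM α z S)‖) :=
        mul_le_mul_of_nonneg_left h3 (by positivity)
    _ = _ := by ring

theorem perp_eq {z : W n} (u : W n) : ∃ c : ℂ, (1 - Pj z) u = u + c • z := by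
  refine ⟨-(((nsq z)⁻¹ : ℝ) * hip z u : ℂ), ?_⟩
  rw [sub_apply, GiFAux.Pj_eq, neg_smul, ← sub_eq_add_neg]
  rfl

theorem norm_perp_le {z : W n} (hz : z ≠ 0) (v : W n) :
    ‖(1 - Pj z) v‖ ≤ ((n : ℝ) + 2) * ‖v‖ := by
  rw [sub_apply]
  have h1 := norm_Pj_le hz v
  have h2 : ‖(1 : EndW n) v - Pj z v‖ ≤ ‖v‖ + ‖Pj z v‖ := norm_sub_le _ _
  linarith

theorem sqrt_bound {a b c : ℝ} (ha : 0 ≤ a) (hb : 0 ≤ b) (h : a ≤ c * Real.sqrt b) :
    a ^ 2 ≤ c ^ 2 * b := by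
  have h1 : a ^ 2 ≤ (c * Real.sqrt b) ^ 2 := pow_le_pow_left₀ ha h 2
  rwa [mul_pow, Real.sq_sqrt hb] at h1

end FrCAux

open FrCAux

theorem fm_unit {α : FW n} (hα : Symp α) {K : ℝ} {z : W n} {S : V (n * 2) →L[ℝ] W n} (h : Frm K z S) :
    IsUnit (FM α z S) := by
  rw [← Matrix.vecMul_injective_iff_isUnit]
  have key : ∀ x : V (n * 2), Matrix.vecMul x (FM α z S) = 0 → x = 0 := by
    intro x hx
    have h1 : ∀ w : W n, dw α z (S x) w = 0 := by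
      intro w
      obtain ⟨y, d, hw⟩ := h.cov w
      have h2 := form_add hα.1 h.ne (S x) (S y) 0 d
      rw [zero_smul, add_zero] at h2
      rw [hw, h2, form_sum, hx]
      simp
    obtain ⟨c, hc⟩ := hα.2 z h.ne (S x) h1
    have h3 := h.inj x (-c)
    rw [hc, neg_smul, add_neg_cancel, norm_zero, mul_zero] at h3
    exact norm_le_zero_iff.1 h3
  intro x y hxy
  have h4 : Matrix.vecMul (x - y) (FM α z S) = 0 := by
    rw [Matrix.sub_vecMul]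
    exact sub_eq_zero.2 hxy
  exact sub_eq_zero.1 (key _ h4)

namespace FrCAux

variable {α : FW n} {K : ℝ} {z : W n} {S : V (n * 2) →L[ℝ] W n}

theorem b1 (hα : Symp α) (h : Frm K z S) :
    ‖dw α z‖ ^ 2 ≤ (((n : ℝ) * 2) ^ 2 * K ^ 2) ^ 2 * fr2 (FM α z S) := by
  have hK := h.pos
  refine sqrt_bound (norm_nonneg _) (fr2_nonneg _) ?_
  refine ContinuousLinearMap.opNorm_le_bound _ (by positivity) fun v => ?_
  obtain ⟨x, c, hv⟩ := h.cov v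
  have h1 : ‖x‖ ≤ K * ‖v‖ := by
    rw [hv]
    exact h.inj x c
  have h2 := form_le hα.1 h x c
  rw [← hv] at h2
  refine h2.trans ?_
  have h3 := norm_vecMul_le (FM α z S) x
  have hs := Real.sqrt_nonneg (fr2 (FM α z S))
  calc ((n : ℝ) * 2) * K * ‖Matrix.vecMul x (FM α z S)‖ ≤
      ((n : ℝ) * 2) * K * (((n : ℝ) * 2) * Real.sqrt (fr2 (FM α z S)) * ‖x‖) :=
        mul_le_mul_of_nonneg_left h3 (by positivity)
    _ ≤ ((n : ℝ) * 2) * K * (((n : ℝ) * 2) * Real.sqrt (fr2 (FM α z S)) * (K * ‖v‖)) := by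
        gcongr
    _ = _ := by ring

theorem b2 (h : Frm K z S) :
    fr2 (FM α z S) ≤ (((n : ℝ) * 2) ^ 2 * K ^ 4) * ‖dw α z‖ ^ 2 := by
  have hK := h.pos
  have hS : ∀ k, ‖S (Pi.single k 1)‖ ≤ K := by
    intro k
    refine (h.le _).trans ?_
    exact mul_le_of_le_one_right hK.le (e_norm k)
  have h1 := fr2_le (M := FM α z S) (B := ‖dw α z‖ * K * K) (by positivity) (by
    intro k l
    have h2 := (dw α z).le_opNorm₂ (S (Pi.single k 1)) (S (Pi.single l 1))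
    rw [Real.norm_eq_abs] at h2
    refine h2.trans ?_
    have h3 := hS k
    have h4 := hS l
    gcongr)
  refine h1.trans (le_of_eq ?_)
  ring

theorem b3 (hα : Symp α) (h : Frm K z S) :
    fr2 (FM α z S)⁻¹ ≤ (((n : ℝ) * 2) ^ 2 * (2 * ((n : ℝ) * 2) * K ^ 2) ^ 2) * ‖Gi α z‖ ^ 2 := by
  have hK := h.pos
  have hz := h.ne
  have key : ∀ x : V (n * 2), ‖x‖ ≤ 2 * ((n : ℝ) * 2) * K ^ 2 * ‖Gi α z‖ *
      ‖Matrix.vecMul x (FM α z S)‖ := by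
    intro x
    obtain ⟨c, hc⟩ := perp_eq (z := z) (S x)
    obtain ⟨p, hp⟩ : ∃ p, p = (1 - Pj z) (S x) := ⟨_, rfl⟩
    have hp0 : hip z p = 0 := by
      rw [hp]
      exact hip_sub_Pj hz _
    have h1 : ‖x‖ ≤ K * ‖p‖ := by
      rw [hp, hc]
      exact h.inj x c
    have h2 : p = Gi α z (BB α z p) := by
      rw [Gi_BB hα hz, sub_Pj_eq hp0]
    have h3 : ‖p‖ ≤ ‖Gi α z‖ * ‖BB α z p‖ := by
      conv_lhs => rw [h2]
      exact (Gi α z).le_opNorm _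
    have h4 := BB_norm α z p
    have h5 : ‖dw α z p‖ ≤ ((n : ℝ) * 2) * K * ‖Matrix.vecMul x (FM α z S)‖ := by
      rw [hp, hc]
      exact form_le hα.1 h x c
    calc ‖x‖ ≤ K * ‖p‖ := h1
      _ ≤ K * (‖Gi α z‖ * (2 * (((n : ℝ) * 2) * K * ‖Matrix.vecMul x (FM α z S)‖))) := by
          refine mul_le_mul_of_nonneg_left (h3.trans ?_) hK.le
          refine mul_le_mul_of_nonneg_left (h4.trans ?_) (norm_nonneg _)
          linarith
      _ = _ := by ring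
  have hu := fm_unit hα h
  have h1 := fr2_le (M := (FM α z S)⁻¹) (B := 2 * ((n : ℝ) * 2) * K ^ 2 * ‖Gi α z‖)
    (by positivity) (by
      intro k l
      have h2 := key (Matrix.vecMul (Pi.single k 1) (FM α z S)⁻¹)
      rw [Matrix.vecMul_vecMul, Matrix.nonsing_inv_mul _ ((Matrix.isUnit_iff_isUnit_det _).1 hu),
        Matrix.vecMul_one] at h2
      have h3 : |(FM α z S)⁻¹ k l| ≤ ‖Matrix.vecMul (Pi.single k 1) (FM α z S)⁻¹‖ := by
        have h4 := norm_le_pi_norm (Matrix.vecMul (Pi.single k 1) (FM α z S)⁻¹) l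
        rw [Matrix.single_one_vecMul, Real.norm_eq_abs] at h4
        rw [Matrix.single_one_vecMul]
        exact h4
      refine (h3.trans h2).trans ?_
      exact mul_le_of_le_one_right (by positivity) (e_norm k))
  refine h1.trans (le_of_eq ?_)
  ring

theorem b4 (hα : Symp α) (h : Frm K z S) :
    ‖Gi α z‖ ^ 2 ≤ (((n : ℝ) + 1) * ((n : ℝ) + 2) ^ 2 * ((n : ℝ) * 2) * K ^ 2) ^ 2 *
      fr2 (FM α z S)⁻¹ := by
  have hK := h.pos
  have hz := h.ne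
  have hu := fm_unit hα h
  refine sqrt_bound (norm_nonneg _) (fr2_nonneg _) ?_
  refine ContinuousLinearMap.opNorm_le_bound _ (by positivity) fun v => ?_
  obtain ⟨p, hp⟩ : ∃ p, p = Gi α z v := ⟨_, rfl⟩
  have hp0 : hip z p = 0 := by
    rw [hp]
    exact Gi_mem hα hz v
  have hq : BB α z p = (1 - Pj z) v := by
    rw [hp]
    exact BB_Gi hα hz v
  obtain ⟨x, c, hx⟩ := h.cov p
  have hr : ‖Matrix.vecMul x (FM α z S)‖ ≤ ((n : ℝ) + 1) * ((n : ℝ) + 2) * K * ‖v‖ := by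
    rw [pi_norm_le_iff_of_nonneg (by positivity)]
    intro l
    have h1 : dw α z p (S (Pi.single l 1)) = dw α z (S x) (S (Pi.single l 1)) := by
      have h2 := form_add hα.1 hz (S x) (S (Pi.single l 1)) c 0
      rw [zero_smul, add_zero] at h2
      rw [← h2, ← hx]
    rw [vm_apply, ← h1, ← BB_hip, hq, Real.norm_eq_abs]
    refine (Complex.abs_re_le_norm _).trans ?_
    refine (MFactsAux.norm_hip _ _).trans ?_
    have h3 := norm_perp_le hz v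
    have h4 : ‖S (Pi.single l 1)‖ ≤ K := by
      refine (h.le _).trans ?_
      exact mul_le_of_le_one_right hK.le (e_norm l)
    calc ((n : ℝ) + 1) * (‖(1 - Pj z) v‖ * ‖S (Pi.single l 1)‖) ≤
        ((n : ℝ) + 1) * (((n : ℝ) + 2) * ‖v‖ * K) := by gcongr
      _ = _ := by ring
  have hxe : x = Matrix.vecMul (Matrix.vecMul x (FM α z S)) (FM α z S)⁻¹ := by
    rw [Matrix.vecMul_vecMul, Matrix.mul_nonsing_inv _ ((Matrix.isUnit_iff_isUnit_det _).1 hu),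
      Matrix.vecMul_one]
  have hs := Real.sqrt_nonneg (fr2 (FM α z S)⁻¹)
  have hxn : ‖x‖ ≤ ((n : ℝ) * 2) * Real.sqrt (fr2 (FM α z S)⁻¹) *
      (((n : ℝ) + 1) * ((n : ℝ) + 2) * K * ‖v‖) := by
    conv_lhs => rw [hxe]
    refine (norm_vecMul_le _ _).trans ?_
    exact mul_le_mul_of_nonneg_left hr (by positivity)
  have hpn : ‖p‖ ≤ ((n : ℝ) + 2) * (K * ‖x‖) := by
    have h1 : p = (1 - Pj z) (S x) := by
      have h2 := sub_Pj_eq hp0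
      have h3 : (1 - Pj z) (c • z) = 0 := by
        rw [sub_apply, Pj_smul hz]
        simp
      rw [← h2]
      conv_lhs => rw [hx]
      rw [map_add, h3, add_zero]
    rw [h1]
    refine (norm_perp_le hz _).trans ?_
    exact mul_le_mul_of_nonneg_left (h.le x) (by positivity)
  rw [← hp]
  calc ‖p‖ ≤ ((n : ℝ) + 2) * (K * ‖x‖) := hpn
    _ ≤ ((n : ℝ) + 2) * (K * (((n : ℝ) * 2) * Real.sqrt (fr2 (FM α z S)⁻¹) *
      (((n : ℝ) + 1) * ((n : ℝ) + 2) * K * ‖v‖))) := by gcongr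
    _ = _ := by ring

end FrCAux

theorem fr_c (n : ℕ) (K : ℝ) : ∃ C : ℝ, 0 < C ∧ ∀ α : FW n, Symp α → ∀ (z : W n) (S : V (n * 2) →L[ℝ] W n), Frm K z S →
    ‖dw α z‖ ^ 2 ≤ C * fr2 (FM α z S) ∧ fr2 (FM α z S) ≤ C * ‖dw α z‖ ^ 2 ∧
      ‖Gi α z‖ ^ 2 ≤ C * fr2 (FM α z S)⁻¹ ∧ fr2 (FM α z S)⁻¹ ≤ C * ‖Gi α z‖ ^ 2 := by
  obtain ⟨c1, hc1⟩ : ∃ c : ℝ, c = (((n : ℝ) * 2) ^ 2 * K ^ 2) ^ 2 := ⟨_, rfl⟩
  obtain ⟨c2, hc2⟩ : ∃ c : ℝ, c = ((n : ℝ) * 2) ^ 2 * K ^ 4 := ⟨_, rfl⟩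
  obtain ⟨c3, hc3⟩ : ∃ c : ℝ, c = ((n : ℝ) * 2) ^ 2 * (2 * ((n : ℝ) * 2) * K ^ 2) ^ 2 := ⟨_, rfl⟩
  obtain ⟨c4, hc4⟩ : ∃ c : ℝ,
      c = (((n : ℝ) + 1) * ((n : ℝ) + 2) ^ 2 * ((n : ℝ) * 2) * K ^ 2) ^ 2 := ⟨_, rfl⟩
  have p1 : 0 ≤ c1 := by rw [hc1]; positivity
  have p2 : 0 ≤ c2 := by rw [hc2]; positivity
  have p3 : 0 ≤ c3 := by rw [hc3]; positivity
  have p4 : 0 ≤ c4 := by rw [hc4]; positivity
  refine ⟨c1 + c2 + c3 + c4 + 1, by positivity, ?_⟩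
  intro α hα z S h
  have h1 := b1 hα h
  have h2 := b2 (α := α) h
  have h3 := b3 hα h
  have h4 := b4 hα h
  rw [← hc1] at h1
  rw [← hc2] at h2
  rw [← hc3] at h3
  rw [← hc4] at h4
  have q1 := fr2_nonneg (FM α z S)
  have q2 := fr2_nonneg (FM α z S)⁻¹
  have q3 : 0 ≤ ‖dw α z‖ ^ 2 := by positivity
  have q4 : 0 ≤ ‖Gi α z‖ ^ 2 := by positivity
  refine ⟨h1.trans ?_, h2.trans ?_, h4.trans ?_, h3.trans ?_⟩
  · exact mul_le_mul_of_nonneg_right (by linarith) q1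
  · exact mul_le_mul_of_nonneg_right (by linarith) q3
  · exact mul_le_mul_of_nonneg_right (by linarith) q2
  · exact mul_le_mul_of_nonneg_right (by linarith) q4

end Pool.Agent.Lib.P28u
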