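import Pool.Agent.Lib.P28u.EbF

set_option autoImplicit false
set_option maxSynthPendingDepth 3

/-!
# Unitary frames

PROOF. Let `g ∈ Un n`, `z = g 0`, `S = (mxL g).comp (Lv n)`, `K = 2 (n + 1)`. `cov`: `q = mx g w` (`mx_surj`), `w = w 0 • e0 n + Lv n y` (`exists_Lv` for `w - w 0 • e0 n`), `mx_e0`. `inj`: `w = Lv n y + c • e0 n`, `‖y‖ ≤ ‖kap n y‖ ≤ ‖w‖` (`norm_le_kap`; the coordinates `k + 1` of `w` are those of `kap n y`),
`‖w‖² ≤ nsq w = nsq (mx g w) ≤ (n + 1) ‖mx g w‖²` and `mx g w = S y + c • z`. `le`: `‖mx g (Lv n y)‖² ≤ nsq (Lv n y) ≤ (n + 1) ‖Lv n y‖² ≤ 4 (n + 1) ‖y‖²` (`norm_Lv_le`). `‖z‖² ≤ nsq z = 1 ≤ (n + 1) ‖z‖²`. `hip_col`: `hip (mx g e0) (mx g (Eb k)) = hip e0 (Eb k) = 0`.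
-/

open MeasureTheory Set Metric
open scoped ContDiff Topology ENNReal

namespace Pool.Agent.Lib.P28u

open Pool.Agent.P28b04d Pool.Agent.Lib.P28e Pool.Agent.Lib.P28c Pool.Agent.Lib.P28t
open Pool.Agent.Lib.P28f (V EV)

variable {n : ℕ}

namespace FrUnAux

theorem e0_zero : e0 n 0 = 1 := by simp [e0]

theorem norm_le_of {w m : W n} (h : nsq w = nsq m) : ‖w‖ ≤ ((n : ℝ) + 1) * ‖m‖ := by
  have h1 : ‖w‖ ^ 2 ≤ ((n : ℝ) + 1) * ‖m‖ ^ 2 := (le_nsq w).trans (h ▸ nsq_le m)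
  have h2 : (0 : ℝ) ≤ n := Nat.cast_nonneg n
  have h3 : ‖w‖ ^ 2 ≤ (((n : ℝ) + 1) * ‖m‖) ^ 2 := by
    have := sq_nonneg ‖m‖
    nlinarith [mul_nonneg h2 this, mul_nonneg (mul_nonneg h2 h2) this]
  exact (pow_le_pow_iff_left₀ (norm_nonneg _) (by positivity) two_ne_zero).1 h3

end FrUnAux

open FrUnAux

theorem frm_un (n : ℕ) : ∃ K : ℝ, 0 < K ∧ ∀ g ∈ Un n, Frm K (g 0) ((mxL g).comp (Lv n)) := by
  have h2 : (0 : ℝ) ≤ n := Nat.cast_nonneg n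
  refine ⟨2 * ((n : ℝ) + 1), by positivity, fun g hg => ?_⟩
  have hS : ∀ y : V (n * 2), ((mxL g).comp (Lv n)) y = mx g (Lv n y) := fun y => mxL_apply g _
  have hz1 : ‖g 0‖ ≤ 1 := by
    have h := le_nsq (g 0)
    rw [nsq_col hg] at h
    nlinarith [norm_nonneg (g 0)]
  refine ⟨by positivity, ?_, ?_, ?_, ?_, ?_⟩
  · intro q
    obtain ⟨w, rfl⟩ := mx_surj hg q
    obtain ⟨y, hy⟩ := exists_Lv (q := w - w 0 • e0 n) (by
      rw [Pi.sub_apply, Pi.smul_apply, e0_zero, smul_eq_mul, mul_one, sub_self])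
    refine ⟨y, w 0, ?_⟩
    rw [hS, ← hy, ← mx_e0 g, ← mx_smul, ← mx_add, sub_add_cancel]
  · intro y c
    have e1 : ((mxL g).comp (Lv n)) y + c • g 0 = mx g (Lv n y + c • e0 n) := by
      rw [hS, mx_add, mx_smul, mx_e0]
    rw [e1]
    set w : W n := Lv n y + c • e0 n with hw
    have h3 : ‖kap n y‖ ≤ ‖w‖ := by
      rw [pi_norm_le_iff_of_nonneg (norm_nonneg _)]
      intro k
      have h := norm_le_pi_norm w k.succ
      have h5 : w k.succ = kap n y k := by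
        rw [hw, Pi.add_apply, Pi.smul_apply, Lv_apply, Fin.cons_succ]
        simp [e0]
      rw [h5] at h
      exact h
    have h4 := norm_le_of (nsq_mx hg w).symm
    have h6 : 0 ≤ ((n : ℝ) + 1) * ‖mx g w‖ := by positivity
    calc ‖y‖ ≤ ‖kap n y‖ := norm_le_kap n y
      _ ≤ ‖w‖ := h3
      _ ≤ ((n : ℝ) + 1) * ‖mx g w‖ := h4
      _ ≤ 2 * ((n : ℝ) + 1) * ‖mx g w‖ := by linarith
  · intro y
    rw [hS]
    have h4 := norm_le_of (nsq_mx hg (Lv n y))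
    calc ‖mx g (Lv n y)‖ ≤ ((n : ℝ) + 1) * ‖Lv n y‖ := h4
      _ ≤ ((n : ℝ) + 1) * (2 * ‖y‖) := mul_le_mul_of_nonneg_left (norm_Lv_le y) (by positivity)
      _ = 2 * ((n : ℝ) + 1) * ‖y‖ := by ring
  · linarith
  · have h := nsq_le (g 0)
    rw [nsq_col hg] at h
    have h0 := norm_nonneg (g 0)
    have h5 : ‖g 0‖ ^ 2 ≤ ‖g 0‖ := by nlinarith
    have h6 : ((n : ℝ) + 1) * ‖g 0‖ ^ 2 ≤ ((n : ℝ) + 1) * ‖g 0‖ :=
      mul_le_mul_of_nonneg_left h5 (by positivity)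
    have h7 : 0 ≤ ((n : ℝ) + 1) * ‖g 0‖ := by positivity
    linarith

theorem hip_col {g : XX n} (hg : g ∈ Un n) (k : Fin (n * 2)) : hip (g 0) (mx g (Eb k)) = 0 := by
  rw [← mx_e0 g, hip_mx hg, hip_e0_Eb]

theorem Wm_eq (α : FW n) (g : XX n) : Wm α g = FM α (g 0) ((mxL g).comp (Lv n)) := by
  funext k l
  have hS : ∀ y : V (n * 2), ((mxL g).comp (Lv n)) y = mx g (Lv n y) := fun y => mxL_apply g _
  simp only [Wm, FM, hS]
  rfl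

end Pool.Agent.Lib.P28u
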