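import Pool.Agent.Lib.P28u.DvF
import Pool.Agent.Lib.P28u.WmF
import Pool.Agent.Lib.P28u.FrUn
import Pool.Agent.Lib.P28u.FrC

set_option autoImplicit false
set_option maxSynthPendingDepth 3

/-!
# The curvature identity

PROOF. Fix `g ∈ Un n`; `g 0 ≠ 0` (`col_ne`). `unit_Wm`: `Wm_eq`, `frm_un`, `fm_unit`. Write `W = Wm α`, `A_i = Am α i = W⁻¹ D_i W`. `sm_Am`: `SM.inv`, `sm_Wm`, `SM.dm`, `SM.mul`. By `DE_mul`, `DE_inv` (with the vector `rm g (Xm i)`; `DM i M g = DE M g (rm g (Xm i))`): `D_i A_j = - W⁻¹ (D_i W) W⁻¹ (D_j W) + W⁻¹ D_i D_j W = - A_i A_j + W⁻¹ D_i D_j W`.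
Hence `D_i A_j - D_j A_i = - (A_i A_j - A_j A_i) + W⁻¹ (D_i D_j W - D_j D_i W)` and by `DM_com`, `brk_Wm` the last term is `W⁻¹ (Rᵀ W + W R) = Qm α i j + Rm i j`. `DM_Qm`: `Q = W⁻¹ Rᵀ W`, `D_k Q = - W⁻¹ (D_k W) W⁻¹ Rᵀ W + W⁻¹ Rᵀ D_k W = - A_k Q + Q A_k` (`W W⁻¹ = 1`).
-/

open MeasureTheory Set Metric
open scoped ContDiff Topology ENNReal

namespace Pool.Agent.Lib.P28u

open Pool.Agent.P28b04d Pool.Agent.Lib.P28e Pool.Agent.Lib.P28c Pool.Agent.Lib.P28t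
open Pool.Agent.Lib.P28f (V EV)

variable {n : ℕ}

namespace CurvUAux

theorem one_le_infty : (1 : WithTop ℕ∞) ≤ ((⊤ : ℕ∞) : WithTop ℕ∞) := by
  exact_mod_cast (le_top : (1 : ℕ∞) ≤ ⊤)

theorem unitW {α : FW n} (hα : Symp α) {g : XX n} (hg : g ∈ Un n) : IsUnit (Wm α g) := by
  obtain ⟨K, _, h⟩ := frm_un n
  rw [Wm_eq]
  exact fm_unit hα (h g hg)

theorem smW {α : FW n} (hα : Symp α) {g : XX n} (hg : g ∈ Un n) : SM ∞ (Wm α) g :=
  sm_Wm hα.1 (col_ne hg 0)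

theorem smWi {α : FW n} (hα : Symp α) {g : XX n} (hg : g ∈ Un n) :
    SM ∞ (fun y => (Wm α y)⁻¹) g := (smW hα hg).inv (unitW hα hg)

theorem det_isUnit {α : FW n} (hα : Symp α) {g : XX n} (hg : g ∈ Un n) :
    IsUnit (Wm α g).det := (Matrix.isUnit_iff_isUnit_det _).1 (unitW hα hg)

theorem DA {α : FW n} (hα : Symp α) {g : XX n} (hg : g ∈ Un n) (i j : Fin (n * 2)) :
    DM i (Am α j) g = -(Am α i g * Am α j g) + (Wm α g)⁻¹ * DM i (DM j (Wm α)) g := by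
  have h1 : DM i (Am α j) g = DE (fun y => (Wm α y)⁻¹ * DM j (Wm α) y) g (rm g (Xm i)) := rfl
  rw [h1, DE_mul ((smWi hα hg).mono one_le_infty) (((smW hα hg).dm j).mono one_le_infty),
    DE_inv ((smW hα hg).mono one_le_infty) (unitW hα hg)]
  have h2 : DE (Wm α) g (rm g (Xm i)) = DM i (Wm α) g := rfl
  have h3 : DE (DM j (Wm α)) g (rm g (Xm i)) = DM i (DM j (Wm α)) g := rfl
  have h4 : DE (fun y => DM j (Wm α) y) g (rm g (Xm i)) = DM i (DM j (Wm α)) g := rfl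
  rw [h2, h4]
  unfold Am
  rw [neg_mul]
  simp only [mul_assoc]

end CurvUAux

open CurvUAux

theorem unit_Wm {α : FW n} (hα : Symp α) {g : XX n} (hg : g ∈ Un n) : IsUnit (Wm α g) := unitW hα hg

theorem sm_Am {α : FW n} (hα : Symp α) {g : XX n} (hg : g ∈ Un n) (i : Fin (n * 2)) : SM ∞ (Am α i) g := (smWi hα hg).mul ((smW hα hg).dm i)

theorem sm_Qm {α : FW n} (hα : Symp α) {g : XX n} (hg : g ∈ Un n) (i j : Fin (n * 2)) : SM ∞ (Qm α i j) g := ((smWi hα hg).mul (SM.const _)).mul (smW hα hg)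

theorem curv {α : FW n} (hα : Symp α) {g : XX n} (hg : g ∈ Un n) (i j : Fin (n * 2)) :
    DM i (Am α j) g - DM j (Am α i) g + (Am α i g * Am α j g - Am α j g * Am α i g) =
      Qm α i j g + Rm i j := by
  rw [DA hα hg i j, DA hα hg j i]
  have h1 := DM_com i j (smW hα hg)
  rw [brk_Wm hα.1 (col_ne hg 0)] at h1
  have h2 : (Wm α g)⁻¹ * (DM i (DM j (Wm α)) g - DM j (DM i (Wm α)) g) =
      Qm α i j g + Rm i j := by
    rw [h1, mul_add, ← mul_assoc, ← mul_assoc, Matrix.nonsing_inv_mul _ (det_isUnit hα hg), one_mul]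
    rfl
  rw [← h2, mul_sub]
  abel

theorem DM_Qm {α : FW n} (hα : Symp α) {g : XX n} (hg : g ∈ Un n) (i j k : Fin (n * 2)) :
    DM k (Qm α i j) g = Qm α i j g * Am α k g - Am α k g * Qm α i j g := by
  have h1 : DM k (Qm α i j) g =
      DE (fun y => (Wm α y)⁻¹ * (Rm i j).transpose * Wm α y) g (rm g (Xm k)) := rfl
  have hs1 := (smWi hα hg).mono one_le_infty
  have hs2 := (smW hα hg).mono one_le_infty
  rw [h1, DE_mul (hs1.mul (SM.const _)) hs2, DE_mul hs1 (SM.const _),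
    DE_inv hs2 (unitW hα hg), DE_const, mul_zero, add_zero]
  have h2 : DE (Wm α) g (rm g (Xm k)) = DM k (Wm α) g := rfl
  have h3 : DE (fun y => Wm α y) g (rm g (Xm k)) = DM k (Wm α) g := rfl
  rw [h2]
  unfold Qm Am
  have h4 : (Wm α g)⁻¹ * (Rm i j).transpose * Wm α g * ((Wm α g)⁻¹ * DM k (Wm α) g) =
      (Wm α g)⁻¹ * (Rm i j).transpose * DM k (Wm α) g := by
    rw [mul_assoc _ (Wm α g), ← mul_assoc (Wm α g), Matrix.mul_nonsing_inv _ (det_isUnit hα hg),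
      one_mul]
  rw [h4, neg_mul, neg_mul, sub_eq_neg_add]
  simp only [mul_assoc]

end Pool.Agent.Lib.P28u
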