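import Pool.Agent.Lib.P28t.Defs

set_option autoImplicit false
set_option maxSynthPendingDepth 3

/-!
# Critical finiteness for symplectic forms on `CP^n`: the energy, definitions

`EnLe α a`: `|z| |D_v (dw α)_z (p, q)| ≤ a z σ(z)` for unit vectors `v, p, q` Hermitian orthogonal to `z`, where `σ(z)` is the least
singular value of `dw α z` on the orthogonal complement `z^⊥` of `ℂ z`: each `r` in `z^⊥` has an `s` in `z^⊥` of length at most one with
`rad z |D_v (dw α)_z (p, q)| rad r ≤ a z rad v rad p rad q dw α z r s`.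
`Pj z`: the projection onto `ℂ z`. `BB α z`: the operator of the form `dw α z`, `re (hip (BB α z p) q) = dw α z p q`. `Gi α z`: its
inverse on `z^⊥` (zero on `ℂ z`). `T3 α z`: the derivative of `dw α` at `z`, restricted to `z^⊥`. `aO α z` and `kO α z`: the two
densities, of degree zero.
-/

open MeasureTheory Set Metric
open scoped ContDiff Topology ENNReal

namespace Pool.Agent.Lib.P28u

open Pool.Agent.P28b04d Pool.Agent.Lib.P28e Pool.Agent.Lib.P28c Pool.Agent.Lib.P28t

variable {n : ℕ}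

/-- The pointwise bound. -/
structure EnLe (α : FW n) (a : W n → ℝ) : Prop where
  nonneg : ∀ z : W n, 0 ≤ a z
  le : ∀ z : W n, z ≠ 0 → ∀ v p q r : W n, hip z v = 0 → hip z p = 0 → hip z q = 0 → hip z r = 0 →
    ∃ s : W n, hip z s = 0 ∧ rad s ≤ 1 ∧
      rad z * |fderiv ℝ (dw α) z v p q| * rad r ≤ a z * (rad v * rad p * rad q) * dw α z r s

/-- The functional `v ↦ hip z v`, as a real-linear map to `ℂ`. -/
noncomputable def hL (z : W n) : W n →L[ℝ] ℂ :=
  ∑ k, (ContinuousLinearMap.mul ℝ ℂ (star (z k))).comp (ContinuousLinearMap.proj k)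

/-- The Hermitian projection onto `ℂ z`. -/
noncomputable def Pj (z : W n) : EndW n :=
  (nsq z)⁻¹ • ((ContinuousLinearMap.toSpanSingleton ℂ z).restrictScalars ℝ).comp (hL z)

/-- The vector representing a functional. -/
noncomputable def repL : (W n →L[ℝ] ℝ) →L[ℝ] W n :=
  ContinuousLinearMap.pi fun k =>
    Complex.ofRealCLM.comp (ContinuousLinearMap.apply ℝ ℝ (Pi.single k (1 : ℂ) : W n)) +
      (ContinuousLinearMap.mul ℝ ℂ Complex.I).comp
        (Complex.ofRealCLM.comp (ContinuousLinearMap.apply ℝ ℝ (Pi.single k Complex.I : W n)))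

/-- The operator of `dw α z`. -/
noncomputable def BB (α : FW n) (z : W n) : EndW n := repL.comp (dw α z)

/-- The inverse of `BB α z` on `z^⊥`, zero on `ℂ z`. -/
noncomputable def Gi (α : FW n) (z : W n) : EndW n := Ring.inverse (BB α z + Pj z) * (1 - Pj z)

/-- Precomposition with `P`. -/
noncomputable def pre (P : EndW n) : (W n →L[ℝ] ℝ) →L[ℝ] (W n →L[ℝ] ℝ) :=
  (ContinuousLinearMap.compL ℝ (W n) (W n) ℝ).flip P

/-- The bilinear form `(p, q) ↦ b (P p) (P q)`. -/
noncomputable def R2 (P : EndW n) : BW n →L[ℝ] BW n :=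
  (ContinuousLinearMap.compL ℝ (W n) (W n →L[ℝ] ℝ) (W n →L[ℝ] ℝ) (pre P)).comp
    ((ContinuousLinearMap.compL ℝ (W n) (W n) (W n →L[ℝ] ℝ)).flip P)

/-- The derivative of `dw α` restricted to `z^⊥`. -/
noncomputable def T3 (α : FW n) (z : W n) : W n →L[ℝ] BW n :=
  (R2 (1 - Pj z)).comp ((fderiv ℝ (dw α) z).comp (1 - Pj z))

/-- The density `|∇ω| / σ`. -/
noncomputable def aO (α : FW n) (z : W n) : ℝ := ‖z‖ * ‖T3 α z‖ * ‖Gi α z‖

/-- The condition number `|ω| / σ`. -/
noncomputable def kO (α : FW n) (z : W n) : ℝ := ‖dw α z‖ * ‖Gi α z‖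

theorem R2_apply (P : EndW n) (b : BW n) (p q : W n) : R2 P b p q = b (P p) (P q) := rfl

theorem T3_apply (α : FW n) (z v p q : W n) :
    T3 α z v p q = fderiv ℝ (dw α) z ((1 - Pj z) v) ((1 - Pj z) p) ((1 - Pj z) q) := rfl

theorem hL_apply (z v : W n) : hL z v = hip z v := by
  simp [hL, hip]

theorem Pj_apply (z v : W n) : Pj z v = ((nsq z)⁻¹ : ℝ) • (hip z v • z) := by
  simp [Pj, hL_apply]

theorem BB_apply (α : FW n) (z v : W n) (k : Fin (n + 1)) :
    BB α z v k = (dw α z v (Pi.single k 1) : ℂ) + Complex.I * (dw α z v (Pi.single k Complex.I) : ℂ) := by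
  simp [BB, repL]

end Pool.Agent.Lib.P28u
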