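import Pool.Agent.Lib.P28u.GiC
import Pool.Agent.Lib.P28t.LinF

set_option autoImplicit false
set_option maxSynthPendingDepth 3

/-!
# The density of a symplectic form

PROOF. `dw_der_left`: `x ↦ dw α x (c • x) q` vanishes for `x ≠ 0` (`Con.dw_left`); its derivative at `z` in the direction `v` is `D_v (dw α) (c z, q) + dw α z (c v) q = 0`. `dw_der_right`: skewness (`dw_skew`, differentiated). `dw_der_rad`: the function `t ↦ dw α (e^{tc} z) (e^{tc} p) (e^{tc} q)` is constant (`Con.dw_hom`); its derivative at `t = 0`.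
(Or: the function `b ↦ dw α (b z) (b p) (b q)` of `b ∈ ℂ`, `b ≠ 0`, is constant; differentiate at `b = 1` in the direction `c`, as in the proof of `FormAux.eqA`.)
`D3_le`: let `Π = 1 - Pj z`, `v = a z + v'`, `a z = Pj z v`, `v' = Π v`, similarly `p = b z + p'`, `q = d z + q'`. `‖Pj z v‖ ≤ (n+1) ‖v‖` (`|hip z v| ≤ (n+1) ‖z‖ ‖v‖`, `‖z‖² ≤ nsq z`), so `|a| ‖z‖ ≤ (n+1) ‖v‖`, `‖v'‖ ≤ (n+2) ‖v‖`.
`D_v dw (p, q) = D_{az} dw (p, q) + D_{v'} dw (b z, q) + D_{v'} dw (p', d z) + D_{v'} dw (p', q')`; the last term is `T3 α z v p q`; the others are bounded by `dw_der_rad`, `dw_der_left`, `dw_der_right`: `‖z‖ |D_v dw (p, q) - T3 α z v p q| ≤ (2 (n+1) + (n+1)(n+2) + (n+1)(n+2)²) ‖dw α z‖ ‖v‖ ‖p‖ ‖q‖`.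
`dens_U` with `C = 2 (1 + C₀)`, `C₀` the constant of `D3_le`: `cont`, `nonneg`: `cont_aO`, `cont_kO`, norms; `hom`: `aO_smul`, `kO_smul` for `z ≠ 0`, trivial for `z = 0` (`c • 0 = 0`). `one`: `p = Gi (BB p)` (`Gi_BB`, `sub_Pj_eq`), so `‖p‖ ≤ ‖Gi‖ ‖BB p‖ ≤ 2 ‖Gi‖ ‖dw α z p‖` (`BB_norm`). `two`: the same and `D3_le`.
-/

open MeasureTheory Set Metric
open scoped ContDiff Topology ENNReal

namespace Pool.Agent.Lib.P28u

open Pool.Agent.P28b04d Pool.Agent.Lib.P28e Pool.Agent.Lib.P28c Pool.Agent.Lib.P28t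

variable {n : ℕ}

namespace DensUAux

theorem ddAt {α : FW n} (h : Con α) {z : W n} (hz : z ≠ 0) :
    HasFDerivAt (dw α) (fderiv ℝ (dw α) z) z :=
  ((h.contDiffAt_dw hz).differentiableAt (by simp)).hasFDerivAt

theorem der_skew {α : FW n} (h : Con α) {z : W n} (hz : z ≠ 0) (v p q : W n) :
    fderiv ℝ (dw α) z v p q = -fderiv ℝ (dw α) z v q p := by
  have h1 : HasFDerivAt (fun x : W n => dw α x p q) _ z :=
    ((ddAt h hz).clm_apply (hasFDerivAt_const p z)).clm_apply (hasFDerivAt_const q z)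
  have h2 : HasFDerivAt (fun x : W n => -dw α x q p) _ z :=
    (((ddAt h hz).clm_apply (hasFDerivAt_const q z)).clm_apply (hasFDerivAt_const p z)).neg
  have h3 : (fun x : W n => dw α x p q) = fun x => -dw α x q p := by
    funext x
    exact dw_skew α x p q
  rw [h3] at h1
  have h4 := congrArg (fun L : W n →L[ℝ] ℝ => L v) (h1.unique h2)
  simpa using h4

theorem sub_Pj_pr (z v : W n) : (1 - Pj z) v = FormAux.pr z v := by
  rw [ContinuousLinearMap.sub_apply, ContinuousLinearMap.one_apply, Pj_apply, FormAux.pr]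
  congr 1
  ext k
  simp only [Pi.smul_apply, smul_eq_mul, Complex.real_smul]
  push_cast
  ring

theorem abs_dw (α : FW n) (z p q : W n) : |dw α z p q| ≤ ‖dw α z‖ * ‖p‖ * ‖q‖ := by
  have := (dw α z).le_opNorm₂ p q
  rwa [Real.norm_eq_abs] at this

end DensUAux

open DensUAux

theorem dw_der_left {α : FW n} (h : Con α) {z : W n} (hz : z ≠ 0) (c : ℂ) (v q : W n) :
    fderiv ℝ (dw α) z v (c • z) q = -dw α z (c • v) q := by
  have h1 : HasFDerivAt (fun x : W n => FormAux.mc c x) (FormAux.mc c) z :=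
    (FormAux.mc c).hasFDerivAt
  have h4 := ((ddAt h hz).clm_apply h1).clm_apply (hasFDerivAt_const q z)
  have h5 : (fun x : W n => dw α x (FormAux.mc c x) q) =ᶠ[𝓝 z] fun _ => (0 : ℝ) := by
    filter_upwards [FormAux.ne_near hz] with x hx
    rw [FormAux.mc_apply, h.dw_left hx]
  have h6 := (h5.hasFDerivAt_iff (f' := _)).1 h4
  have h7 := h6.unique (hasFDerivAt_const (0 : ℝ) z)
  have h8 := congrArg (fun L : W n →L[ℝ] ℝ => L v) h7
  simp only [ContinuousLinearMap.add_apply, ContinuousLinearMap.comp_apply,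
    ContinuousLinearMap.flip_apply, FormAux.mc_apply, ContinuousLinearMap.zero_apply, map_zero,
    zero_add] at h8
  linarith

theorem dw_der_right {α : FW n} (h : Con α) {z : W n} (hz : z ≠ 0) (c : ℂ) (v p : W n) :
    fderiv ℝ (dw α) z v p (c • z) = -dw α z p (c • v) := by
  rw [der_skew h hz, dw_der_left h hz, dw_skew α z p]

theorem dw_der_rad {α : FW n} (h : Con α) {z : W n} (hz : z ≠ 0) (c : ℂ) (p q : W n) :
    fderiv ℝ (dw α) z (c • z) p q = -dw α z (c • p) q - dw α z p (c • q) := by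
  have h1 : HasFDerivAt (fun b : ℂ => FormAux.mz z b) (FormAux.mz z) 1 := (FormAux.mz z).hasFDerivAt
  have h2 : HasFDerivAt (fun b : ℂ => FormAux.mz p b) (FormAux.mz p) 1 := (FormAux.mz p).hasFDerivAt
  have h2' : HasFDerivAt (fun b : ℂ => FormAux.mz q b) (FormAux.mz q) 1 := (FormAux.mz q).hasFDerivAt
  have hα : HasFDerivAt (dw α) (fderiv ℝ (dw α) z) (FormAux.mz z 1) := by
    rw [FormAux.mz_apply, one_smul]
    exact ddAt h hz
  have h3 : HasFDerivAt (fun b : ℂ => dw α (FormAux.mz z b))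
      ((fderiv ℝ (dw α) z).comp (FormAux.mz z)) 1 := hα.comp 1 h1
  have h4 := (h3.clm_apply h2).clm_apply h2'
  have h5 : (fun b : ℂ => dw α (FormAux.mz z b) (FormAux.mz p b) (FormAux.mz q b))
      =ᶠ[𝓝 1] fun _ => dw α z p q := by
    have : ∀ᶠ c : ℂ in 𝓝 1, c ≠ 0 := isOpen_ne.mem_nhds one_ne_zero
    filter_upwards [this] with b hb
    rw [FormAux.mz_apply, FormAux.mz_apply, FormAux.mz_apply, h.dw_hom hb hz]
  have h6 := (h5.hasFDerivAt_iff (f' := _)).1 h4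
  have h7 := h6.unique (hasFDerivAt_const (dw α z p q) (1 : ℂ))
  have h8 := congrArg (fun L : ℂ →L[ℝ] ℝ => L c) h7
  simp only [ContinuousLinearMap.add_apply, ContinuousLinearMap.comp_apply,
    ContinuousLinearMap.flip_apply, FormAux.mz_apply, one_smul,
    ContinuousLinearMap.zero_apply] at h8
  linarith

theorem D3_le (n : ℕ) : ∃ C : ℝ, 0 ≤ C ∧ ∀ {α : FW n} (_ : Con α) {z : W n} (_ : z ≠ 0),
    ‖z‖ * ‖fderiv ℝ (dw α) z‖ ≤ ‖z‖ * ‖T3 α z‖ + C * ‖dw α z‖ := by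
  refine ⟨2 * ((n : ℝ) + 1) + ((n : ℝ) + 1) * ((n : ℝ) + 2) +
    ((n : ℝ) + 1) * ((n : ℝ) + 2) * ((n : ℝ) + 2), by positivity, ?_⟩
  intro α h z hz
  have hz0 : 0 < ‖z‖ := norm_pos_iff.2 hz
  set K : ℝ := 2 * ((n : ℝ) + 1) + ((n : ℝ) + 1) * ((n : ℝ) + 2) +
    ((n : ℝ) + 1) * ((n : ℝ) + 2) * ((n : ℝ) + 2) with hK
  have hK0 : 0 ≤ K := by positivity
  have key : ∀ v p q : W n, ‖z‖ * |fderiv ℝ (dw α) z v p q| ≤
      (‖z‖ * ‖T3 α z‖ + K * ‖dw α z‖) * ‖v‖ * ‖p‖ * ‖q‖ := by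
    intro v p q
    set a : ℂ := hip z v / (nsq z : ℂ) with ha
    set b : ℂ := hip z p / (nsq z : ℂ) with hb
    set d : ℂ := hip z q / (nsq z : ℂ) with hd
    set v' : W n := FormAux.pr z v with hv'
    set p' : W n := FormAux.pr z p with hp'
    set q' : W n := FormAux.pr z q with hq'
    have ev : v = a • z + v' := by rw [hv', FormAux.pr, ← ha]; abel
    have ep : p = b • z + p' := by rw [hp', FormAux.pr, ← hb]; abel
    have eq : q = d • z + q' := by rw [hq', FormAux.pr, ← hd]; abel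
    have na : ‖a‖ * ‖z‖ ≤ ((n : ℝ) + 1) * ‖v‖ := FormAux.coef_le hz v
    have nb : ‖b‖ * ‖z‖ ≤ ((n : ℝ) + 1) * ‖p‖ := FormAux.coef_le hz p
    have nd : ‖d‖ * ‖z‖ ≤ ((n : ℝ) + 1) * ‖q‖ := FormAux.coef_le hz q
    have nv : ‖v'‖ ≤ ((n : ℝ) + 2) * ‖v‖ := FormAux.pr_le hz v
    have np : ‖p'‖ ≤ ((n : ℝ) + 2) * ‖p‖ := FormAux.pr_le hz p
    have e1 : fderiv ℝ (dw α) z v p q =
        fderiv ℝ (dw α) z (a • z) p q + fderiv ℝ (dw α) z v' (b • z) q +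
          fderiv ℝ (dw α) z v' p' (d • z) + T3 α z v p q := by
      rw [T3_apply, sub_Pj_pr, sub_Pj_pr, sub_Pj_pr, ← hv', ← hp', ← hq']
      have x1 : fderiv ℝ (dw α) z v p q =
          fderiv ℝ (dw α) z (a • z) p q + fderiv ℝ (dw α) z v' p q := by
        conv_lhs => rw [ev]
        rw [map_add]
        rfl
      have x2 : fderiv ℝ (dw α) z v' p q =
          fderiv ℝ (dw α) z v' (b • z) q + fderiv ℝ (dw α) z v' p' q := by
        conv_lhs => rw [ep]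
        rw [map_add]
        rfl
      have x3 : fderiv ℝ (dw α) z v' p' q =
          fderiv ℝ (dw α) z v' p' (d • z) + fderiv ℝ (dw α) z v' p' q' := by
        conv_lhs => rw [eq]
        rw [map_add]
      rw [x1, x2, x3]
      ring
    have b1 : ‖z‖ * |fderiv ℝ (dw α) z (a • z) p q| ≤
        2 * ((n : ℝ) + 1) * (‖dw α z‖ * ‖v‖ * ‖p‖ * ‖q‖) := by
      rw [dw_der_rad h hz]
      have y1 := abs_dw α z (a • p) q
      have y2 := abs_dw α z p (a • q)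
      have y3 : |-dw α z (a • p) q - dw α z p (a • q)| ≤ 2 * (‖a‖ * (‖dw α z‖ * ‖p‖ * ‖q‖)) := by
        rw [norm_smul] at y1 y2
        calc |-dw α z (a • p) q - dw α z p (a • q)| ≤ |-dw α z (a • p) q| + |dw α z p (a • q)| :=
              abs_sub _ _
          _ ≤ ‖dw α z‖ * (‖a‖ * ‖p‖) * ‖q‖ + ‖dw α z‖ * ‖p‖ * (‖a‖ * ‖q‖) := by
              rw [abs_neg]
              exact add_le_add y1 y2
          _ = _ := by ring
      calc ‖z‖ * |-dw α z (a • p) q - dw α z p (a • q)|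
          ≤ ‖z‖ * (2 * (‖a‖ * (‖dw α z‖ * ‖p‖ * ‖q‖))) := by gcongr
        _ = 2 * (‖a‖ * ‖z‖) * (‖dw α z‖ * ‖p‖ * ‖q‖) := by ring
        _ ≤ 2 * (((n : ℝ) + 1) * ‖v‖) * (‖dw α z‖ * ‖p‖ * ‖q‖) := by gcongr
        _ = _ := by ring
    have b2 : ‖z‖ * |fderiv ℝ (dw α) z v' (b • z) q| ≤
        ((n : ℝ) + 1) * ((n : ℝ) + 2) * (‖dw α z‖ * ‖v‖ * ‖p‖ * ‖q‖) := by
      rw [dw_der_left h hz, abs_neg]
      have y1 := abs_dw α z (b • v') q
      rw [norm_smul] at y1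
      calc ‖z‖ * |dw α z (b • v') q| ≤ ‖z‖ * (‖dw α z‖ * (‖b‖ * ‖v'‖) * ‖q‖) := by gcongr
        _ = (‖b‖ * ‖z‖) * ‖v'‖ * (‖dw α z‖ * ‖q‖) := by ring
        _ ≤ (((n : ℝ) + 1) * ‖p‖) * (((n : ℝ) + 2) * ‖v‖) * (‖dw α z‖ * ‖q‖) := by gcongr
        _ = _ := by ring
    have b3 : ‖z‖ * |fderiv ℝ (dw α) z v' p' (d • z)| ≤
        ((n : ℝ) + 1) * ((n : ℝ) + 2) * ((n : ℝ) + 2) * (‖dw α z‖ * ‖v‖ * ‖p‖ * ‖q‖) := by
      rw [dw_der_right h hz, abs_neg]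
      have y1 := abs_dw α z p' (d • v')
      rw [norm_smul] at y1
      calc ‖z‖ * |dw α z p' (d • v')| ≤ ‖z‖ * (‖dw α z‖ * ‖p'‖ * (‖d‖ * ‖v'‖)) := by gcongr
        _ = (‖d‖ * ‖z‖) * ‖v'‖ * ‖p'‖ * ‖dw α z‖ := by ring
        _ ≤ (((n : ℝ) + 1) * ‖q‖) * (((n : ℝ) + 2) * ‖v‖) * (((n : ℝ) + 2) * ‖p‖) * ‖dw α z‖ := by
            gcongr
        _ = _ := by ring
    have b4 : |T3 α z v p q| ≤ ‖T3 α z‖ * ‖v‖ * ‖p‖ * ‖q‖ := by
      rw [← Real.norm_eq_abs]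
      calc ‖T3 α z v p q‖ ≤ ‖T3 α z v‖ * ‖p‖ * ‖q‖ := (T3 α z v).le_opNorm₂ p q
        _ ≤ ‖T3 α z‖ * ‖v‖ * ‖p‖ * ‖q‖ := by
            gcongr
            exact (T3 α z).le_opNorm v
    rw [e1]
    calc ‖z‖ * |fderiv ℝ (dw α) z (a • z) p q + fderiv ℝ (dw α) z v' (b • z) q +
          fderiv ℝ (dw α) z v' p' (d • z) + T3 α z v p q|
        ≤ ‖z‖ * (|fderiv ℝ (dw α) z (a • z) p q| + |fderiv ℝ (dw α) z v' (b • z) q| +
          |fderiv ℝ (dw α) z v' p' (d • z)| + |T3 α z v p q|) := by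
          apply mul_le_mul_of_nonneg_left _ hz0.le
          refine (abs_add_le _ _).trans (add_le_add ((abs_add_le _ _).trans
            (add_le_add (abs_add_le _ _) le_rfl)) le_rfl)
      _ = ‖z‖ * |fderiv ℝ (dw α) z (a • z) p q| + ‖z‖ * |fderiv ℝ (dw α) z v' (b • z) q| +
          ‖z‖ * |fderiv ℝ (dw α) z v' p' (d • z)| + ‖z‖ * |T3 α z v p q| := by ring
      _ ≤ 2 * ((n : ℝ) + 1) * (‖dw α z‖ * ‖v‖ * ‖p‖ * ‖q‖) +
          ((n : ℝ) + 1) * ((n : ℝ) + 2) * (‖dw α z‖ * ‖v‖ * ‖p‖ * ‖q‖) +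
          ((n : ℝ) + 1) * ((n : ℝ) + 2) * ((n : ℝ) + 2) * (‖dw α z‖ * ‖v‖ * ‖p‖ * ‖q‖) +
          ‖z‖ * (‖T3 α z‖ * ‖v‖ * ‖p‖ * ‖q‖) := by gcongr
      _ = _ := by rw [hK]; ring
  set M : ℝ := ‖z‖ * ‖T3 α z‖ + K * ‖dw α z‖ with hM
  have hM0 : 0 ≤ M := by positivity
  have h9 : ‖fderiv ℝ (dw α) z‖ ≤ M / ‖z‖ := by
    refine ContinuousLinearMap.opNorm_le_bound _ (by positivity) fun v => ?_
    refine ContinuousLinearMap.opNorm_le_bound _ (by positivity) fun p => ?_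
    refine ContinuousLinearMap.opNorm_le_bound _ (by positivity) fun q => ?_
    have := key v p q
    rw [Real.norm_eq_abs]
    have e2 : M / ‖z‖ * ‖v‖ * ‖p‖ * ‖q‖ = (M * ‖v‖ * ‖p‖ * ‖q‖) / ‖z‖ := by ring
    rw [e2, le_div_iff₀ hz0]
    linarith
  calc ‖z‖ * ‖fderiv ℝ (dw α) z‖ ≤ ‖z‖ * (M / ‖z‖) := by gcongr
    _ = M := by field_simp

theorem dens_U (n : ℕ) : ∃ C : ℝ, 1 ≤ C ∧ ∀ α : FW n, Symp α →
    Dens α fun z => C * (aO α z + kO α z) := by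
  obtain ⟨C₀, hC₀, hD⟩ := D3_le n
  refine ⟨2 * (1 + C₀), by linarith, fun α h => ?_⟩
  have ha0 : ∀ z : W n, 0 ≤ aO α z := fun z => by unfold aO; positivity
  have hk0 : ∀ z : W n, 0 ≤ kO α z := fun z => by unfold kO; positivity
  have hp : ∀ z : W n, z ≠ 0 → ∀ p : W n, hip z p = 0 →
      ‖p‖ ≤ 2 * ‖Gi α z‖ * ‖dw α z p‖ := by
    intro z hz p hp
    have e1 := Gi_BB h hz p
    rw [sub_Pj_eq hp] at e1
    calc ‖p‖ = ‖Gi α z (BB α z p)‖ := by rw [e1]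
      _ ≤ ‖Gi α z‖ * ‖BB α z p‖ := (Gi α z).le_opNorm _
      _ ≤ ‖Gi α z‖ * (2 * ‖dw α z p‖) := by
          gcongr
          exact BB_norm α z p
      _ = _ := by ring
  refine ⟨?_, fun z => ?_, fun c z hc => ?_, fun z hz p hpz => ?_, fun z hz p hpz => ?_⟩
  · exact continuousOn_const.mul ((cont_aO h).add (cont_kO h))
  · have := ha0 z
    have := hk0 z
    positivity
  · by_cases hz : z = 0
    · simp [hz]
    · simp only [aO_smul h hc hz, kO_smul h hc hz]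
  · have h1 := hp z hz p hpz
    have h2 := ha0 z
    have h3 := hk0 z
    calc ‖dw α z‖ * ‖p‖ ≤ ‖dw α z‖ * (2 * ‖Gi α z‖ * ‖dw α z p‖) := by gcongr
      _ = 2 * kO α z * ‖dw α z p‖ := by unfold kO; ring
      _ ≤ (2 * (1 + C₀) * (aO α z + kO α z)) * ‖dw α z p‖ := by
          apply mul_le_mul_of_nonneg_right _ (norm_nonneg _)
          nlinarith [mul_nonneg hC₀ h2, mul_nonneg hC₀ h3]
  · have h1 := hp z hz p hpz
    have h2 := ha0 z
    have h3 := hk0 z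
    have h4 := hD h.1 hz
    calc ‖z‖ * ‖fderiv ℝ (dw α) z‖ * ‖p‖
        ≤ (‖z‖ * ‖T3 α z‖ + C₀ * ‖dw α z‖) * (2 * ‖Gi α z‖ * ‖dw α z p‖) := by
          apply mul_le_mul h4 h1 (norm_nonneg _)
          positivity
      _ = 2 * (aO α z + C₀ * kO α z) * ‖dw α z p‖ := by unfold aO kO; ring
      _ ≤ (2 * (1 + C₀) * (aO α z + kO α z)) * ‖dw α z p‖ := by
          apply mul_le_mul_of_nonneg_right _ (norm_nonneg _)
          nlinarith [mul_nonneg hC₀ h2, mul_nonneg hC₀ h3]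

end Pool.Agent.Lib.P28u
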