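import Pool.Agent.Lib.P28u.EbF
import Pool.Agent.Lib.P28u.MatG

set_option autoImplicit false
set_option maxSynthPendingDepth 3

/-!
# Derivatives along the fields `g ↦ g X_i`

PROOF. `rm g X` is real-bilinear and continuous: `g ↦ rm g X` is a continuous linear map `R_X` (`LinearMap.toContinuousLinearMap`). `Dv i F g = fderiv ℝ F g (R_{X_i} g)`: smooth if `F` is (`ContDiffAt.fderiv_right`, `ContDiffAt.clm_apply`).
`com_Dv`: `Dv i (Dv j F) g = D²F_g (g X_i, g X_j) + DF_g ((g X_i) X_j)` and `(g X_i) X_j = g (X_i X_j)` (`rm_assoc`); the second derivative is symmetric (`ContDiffAt.isSymmSndFDerivAt`), `brk i j = X_i X_j - X_j X_i`, `rm g` is additive in the second argument. `DM_com`: entry by entry.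
-/

open MeasureTheory Set Metric
open scoped ContDiff Topology ENNReal

namespace Pool.Agent.Lib.P28u

open Pool.Agent.P28b04d Pool.Agent.Lib.P28e Pool.Agent.Lib.P28c Pool.Agent.Lib.P28t
open Pool.Agent.Lib.P28f (V EV)

variable {n : ℕ}

namespace DvFAux

theorem rm_add (g g' X : XX n) : rm (g + g') X = rm g X + rm g' X := by
  funext j
  show mx (g + g') (X j) = mx g (X j) + mx g' (X j)
  unfold mx
  simp only [Pi.add_apply, smul_add, Finset.sum_add_distrib]

theorem rm_smul (r : ℝ) (g X : XX n) : rm (r • g) X = r • rm g X := by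
  funext j
  show mx (r • g) (X j) = r • mx g (X j)
  unfold mx
  rw [Finset.smul_sum]
  refine Finset.sum_congr rfl fun k _ => ?_
  rw [Pi.smul_apply, smul_comm]

theorem rm_sub (g X Y : XX n) : rm g (X - Y) = rm g X - rm g Y := by
  funext j
  show mx g (X j - Y j) = mx g (X j) - mx g (Y j)
  unfold mx
  simp only [Pi.sub_apply, sub_smul, Finset.sum_sub_distrib]

noncomputable def RX (X : XX n) : XX n →L[ℝ] XX n :=
  LinearMap.toContinuousLinearMap
    { toFun := fun g => rm g X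
      map_add' := fun g g' => rm_add g g' X
      map_smul' := fun r g => rm_smul r g X }

theorem RX_apply (X g : XX n) : RX X g = rm g X := rfl

theorem Dv_eq (i : Fin (n * 2)) (F : XX n → ℝ) :
    Dv i F = fun g => fderiv ℝ F g (RX (Xm i) g) := rfl

theorem hasD {F : XX n → ℝ} {g : XX n} (j : Fin (n * 2)) (h : ContDiffAt ℝ ∞ F g) (v : XX n) :
    fderiv ℝ (Dv j F) g v = fderiv ℝ (fderiv ℝ F) g v (rm g (Xm j)) + fderiv ℝ F g (rm v (Xm j)) := by
  have h1 : ContDiffAt ℝ ∞ (fderiv ℝ F) g := h.fderiv_right (m := ∞) (by simp)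
  have h2 : HasFDerivAt (fderiv ℝ F) (fderiv ℝ (fderiv ℝ F) g) g :=
    (h1.differentiableAt (by simp)).hasFDerivAt
  have h3 : HasFDerivAt (fun g => RX (Xm j) g) (RX (Xm j)) g := (RX (Xm j)).hasFDerivAt
  have h4 := h2.clm_apply h3
  rw [Dv_eq, h4.fderiv]
  show fderiv ℝ F g (RX (Xm j) v) + fderiv ℝ (fderiv ℝ F) g v (RX (Xm j) g) = _
  rw [RX_apply, RX_apply, add_comm]

end DvFAux

open DvFAux

theorem contDiffAt_Dv {F : XX n → ℝ} {g : XX n} (i : Fin (n * 2)) (h : ContDiffAt ℝ ∞ F g) :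
    ContDiffAt ℝ ∞ (Dv i F) g := by
  rw [Dv_eq]
  have h1 : ContDiffAt ℝ ∞ (fderiv ℝ F) g := h.fderiv_right (m := ∞) (by simp)
  exact h1.clm_apply (RX (Xm i)).contDiff.contDiffAt

theorem com_Dv {F : XX n → ℝ} {g : XX n} (i j : Fin (n * 2)) (h : ContDiffAt ℝ ∞ F g) :
    Dv i (Dv j F) g - Dv j (Dv i F) g = fderiv ℝ F g (rm g (brk i j)) := by
  have e1 : Dv i (Dv j F) g = fderiv ℝ (fderiv ℝ F) g (rm g (Xm i)) (rm g (Xm j)) +
      fderiv ℝ F g (rm (rm g (Xm i)) (Xm j)) := hasD j h (rm g (Xm i))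
  have e2 : Dv j (Dv i F) g = fderiv ℝ (fderiv ℝ F) g (rm g (Xm j)) (rm g (Xm i)) +
      fderiv ℝ F g (rm (rm g (Xm j)) (Xm i)) := hasD i h (rm g (Xm j))
  have hs : IsSymmSndFDerivAt ℝ F g := h.isSymmSndFDerivAt (by
    rw [minSmoothness_of_isRCLikeNormedField]
    exact WithTop.coe_le_coe.2 (le_top : (2 : ℕ∞) ≤ ⊤))
  rw [e1, e2, hs.eq (rm g (Xm j)) (rm g (Xm i)), rm_assoc, rm_assoc]
  unfold brk
  rw [rm_sub, map_sub]
  ring

theorem SM.dm {M : XX n → MR n} {g : XX n} (i : Fin (n * 2)) (h : SM ∞ M g) : SM ∞ (DM i M) g :=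
  fun k l => contDiffAt_Dv i (h k l)

theorem DM_com {M : XX n → MR n} {g : XX n} (i j : Fin (n * 2)) (h : SM ∞ M g) :
    DM i (DM j M) g - DM j (DM i M) g = DE M g (rm g (brk i j)) := by
  ext k l
  rw [Matrix.sub_apply]
  exact com_Dv i j (h k l)

end Pool.Agent.Lib.P28u
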