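import Pool.Agent.Lib.P28u.GiC

set_option autoImplicit false
set_option maxSynthPendingDepth 3

/-!
# The pointwise bound and the energy bound for `aO`

PROOF. `EnLe.aO_le`, constant `(n+1)^2`: fix `w` and `v, p, q`; `r = Gi α z w`, `hip z r = 0` (`Gi_mem`), `v' = (1 - Pj z) v` and so on (`hip_sub_Pj`). The hypothesis gives `s`, `hip z s = 0`, `rad s ≤ 1`, `rad z |T3 α z v p q| rad r ≤ a z (rad v' rad p' rad q') dw α z r s` (`T3_apply`), and
`dw α z r s = re (hip (BB α z r) s) = re (hip ((1 - Pj z) w) s) ≤ rad ((1 - Pj z) w) rad s ≤ rad w` (`BB_hip`, `BB_Gi`, Cauchy-Schwarz; `rad ((1 - Pj z) w) ≤ rad w`: `nsq w = nsq (Pj z w) + nsq ((1 - Pj z) w)`). With `‖x‖ ≤ rad x ≤ (n+1)^{1/2} ‖x‖`: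
`‖z‖ |T3 α z v p q| ‖Gi α z w‖ ≤ (n+1)^2 a z ‖v‖ ‖p‖ ‖q‖ ‖w‖`. Take the supremum over `v, p, q` (`ContinuousLinearMap.opNorm_le_bound` for the map `(‖z‖ ‖Gi α z w‖) • T3 α z`), then over `w` (for the map `(‖z‖ ‖T3 α z‖) • Gi α z`).
`euc_le`: `ball 0 1 ⊆ (n+1)^{1/2} • {rad < 1}`; substitute `z = (n+1)^{1/2} y` (`MeasureTheory.Measure.addHaar_smul`, or `lintegral_comp_smul`; real dimension of `W n` is `2 (n + 1)`), `F (r y) = F y` for real `r > 0`, `y ≠ 0`; factor `(n+1)^{n+1}`. (The point `0` has measure zero.)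
`en_O`: combine: `∫⁻ ball, ofReal (aO)^(2n) ≤ (n+1)^(n+1) ∫⁻ {rad < 1}, ofReal (aO)^(2n) ≤ (n+1)^(n+1) ((n+1)^2)^(2n) ∫⁻ {rad < 1}, ofReal (a)^(2n)`. (`a` need not be measurable: `lintegral_mono`, `lintegral_const_mul'` with a finite constant.)
-/

open MeasureTheory Set Metric
open scoped ContDiff Topology ENNReal

namespace Pool.Agent.Lib.P28u

open Pool.Agent.P28b04d Pool.Agent.Lib.P28e Pool.Agent.Lib.P28c Pool.Agent.Lib.P28t

variable {n : ℕ}

namespace EnOAux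

theorem hip_re_le (x y : W n) : (hip x y).re ≤ rad x * rad y := by
  refine (Complex.re_le_norm _).trans ?_
  unfold hip rad nsq
  refine (norm_sum_le _ _).trans ?_
  have h := Real.sum_mul_le_sqrt_mul_sqrt Finset.univ (fun k : Fin (n + 1) => ‖x k‖) (fun k => ‖y k‖)
  simp only [norm_mul, norm_star, Complex.normSq_eq_norm_sq]
  exact h

theorem hip_self (z : W n) : (hip z z).re = nsq z := by
  unfold hip nsq
  rw [Complex.re_sum]
  refine Finset.sum_congr rfl fun k _ => ?_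
  rw [Complex.star_def, ← Complex.normSq_eq_conj_mul_self]
  exact Complex.ofReal_re _

theorem hip_star (x y : W n) : hip x y = star (hip y x) := by
  unfold hip
  rw [star_sum]
  refine Finset.sum_congr rfl fun k _ => ?_
  rw [star_mul, star_star]

theorem rad_sub_Pj_le {z : W n} (hz : z ≠ 0) (w : W n) : rad ((1 - Pj z) w) ≤ rad w := by
  set w' := (1 - Pj z) w with hw'
  have e0 : w' = w - Pj z w := rfl
  have h1 : hip z w' = 0 := hip_sub_Pj hz w
  have h2 : hip w' (Pj z w) = 0 := by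
    have e1 : Pj z w = ((((nsq z)⁻¹ : ℝ) : ℂ) * hip z w) • z := by
      rw [Pj_apply, mul_smul]
      rfl
    rw [e1, FormAux.hip_smul, hip_star w' z, h1]
    simp
  have h3 : nsq w' = (hip w' w).re := by
    rw [← hip_self w']
    have e2 : hip w' w' = hip w' w := by
      conv_lhs => rw [e0]
      rw [FormAux.hip_sub, ← e0, h2, sub_zero]
    rw [e2]
  have h4 : nsq w' ≤ rad w' * rad w := h3.le.trans (hip_re_le _ _)
  have h5 : rad w' * rad w' = nsq w' := Real.mul_self_sqrt (Finset.sum_nonneg fun k _ => Complex.normSq_nonneg _)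
  have h6 : 0 ≤ rad w' := Real.sqrt_nonneg _
  have h7 : 0 ≤ rad w := Real.sqrt_nonneg _
  rcases h6.eq_or_lt with h | h
  · rw [← h]
    exact h7
  · have : rad w' * rad w' ≤ rad w' * rad w := h5.le.trans h4
    exact le_of_mul_le_mul_left this h

theorem rad_le' (z : W n) : rad z ≤ Real.sqrt ((n : ℝ) + 1) * ‖z‖ := by
  unfold rad
  rw [← Real.sqrt_sq (norm_nonneg z), ← Real.sqrt_mul (by positivity)]
  apply Real.sqrt_le_sqrt
  have h1 : nsq z ≤ ∑ _k : Fin (n + 1), ‖z‖ ^ 2 := by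
    unfold nsq
    apply Finset.sum_le_sum
    intro k _
    rw [Complex.normSq_eq_norm_sq]
    exact pow_le_pow_left₀ (norm_nonneg _) (norm_le_pi_norm z k) 2
  rw [Finset.sum_const, Finset.card_univ, Fintype.card_fin, nsmul_eq_mul] at h1
  push_cast at h1
  exact h1

theorem sup_le {z : ℝ} (hz : 0 ≤ z) {T : W n →L[ℝ] BW n} {G : EndW n} {C : ℝ} (hC : 0 ≤ C)
    (h : ∀ v p q w : W n, z * |T v p q| * ‖G w‖ ≤ C * (‖v‖ * ‖p‖ * ‖q‖) * ‖w‖) : z * ‖T‖ * ‖G‖ ≤ C := by
  have h1 : ∀ w : W n, z * ‖T‖ * ‖G w‖ ≤ C * ‖w‖ := by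
    intro w
    set c : ℝ := z * ‖G w‖ with hc
    have hc0 : 0 ≤ c := by positivity
    have h2 : ‖c • T‖ ≤ C * ‖w‖ := by
      refine ContinuousLinearMap.opNorm_le_bound _ (by positivity) fun v => ?_
      refine ContinuousLinearMap.opNorm_le_bound _ (by positivity) fun p => ?_
      refine ContinuousLinearMap.opNorm_le_bound _ (by positivity) fun q => ?_
      have e1 : ((c • T) v) p q = c * T v p q := rfl
      rw [e1, norm_mul, Real.norm_of_nonneg hc0, Real.norm_eq_abs]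
      have h3 := h v p q w
      rw [hc]
      nlinarith [h3]
    rw [norm_smul, Real.norm_of_nonneg hc0] at h2
    calc z * ‖T‖ * ‖G w‖ = c * ‖T‖ := by rw [hc]; ring
      _ ≤ _ := h2
  have h4 : ‖(z * ‖T‖) • G‖ ≤ C := by
    refine ContinuousLinearMap.opNorm_le_bound _ hC fun w => ?_
    rw [_root_.smul_apply, norm_smul, Real.norm_of_nonneg (by positivity)]
    exact h1 w
  rw [norm_smul, Real.norm_of_nonneg (by positivity)] at h4
  exact h4

end EnOAux

open EnOAux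

theorem EnLe.aO_le {α : FW n} (h : Symp α) {a : W n → ℝ} (ha : EnLe α a) {z : W n} (hz : z ≠ 0) :
    aO α z ≤ ((n : ℝ) + 1) ^ 2 * a z := by
  have hn : (0 : ℝ) ≤ (n : ℝ) + 1 := by positivity
  have ha0 := ha.nonneg z
  unfold aO
  refine sup_le (norm_nonneg z) (by positivity) fun v p q w => ?_
  set r := Gi α z w with hr
  have hr0 : hip z r = 0 := Gi_mem h hz w
  obtain ⟨s, hs, hs1, hle⟩ := ha.le z hz ((1 - Pj z) v) ((1 - Pj z) p) ((1 - Pj z) q) r (hip_sub_Pj hz v)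
    (hip_sub_Pj hz p) (hip_sub_Pj hz q) hr0
  rw [← T3_apply] at hle
  have hd : dw α z r s ≤ rad w := by
    rw [← BB_hip, hr, BB_Gi h hz]
    refine (hip_re_le _ _).trans ?_
    have h1 := rad_sub_Pj_le hz w
    have h2 : 0 ≤ rad ((1 - Pj z) w) := Real.sqrt_nonneg _
    calc rad ((1 - Pj z) w) * rad s ≤ rad ((1 - Pj z) w) * 1 := mul_le_mul_of_nonneg_left hs1 h2
      _ ≤ rad w := by rw [mul_one]; exact h1
  set R := Real.sqrt ((n : ℝ) + 1) with hR
  have hR0 : 0 ≤ R := Real.sqrt_nonneg _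
  have hR2 : R * R = (n : ℝ) + 1 := Real.mul_self_sqrt hn
  have hb : ∀ x : W n, 0 ≤ rad ((1 - Pj z) x) ∧ rad ((1 - Pj z) x) ≤ R * ‖x‖ := fun x =>
    ⟨Real.sqrt_nonneg _, (rad_sub_Pj_le hz x).trans (rad_le' x)⟩
  have hw : rad w ≤ R * ‖w‖ := rad_le' w
  have hT0 : 0 ≤ |T3 α z v p q| := abs_nonneg _
  calc ‖z‖ * |T3 α z v p q| * ‖r‖ ≤ rad z * |T3 α z v p q| * rad r := by
        apply mul_le_mul (mul_le_mul_of_nonneg_right (norm_le_rad z) hT0) (norm_le_rad r) (norm_nonneg _)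
        exact mul_nonneg (Real.sqrt_nonneg _) hT0
    _ ≤ a z * (rad ((1 - Pj z) v) * rad ((1 - Pj z) p) * rad ((1 - Pj z) q)) * dw α z r s := hle
    _ ≤ a z * (rad ((1 - Pj z) v) * rad ((1 - Pj z) p) * rad ((1 - Pj z) q)) * (R * ‖w‖) := by
        apply mul_le_mul_of_nonneg_left (hd.trans hw)
        exact mul_nonneg ha0 (mul_nonneg (mul_nonneg (hb v).1 (hb p).1) (hb q).1)
    _ ≤ a z * ((R * ‖v‖) * (R * ‖p‖) * (R * ‖q‖)) * (R * ‖w‖) := by
        apply mul_le_mul_of_nonneg_right _ (by positivity)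
        apply mul_le_mul_of_nonneg_left _ ha0
        have h1 : rad ((1 - Pj z) v) * rad ((1 - Pj z) p) ≤ (R * ‖v‖) * (R * ‖p‖) :=
          mul_le_mul (hb v).2 (hb p).2 (hb p).1 (by positivity)
        exact mul_le_mul h1 (hb q).2 (hb q).1 (by positivity)
    _ = ((R * R) * (R * R)) * a z * (‖v‖ * ‖p‖ * ‖q‖) * ‖w‖ := by ring
    _ = ((n : ℝ) + 1) ^ 2 * a z * (‖v‖ * ‖p‖ * ‖q‖) * ‖w‖ := by rw [hR2]; ring

theorem euc_le (n : ℕ) : ∃ C : ℝ, 0 < C ∧ ∀ F : W n → ℝ≥0∞,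
    (∀ (c : ℂ) (z : W n), c ≠ 0 → z ≠ 0 → F (c • z) = F z) →
    ∫⁻ z in ball (0 : W n) 1, F z ≤ ENNReal.ofReal C * ∫⁻ z in {z : W n | rad z < 1}, F z := by
  set R : ℝ := (n : ℝ) + 1 with hR
  have hR0 : 0 < R := by positivity
  set d := Module.finrank ℝ (W n) with hd
  refine ⟨R ^ d, by positivity, fun F hF => ?_⟩
  have hmap := Measure.map_addHaar_smul (volume : Measure (W n)) hR0.ne'
  set T : W n → W n := fun y => R • y with hT
  have hTe : MeasurableEmbedding T := (Homeomorph.smulOfNeZero R hR0.ne').measurableEmbedding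
  have hvol : (volume : Measure (W n)) = ENNReal.ofReal (R ^ d) • Measure.map T volume := by
    rw [hmap, smul_smul, ← ENNReal.ofReal_mul (by positivity), abs_of_pos (by positivity), mul_inv_cancel₀ (by positivity)]
    simp
  have h1 : ∫⁻ z in ball (0 : W n) 1, F z = ENNReal.ofReal (R ^ d) * ∫⁻ y in T ⁻¹' (ball (0 : W n) 1), F (T y) := by
    conv_lhs => rw [hvol]
    rw [Measure.restrict_smul, lintegral_smul_measure, smul_eq_mul, hTe.restrict_map, hTe.lintegral_map]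
  rw [h1]
  refine mul_le_mul_right ?_ _
  have h2 : ∫⁻ y in T ⁻¹' (ball (0 : W n) 1), F (T y) = ∫⁻ y in T ⁻¹' (ball (0 : W n) 1), F y := by
    refine lintegral_congr_ae ?_
    refine Filter.EventuallyEq.filter_mono ?_ (ae_mono Measure.restrict_le_self)
    have h3 : ∀ᵐ y : W n, y ≠ 0 := by
      rw [ae_iff]
      simp
    filter_upwards [h3] with y hy
    have h4 := hF (R : ℂ) y (by exact_mod_cast hR0.ne') hy
    have e1 : T y = (R : ℂ) • y := by
      simp [hT]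
    rw [e1]
    exact h4
  rw [h2]
  refine lintegral_mono_set fun y hy => ?_
  rw [mem_preimage, mem_ball_zero_iff, hT] at hy
  simp only [norm_smul, Real.norm_of_nonneg hR0.le] at hy
  exact (rad_le y).trans_lt hy

theorem en_O (n : ℕ) : ∃ C : ℝ, 0 < C ∧ ∀ (E : ℝ) (α : FW n) (a : W n → ℝ), 0 ≤ E → Symp α →
    EnLe α a → ∫⁻ z in {z : W n | rad z < 1}, ENNReal.ofReal (a z) ^ (2 * n) ≤ ENNReal.ofReal E →
    ∫⁻ z in ball (0 : W n) 1, ENNReal.ofReal (aO α z) ^ (2 * n) ≤ ENNReal.ofReal (C * E) := by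
  obtain ⟨C, hC, hle⟩ := euc_le n
  set M : ℝ := (((n : ℝ) + 1) ^ 2) ^ (2 * n) with hM
  have hM0 : 0 < M := by positivity
  refine ⟨C * M, by positivity, fun E α a hE h ha hi => ?_⟩
  have h1 := hle (fun z => ENNReal.ofReal (aO α z) ^ (2 * n)) (fun c z hc hz => by rw [aO_smul h hc hz])
  refine h1.trans ?_
  have h2 : ∫⁻ z in {z : W n | rad z < 1}, ENNReal.ofReal (aO α z) ^ (2 * n) ≤
      ∫⁻ z in {z : W n | rad z < 1}, ENNReal.ofReal M * ENNReal.ofReal (a z) ^ (2 * n) := by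
    refine lintegral_mono_ae ?_
    have h3 : ∀ᵐ y : W n, y ≠ 0 := by
      rw [ae_iff]
      simp
    refine (Filter.Eventually.filter_mono (ae_mono Measure.restrict_le_self) h3).mono fun z hz => ?_
    have h4 := EnLe.aO_le h ha hz
    calc ENNReal.ofReal (aO α z) ^ (2 * n) ≤ ENNReal.ofReal (((n : ℝ) + 1) ^ 2 * a z) ^ (2 * n) :=
          pow_le_pow_left' (ENNReal.ofReal_le_ofReal h4) _
      _ = ENNReal.ofReal M * ENNReal.ofReal (a z) ^ (2 * n) := by
          rw [ENNReal.ofReal_mul (by positivity), mul_pow, hM, ← ENNReal.ofReal_pow (by positivity) (2 * n)]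
  have h5 : ∫⁻ z in {z : W n | rad z < 1}, ENNReal.ofReal M * ENNReal.ofReal (a z) ^ (2 * n) =
      ENNReal.ofReal M * ∫⁻ z in {z : W n | rad z < 1}, ENNReal.ofReal (a z) ^ (2 * n) :=
    lintegral_const_mul' _ _ ENNReal.ofReal_ne_top
  calc ENNReal.ofReal C * ∫⁻ z in {z : W n | rad z < 1}, ENNReal.ofReal (aO α z) ^ (2 * n)
      ≤ ENNReal.ofReal C * (ENNReal.ofReal M * ENNReal.ofReal E) := by
        refine mul_le_mul_right ((h2.trans h5.le).trans (mul_le_mul_right hi _)) _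
    _ = ENNReal.ofReal (C * M * E) := by
        rw [ENNReal.ofReal_mul (by positivity), ENNReal.ofReal_mul hC.le, mul_assoc]

end Pool.Agent.Lib.P28u
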