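import Pool.Agent.Lib.P28u.KapInt
import Pool.Agent.Lib.P28u.DensU
import Pool.Agent.Lib.P28u.EnO
import Pool.Agent.Lib.P28t.MainF

set_option autoImplicit false
set_option maxSynthPendingDepth 3

/-!
# Critical finiteness for symplectic forms: final assembly
-/

open MeasureTheory Set Metric
open scoped ContDiff Topology ENNReal

namespace Pool.Agent.Lib.P28u

open Pool.Agent.P28b04d Pool.Agent.Lib.P28e Pool.Agent.Lib.P28c Pool.Agent.Lib.P28t

variable {n : ℕ}

namespace FinUAux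

theorem sum_pow_le {x y C : ℝ} (hx : 0 ≤ x) (hy : 0 ≤ y) (hC : 0 ≤ C) (k : ℕ) :
    (C * (x + y)) ^ k ≤ (2 * C) ^ k * (x ^ k + y ^ k) := by
  rcases le_total x y with h | h
  · calc (C * (x + y)) ^ k ≤ (2 * C * y) ^ k := by
          refine pow_le_pow_left₀ (by positivity) ?_ k
          nlinarith
      _ = (2 * C) ^ k * y ^ k := mul_pow _ _ _
      _ ≤ (2 * C) ^ k * (x ^ k + y ^ k) := by
          refine mul_le_mul_of_nonneg_left ?_ (by positivity)
          have : 0 ≤ x ^ k := by positivity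
          linarith
  · calc (C * (x + y)) ^ k ≤ (2 * C * x) ^ k := by
          refine pow_le_pow_left₀ (by positivity) ?_ k
          nlinarith
      _ = (2 * C) ^ k * x ^ k := mul_pow _ _ _
      _ ≤ (2 * C) ^ k * (x ^ k + y ^ k) := by
          refine mul_le_mul_of_nonneg_left ?_ (by positivity)
          have : 0 ≤ y ^ k := by positivity
          linarith

theorem aemeas {f : W n → ℝ} (hf : ContinuousOn f {0}ᶜ) :
    AEMeasurable f (volume.restrict (ball (0 : W n) 1)) := by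
  have h1 : AEMeasurable f (volume.restrict ({0}ᶜ : Set (W n))) :=
    hf.aemeasurable (measurableSet_singleton 0).compl
  have h2 : (volume.restrict ({0}ᶜ : Set (W n))) = volume := by
    have h3 : volume ({0}ᶜᶜ : Set (W n)) = 0 := by
      rw [compl_compl]
      exact measure_singleton 0
    exact Measure.restrict_eq_self_of_ae_mem (by
      rw [ae_iff]
      simpa using h3)
  rw [h2] at h1
  exact h1.restrict

theorem kO_nonneg (α : FW n) (z : W n) : 0 ≤ kO α z := by unfold kO; positivity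

theorem aO_nonneg (α : FW n) (z : W n) : 0 ≤ aO α z := by unfold aO; positivity

theorem int_le {α : FW n} (h : Symp α) {C E E' : ℝ} (hC : 0 ≤ C)
    (h1 : ∫⁻ z in ball (0 : W n) 1, ENNReal.ofReal (aO α z) ^ (2 * n) ≤ ENNReal.ofReal E)
    (h2 : ∫⁻ z in ball (0 : W n) 1, ENNReal.ofReal (kO α z) ^ (2 * n) ≤ ENNReal.ofReal E') :
    ∫⁻ z in ball (0 : W n) 1, ENNReal.ofReal (C * (aO α z + kO α z)) ^ (2 * n) ≤
      ENNReal.ofReal ((2 * C) ^ (2 * n) * (max E 0 + max E' 0)) := by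
  have hp : ∀ z : W n, ENNReal.ofReal (C * (aO α z + kO α z)) ^ (2 * n) ≤
      ENNReal.ofReal ((2 * C) ^ (2 * n)) * (ENNReal.ofReal (aO α z) ^ (2 * n) +
        ENNReal.ofReal (kO α z) ^ (2 * n)) := by
    intro z
    have ha := aO_nonneg α z
    have hk := kO_nonneg α z
    rw [← ENNReal.ofReal_pow (by positivity), ← ENNReal.ofReal_pow ha, ← ENNReal.ofReal_pow hk,
      ← ENNReal.ofReal_add (by positivity) (by positivity), ← ENNReal.ofReal_mul (by positivity)]
    exact ENNReal.ofReal_le_ofReal (sum_pow_le ha hk hC _)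
  have hm : AEMeasurable (fun z : W n => ENNReal.ofReal (aO α z) ^ (2 * n))
      (volume.restrict (ball (0 : W n) 1)) := (aemeas (cont_aO h)).ennreal_ofReal.pow_const _
  calc ∫⁻ z in ball (0 : W n) 1, ENNReal.ofReal (C * (aO α z + kO α z)) ^ (2 * n)
      ≤ ∫⁻ z in ball (0 : W n) 1, ENNReal.ofReal ((2 * C) ^ (2 * n)) *
        (ENNReal.ofReal (aO α z) ^ (2 * n) + ENNReal.ofReal (kO α z) ^ (2 * n)) :=
        lintegral_mono hp
    _ = ENNReal.ofReal ((2 * C) ^ (2 * n)) * (∫⁻ z in ball (0 : W n) 1,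
        (ENNReal.ofReal (aO α z) ^ (2 * n) + ENNReal.ofReal (kO α z) ^ (2 * n))) :=
        lintegral_const_mul' _ _ ENNReal.ofReal_ne_top
    _ = ENNReal.ofReal ((2 * C) ^ (2 * n)) *
        ((∫⁻ z in ball (0 : W n) 1, ENNReal.ofReal (aO α z) ^ (2 * n)) +
          ∫⁻ z in ball (0 : W n) 1, ENNReal.ofReal (kO α z) ^ (2 * n)) := by
        rw [lintegral_add_left' hm]
    _ ≤ ENNReal.ofReal ((2 * C) ^ (2 * n)) * (ENNReal.ofReal (max E 0) +
          ENNReal.ofReal (max E' 0)) := by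
        gcongr
        · exact h1.trans (ENNReal.ofReal_le_ofReal (le_max_left _ _))
        · exact h2.trans (ENNReal.ofReal_le_ofReal (le_max_left _ _))
    _ = ENNReal.ofReal ((2 * C) ^ (2 * n) * (max E 0 + max E' 0)) := by
        rw [← ENNReal.ofReal_add (le_max_right _ _) (le_max_right _ _),
          ← ENNReal.ofReal_mul (by positivity)]

end FinUAux

open FinUAux in
theorem main_U (n : ℕ) (hn : 2 ≤ n) (E : ℝ) : ∃ S : Set (FW n), S.Finite ∧
    (∀ β ∈ S, Symp β) ∧ ∀ (α : FW n) (a : W n → ℝ), Symp α → EnLe α a →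
      ∫⁻ z in {z : W n | rad z < 1}, ENNReal.ofReal (a z) ^ (2 * n) ≤ ENNReal.ofReal E →
      ∃ β ∈ S, JoinF α β := by
  obtain ⟨C₁, hC₁, h₁⟩ := en_O n
  obtain ⟨C₂, h₂⟩ := kap_int n hn (C₁ * max E 0)
  obtain ⟨C, hC, h₃⟩ := dens_U n
  obtain ⟨S, hS, hS1, hS2⟩ := classes_F n hn
    ((2 * C) ^ (2 * n) * (max (C₁ * max E 0) 0 + max C₂ 0))
  refine ⟨S, hS, hS1, fun α a hα ha hE => ?_⟩
  have e1 := h₁ (max E 0) α a (le_max_right _ _) hα ha
    (hE.trans (ENNReal.ofReal_le_ofReal (le_max_left _ _)))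
  exact hS2 α _ hα (h₃ α hα) (int_le hα (by linarith) e1 (h₂ α hα e1))

end Pool.Agent.Lib.P28u
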