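import Pool.Agent.Lib.P28u.Defs2

set_option autoImplicit false
set_option maxSynthPendingDepth 3

/-!
# Frobenius norms

PROOF. `fr2 M` is the square of the Euclidean norm of the vector of the entries; `inn` the inner product. Cauchy-Schwarz (`Finset.sum_mul_sq_le_sq_mul_sq`, twice or over the product index set). `fr2_mul`: `(M N) k l ^ 2 ≤ (∑ r, M k r ^ 2) (∑ r, N r l ^ 2)`, sum over `k`, `l`.
`sqrt_fr2_add`: Minkowski, from `fr2 (M + N) = fr2 M + 2 inn M N + fr2 N` and `inn_le`. `one_le_cond`: `fr2 1 = 2 n ≥ 1`, `1 = M M⁻¹`, `fr2_mul`. `fr2_lin`: `∑ c_kl² = 1` and Cauchy-Schwarz for each entry.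
-/

open MeasureTheory Set Metric
open scoped ContDiff Topology ENNReal

namespace Pool.Agent.Lib.P28u

open Pool.Agent.P28b04d Pool.Agent.Lib.P28e Pool.Agent.Lib.P28c Pool.Agent.Lib.P28t
open Pool.Agent.Lib.P28f (V EV)

variable {n : ℕ}

theorem fr2_nonneg (M : MR n) : 0 ≤ fr2 M := by
  unfold fr2
  positivity

theorem sq_le_fr2 (M : MR n) (k l : Fin (n * 2)) : M k l ^ 2 ≤ fr2 M := by
  unfold fr2
  exact (Finset.single_le_sum (f := fun l => M k l ^ 2) (fun i _ => sq_nonneg _)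
    (Finset.mem_univ l)).trans
    (Finset.single_le_sum (f := fun k => ∑ l, M k l ^ 2) (fun i _ => by positivity)
      (Finset.mem_univ k))

theorem abs_le_fr2 (M : MR n) (k l : Fin (n * 2)) : |M k l| ≤ Real.sqrt (fr2 M) :=
  Real.abs_le_sqrt (sq_le_fr2 M k l)

/-- a bound of all entries bounds the Frobenius norm -/
theorem fr2_le {M : MR n} {B : ℝ} (hB : 0 ≤ B) (h : ∀ k l, |M k l| ≤ B) : fr2 M ≤ ((n : ℝ) * 2) ^ 2 * B ^ 2 := by
  unfold fr2
  have h1 : ∀ k l, M k l ^ 2 ≤ B ^ 2 := fun k l => by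
    have h2 := pow_le_pow_left₀ (abs_nonneg _) (h k l) 2
    rwa [sq_abs] at h2
  calc ∑ k, ∑ l, M k l ^ 2 ≤ ∑ _k : Fin (n * 2), ∑ _l : Fin (n * 2), B ^ 2 :=
        Finset.sum_le_sum fun k _ => Finset.sum_le_sum fun l _ => h1 k l
    _ = _ := by
        rw [Finset.sum_const, Finset.sum_const, Finset.card_univ, Fintype.card_fin,
          nsmul_eq_mul, nsmul_eq_mul]
        push_cast
        ring

theorem fr2_transpose (M : MR n) : fr2 M.transpose = fr2 M := by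
  unfold fr2
  rw [Finset.sum_comm]
  rfl

theorem fr2_neg (M : MR n) : fr2 (-M) = fr2 M := by
  unfold fr2
  simp

theorem fr2_smul (r : ℝ) (M : MR n) : fr2 (r • M) = r ^ 2 * fr2 M := by
  unfold fr2
  rw [Finset.mul_sum]
  refine Finset.sum_congr rfl fun k _ => ?_
  rw [Finset.mul_sum]
  refine Finset.sum_congr rfl fun l _ => ?_
  rw [Matrix.smul_apply, smul_eq_mul, mul_pow]

theorem fr2_mul (M N : MR n) : fr2 (M * N) ≤ fr2 M * fr2 N := by
  have h1 : ∀ k l, (M * N) k l ^ 2 ≤ (∑ r, M k r ^ 2) * (∑ r, N r l ^ 2) := by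
    intro k l
    rw [Matrix.mul_apply]
    exact Finset.sum_mul_sq_le_sq_mul_sq _ _ _
  have h2 : fr2 M * fr2 N = ∑ k, ∑ l, (∑ r, M k r ^ 2) * (∑ r, N r l ^ 2) := by
    have h3 : fr2 N = ∑ l, ∑ r, N r l ^ 2 := by
      unfold fr2
      rw [Finset.sum_comm]
    rw [h3]
    unfold fr2
    rw [Finset.sum_mul]
    refine Finset.sum_congr rfl fun k _ => ?_
    rw [Finset.mul_sum]
  rw [h2]
  unfold fr2
  exact Finset.sum_le_sum fun k _ => Finset.sum_le_sum fun l _ => h1 k l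

theorem sqrt_fr2_mul (M N : MR n) : Real.sqrt (fr2 (M * N)) ≤ Real.sqrt (fr2 M) * Real.sqrt (fr2 N) := by
  rw [← Real.sqrt_mul (fr2_nonneg M)]
  exact Real.sqrt_le_sqrt (fr2_mul M N)

namespace FrAAux

theorem cs (f g : Fin (n * 2) → Fin (n * 2) → ℝ) :
    (∑ k, ∑ l, f k l * g k l) ^ 2 ≤ (∑ k, ∑ l, f k l ^ 2) * (∑ k, ∑ l, g k l ^ 2) := by
  have h1 := Finset.sum_mul_sq_le_sq_mul_sq (Finset.univ : Finset (Fin (n * 2) × Fin (n * 2)))
    (fun p => f p.1 p.2) (fun p => g p.1 p.2)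
  rw [Fintype.sum_prod_type, Fintype.sum_prod_type, Fintype.sum_prod_type] at h1
  exact h1

theorem inn_abs (M N : MR n) : |inn M N| ≤ Real.sqrt (fr2 M) * Real.sqrt (fr2 N) := by
  rw [← Real.sqrt_mul (fr2_nonneg M)]
  refine Real.abs_le_sqrt ?_
  exact cs M N

theorem fr2_expand (M N : MR n) : fr2 (M + N) = fr2 M + 2 * inn M N + fr2 N := by
  unfold fr2 inn
  rw [Finset.mul_sum, ← Finset.sum_add_distrib, ← Finset.sum_add_distrib]
  refine Finset.sum_congr rfl fun k _ => ?_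
  rw [Finset.mul_sum, ← Finset.sum_add_distrib, ← Finset.sum_add_distrib]
  refine Finset.sum_congr rfl fun l _ => ?_
  rw [Matrix.add_apply]
  ring

end FrAAux

theorem sqrt_fr2_add (M N : MR n) : Real.sqrt (fr2 (M + N)) ≤ Real.sqrt (fr2 M) + Real.sqrt (fr2 N) := by
  rw [Real.sqrt_le_iff]
  refine ⟨by positivity, ?_⟩
  rw [FrAAux.fr2_expand]
  have h1 := Real.sq_sqrt (fr2_nonneg M)
  have h2 := Real.sq_sqrt (fr2_nonneg N)
  have h3 := (abs_le.1 (FrAAux.inn_abs M N)).2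
  have h4 : (Real.sqrt (fr2 M) + Real.sqrt (fr2 N)) ^ 2 =
      Real.sqrt (fr2 M) ^ 2 + 2 * (Real.sqrt (fr2 M) * Real.sqrt (fr2 N)) +
        Real.sqrt (fr2 N) ^ 2 := by ring
  rw [h4, h1, h2]
  linarith

theorem sqrt_fr2_sub (M N : MR n) : Real.sqrt (fr2 (M - N)) ≤ Real.sqrt (fr2 M) + Real.sqrt (fr2 N) := by
  have h := sqrt_fr2_add M (-N)
  rwa [fr2_neg, ← sub_eq_add_neg] at h

theorem fr2_add (M N : MR n) : fr2 (M + N) ≤ 2 * (fr2 M + fr2 N) := by
  unfold fr2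
  rw [← Finset.sum_add_distrib, Finset.mul_sum]
  refine Finset.sum_le_sum fun k _ => ?_
  rw [← Finset.sum_add_distrib, Finset.mul_sum]
  refine Finset.sum_le_sum fun l _ => ?_
  rw [Matrix.add_apply]
  nlinarith [sq_nonneg (M k l - N k l)]

theorem inn_self (M : MR n) : inn M M = fr2 M := by
  unfold inn fr2
  refine Finset.sum_congr rfl fun k _ => Finset.sum_congr rfl fun l _ => ?_
  ring

theorem inn_add (M N N' : MR n) : inn M (N + N') = inn M N + inn M N' := by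
  unfold inn
  rw [← Finset.sum_add_distrib]
  refine Finset.sum_congr rfl fun k _ => ?_
  rw [← Finset.sum_add_distrib]
  refine Finset.sum_congr rfl fun l _ => ?_
  rw [Matrix.add_apply]
  ring

theorem inn_sub (M N N' : MR n) : inn M (N - N') = inn M N - inn M N' := by
  unfold inn
  rw [← Finset.sum_sub_distrib]
  refine Finset.sum_congr rfl fun k _ => ?_
  rw [← Finset.sum_sub_distrib]
  refine Finset.sum_congr rfl fun l _ => ?_
  rw [Matrix.sub_apply]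
  ring

theorem inn_le (M N : MR n) : |inn M N| ≤ Real.sqrt (fr2 M) * Real.sqrt (fr2 N) :=
  FrAAux.inn_abs M N

theorem one_le_cond (hn : 1 ≤ n) {M : MR n} (h : IsUnit M) : 1 ≤ fr2 M * fr2 M⁻¹ := by
  have h1 : M * M⁻¹ = 1 := Matrix.mul_nonsing_inv _ ((Matrix.isUnit_iff_isUnit_det _).1 h)
  have h2 := fr2_mul M M⁻¹
  rw [h1] at h2
  have h3 := sq_le_fr2 (1 : MR n) ⟨0, by omega⟩ ⟨0, by omega⟩
  rw [Matrix.one_apply_eq, one_pow] at h3
  exact h3.trans h2

theorem fr2_pos (hn : 1 ≤ n) {M : MR n} (h : IsUnit M) : 0 < fr2 M := by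
  have h1 := one_le_cond hn h
  rcases (fr2_nonneg M).eq_or_lt with h2 | h2
  · rw [← h2, zero_mul] at h1
    linarith
  · exact h2

theorem fr2_inv_pos (hn : 1 ≤ n) {M : MR n} (h : IsUnit M) : 0 < fr2 M⁻¹ := by
  have h1 := one_le_cond hn h
  rcases (fr2_nonneg M⁻¹).eq_or_lt with h2 | h2
  · rw [← h2, mul_zero] at h1
    linarith
  · exact h2

theorem norm_vecMul_le (M : MR n) (x : V (n * 2)) : ‖M.vecMul x‖ ≤ ((n : ℝ) * 2) * Real.sqrt (fr2 M) * ‖x‖ := by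
  rw [pi_norm_le_iff_of_nonneg (by positivity)]
  intro l
  rw [Real.norm_eq_abs]
  unfold Matrix.vecMul dotProduct
  refine (Finset.abs_sum_le_sum_abs _ _).trans ?_
  have h1 : ∀ k ∈ (Finset.univ : Finset (Fin (n * 2))), |x k * M k l| ≤
      ‖x‖ * Real.sqrt (fr2 M) := by
    intro k _
    rw [abs_mul]
    exact mul_le_mul (norm_le_pi_norm x k) (abs_le_fr2 M k l) (abs_nonneg _) (norm_nonneg _)
  refine (Finset.sum_le_card_nsmul _ _ _ h1).trans (le_of_eq ?_)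
  rw [Finset.card_univ, Fintype.card_fin, nsmul_eq_mul]
  push_cast
  ring

theorem fr2_lin (Q : Fin (n * 2) → Fin (n * 2) → MR n) (x y : V (n * 2)) (hx : ∑ i, x i ^ 2 = 1) (hy : ∑ i, y i ^ 2 = 1) :
    fr2 (∑ i, ∑ j, (x i * y j) • Q i j) ≤ ∑ i, ∑ j, fr2 (Q i j) := by
  have hxy : ∑ i, ∑ j, (x i * y j) ^ 2 = 1 := by
    have e : ∑ i, ∑ j, (x i * y j) ^ 2 = (∑ i, x i ^ 2) * (∑ j, y j ^ 2) := by
      rw [Finset.sum_mul]
      refine Finset.sum_congr rfl fun i _ => ?_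
      rw [Finset.mul_sum]
      refine Finset.sum_congr rfl fun j _ => ?_
      rw [mul_pow]
    rw [e, hx, hy, one_mul]
  have h1 : ∀ k l, (∑ i, ∑ j, (x i * y j) • Q i j : MR n) k l ^ 2 ≤
      ∑ i, ∑ j, Q i j k l ^ 2 := by
    intro k l
    have e : (∑ i, ∑ j, (x i * y j) • Q i j : MR n) k l =
        ∑ i, ∑ j, (x i * y j) * Q i j k l := by
      rw [Matrix.sum_apply]
      refine Finset.sum_congr rfl fun i _ => ?_
      rw [Matrix.sum_apply]
      refine Finset.sum_congr rfl fun j _ => ?_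
      rw [Matrix.smul_apply, smul_eq_mul]
    rw [e]
    have h2 := FrAAux.cs (fun i j => x i * y j) (fun i j => Q i j k l)
    rw [hxy, one_mul] at h2
    exact h2
  have h3 : ∑ i, ∑ j, fr2 (Q i j) = ∑ k, ∑ l, ∑ i, ∑ j, Q i j k l ^ 2 := by
    unfold fr2
    calc ∑ i, ∑ j, ∑ k, ∑ l, Q i j k l ^ 2 = ∑ i, ∑ k, ∑ j, ∑ l, Q i j k l ^ 2 :=
          Finset.sum_congr rfl fun i _ => Finset.sum_comm
      _ = ∑ k, ∑ i, ∑ j, ∑ l, Q i j k l ^ 2 := Finset.sum_comm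
      _ = ∑ k, ∑ i, ∑ l, ∑ j, Q i j k l ^ 2 :=
          Finset.sum_congr rfl fun k _ => Finset.sum_congr rfl fun i _ => Finset.sum_comm
      _ = ∑ k, ∑ l, ∑ i, ∑ j, Q i j k l ^ 2 :=
          Finset.sum_congr rfl fun k _ => Finset.sum_comm
  rw [h3]
  unfold fr2
  exact Finset.sum_le_sum fun k _ => Finset.sum_le_sum fun l _ => h1 k l

end Pool.Agent.Lib.P28u
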