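import Pool.Agent.Lib.P28u.EbF
import Pool.Agent.Lib.P28u.FrA

set_option autoImplicit false
set_option maxSynthPendingDepth 3

/-!
# The curvature controls the condition number

PROOF. `G = W Wᵀ` is symmetric and positive definite. Spectral theorem (`Matrix.IsHermitian.eigenvectorBasis`, `Matrix.IsHermitian.spectral_theorem`, or `LinearMap.IsSymmetric.eigenvectorBasis`): an orthonormal basis `u_i` of `ℝ^(2n)` with `G u_i = λ_i u_i`, `λ_i > 0`. `fr2 W = trace G = ∑ λ_i`, `fr2 W⁻¹ = trace (G⁻¹) = ∑ λ_i⁻¹` (`G⁻¹ = (W⁻¹)ᵀ W⁻¹`).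
So `fr2 W * fr2 W⁻¹ = ∑_{i,j} λ_i / λ_j`. CLAIM: for `i ≠ j` `λ_i / λ_j ≤ Σ`, `Σ = ∑_{k,l} fr2 (W⁻¹ (Rm k l)ᵀ W)`. Put `x = u_j`, `y = u_i` (orthonormal), `R = ∑_{k,l} (x_k y_l) • Rm k l`, `Q = W⁻¹ Rᵀ W = ∑ (x_k y_l) • (W⁻¹ (Rm k l)ᵀ W)`, `fr2 Q ≤ Σ` (`fr2_lin`). `c₀ = Wᵀ x`, `|c₀|² = λ_j`; `b = W⁻¹ y`, `|b|² = 1 / λ_i`.
`⟨c₀, Q b⟩ = ⟨Wᵀ x, W⁻¹ Rᵀ y⟩ = ⟨x, Rᵀ y⟩ = ⟨R x, y⟩`, and `|⟨c₀, Q b⟩| ≤ |c₀| |b| √(fr2 Q)`. Finally `⟨R x, y⟩ ≥ 1`: `⟨R x, y⟩ = ∑ x_k y_l (Rm k l)_{a b} y_a x_b = re (hip (Lv n y) (Rf (Lv n x) (Lv n y) (Lv n x)))` by real multilinearity of `Rf` (`Lv_sum`). With `c = Lv n x`, `d = Lv n y`: `Rf c d c = hip c c • d - hip d c • c + (hip c d - hip d c) • c`.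
`hip c c = 1 = hip d d`, `re (hip d c) = ∑ x_k y_k = 0` (`re_hip_Lv`), so `hip d c = i β`, `hip c d = - i β` (`β` real, `hip c d = star (hip d c)`), and `hip d (Rf c d c) = 1 - (i β)² + (- 2 i β) (i β) = 1 + 3 β²`. Hence `1 ≤ (λ_j / λ_i)^(1/2) √(fr2 Q)`, which is the claim. Total: `fr2 W fr2 W⁻¹ ≤ 2 n + (2 n)² Σ`.
-/

open MeasureTheory Set Metric
open scoped ContDiff Topology ENNReal Matrix

namespace Pool.Agent.Lib.P28u

open Pool.Agent.P28b04d Pool.Agent.Lib.P28e Pool.Agent.Lib.P28c Pool.Agent.Lib.P28t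
open Pool.Agent.Lib.P28f (V EV)

variable {n : ℕ}


namespace IrrUAux

theorem lin_sum {E F : Type*} [AddCommGroup E] [Module ℝ E] [AddCommGroup F] [Module ℝ F]
    {ι : Type*} [Fintype ι] (f : E → F) (hf : IsLinearMap ℝ f) (x : ι → ℝ) (e : ι → E) :
    f (∑ i, x i • e i) = ∑ i, x i • f (e i) := by
  calc f (∑ i, x i • e i) = hf.mk' f (∑ i, x i • e i) := rfl
    _ = ∑ i, hf.mk' f (x i • e i) := map_sum _ _ _
    _ = ∑ i, x i • f (e i) := Finset.sum_congr rfl fun i _ => hf.map_smul _ _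

theorem hadd (z v w : W n) : hip z (v + w) = hip z v + hip z w := by
  simp only [hip, Pi.add_apply, mul_add, Finset.sum_add_distrib]

theorem hsub (z v w : W n) : hip z (v - w) = hip z v - hip z w := by
  simp only [hip, Pi.sub_apply, mul_sub, Finset.sum_sub_distrib]

theorem hsmul (z v : W n) (c : ℂ) : hip z (c • v) = c * hip z v := by
  simp only [hip, Pi.smul_apply, smul_eq_mul, Finset.mul_sum]
  exact Finset.sum_congr rfl fun k _ => by ring

theorem hrsmul (z v : W n) (r : ℝ) : hip z (r • v) = r * hip z v := by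
  simp only [hip, Pi.smul_apply, Complex.real_smul, Finset.mul_sum]
  exact Finset.sum_congr rfl fun k _ => by ring

theorem haddl (z v w : W n) : hip (v + w) z = hip v z + hip w z := by
  simp only [hip, Pi.add_apply, star_add, add_mul, Finset.sum_add_distrib]

theorem hrsmull (z v : W n) (r : ℝ) : hip (r • v) z = r * hip v z := by
  simp only [hip, Pi.smul_apply, Complex.real_smul, Finset.mul_sum, star_mul']
  refine Finset.sum_congr rfl fun k _ => ?_
  have : star (r : ℂ) = (r : ℂ) := Complex.conj_ofReal r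
  rw [this]
  ring

theorem hstar (u v : W n) : hip v u = star (hip u v) := by
  simp only [hip, star_sum, star_mul', star_star]
  exact Finset.sum_congr rfl fun k _ => by ring

theorem rf1 (v p : W n) : IsLinearMap ℝ (fun u : W n => Rf u v p) := by
  constructor
  · intro a b
    simp only [Rf, haddl, hadd]
    module
  · intro r a
    simp only [Rf, hrsmul, hrsmull]
    module

theorem rf2 (u p : W n) : IsLinearMap ℝ (fun v : W n => Rf u v p) := by
  constructor
  · intro a b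
    simp only [Rf, haddl, hadd]
    module
  · intro r a
    simp only [Rf, hrsmul, hrsmull]
    module

theorem rf3 (u v : W n) : IsLinearMap ℝ (fun p : W n => Rf u v p) := by
  constructor
  · intro a b
    simp only [Rf, hadd]
    module
  · intro r a
    simp only [Rf, hrsmul]
    module

theorem re1 (w : W n) : IsLinearMap ℝ (fun u : W n => (hip u w).re) := by
  constructor
  · intro a b
    simp only [haddl, Complex.add_re]
  · intro r a
    simp only [hrsmull, Complex.re_ofReal_mul, smul_eq_mul]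

theorem re2 (w : W n) : IsLinearMap ℝ (fun u : W n => (hip w u).re) := by
  constructor
  · intro a b
    simp only [hadd, Complex.add_re]
  · intro r a
    simp only [hrsmul, Complex.re_ofReal_mul, smul_eq_mul]

theorem comp_lin {E F G : Type*} [AddCommGroup E] [Module ℝ E] [AddCommGroup F] [Module ℝ F]
    [AddCommGroup G] [Module ℝ G] {f : E → F} {g : F → G} (hf : IsLinearMap ℝ f)
    (hg : IsLinearMap ℝ g) : IsLinearMap ℝ (fun x => g (f x)) := by
  constructor
  · intro a b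
    rw [hf.map_add, hg.map_add]
  · intro r a
    rw [hf.map_smul, hg.map_smul]

/-- the bilinear form of a matrix -/
def bf (y x : V (n * 2)) (N : MR n) : ℝ := ∑ a, ∑ b, y a * (x b * N a b)

theorem bf_lin (y x : V (n * 2)) : IsLinearMap ℝ (bf y x : MR n → ℝ) := by
  constructor
  · intro A B
    simp only [bf, Matrix.add_apply, mul_add, Finset.sum_add_distrib]
  · intro r A
    simp only [bf, Matrix.smul_apply, smul_eq_mul, Finset.mul_sum]
    exact Finset.sum_congr rfl fun a _ => Finset.sum_congr rfl fun b _ => by ring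

theorem bf_rm (y x : V (n * 2)) (k l : Fin (n * 2)) :
    bf y x (Rm k l) = (hip (Lv n y) (Rf (Eb k) (Eb l) (Lv n x))).re := by
  rw [Lv_sum y, lin_sum _ (re1 (Rf (Eb k) (Eb l) (Lv n x))) y Eb]
  refine Finset.sum_congr rfl fun a _ => ?_
  rw [Lv_sum x, lin_sum _ (comp_lin (rf3 (Eb k) (Eb l)) (re2 (Eb a))) x Eb, smul_eq_mul,
    Finset.mul_sum]
  exact Finset.sum_congr rfl fun b _ => by rw [smul_eq_mul, Rm]

theorem bf_sum (x y : V (n * 2)) :
    bf y x (∑ k, ∑ l, (x k * y l) • Rm k l) = (hip (Lv n y) (Rf (Lv n x) (Lv n y) (Lv n x))).re := by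
  have h1 : (∑ k, ∑ l, (x k * y l) • (Rm k l : MR n)) = ∑ k, x k • ∑ l, y l • Rm k l := by
    refine Finset.sum_congr rfl fun k _ => ?_
    rw [Finset.smul_sum]
    exact Finset.sum_congr rfl fun l _ => by rw [mul_smul]
  rw [h1, lin_sum _ (bf_lin y x) x]
  have h2 : (hip (Lv n y) (Rf (Lv n x) (Lv n y) (Lv n x))).re
      = ∑ k, x k • (hip (Lv n y) (Rf (Eb k) (Lv n y) (Lv n x))).re := by
    have := lin_sum _ (comp_lin (rf1 (Lv n y) (Lv n x)) (re2 (Lv n y))) x Eb
    rw [← Lv_sum x] at this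
    exact this
  rw [h2]
  refine Finset.sum_congr rfl fun k _ => ?_
  rw [lin_sum _ (bf_lin y x) y]
  have h3 : (hip (Lv n y) (Rf (Eb k) (Lv n y) (Lv n x))).re
      = ∑ l, y l • (hip (Lv n y) (Rf (Eb k) (Eb l) (Lv n x))).re := by
    have := lin_sum _ (comp_lin (rf2 (Eb k) (Lv n x)) (re2 (Lv n y))) y Eb
    rw [← Lv_sum y] at this
    exact this
  rw [h3]
  congr 1
  exact Finset.sum_congr rfl fun l _ => by rw [bf_rm]

theorem geo (x y : V (n * 2)) (hx : ∑ i, x i * x i = 1) (hy : ∑ i, y i * y i = 1)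
    (hxy : ∑ i, y i * x i = 0) : 1 ≤ (hip (Lv n y) (Rf (Lv n x) (Lv n y) (Lv n x))).re := by
  have e1 : hip (Lv n x) (Lv n x) = 1 := by
    have h := re_hip_Lv x x
    rw [hx, hip_self, Complex.ofReal_re] at h
    rw [hip_self, h]
    simp
  have e2 : hip (Lv n y) (Lv n y) = 1 := by
    have h := re_hip_Lv y y
    rw [hy, hip_self, Complex.ofReal_re] at h
    rw [hip_self, h]
    simp
  have e3 := re_hip_Lv y x
  rw [hxy] at e3
  have e4 : hip (Lv n x) (Lv n y) = star (hip (Lv n y) (Lv n x)) := hstar _ _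
  rw [Rf, hadd, hsub, hsmul, hsmul, hsmul, e1, e2, e4]
  generalize hip (Lv n y) (Lv n x) = h at e3
  obtain ⟨p, q⟩ := h
  simp only at e3
  subst e3
  simp [Complex.mul_re]
  nlinarith [sq_nonneg q]

theorem fr2_eq_trace (N : MR n) : fr2 N = (N * N.transpose).trace := by
  simp only [fr2, Matrix.trace, Matrix.diag, Matrix.mul_apply, Matrix.transpose_apply]
  exact Finset.sum_congr rfl fun k _ => Finset.sum_congr rfl fun l _ => by ring

theorem fr2_orth (U M : MR n) (hU : U * U.transpose = 1) : fr2 (U * M) = fr2 M := by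
  have hU' : U.transpose * U = 1 := mul_eq_one_comm.1 hU
  rw [fr2_eq_trace, fr2_eq_trace, Matrix.transpose_mul]
  have : U * M * (M.transpose * U.transpose) = U * (M * M.transpose * U.transpose) := by
    simp only [Matrix.mul_assoc]
  rw [this, Matrix.trace_mul_comm]
  rw [Matrix.mul_assoc, Matrix.mul_assoc, hU', Matrix.mul_one]

theorem exists_diag (M : MR n) : ∃ (U : MR n) (lam : Fin (n * 2) → ℝ), U * U.transpose = 1 ∧
    U * (M * M.transpose) * U.transpose = Matrix.diagonal lam := by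
  have hA : (M * M.transpose).IsHermitian := by
    have := Matrix.isHermitian_mul_conjTranspose_self M
    rwa [Matrix.conjTranspose_eq_transpose_of_trivial] at this
  have h1 := hA.conjStarAlgAut_star_eigenvectorUnitary
  have h2 : (hA.eigenvectorUnitary : MR n).transpose * (hA.eigenvectorUnitary : MR n) = 1 := by
    have := Unitary.coe_star_mul_self hA.eigenvectorUnitary
    rwa [Matrix.star_eq_conjTranspose, Matrix.conjTranspose_eq_transpose_of_trivial] at this
  refine ⟨(hA.eigenvectorUnitary : MR n).transpose, hA.eigenvalues, ?_, ?_⟩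
  · rw [Matrix.transpose_transpose]
    exact h2
  · rw [Unitary.conjStarAlgAut_star_apply] at h1
    rw [Matrix.star_eq_conjTranspose, Matrix.conjTranspose_eq_transpose_of_trivial] at h1
    rw [Matrix.transpose_transpose]
    exact h1

theorem row_sq (N : MR n) (i : Fin (n * 2)) : (N * N.transpose) i i = ∑ k, N i k ^ 2 := by
  simp only [Matrix.mul_apply, Matrix.transpose_apply]
  exact Finset.sum_congr rfl fun k _ => by ring

theorem col_sq (N : MR n) (i : Fin (n * 2)) : (N.transpose * N) i i = ∑ k, N k i ^ 2 := by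
  simp only [Matrix.mul_apply, Matrix.transpose_apply]
  exact Finset.sum_congr rfl fun k _ => by ring

theorem mulVec_sq (Q : MR n) (b : V (n * 2)) :
    ∑ k, (Q.mulVec b) k ^ 2 ≤ fr2 Q * ∑ k, b k ^ 2 := by
  rw [fr2, Finset.sum_mul]
  refine Finset.sum_le_sum fun k _ => ?_
  exact Finset.sum_mul_sq_le_sq_mul_sq Finset.univ (fun l => Q k l) b

theorem cs (M R : MR n) (hM : IsUnit M) (x y : V (n * 2)) :
    (bf y x R) ^ 2 ≤ (∑ k, (x ᵥ* M) k ^ 2) * (fr2 (M⁻¹ * R.transpose * M) *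
      ∑ k, (M⁻¹ *ᵥ y) k ^ 2) := by
  have hdet : IsUnit M.det := (Matrix.isUnit_iff_isUnit_det M).1 hM
  have h1 : bf y x R = (x ᵥ* M) ⬝ᵥ ((M⁻¹ * R.transpose * M) *ᵥ (M⁻¹ *ᵥ y)) := by
    rw [Matrix.mulVec_mulVec, Matrix.mul_assoc (M⁻¹ * R.transpose), Matrix.mul_nonsing_inv _ hdet,
      Matrix.mul_one, ← Matrix.dotProduct_mulVec, Matrix.mulVec_mulVec, ← Matrix.mul_assoc,
      Matrix.mul_nonsing_inv _ hdet, Matrix.one_mul]
    simp only [bf, dotProduct, Matrix.mulVec, Matrix.transpose_apply, Finset.mul_sum]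
    rw [Finset.sum_comm]
    exact Finset.sum_congr rfl fun a _ => Finset.sum_congr rfl fun b _ => by ring
  rw [h1]
  calc ((x ᵥ* M) ⬝ᵥ ((M⁻¹ * R.transpose * M) *ᵥ (M⁻¹ *ᵥ y))) ^ 2
      ≤ (∑ k, (x ᵥ* M) k ^ 2) * ∑ k, ((M⁻¹ * R.transpose * M) *ᵥ (M⁻¹ *ᵥ y)) k ^ 2 :=
        Finset.sum_mul_sq_le_sq_mul_sq Finset.univ _ _
    _ ≤ _ := mul_le_mul_of_nonneg_left (mulVec_sq _ _)
        (Finset.sum_nonneg fun k _ => sq_nonneg _)

end IrrUAux

open IrrUAux in
theorem irr_u (n : ℕ) : ∃ C : ℝ, 0 < C ∧ ∀ M : MR n, IsUnit M →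
    fr2 M * fr2 M⁻¹ ≤ C * (1 + ∑ i, ∑ j, fr2 (M⁻¹ * (Rm i j).transpose * M)) := by
  refine ⟨((n : ℝ) * 2) ^ 2 + 1, by positivity, fun M hM => ?_⟩
  obtain ⟨U, lam, hU, hD⟩ := exists_diag M
  have hU' : U.transpose * U = 1 := mul_eq_one_comm.1 hU
  have hdet : IsUnit M.det := (Matrix.isUnit_iff_isUnit_det M).1 hM
  obtain ⟨S, hS⟩ : ∃ S, S = ∑ i, ∑ j, fr2 (M⁻¹ * (Rm i j).transpose * M) := ⟨_, rfl⟩
  have hS0 : 0 ≤ S := by
    rw [hS]
    exact Finset.sum_nonneg fun i _ => Finset.sum_nonneg fun j _ => fr2_nonneg _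
  rw [← hS]
  -- rows
  let c : Fin (n * 2) → ℝ := fun i => ∑ k, (U i ᵥ* M) k ^ 2
  let b : Fin (n * 2) → ℝ := fun i => ∑ k, (M⁻¹ *ᵥ U i) k ^ 2
  have hc0 : ∀ i, 0 ≤ c i := fun i => Finset.sum_nonneg fun k _ => sq_nonneg _
  have hb0 : ∀ i, 0 ≤ b i := fun i => Finset.sum_nonneg fun k _ => sq_nonneg _
  have hcU : ∀ i k, (U i ᵥ* M) k = (U * M) i k := fun i k => rfl
  have hbU : ∀ i k, (M⁻¹ *ᵥ U i) k = (M⁻¹ * U.transpose) k i := fun i k => rfl
  have hc : ∀ i, c i = (U * M * (U * M).transpose) i i := by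
    intro i
    rw [row_sq]
    exact Finset.sum_congr rfl fun k _ => by rw [hcU]
  have hb : ∀ i, b i = ((M⁻¹ * U.transpose).transpose * (M⁻¹ * U.transpose)) i i := by
    intro i
    rw [col_sq]
    exact Finset.sum_congr rfl fun k _ => by rw [hbU]
  have hcd : U * M * (U * M).transpose = Matrix.diagonal lam := by
    rw [← hD, Matrix.transpose_mul]
    simp only [Matrix.mul_assoc]
  have hprod : (U * M * (U * M).transpose) *
      ((M⁻¹ * U.transpose).transpose * (M⁻¹ * U.transpose)) = 1 := by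
    have h1 : (U * M).transpose * (M⁻¹ * U.transpose).transpose = 1 := by
      rw [← Matrix.transpose_mul]
      have : M⁻¹ * U.transpose * (U * M) = 1 := by
        rw [Matrix.mul_assoc, ← Matrix.mul_assoc U.transpose, hU', Matrix.one_mul,
          Matrix.nonsing_inv_mul _ hdet]
      rw [this, Matrix.transpose_one]
    have h2 : U * M * (M⁻¹ * U.transpose) = 1 := by
      rw [Matrix.mul_assoc, ← Matrix.mul_assoc M, Matrix.mul_nonsing_inv _ hdet, Matrix.one_mul, hU]
    rw [Matrix.mul_assoc, ← Matrix.mul_assoc ((U * M).transpose), h1, Matrix.one_mul, h2]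
  have hcb : ∀ i, c i * b i = 1 := by
    intro i
    have h1 := congrFun (congrFun hprod i) i
    rw [hcd, Matrix.diagonal_mul, Matrix.one_apply_eq] at h1
    rw [hc, hb, hcd, Matrix.diagonal_apply_eq]
    exact h1
  have hF : fr2 M = ∑ i, c i := by
    rw [← fr2_orth U M hU]
    rfl
  have hF' : fr2 M⁻¹ = ∑ i, b i := by
    have h1 := fr2_orth U (M⁻¹).transpose hU
    rw [fr2_transpose] at h1
    rw [← h1]
    have h2 : U * (M⁻¹).transpose = (M⁻¹ * U.transpose).transpose := by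
      rw [Matrix.transpose_mul, Matrix.transpose_transpose]
    rw [h2]
    rfl
  have hUrow : ∀ i j, ∑ k, U i k * U j k = if i = j then 1 else 0 := by
    intro i j
    have := congrFun (congrFun hU i) j
    rw [Matrix.mul_apply, Matrix.one_apply] at this
    exact this
  have hoff : ∀ i j, i ≠ j → 1 ≤ c j * (S * b i) := by
    intro i j hij
    have hxx : ∑ k, U j k * U j k = 1 := by rw [hUrow, if_pos rfl]
    have hyy : ∑ k, U i k * U i k = 1 := by rw [hUrow, if_pos rfl]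
    have hyx : ∑ k, U i k * U j k = 0 := by rw [hUrow, if_neg hij]
    have h1 := geo (U j) (U i) hxx hyy hyx
    rw [← bf_sum] at h1
    have h2 := cs M (∑ k, ∑ l, (U j k * U i l) • Rm k l) hM (U j) (U i)
    have h3 : M⁻¹ * (∑ k, ∑ l, (U j k * U i l) • (Rm k l : MR n)).transpose * M
        = ∑ k, ∑ l, (U j k * U i l) • (M⁻¹ * (Rm k l).transpose * M) := by
      simp only [Matrix.transpose_sum, Matrix.transpose_smul, Matrix.mul_sum, Matrix.sum_mul,
        Matrix.mul_smul, Matrix.smul_mul]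
    have h4 : fr2 (M⁻¹ * (∑ k, ∑ l, (U j k * U i l) • (Rm k l : MR n)).transpose * M) ≤ S := by
      rw [h3, hS]
      exact fr2_lin _ _ _ (by rw [← hxx]; exact Finset.sum_congr rfl fun k _ => by ring)
        (by rw [← hyy]; exact Finset.sum_congr rfl fun k _ => by ring)
    have h5 : (1 : ℝ) ≤ (bf (U i) (U j) (∑ k, ∑ l, (U j k * U i l) • Rm k l)) ^ 2 := by
      nlinarith
    refine h5.trans (h2.trans ?_)
    exact mul_le_mul_of_nonneg_left (mul_le_mul_of_nonneg_right h4 (hb0 i)) (hc0 j)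
  have hcij : ∀ i j, c i * b j ≤ 1 + S := by
    intro i j
    by_cases hij : i = j
    · subst hij
      rw [hcb]
      linarith
    · have h1 := hoff i j hij
      have h2 : c i * b j * 1 ≤ c i * b j * (c j * (S * b i)) :=
        mul_le_mul_of_nonneg_left h1 (mul_nonneg (hc0 _) (hb0 _))
      have h3 : c i * b j * (c j * (S * b i)) = (c i * b i) * (c j * b j) * S := by ring
      rw [h3, hcb, hcb] at h2
      linarith
  rw [hF, hF', Finset.sum_mul_sum]
  calc ∑ i, ∑ j, c i * b j ≤ ∑ _i : Fin (n * 2), ∑ _j : Fin (n * 2), (1 + S) :=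
        Finset.sum_le_sum fun i _ => Finset.sum_le_sum fun j _ => hcij i j
    _ = ((n : ℝ) * 2) ^ 2 * (1 + S) := by
        simp only [Finset.sum_const, Finset.card_univ, Fintype.card_fin, nsmul_eq_mul]
        push_cast
        ring
    _ ≤ (((n : ℝ) * 2) ^ 2 + 1) * (1 + S) := by nlinarith

end Pool.Agent.Lib.P28u
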