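import Pool.Agent.Lib.P28u.CurvU
import Pool.Agent.Lib.P28u.IntD
import Pool.Agent.Lib.P28u.FrA

set_option autoImplicit false
set_option maxSynthPendingDepth 3

/-!
# The main integral inequality

PROOF. Fix `i`, `j`, write `Q = Qm α i j`, `A_k = Am α k`, `R = Rm i j`, `‖M‖ = √(fr2 M)`, `s = 1 + ∑ k, fr2 (A_k)`. On `Un n` (`curv`): `fr2 Q = inn Q Q = inn Q (D_i A_j) - inn Q (D_j A_i) + inn Q (A_i A_j - A_j A_i) - inn Q R`. All functions are continuous on `Un n` (`sm_Am`, `sm_Qm`, `SM.dm`), hence integrable (`integrable_un`). By `int_Dv` for `F = inn Q A_j` and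
`fderiv_inn` (`Dv i F = inn (D_i Q) A_j + inn Q (D_i A_j)`, `Dv` and `DM` are the same derivative): `∫ inn Q (D_i A_j) = - ∫ inn (D_i Q) A_j`, and `|inn (D_i Q) A_j| ≤ 2 ‖Q‖ ‖A_i‖ ‖A_j‖` (`DM_Qm`, `inn_le`, `sqrt_fr2_mul`, `sqrt_fr2_sub`). The same for `inn Q (D_j A_i)`; `|inn Q (A_i A_j - A_j A_i)| ≤ 2 ‖Q‖ ‖A_i‖ ‖A_j‖`. Since
`‖A_i‖ ‖A_j‖ ≤ fr2 A_i + fr2 A_j ≤ 2 s` and `1 ≤ s`: `∫ fr2 Q ≤ ∫ ‖Q‖ (12 + ‖R‖) s ≤ (1/2) ∫ fr2 Q + (1/2) (12 + ‖R‖)² ∫ s²`. So `∫ fr2 Q ≤ (12 + ‖R‖)² ∫ s²` (the integral of `fr2 Q` is finite). Sum over `i`, `j`.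
-/

open MeasureTheory Set Metric
open scoped ContDiff Topology ENNReal

namespace Pool.Agent.Lib.P28u

open Pool.Agent.P28b04d Pool.Agent.Lib.P28e Pool.Agent.Lib.P28c Pool.Agent.Lib.P28t
open Pool.Agent.Lib.P28f (V EV)

variable {n : ℕ}

theorem cont_Qm {α : FW n} (hα : Symp α) (i j : Fin (n * 2)) : ContinuousOn (fun g => fr2 (Qm α i j g)) (Un n) :=
  fun g hg => ((sm_Qm hα hg i j).fr2.continuousAt).continuousWithinAt

theorem cont_Am {α : FW n} (hα : Symp α) (i : Fin (n * 2)) : ContinuousOn (fun g => fr2 (Am α i g)) (Un n) :=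
  fun g hg => ((sm_Am hα hg i).fr2.continuousAt).continuousWithinAt

namespace MainUAux

theorem one_le_inf : (1 : WithTop ℕ∞) ≤ ((⊤ : ℕ∞) : WithTop ℕ∞) := ENat.LEInfty.out

theorem inn_neg_right (M N : MR n) : inn M (-N) = -inn M N := by
  unfold inn
  simp

/-- pointwise estimate -/
theorem pt {α : FW n} (hα : Symp α) {g : XX n} (hg : g ∈ Un n) (i j : Fin (n * 2)) :
    fr2 (Qm α i j g) - Dv i (fun g => inn (Qm α i j g) (Am α j g)) g
      + Dv j (fun g => inn (Qm α i j g) (Am α i g)) g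
      ≤ 1 / 2 * fr2 (Qm α i j g)
        + 1 / 2 * (6 + Real.sqrt (fr2 (Rm (n := n) i j))) ^ 2
          * (1 + ∑ k, fr2 (Am α k g)) ^ 2 := by
  have hQ := (sm_Qm hα hg i j).mono one_le_inf
  have hAi := (sm_Am hα hg i).mono one_le_inf
  have hAj := (sm_Am hα hg j).mono one_le_inf
  have e1 : Dv i (fun g => inn (Qm α i j g) (Am α j g)) g
      = inn (DM i (Qm α i j) g) (Am α j g) + inn (Qm α i j g) (DM i (Am α j) g) := by
    unfold Dv
    rw [fderiv_inn hQ hAj]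
    rfl
  have e2 : Dv j (fun g => inn (Qm α i j g) (Am α i g)) g
      = inn (DM j (Qm α i j) g) (Am α i g) + inn (Qm α i j g) (DM j (Am α i) g) := by
    unfold Dv
    rw [fderiv_inn hQ hAi]
    rfl
  have hc := curv hα hg i j
  have e3 : fr2 (Qm α i j g) = inn (Qm α i j g) (DM i (Am α j) g)
      - inn (Qm α i j g) (DM j (Am α i) g)
      + inn (Qm α i j g) (Am α i g * Am α j g - Am α j g * Am α i g)
      - inn (Qm α i j g) (Rm i j) := by
    rw [← inn_sub, ← inn_add, ← inn_sub, hc, add_sub_cancel_right, inn_self]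
  have hx0 := Real.sqrt_nonneg (fr2 (Qm α i j g))
  have ha0 := Real.sqrt_nonneg (fr2 (Am α i g))
  have hb0 := Real.sqrt_nonneg (fr2 (Am α j g))
  have hr0 := Real.sqrt_nonneg (fr2 (Rm (n := n) i j))
  have hxs : Real.sqrt (fr2 (Qm α i j g)) ^ 2 = fr2 (Qm α i j g) := Real.sq_sqrt (fr2_nonneg _)
  have has : Real.sqrt (fr2 (Am α i g)) ^ 2 = fr2 (Am α i g) := Real.sq_sqrt (fr2_nonneg _)
  have hbs : Real.sqrt (fr2 (Am α j g)) ^ 2 = fr2 (Am α j g) := Real.sq_sqrt (fr2_nonneg _)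
  have hcomm : ∀ M N : MR n, Real.sqrt (fr2 (M * N - N * M))
      ≤ 2 * (Real.sqrt (fr2 M) * Real.sqrt (fr2 N)) := by
    intro M N
    have h1 := sqrt_fr2_sub (M * N) (N * M)
    have h2 := sqrt_fr2_mul M N
    have h3 := sqrt_fr2_mul N M
    nlinarith
  have b1 : |inn (DM i (Qm α i j) g) (Am α j g)|
      ≤ 2 * (Real.sqrt (fr2 (Qm α i j g)) * Real.sqrt (fr2 (Am α i g)))
        * Real.sqrt (fr2 (Am α j g)) := by
    refine (inn_le _ _).trans ?_
    apply mul_le_mul_of_nonneg_right _ hb0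
    rw [DM_Qm hα hg]
    exact hcomm _ _
  have b2 : |inn (DM j (Qm α i j) g) (Am α i g)|
      ≤ 2 * (Real.sqrt (fr2 (Qm α i j g)) * Real.sqrt (fr2 (Am α j g)))
        * Real.sqrt (fr2 (Am α i g)) := by
    refine (inn_le _ _).trans ?_
    apply mul_le_mul_of_nonneg_right _ ha0
    rw [DM_Qm hα hg]
    exact hcomm _ _
  have b3 : |inn (Qm α i j g) (Am α i g * Am α j g - Am α j g * Am α i g)|
      ≤ Real.sqrt (fr2 (Qm α i j g))
        * (2 * (Real.sqrt (fr2 (Am α i g)) * Real.sqrt (fr2 (Am α j g)))) :=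
    (inn_le _ _).trans (mul_le_mul_of_nonneg_left (hcomm _ _) hx0)
  have b4 := inn_le (Qm α i j g) (Rm i j)
  have hsi : fr2 (Am α i g) ≤ ∑ k, fr2 (Am α k g) :=
    Finset.single_le_sum (f := fun k => fr2 (Am α k g)) (fun k _ => fr2_nonneg _)
      (Finset.mem_univ i)
  have hsj : fr2 (Am α j g) ≤ ∑ k, fr2 (Am α k g) :=
    Finset.single_le_sum (f := fun k => fr2 (Am α k g)) (fun k _ => fr2_nonneg _)
      (Finset.mem_univ j)
  have hS0 : 0 ≤ ∑ k, fr2 (Am α k g) := Finset.sum_nonneg fun k _ => fr2_nonneg _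
  rw [e1, e2]
  have a1 := neg_abs_le (inn (DM i (Qm α i j) g) (Am α j g))
  have a2 := le_abs_self (inn (DM j (Qm α i j) g) (Am α i g))
  have a3 := le_abs_self (inn (Qm α i j g) (Am α i g * Am α j g - Am α j g * Am α i g))
  have a4 := neg_abs_le (inn (Qm α i j g) (Rm i j))
  generalize Real.sqrt (fr2 (Qm α i j g)) = x at *
  generalize Real.sqrt (fr2 (Am α i g)) = a at *
  generalize Real.sqrt (fr2 (Am α j g)) = b at *
  generalize Real.sqrt (fr2 (Rm (n := n) i j)) = r at *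
  generalize (∑ k, fr2 (Am α k g)) = T at *
  have hab : a * b ≤ T := by nlinarith [sq_nonneg (a - b)]
  have hE : fr2 (Qm α i j g)
      - (inn (DM i (Qm α i j) g) (Am α j g) + inn (Qm α i j g) (DM i (Am α j) g))
      + (inn (DM j (Qm α i j) g) (Am α i g) + inn (Qm α i j g) (DM j (Am α i) g))
      ≤ x * ((6 + r) * (1 + T)) := by
    have h1 : x * (a * b) ≤ x * T := mul_le_mul_of_nonneg_left hab hx0
    have h2 : 0 ≤ x * r * T := by positivity
    nlinarith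
  have h5 : x * ((6 + r) * (1 + T)) ≤ 1 / 2 * x ^ 2 + 1 / 2 * ((6 + r) * (1 + T)) ^ 2 := by
    nlinarith [sq_nonneg (x - (6 + r) * (1 + T))]
  calc _ ≤ _ := hE
    _ ≤ _ := h5
    _ = _ := by rw [hxs]; ring

theorem int_one {α : FW n} (hα : Symp α) {ν : Measure (XX n)} (hν : Haar ν) (i j : Fin (n * 2)) :
    ∫ g, fr2 (Qm α i j g) ∂ν ≤ (6 + Real.sqrt (fr2 (Rm (n := n) i j))) ^ 2
      * ∫ g, (1 + ∑ k, fr2 (Am α k g)) ^ 2 ∂ν := by
  have c1 : ∀ g ∈ Un n, ContDiffAt ℝ ∞ (fun g => inn (Qm α i j g) (Am α j g)) g :=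
    fun g hg => (sm_Qm hα hg i j).inn (sm_Am hα hg j)
  have c2 : ∀ g ∈ Un n, ContDiffAt ℝ ∞ (fun g => inn (Qm α i j g) (Am α i g)) g :=
    fun g hg => (sm_Qm hα hg i j).inn (sm_Am hα hg i)
  have i1 : Integrable (Dv i (fun g => inn (Qm α i j g) (Am α j g))) ν :=
    integrable_un hν fun g hg =>
      ((contDiffAt_Dv i (c1 g hg)).continuousAt).continuousWithinAt
  have i2 : Integrable (Dv j (fun g => inn (Qm α i j g) (Am α i g))) ν :=
    integrable_un hν fun g hg =>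
      ((contDiffAt_Dv j (c2 g hg)).continuousAt).continuousWithinAt
  have i3 : Integrable (fun g => fr2 (Qm α i j g)) ν := integrable_un hν (cont_Qm hα i j)
  have i4 : Integrable (fun g => (1 + ∑ k, fr2 (Am α k g)) ^ 2) ν := by
    apply integrable_un hν
    apply ContinuousOn.pow
    apply ContinuousOn.add continuousOn_const
    exact continuousOn_finsetSum _ fun k _ => cont_Am hα k
  have z1 := int_Dv hν i (F := fun g => inn (Qm α i j g) (Am α j g))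
    (fun g hg => (c1 g hg).of_le one_le_inf)
  have z2 := int_Dv hν j (F := fun g => inn (Qm α i j g) (Am α i g))
    (fun g hg => (c2 g hg).of_le one_le_inf)
  have i5 : Integrable (fun g => fr2 (Qm α i j g)
      - Dv i (fun g => inn (Qm α i j g) (Am α j g)) g) ν := i3.sub i1
  have h1 : ∫ g, fr2 (Qm α i j g) ∂ν
      = ∫ g, (fr2 (Qm α i j g) - Dv i (fun g => inn (Qm α i j g) (Am α j g)) g
        + Dv j (fun g => inn (Qm α i j g) (Am α i g)) g) ∂ν := by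
    rw [integral_add i5 i2, integral_sub i3 i1, z1, z2]
    ring
  have h2 : ∫ g, (fr2 (Qm α i j g) - Dv i (fun g => inn (Qm α i j g) (Am α j g)) g
        + Dv j (fun g => inn (Qm α i j g) (Am α i g)) g) ∂ν
      ≤ ∫ g, (1 / 2 * fr2 (Qm α i j g)
        + 1 / 2 * (6 + Real.sqrt (fr2 (Rm (n := n) i j))) ^ 2
          * (1 + ∑ k, fr2 (Am α k g)) ^ 2) ∂ν := by
    apply integral_mono_ae (i5.add i2) ((i3.const_mul _).add (i4.const_mul _))
    exact ae_un hν fun g hg => pt hα hg i j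
  rw [integral_add (i3.const_mul _) (i4.const_mul _), integral_const_mul, integral_const_mul] at h2
  linarith

end MainUAux

theorem main_u (n : ℕ) : ∃ C : ℝ, 0 < C ∧ ∀ ν : Measure (XX n), Haar ν → ∀ α : FW n, Symp α →
    ∑ i, ∑ j, ∫ g, fr2 (Qm α i j g) ∂ν ≤ C * ∫ g, (1 + ∑ k, fr2 (Am α k g)) ^ 2 ∂ν := by
  refine ⟨1 + ∑ i, ∑ j, (6 + Real.sqrt (fr2 (Rm (n := n) i j))) ^ 2, ?_, ?_⟩
  · have : 0 ≤ ∑ i, ∑ j, (6 + Real.sqrt (fr2 (Rm (n := n) i j))) ^ 2 :=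
      Finset.sum_nonneg fun i _ => Finset.sum_nonneg fun j _ => sq_nonneg _
    linarith
  · intro ν hν α hα
    have h0 : 0 ≤ ∫ g, (1 + ∑ k, fr2 (Am α k g)) ^ 2 ∂ν := integral_nonneg fun g => sq_nonneg _
    rw [add_mul, one_mul, Finset.sum_mul]
    have h1 : ∑ i, ∑ j, ∫ g, fr2 (Qm α i j g) ∂ν
        ≤ ∑ i, (∑ j, (6 + Real.sqrt (fr2 (Rm (n := n) i j))) ^ 2)
          * ∫ g, (1 + ∑ k, fr2 (Am α k g)) ^ 2 ∂ν := by
      apply Finset.sum_le_sum
      intro i _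
      rw [Finset.sum_mul]
      apply Finset.sum_le_sum
      intro j _
      exact MainUAux.int_one hα hν i j
    linarith

end Pool.Agent.Lib.P28u
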