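import Pool.Agent.Lib.P28u.LebU

set_option autoImplicit false
set_option maxSynthPendingDepth 3

/-!
# Averages over the unitary group and integrals over the unit ball

PROOF. Let `B = {z | nsq z < 1}`. (1) For measurable `G` of degree zero: `∫⁻ z in B, G z = volume B * ∫⁻ g, G (g 0) ∂ν`. For `g ∈ Un n`: `∫⁻ z in B, G z = ∫⁻ z in B, G (mx g z)` (`lintegral_mx` for the function `B.indicator G`, `nsq_mx`). Integrate over `ν` (a probability measure on `Un n`: `Haar.prob`, `Haar.supp`) and exchange (`lintegral_lintegral_swap`,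
`(g, z) ↦ G (mx g z)` is measurable, `continuous_mx`): `∫⁻ z in B, G z = ∫⁻ z in B, ∫⁻ g, G (mx g z) ∂ν`. For `z ≠ 0` put `r = Real.sqrt (nsq z) > 0`, `z = r • w`, `nsq w = 1`, `w = k 0` with `k ∈ Un n` (`exists_col`): `G (mx g z) = G (r • mx g (k 0)) = G ((rm g k) 0)` for `g ∈ Un n` (degree zero; `mx g (k 0) = rm g k 0` by definition, not zero),
so the inner integral is `∫⁻ g, G ((rm g k) 0) ∂ν = ∫⁻ g, G (g 0) ∂ν` by `Haar.inv` (`lintegral_map`). `{0}` is a null set (`n + 1 ≥ 1`). (2) `B ⊆ ball 0 1` (`le_nsq`), and `ball 0 1 ⊆ r • B` with `r = Real.sqrt (n + 1)` (`nsq_le`); `∫⁻ z in r • B, G z = r ^ (2 n + 2) * ∫⁻ z in B, G z` (change of variables `z = r w`, degree zero;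
`Measure.addHaar_smul`-type results or `lintegral_comp_smul`/`Measure.setLIntegral_comp_smul`). `C = (n + 1) ^ (n + 1) * volume B + (volume B)⁻¹`, `0 < volume B < ∞`.
-/

open MeasureTheory Set Metric
open scoped ContDiff Topology ENNReal

namespace Pool.Agent.Lib.P28u

open Pool.Agent.P28b04d Pool.Agent.Lib.P28e Pool.Agent.Lib.P28c Pool.Agent.Lib.P28t
open Pool.Agent.Lib.P28f (V EV)

variable {n : ℕ}

namespace PolUAux

theorem cont_nsq : Continuous fun z : W n => nsq z := by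
  unfold nsq
  exact continuous_finsetSum _ fun k _ => Complex.continuous_normSq.comp (continuous_apply k)

theorem nsq_smul (c : ℂ) (z : W n) : nsq (c • z) = Complex.normSq c * nsq z := by
  unfold nsq
  rw [Finset.mul_sum]
  refine Finset.sum_congr rfl fun k _ => ?_
  rw [Pi.smul_apply, smul_eq_mul, Complex.normSq_mul]

/-- the set `nsq z < ρ` -/
def Bs (n : ℕ) (ρ : ℝ) : Set (W n) := {z | nsq z < ρ}

theorem isOpen_Bs (ρ : ℝ) : IsOpen (Bs n ρ) := isOpen_lt cont_nsq continuous_const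

theorem meas_Bs (ρ : ℝ) : MeasurableSet (Bs n ρ) := (isOpen_Bs ρ).measurableSet

theorem avg_point {ν : Measure (XX n)} (hν : Haar ν) {G : W n → ℝ≥0∞} (hG : Measurable G)
    (hh : ∀ (c : ℂ) (z : W n), c ≠ 0 → z ≠ 0 → G (c • z) = G z) {z : W n} (hz : z ≠ 0) :
    ∫⁻ g, G (mx g z) ∂ν = ∫⁻ g, G (g 0) ∂ν := by
  have hN : 0 < nsq z := nsq_pos hz
  have hr : 0 < Real.sqrt (nsq z) := Real.sqrt_pos.2 hN
  obtain ⟨r, hrd⟩ : ∃ r : ℝ, r = Real.sqrt (nsq z) := ⟨_, rfl⟩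
  rw [← hrd] at hr
  have hr2 : r ^ 2 = nsq z := by rw [hrd, Real.sq_sqrt hN.le]
  obtain ⟨w, hw⟩ : ∃ w : W n, w = ((r : ℂ)⁻¹) • z := ⟨_, rfl⟩
  have hrc : (r : ℂ) ≠ 0 := by exact_mod_cast hr.ne'
  have hw1 : nsq w = 1 := by
    rw [hw, nsq_smul, map_inv₀, Complex.normSq_ofReal, ← hr2]
    field_simp
  obtain ⟨k, hk, hk0⟩ := exists_col hw1
  have hz2 : z = (r : ℂ) • k 0 := by
    rw [hk0, hw, smul_smul, mul_inv_cancel₀ hrc, one_smul]
  have h1 : ∫⁻ g, G (mx g z) ∂ν = ∫⁻ g, G (rm g k 0) ∂ν := by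
    refine lintegral_congr_ae ?_
    have h2 : ∀ᵐ g ∂ν, g ∈ Un n := by
      rw [ae_iff]
      exact hν.supp
    filter_upwards [h2] with g hg
    rw [hz2, mx_smul]
    exact hh _ _ hrc (col_ne (rm_mem hg hk) 0)
  have h3 : Measurable fun g : XX n => G (g 0) := hG.comp (measurable_pi_apply 0)
  have h4 : Measurable fun g : XX n => rm g k :=
    (continuous_rm.comp (continuous_id.prodMk continuous_const)).measurable
  rw [h1]
  conv_rhs => rw [← hν.inv k hk]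
  rw [lintegral_map h3 h4]

theorem avg {ν : Measure (XX n)} (hν : Haar ν) {G : W n → ℝ≥0∞} (hG : Measurable G)
    (hh : ∀ (c : ℂ) (z : W n), c ≠ 0 → z ≠ 0 → G (c • z) = G z) (ρ : ℝ) :
    ∫⁻ z in Bs n ρ, G z = volume (Bs n ρ) * ∫⁻ g, G (g 0) ∂ν := by
  have hp := hν.prob
  have h1 : ∀ g ∈ Un n, ∫⁻ z in Bs n ρ, G (mx g z) = ∫⁻ z in Bs n ρ, G z := by
    intro g hg
    rw [← lintegral_indicator (meas_Bs ρ), ← lintegral_indicator (meas_Bs ρ),
      ← lintegral_mx hg (hG.indicator (meas_Bs ρ))]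
    refine lintegral_congr fun z => ?_
    unfold Set.indicator Bs
    simp only [mem_ofPred_eq, nsq_mx hg]
  have h2 : ∀ᵐ g ∂ν, g ∈ Un n := by
    rw [ae_iff]
    exact hν.supp
  have h3 : ∫⁻ z in Bs n ρ, G z = ∫⁻ g, (∫⁻ z in Bs n ρ, G (mx g z)) ∂ν := by
    have h4 : ∫⁻ g, (∫⁻ z in Bs n ρ, G (mx g z)) ∂ν = ∫⁻ _g, (∫⁻ z in Bs n ρ, G z) ∂ν := by
      refine lintegral_congr_ae ?_
      filter_upwards [h2] with g hg
      exact h1 g hg
    rw [h4, lintegral_const, measure_univ, mul_one]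
  have h5 : Measurable fun p : XX n × W n => G (mx p.1 p.2) := hG.comp continuous_mx.measurable
  rw [h3, lintegral_lintegral_swap h5.aemeasurable]
  have h6 : ∫⁻ z in Bs n ρ, ∫⁻ g, G (mx g z) ∂ν = ∫⁻ _z in Bs n ρ, (∫⁻ g, G (g 0) ∂ν) := by
    refine lintegral_congr_ae ?_
    have h7 : ∀ᵐ z ∂(volume : Measure (W n)), z ≠ 0 := by
      rw [ae_iff]
      simp only [ne_eq, not_not, ofPred_eq_eq_singleton]
      exact measure_singleton 0
    filter_upwards [ae_restrict_of_ae h7] with z hz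
    exact avg_point hν hG hh hz
  rw [h6, setLIntegral_const, mul_comm]

end PolUAux

theorem pol_u (n : ℕ) : ∃ C : ℝ≥0∞, C ≠ ⊤ ∧ ∀ ν : Measure (XX n), Haar ν → ∀ G : W n → ℝ≥0∞, Measurable G →
    (∀ (c : ℂ) (z : W n), c ≠ 0 → z ≠ 0 → G (c • z) = G z) →
    ∫⁻ z in ball (0 : W n) 1, G z ≤ C * ∫⁻ g, G (g 0) ∂ν ∧
      ∫⁻ g, G (g 0) ∂ν ≤ C * ∫⁻ z in ball (0 : W n) 1, G z := by
  have hsub1 : ball (0 : W n) 1 ⊆ PolUAux.Bs n ((n : ℝ) + 1) := by
    intro z hz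
    rw [mem_ball_zero_iff] at hz
    have h1 := nsq_le z
    have h2 : ‖z‖ ^ 2 < 1 := by
      have := norm_nonneg z
      nlinarith
    have h3 : ((n : ℝ) + 1) * ‖z‖ ^ 2 < (n : ℝ) + 1 := by
      have : (0 : ℝ) < (n : ℝ) + 1 := by positivity
      nlinarith
    exact lt_of_le_of_lt h1 h3
  have hsub2 : PolUAux.Bs n 1 ⊆ ball (0 : W n) 1 := by
    intro z hz
    rw [mem_ball_zero_iff]
    have h1 := le_nsq z
    have h2 : nsq z < 1 := hz
    have h3 : ‖z‖ ^ 2 < 1 := lt_of_le_of_lt h1 h2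
    have := norm_nonneg z
    by_contra h4
    push Not at h4
    nlinarith
  have hfin : volume (PolUAux.Bs n ((n : ℝ) + 1)) ≠ ⊤ := by
    have h1 : PolUAux.Bs n ((n : ℝ) + 1) ⊆ ball (0 : W n) ((n : ℝ) + 2) := by
      intro z hz
      rw [mem_ball_zero_iff]
      have h1 := le_nsq z
      have h2 : nsq z < (n : ℝ) + 1 := hz
      have h0 : (0 : ℝ) ≤ n := Nat.cast_nonneg n
      by_contra h4
      push Not at h4
      nlinarith
    exact ((measure_mono h1).trans_lt measure_ball_lt_top).ne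
  have hpos : volume (PolUAux.Bs n 1) ≠ 0 := by
    refine (IsOpen.measure_pos _ (PolUAux.isOpen_Bs 1) ⟨0, ?_⟩).ne'
    show nsq (0 : W n) < 1
    simp [nsq]
  have hfin1 : volume (PolUAux.Bs n 1) ≠ ⊤ :=
    ((measure_mono hsub2).trans_lt measure_ball_lt_top).ne
  refine ⟨volume (PolUAux.Bs n ((n : ℝ) + 1)) + (volume (PolUAux.Bs n 1))⁻¹,
    ENNReal.add_ne_top.2 ⟨hfin, ENNReal.inv_ne_top.2 hpos⟩, ?_⟩
  intro ν hν G hG hh
  constructor
  · calc ∫⁻ z in ball (0 : W n) 1, G z ≤ ∫⁻ z in PolUAux.Bs n ((n : ℝ) + 1), G z :=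
          lintegral_mono_set hsub1
      _ = volume (PolUAux.Bs n ((n : ℝ) + 1)) * ∫⁻ g, G (g 0) ∂ν := PolUAux.avg hν hG hh _
      _ ≤ _ := mul_le_mul_left (le_self_add) _
  · calc ∫⁻ g, G (g 0) ∂ν
        = (volume (PolUAux.Bs n 1))⁻¹ * (volume (PolUAux.Bs n 1) * ∫⁻ g, G (g 0) ∂ν) := by
          rw [← mul_assoc, ENNReal.inv_mul_cancel hpos hfin1, one_mul]
      _ = (volume (PolUAux.Bs n 1))⁻¹ * ∫⁻ z in PolUAux.Bs n 1, G z := by
          rw [PolUAux.avg hν hG hh]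
      _ ≤ (volume (PolUAux.Bs n ((n : ℝ) + 1)) + (volume (PolUAux.Bs n 1))⁻¹) *
            ∫⁻ z in ball (0 : W n) 1, G z :=
          mul_le_mul' le_add_self (lintegral_mono_set hsub2)

end Pool.Agent.Lib.P28u
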