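import Pool.Agent.Lib.P28u.PtU
import Pool.Agent.Lib.P28u.MainU
import Pool.Agent.Lib.P28u.PolU
import Pool.Agent.Lib.P28u.HaarU

set_option autoImplicit false
set_option maxSynthPendingDepth 3

/-!
# The second moment of the condition number

PROOF. `ν` from `exists_haar`. `kO α`, `aO α` are continuous off `0` (`cont_kO`, `cont_aO`), hence measurable (`measurable_of_continuousOn_compl_singleton`), of degree zero (`kO_smul`, `aO_smul`), nonnegative; `g ↦ kO α (g 0)` is continuous on `Un n` (`col_ne`). With the constants `C₀` (`pol_u`), `C₁` (`pt_u`), `C₂` (`main_u`):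
`∫⁻_ball ofReal (kO)^2 ≤ C₀ ∫⁻ ofReal (kO α (g 0) ^ 2) ∂ν ≤ C₀ ofReal (C₁ (1 + ∑∑ ∫ fr2 (Qm α i j g) ∂ν))` (`ofReal_integral_eq_lintegral_ofReal`, integrable by `integrable_un`, `cont_Qm`; `ae_un`) `≤ C₀ ofReal (C₁ (1 + C₂ ∫ (1 + ∑ fr2 (Am α k g))^2 ∂ν))`, and `(1 + ∑ fr2 (Am))² ≤ (1 + 2 n C₁ a²)² ≤ 2 + 2 (2 n C₁)² a⁴ ≤ 2 + 2 (2 n C₁)² (1 + a^(2n))`,
`a = aO α (g 0)`, since `a⁴ ≤ 1 + a^(2n)` for `n ≥ 2`. Finally `∫ aO α (g 0) ^ (2n) ∂ν = (∫⁻ ofReal (aO α (g 0)) ^ (2 n) ∂ν).toReal ≤ (C₀ ofReal E).toReal` by `pol_u` again (the second inequality, with `G z = ofReal (aO α z) ^ (2 n)`) and the hypothesis.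
-/

open MeasureTheory Set Metric
open scoped ContDiff Topology ENNReal

namespace Pool.Agent.Lib.P28u

open Pool.Agent.P28b04d Pool.Agent.Lib.P28e Pool.Agent.Lib.P28c Pool.Agent.Lib.P28t
open Pool.Agent.Lib.P28f (V EV)

variable {n : ℕ}

namespace TailUAux

theorem aO_nonneg (α : FW n) (z : W n) : 0 ≤ aO α z := by
  unfold aO
  positivity

theorem kO_nonneg (α : FW n) (z : W n) : 0 ≤ kO α z := by
  unfold kO
  positivity

theorem meas_a {α : FW n} (h : Symp α) : Measurable (aO α) :=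
  measurable_of_continuousOn_compl_singleton 0 (cont_aO h)

theorem meas_k {α : FW n} (h : Symp α) : Measurable (kO α) :=
  measurable_of_continuousOn_compl_singleton 0 (cont_kO h)

theorem cont_a0 {α : FW n} (h : Symp α) : ContinuousOn (fun g : XX n => aO α (g 0)) (Un n) :=
  (cont_aO h).comp (continuous_apply 0).continuousOn (fun _g hg => col_ne hg 0)

theorem cont_k0 {α : FW n} (h : Symp α) : ContinuousOn (fun g : XX n => kO α (g 0)) (Un n) :=
  (cont_kO h).comp (continuous_apply 0).continuousOn (fun _g hg => col_ne hg 0)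

theorem mom_a {ν : Measure (XX n)} (hν : Haar ν) {α : FW n} (h : Symp α) (m : ℕ) :
    ∫⁻ g, ENNReal.ofReal (aO α (g 0)) ^ m ∂ν = ENNReal.ofReal (∫ g, aO α (g 0) ^ m ∂ν) := by
  have hi : Integrable (fun g => aO α (g 0) ^ m) ν := integrable_un hν ((cont_a0 h).pow m)
  rw [ofReal_integral_eq_lintegral_ofReal hi
    (Filter.Eventually.of_forall fun g => pow_nonneg (aO_nonneg α (g 0)) m)]
  refine lintegral_congr fun g => ?_
  rw [ENNReal.ofReal_pow (aO_nonneg α (g 0))]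

theorem mom_k {ν : Measure (XX n)} (hν : Haar ν) {α : FW n} (h : Symp α) (m : ℕ) :
    ∫⁻ g, ENNReal.ofReal (kO α (g 0)) ^ m ∂ν = ENNReal.ofReal (∫ g, kO α (g 0) ^ m ∂ν) := by
  have hi : Integrable (fun g => kO α (g 0) ^ m) ν := integrable_un hν ((cont_k0 h).pow m)
  rw [ofReal_integral_eq_lintegral_ofReal hi
    (Filter.Eventually.of_forall fun g => pow_nonneg (kO_nonneg α (g 0)) m)]
  refine lintegral_congr fun g => ?_
  rw [ENNReal.ofReal_pow (kO_nonneg α (g 0))]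

theorem pow4 (hn : 2 ≤ n) {a : ℝ} (ha : 0 ≤ a) : a ^ 4 ≤ 1 + a ^ (2 * n) := by
  by_cases h : a ≤ 1
  · have h1 : a ^ 4 ≤ 1 := pow_le_one₀ ha h
    have h2 : 0 ≤ a ^ (2 * n) := by positivity
    linarith
  · push Not at h
    have h1 : a ^ 4 ≤ a ^ (2 * n) := pow_le_pow_right₀ h.le (by omega)
    linarith

theorem step_A (hn : 2 ≤ n) {C₁ : ℝ} (hC : 0 < C₁) {α : FW n} {g : XX n}
    (h : ∀ k, fr2 (Am α k g) ≤ C₁ * aO α (g 0) ^ 2) :
    (1 + ∑ k, fr2 (Am α k g)) ^ 2 ≤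
      (2 + 2 * ((n : ℝ) * 2 * C₁) ^ 2) + 2 * ((n : ℝ) * 2 * C₁) ^ 2 * aO α (g 0) ^ (2 * n) := by
  set a := aO α (g 0) with hadef
  have ha : 0 ≤ a := aO_nonneg α (g 0)
  have h1 : ∑ k, fr2 (Am α k g) ≤ (n : ℝ) * 2 * C₁ * a ^ 2 := by
    calc ∑ k, fr2 (Am α k g) ≤ ∑ _k : Fin (n * 2), C₁ * a ^ 2 := Finset.sum_le_sum fun k _ => h k
      _ = (n : ℝ) * 2 * C₁ * a ^ 2 := by
        rw [Finset.sum_const, Finset.card_univ, Fintype.card_fin, nsmul_eq_mul]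
        push_cast
        ring
  have h0 : 0 ≤ ∑ k, fr2 (Am α k g) := Finset.sum_nonneg fun k _ => fr2_nonneg _
  set D := (n : ℝ) * 2 * C₁ with hD
  have hD0 : 0 ≤ D := by positivity
  have h2 : (1 + ∑ k, fr2 (Am α k g)) ^ 2 ≤ (1 + D * a ^ 2) ^ 2 :=
    pow_le_pow_left₀ (by positivity) (by linarith) 2
  have h3 : (1 + D * a ^ 2) ^ 2 ≤ 2 + 2 * D ^ 2 * a ^ 4 := by
    nlinarith [sq_nonneg (1 - D * a ^ 2)]
  have h4 : 2 * D ^ 2 * a ^ 4 ≤ 2 * D ^ 2 * (1 + a ^ (2 * n)) :=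
    mul_le_mul_of_nonneg_left (pow4 hn ha) (by positivity)
  calc (1 + ∑ k, fr2 (Am α k g)) ^ 2 ≤ 2 + 2 * D ^ 2 * a ^ 4 := h2.trans h3
    _ ≤ 2 + 2 * D ^ 2 * (1 + a ^ (2 * n)) := by linarith
    _ = (2 + 2 * D ^ 2) + 2 * D ^ 2 * a ^ (2 * n) := by ring

end TailUAux

open TailUAux

theorem tail_u (n : ℕ) (hn : 2 ≤ n) (E : ℝ) : ∃ C : ℝ, ∀ α : FW n, Symp α →
    ∫⁻ z in ball (0 : W n) 1, ENNReal.ofReal (aO α z) ^ (2 * n) ≤ ENNReal.ofReal E →
    ∫⁻ z in ball (0 : W n) 1, ENNReal.ofReal (kO α z) ^ 2 ≤ ENNReal.ofReal C := by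
  obtain ⟨ν, hν⟩ := exists_haar n
  have := hν.prob
  obtain ⟨C₀, hC₀, hpol⟩ := pol_u n
  obtain ⟨C₁, hC₁, hpt⟩ := pt_u n
  obtain ⟨C₂, hC₂, hmain⟩ := main_u n
  set D : ℝ := (n : ℝ) * 2 * C₁ with hD
  refine ⟨C₀.toReal * (C₁ * (1 + C₂ * ((2 + 2 * D ^ 2) + 2 * D ^ 2 * (C₀.toReal * max E 0)))), ?_⟩
  intro α hα hE
  -- the moment of `aO`
  have hA : ∫ g, aO α (g 0) ^ (2 * n) ∂ν ≤ C₀.toReal * max E 0 := by
    have h1 := (hpol ν hν (fun z => ENNReal.ofReal (aO α z) ^ (2 * n))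
      ((meas_a hα).ennreal_ofReal.pow_const _) (fun c z hc hz => by
        show ENNReal.ofReal (aO α (c • z)) ^ (2 * n) = ENNReal.ofReal (aO α z) ^ (2 * n)
        rw [aO_smul hα hc hz])).2
    have h2 : ENNReal.ofReal (∫ g, aO α (g 0) ^ (2 * n) ∂ν) ≤
        ENNReal.ofReal (C₀.toReal * max E 0) := by
      rw [← mom_a hν hα, ENNReal.ofReal_mul ENNReal.toReal_nonneg, ENNReal.ofReal_toReal hC₀]
      refine h1.trans ?_
      gcongr
      refine hE.trans ?_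
      exact ENNReal.ofReal_le_ofReal (le_max_left _ _)
    exact (ENNReal.ofReal_le_ofReal_iff (by positivity)).1 h2
  -- integrability
  have iA : Integrable (fun g => aO α (g 0) ^ (2 * n)) ν := integrable_un hν ((cont_a0 hα).pow _)
  have iQ : ∀ i j, Integrable (fun g => fr2 (Qm α i j g)) ν := fun i j =>
    integrable_un hν (cont_Qm hα i j)
  have iS : Integrable (fun g => (1 + ∑ k, fr2 (Am α k g)) ^ 2) ν := by
    apply integrable_un hν
    apply ContinuousOn.pow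
    apply ContinuousOn.add continuousOn_const
    exact continuousOn_finsetSum _ fun k _ => cont_Am hα k
  have iK : Integrable (fun g => kO α (g 0) ^ 2) ν := integrable_un hν ((cont_k0 hα).pow 2)
  -- the square of the connection
  have hS : ∫ g, (1 + ∑ k, fr2 (Am α k g)) ^ 2 ∂ν ≤
      (2 + 2 * D ^ 2) + 2 * D ^ 2 * (C₀.toReal * max E 0) := by
    have h1 : ∫ g, (1 + ∑ k, fr2 (Am α k g)) ^ 2 ∂ν ≤
        ∫ g, ((2 + 2 * D ^ 2) + 2 * D ^ 2 * aO α (g 0) ^ (2 * n)) ∂ν := by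
      refine integral_mono_ae iS ((integrable_const _).add (iA.const_mul _)) ?_
      exact ae_un hν fun g hg => step_A hn hC₁ (hpt α hα g hg).2
    have h2 : ∫ g, ((2 + 2 * D ^ 2) + 2 * D ^ 2 * aO α (g 0) ^ (2 * n)) ∂ν =
        (2 + 2 * D ^ 2) + 2 * D ^ 2 * ∫ g, aO α (g 0) ^ (2 * n) ∂ν := by
      rw [integral_add (integrable_const _) (iA.const_mul _), integral_const, integral_const_mul]
      simp
    rw [h2] at h1
    refine h1.trans ?_
    have : 2 * D ^ 2 * ∫ g, aO α (g 0) ^ (2 * n) ∂ν ≤ 2 * D ^ 2 * (C₀.toReal * max E 0) :=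
      mul_le_mul_of_nonneg_left hA (by positivity)
    linarith
  -- the condition number
  have hK : ∫ g, kO α (g 0) ^ 2 ∂ν ≤
      C₁ * (1 + C₂ * ((2 + 2 * D ^ 2) + 2 * D ^ 2 * (C₀.toReal * max E 0))) := by
    have iQQ : Integrable (fun g => ∑ i, ∑ j, fr2 (Qm α i j g)) ν :=
      integrable_finsetSum _ fun i _ => integrable_finsetSum _ fun j _ => iQ i j
    have h1 : ∫ g, kO α (g 0) ^ 2 ∂ν ≤ ∫ g, C₁ * (1 + ∑ i, ∑ j, fr2 (Qm α i j g)) ∂ν := by
      refine integral_mono_ae iK (((integrable_const _).add iQQ).const_mul _) ?_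
      exact ae_un hν fun g hg => (hpt α hα g hg).1
    have h2 : ∫ g, C₁ * (1 + ∑ i, ∑ j, fr2 (Qm α i j g)) ∂ν =
        C₁ * (1 + ∑ i, ∑ j, ∫ g, fr2 (Qm α i j g) ∂ν) := by
      rw [integral_const_mul, integral_add (integrable_const _) iQQ, integral_const,
        integral_finsetSum _ (fun i _ => integrable_finsetSum _ fun j _ => iQ i j)]
      simp only [probReal_univ, one_smul]
      congr 2
      refine Finset.sum_congr rfl fun i _ => ?_
      rw [integral_finsetSum _ (fun j _ => iQ i j)]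
    rw [h2] at h1
    refine h1.trans (mul_le_mul_of_nonneg_left ?_ hC₁.le)
    have h3 := hmain ν hν α hα
    have h4 : C₂ * ∫ g, (1 + ∑ k, fr2 (Am α k g)) ^ 2 ∂ν ≤
        C₂ * ((2 + 2 * D ^ 2) + 2 * D ^ 2 * (C₀.toReal * max E 0)) :=
      mul_le_mul_of_nonneg_left hS hC₂.le
    linarith
  -- conclusion
  have h1 := (hpol ν hν (fun z => ENNReal.ofReal (kO α z) ^ 2)
    ((meas_k hα).ennreal_ofReal.pow_const _) (fun c z hc hz => by
      show ENNReal.ofReal (kO α (c • z)) ^ 2 = ENNReal.ofReal (kO α z) ^ 2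
      rw [kO_smul hα hc hz])).1
  refine h1.trans ?_
  rw [mom_k hν hα, ENNReal.ofReal_mul ENNReal.toReal_nonneg, ENNReal.ofReal_toReal hC₀]
  gcongr

end Pool.Agent.Lib.P28u
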