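import Pool.Agent.Lib.P28u.Moser
import Pool.Agent.Lib.P28u.TailU
import Pool.Agent.Lib.P28u.ChU

set_option autoImplicit false
set_option maxSynthPendingDepth 3

/-!
# The condition number is integrable

PROOF. `ch_u`, `tail_u`, `moser`.
-/

open MeasureTheory Set Metric
open scoped ContDiff Topology ENNReal

namespace Pool.Agent.Lib.P28u

open Pool.Agent.P28b04d Pool.Agent.Lib.P28e Pool.Agent.Lib.P28c Pool.Agent.Lib.P28t
open Pool.Agent.Lib.P28f (V EV)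

variable {n : ℕ}

theorem kap_int (n : ℕ) (hn : 2 ≤ n) (E : ℝ) : ∃ C : ℝ, ∀ α : FW n, Symp α →
    ∫⁻ z in ball (0 : W n) 1, ENNReal.ofReal (aO α z) ^ (2 * n) ≤ ENNReal.ofReal E →
    ∫⁻ z in ball (0 : W n) 1, ENNReal.ofReal (kO α z) ^ (2 * n) ≤ ENNReal.ofReal C := by
  obtain ⟨K, hK, hch⟩ := ch_u n (by omega)
  obtain ⟨C₁, h1⟩ := tail_u n hn E
  obtain ⟨C₂, h2⟩ := moser n (by omega) K hK (max E C₁)
  exact ⟨C₂, fun α hα hE => h2 _ _ _ (hch α hα)
    (hE.trans (ENNReal.ofReal_le_ofReal (le_max_left _ _)))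
    ((h1 α hα hE).trans (ENNReal.ofReal_le_ofReal (le_max_right _ _)))⟩

end Pool.Agent.Lib.P28u
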