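import Pool.Agent.Lib.P28u.Defs2

set_option autoImplicit false
set_option maxSynthPendingDepth 3

/-!
# Summation over the levels

PROOF. The unit ball is covered by `{κ² < e^(t₀)}` and the sets `A_j = {e^(t₀ + j h) ≤ κ² < e^(t₀ + (j + 1) h)}`, `j ≥ 0` (`h > 0`: `κ z ^ 2 < e^(t₀ + j h)` for large `j`; take the smallest). On the first set `ofReal (κ z) ^ (2 n) ≤ ofReal (exp (n t₀))` (`κ ^ (2 n) = (κ ^ 2) ^ n`), on `A_j` at most `ofReal (exp (n (t₀ + (j + 1) h)))`, and `volume (ball 0 1 ∩ A_j) ≤ lv κ (t₀ + j h)`. Hence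
`∫⁻_ball ofReal κ ^ (2 n) ≤ ofReal (exp (n t₀)) volume (ball 0 1) + ∑' j, ofReal (exp (n (t₀ + (j + 1) h)) * D * exp (-P j))` (`D` may be replaced by `max D 0`); the series is geometric with ratio `exp (n h - P) < 1`.
-/

open MeasureTheory Set Metric
open scoped ContDiff Topology ENNReal

namespace Pool.Agent.Lib.P28u

open Pool.Agent.P28b04d Pool.Agent.Lib.P28e Pool.Agent.Lib.P28c Pool.Agent.Lib.P28t
open Pool.Agent.Lib.P28f (V EV)

variable {n : ℕ}

namespace LayCAux

theorem pt (n : ℕ) (h t₀ : ℝ) (hh : 0 < h) (x : ℝ) (hx : 0 ≤ x) :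
    ENNReal.ofReal x ^ (2 * n) ≤ ENNReal.ofReal (Real.exp (n * t₀)) +
      ∑' j : ℕ, (if Real.exp (t₀ + j * h) ≤ x ^ 2 then
        ENNReal.ofReal (Real.exp (n * (t₀ + (j + 1) * h))) else 0) := by
  classical
  have e0 : ENNReal.ofReal x ^ (2 * n) = ENNReal.ofReal ((x ^ 2) ^ n) := by
    rw [← pow_mul, ENNReal.ofReal_pow hx]
  rw [e0]
  have key : ∀ t : ℝ, x ^ 2 ≤ Real.exp t → ENNReal.ofReal ((x ^ 2) ^ n) ≤
      ENNReal.ofReal (Real.exp (n * t)) := by
    intro t ht
    apply ENNReal.ofReal_le_ofReal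
    rw [Real.exp_nat_mul]
    exact pow_le_pow_left₀ (by positivity) ht n
  by_cases h0 : x ^ 2 < Real.exp t₀
  · exact (key t₀ h0.le).trans le_self_add
  · push Not at h0
    have hex : ∃ m : ℕ, x ^ 2 < Real.exp (t₀ + m * h) := by
      obtain ⟨m, hm⟩ := exists_nat_gt ((x ^ 2 - t₀) / h)
      refine ⟨m, ?_⟩
      rw [div_lt_iff₀ hh] at hm
      have := Real.add_one_le_exp (t₀ + m * h)
      linarith
    have hpos : Nat.find hex ≠ 0 := by
      intro h1
      have h2 := Nat.find_spec hex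
      rw [h1] at h2
      simp only [Nat.cast_zero, zero_mul, add_zero] at h2
      linarith
    obtain ⟨j, hj⟩ := Nat.exists_eq_succ_of_ne_zero hpos
    have h1 : ¬ x ^ 2 < Real.exp (t₀ + j * h) := Nat.find_min hex (by omega)
    have h2 : x ^ 2 < Real.exp (t₀ + (j + 1) * h) := by
      have h2 := Nat.find_spec hex
      rw [hj] at h2
      push_cast at h2
      exact h2
    push Not at h1
    calc ENNReal.ofReal ((x ^ 2) ^ n) ≤ ENNReal.ofReal (Real.exp (n * (t₀ + (j + 1) * h))) :=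
          key _ h2.le
      _ = (if Real.exp (t₀ + j * h) ≤ x ^ 2 then
        ENNReal.ofReal (Real.exp (n * (t₀ + (j + 1) * h))) else 0) := by rw [if_pos h1]
      _ ≤ _ := ENNReal.le_tsum j
      _ ≤ _ := le_add_self

end LayCAux

theorem lay_c (n : ℕ) (h D t₀ P : ℝ) (hh : 0 < h) (hP : n * h < P) : ∃ C : ℝ, ∀ κ : W n → ℝ, Measurable κ →
    (∀ z, 0 ≤ κ z) → (∀ j : ℕ, lv κ (t₀ + j * h) ≤ ENNReal.ofReal (D * Real.exp (-(P * j)))) →
    ∫⁻ z in ball (0 : W n) 1, ENNReal.ofReal (κ z) ^ (2 * n) ≤ ENNReal.ofReal C := by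
  classical
  have hr0 : 0 ≤ Real.exp (n * h - P) := (Real.exp_pos _).le
  have hr1 : Real.exp (n * h - P) < 1 := by
    rw [Real.exp_lt_one_iff]; linarith
  have hsum : Summable (fun j : ℕ => Real.exp (n * (t₀ + h)) * max D 0 * Real.exp (n * h - P) ^ j) :=
    (summable_geometric_of_lt_one hr0 hr1).mul_left _
  refine ⟨Real.exp (n * t₀) * (volume (ball (0 : W n) 1)).toReal +
    ∑' j : ℕ, Real.exp (n * (t₀ + h)) * max D 0 * Real.exp (n * h - P) ^ j, ?_⟩
  intro κ hκ hκ0 hlv
  have hmeas : ∀ j : ℕ, MeasurableSet {z : W n | Real.exp (t₀ + j * h) ≤ κ z ^ 2} := fun j =>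
    measurableSet_le measurable_const (hκ.pow_const 2)
  have h1 : ∫⁻ z in ball (0 : W n) 1, ENNReal.ofReal (κ z) ^ (2 * n) ≤
      ∫⁻ z in ball (0 : W n) 1, (ENNReal.ofReal (Real.exp (n * t₀)) +
      ∑' j : ℕ, {z : W n | Real.exp (t₀ + j * h) ≤ κ z ^ 2}.indicator
        (fun _ => ENNReal.ofReal (Real.exp (n * (t₀ + (j + 1) * h)))) z) := by
    refine lintegral_mono fun z => ?_
    refine (LayCAux.pt n h t₀ hh (κ z) (hκ0 z)).trans (le_of_eq ?_)
    rfl
  refine h1.trans ?_
  rw [lintegral_add_left measurable_const, lintegral_tsum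
    (fun j => (measurable_const.indicator (hmeas j)).aemeasurable), setLIntegral_const]
  have hfin : volume (ball (0 : W n) 1) ≠ ⊤ := measure_ball_lt_top.ne
  rw [ENNReal.ofReal_add (by positivity) (tsum_nonneg fun j => by positivity),
    ENNReal.ofReal_mul (Real.exp_pos _).le, ENNReal.ofReal_toReal hfin,
    ENNReal.ofReal_tsum_of_nonneg (fun j => by positivity) hsum]
  refine add_le_add le_rfl (ENNReal.tsum_le_tsum fun j => ?_)
  rw [lintegral_indicator (hmeas j), setLIntegral_const]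
  have h2 : (volume.restrict (ball (0 : W n) 1)) {z : W n | Real.exp (t₀ + j * h) ≤ κ z ^ 2} =
      lv κ (t₀ + j * h) := by
    rw [Measure.restrict_apply (hmeas j), Set.inter_comm]
    rfl
  rw [h2]
  calc ENNReal.ofReal (Real.exp (n * (t₀ + (j + 1) * h))) * lv κ (t₀ + j * h)
      ≤ ENNReal.ofReal (Real.exp (n * (t₀ + (j + 1) * h))) *
        ENNReal.ofReal (max D 0 * Real.exp (-(P * j))) := by
        gcongr
        refine (hlv j).trans (ENNReal.ofReal_le_ofReal ?_)
        exact mul_le_mul_of_nonneg_right (le_max_left _ _) (Real.exp_pos _).le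
    _ = ENNReal.ofReal (Real.exp (n * (t₀ + h)) * max D 0 * Real.exp (n * h - P) ^ j) := by
        rw [← ENNReal.ofReal_mul (Real.exp_pos _).le]
        congr 1
        rw [← Real.exp_nat_mul]
        have e1 : Real.exp (n * (t₀ + (j + 1) * h)) * Real.exp (-(P * j)) =
            Real.exp (n * (t₀ + h)) * Real.exp (j * (n * h - P)) := by
          rw [← Real.exp_add, ← Real.exp_add]
          congr 1
          ring
        calc Real.exp (n * (t₀ + (j + 1) * h)) * (max D 0 * Real.exp (-(P * j)))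
            = max D 0 * (Real.exp (n * (t₀ + (j + 1) * h)) * Real.exp (-(P * j))) := by ring
          _ = max D 0 * (Real.exp (n * (t₀ + h)) * Real.exp (j * (n * h - P))) := by rw [e1]
          _ = _ := by ring

end Pool.Agent.Lib.P28u
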