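import Pool.Agent.Lib.P28u.UnA

set_option autoImplicit false
set_option maxSynthPendingDepth 3

/-!
# Unitary matrices preserve the Lebesgue measure

PROOF. `mxL g` is a bijective real-linear map (`mx_surj`, `exists_inv`), so `volume.map (mxL g) = c • volume` for a constant `c` (`Measure.map_linearMap_addHaar_eq_smul_addHaar`, `c = |det|⁻¹`). The Euclidean ball `B = {z | nsq z < 1}` is open, not empty and bounded (`le_nsq`), so `0 < volume B < ∞`, and `mx g ⁻¹' B = B` by `nsq_mx`. Hence `c = 1`.
-/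

open MeasureTheory Set Metric
open scoped ContDiff Topology ENNReal

namespace Pool.Agent.Lib.P28u

open Pool.Agent.P28b04d Pool.Agent.Lib.P28e Pool.Agent.Lib.P28c Pool.Agent.Lib.P28t
open Pool.Agent.Lib.P28f (V EV)

variable {n : ℕ}

namespace LebUAux

theorem inj {g : XX n} (hg : g ∈ Un n) : Function.Injective (mxL g) := by
  obtain ⟨k, -, -, h2⟩ := exists_inv hg
  intro z w h
  rw [mxL_apply, mxL_apply] at h
  have e : ∀ z, mx k (mx g z) = z := fun z => by rw [← mx_rm, h2, mx_idm]
  rw [← e z, h, e w]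

theorem det_ne {g : XX n} (hg : g ∈ Un n) :
    LinearMap.det ((mxL g : W n →L[ℝ] W n) : W n →ₗ[ℝ] W n) ≠ 0 := by
  intro h
  have h1 := LinearMap.bot_lt_ker_of_det_eq_zero h
  have h2 : LinearMap.ker ((mxL g : W n →L[ℝ] W n) : W n →ₗ[ℝ] W n) = ⊥ :=
    LinearMap.ker_eq_bot.2 (inj hg)
  rw [h2] at h1
  exact lt_irrefl _ h1

theorem cont_nsq : Continuous fun z : W n => nsq z := by
  unfold nsq
  fun_prop

theorem meas_mx (g : XX n) : Measurable fun z : W n => mx g z := by
  have : (fun z => mx g z) = (mxL g : W n → W n) := by funext z; rw [mxL_apply]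
  rw [this]
  exact (mxL g).continuous.measurable

end LebUAux

open LebUAux

theorem map_mx {g : XX n} (hg : g ∈ Un n) : (volume : Measure (W n)).map (fun z => mx g z) = volume := by
  have hL : (fun z => mx g z) = (((mxL g : W n →L[ℝ] W n) : W n →ₗ[ℝ] W n) : W n → W n) := by
    funext z
    exact (mxL_apply g z).symm
  have h1 := Measure.map_linearMap_addHaar_eq_smul_addHaar (volume : Measure (W n)) (det_ne hg)
  rw [← hL] at h1
  set c := ENNReal.ofReal |(LinearMap.det ((mxL g : W n →L[ℝ] W n) : W n →ₗ[ℝ] W n))⁻¹| with hc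
  let B : Set (W n) := {z | nsq z < 1}
  have hBo : IsOpen B := isOpen_lt cont_nsq continuous_const
  have hB0 : (0 : W n) ∈ B := by
    show nsq (0 : W n) < 1
    simp [nsq]
  have hpos : 0 < volume B := hBo.measure_pos volume ⟨0, hB0⟩
  have hfin : volume B < ⊤ := by
    refine lt_of_le_of_lt (measure_mono (t := ball (0 : W n) 1) ?_) measure_ball_lt_top
    intro z hz
    rw [mem_ball_zero_iff]
    have h2 : ‖z‖ ^ 2 < 1 := lt_of_le_of_lt (le_nsq z) hz
    nlinarith [norm_nonneg z]
  have h2 : (volume.map (fun z => mx g z)) B = volume B := by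
    rw [Measure.map_apply (meas_mx g) hBo.measurableSet]
    congr 1
    ext z
    show nsq (mx g z) < 1 ↔ nsq z < 1
    rw [nsq_mx hg]
  rw [h1, Measure.smul_apply, smul_eq_mul] at h2
  have h3 : c = 1 := by
    have h4 : c * volume B = 1 * volume B := by rw [h2, one_mul]
    exact (ENNReal.mul_left_inj hpos.ne' hfin.ne).1 h4
  rw [h1, h3, one_smul]

theorem lintegral_mx {g : XX n} (hg : g ∈ Un n) {G : W n → ℝ≥0∞} (hG : Measurable G) :
    ∫⁻ z, G (mx g z) = ∫⁻ z, G z := by
  have h := lintegral_map (μ := (volume : Measure (W n))) hG (meas_mx g)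
  rw [map_mx hg] at h
  exact h.symm

end Pool.Agent.Lib.P28u
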