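import Pool.Agent.Lib.P28u.FrTj
import Pool.Agent.Lib.P28e.CV

set_option autoImplicit false
set_option maxSynthPendingDepth 3

/-!
# Integrals over the unit ball and over the affine charts

PROOF. `Tj j` permutes the coordinates, so it preserves the volume and the unit ball (`volume_preserving_piCongrLeft` or `MeasureTheory.volume_preserving_arrowCongr`...; or `Measure.map` by a linear isometry): `∫⁻ z in ball 0 1, G (Tj j z) = ∫⁻ z in ball 0 1, G z`. `c • sl n y = T n (c, Rc n c y)` (`smul_sl`), `slice_exists_T`, `lintegral_Rc`.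
FORWARD: for `c` in `A = {1/8 ≤ ‖c‖ ≤ 1/5}`: `∫⁻ y in closedBall 0 2, G (Tj j (sl n y)) = ∫⁻ y in closedBall 0 2, G (Tj j (c • sl n y))` (degree zero) `≤ ∫⁻ y, G' (T n (c, Rc n c y))`, `G' = (ball 0 1).indicator (G ∘ Tj j)` since `‖c • sl n y‖ ≤ (1/5) * 4 < 1` (`‖sl n y‖ ≤ 4`, `norm_kap_le`) `= |det (Rc n c)|⁻¹ ∫⁻ y, G' (T n (c, y))`.
Integrate over `c ∈ A` (`0 < volume A`, `|det (Rc n c)| ≥ a > 0` on the compact `A` as in `det_bounds`): `volume A * LHS ≤ a⁻¹ k ∫⁻ z in ball 0 1, G z`. BACKWARD: `ball 0 1` minus `{0}` is the union of `B_j = {z ∈ ball 0 1 | z j ≠ 0, ∀ k, ‖z k‖ ≤ ‖z j‖}`, and `∫⁻ z in B_j, G z = ∫⁻ z in B_0, G (Tj j z)`. `k ∫⁻ z in B_0, G (Tj j z) = ∫⁻ c, ∫⁻ y, H (T n (c, y))`,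
`H = B_0.indicator (G ∘ Tj j)`; for `c ≠ 0`, `‖c‖ < 1`: `∫⁻ y, H (T n (c, y)) = |det (Rc n c)| ∫⁻ y, H (T n (c, Rc n c y)) = |det (Rc n c)| ∫⁻ y, H (c • sl n y)`, and `c • sl n y ∈ B_0` forces `‖kap n y‖ ≤ 1`, so `‖y‖ ≤ 1` (`norm_le_kap`), where `G (Tj j (c • sl n y)) = G (Tj j (sl n y))`; for `‖c‖ ≥ 1` or `c = 0` it is `0`.
`|det (Rc n c)| ≤ b` for `‖c‖ ≤ 1` (continuity, compactness). So `∫⁻ z in B_j, G z ≤ k⁻¹ b volume (ball 0 1) ∫⁻ y in closedBall 0 1, G (Tj j (sl n y))`.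
-/

open MeasureTheory Set Metric
open scoped ContDiff Topology ENNReal

namespace Pool.Agent.Lib.P28u

open Pool.Agent.P28b04d Pool.Agent.Lib.P28e Pool.Agent.Lib.P28c Pool.Agent.Lib.P28t
open Pool.Agent.Lib.P28f (V EV)

variable {n : ℕ}

namespace SlRAux

theorem mp_Tj (j : Fin (n + 1)) : MeasurePreserving (Tj j : W n → W n) volume volume := by
  have h1 := volume_measurePreserving_piCongrLeft (fun _ : Fin (n + 1) => ℂ) (Equiv.swap 0 j)
  have h2 : (Tj j : W n → W n) =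
      (MeasurableEquiv.piCongrLeft (fun _ : Fin (n + 1) => ℂ) (Equiv.swap 0 j)) := by
    funext z
    funext k
    obtain ⟨i, rfl⟩ := (Equiv.swap 0 j).surjective k
    rw [Tj_apply, MeasurableEquiv.coe_piCongrLeft, Equiv.piCongrLeft_apply_apply,
      Equiv.swap_apply_self]
  rw [h2]
  exact h1

theorem lint_Tj (j : Fin (n + 1)) {G : W n → ℝ≥0∞} (hG : Measurable G) :
    ∫⁻ z in ball (0 : W n) 1, G (Tj j z) = ∫⁻ z in ball (0 : W n) 1, G z := by
  have h1 := (mp_Tj j).setLIntegral_comp_preimage (s := ball (0 : W n) 1) measurableSet_ball hG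
  have h2 : (Tj j : W n → W n) ⁻¹' ball (0 : W n) 1 = ball (0 : W n) 1 := by
    ext z
    rw [mem_preimage, mem_ball_zero_iff, mem_ball_zero_iff, Tj_norm]
  rw [h2] at h1
  exact h1

theorem sl_four {y : V (n * 2)} (hy : ‖y‖ ≤ 2) : ‖sl n y‖ ≤ 4 := by
  rw [pi_norm_le_iff_of_nonneg (by norm_num)]
  intro i
  refine Fin.cases ?_ (fun j => ?_) i
  · simp [sl]
  · simp only [sl, Fin.cons_succ]
    have := norm_le_pi_norm (kap n y) j
    have h2 := norm_kap_le n y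
    linarith

theorem cont_det (n : ℕ) : Continuous fun c : ℂ => |(Rc n c).det| := by
  have h1 : Continuous fun c : ℂ => Rc n c := by
    unfold Rc
    exact (Complex.continuous_re.smul continuous_const).add
      (Complex.continuous_im.smul continuous_const)
  exact (ContinuousLinearMap.continuous_det.comp h1).abs

theorem det_lower (n : ℕ) : ∃ a : ℝ, 0 < a ∧ ∀ c : ℂ, 1 / 8 ≤ ‖c‖ → ‖c‖ ≤ 2 →
    a ≤ |(Rc n c).det| := by
  have hK : IsCompact ({c : ℂ | 1 / 8 ≤ ‖c‖} ∩ closedBall 0 2) :=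
    (isCompact_closedBall 0 2).inter_left (isClosed_le continuous_const continuous_norm)
  have hne : ({c : ℂ | 1 / 8 ≤ ‖c‖} ∩ closedBall 0 2).Nonempty := ⟨1, by simp; norm_num⟩
  obtain ⟨c1, hc1, h1⟩ := hK.exists_isMinOn hne (cont_det n).continuousOn
  have hpos : 0 < |(Rc n c1).det| := by
    have : c1 ≠ 0 := by
      intro h0
      have := hc1.1
      simp [h0] at this
      norm_num at this
    exact abs_pos.2 (det_Rc n this)
  refine ⟨_, hpos, fun c h3 h4 => ?_⟩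
  have hc : c ∈ ({c : ℂ | 1 / 8 ≤ ‖c‖} ∩ closedBall 0 2) := ⟨h3, by simpa using h4⟩
  exact h1 hc

theorem det_upper (n : ℕ) : ∃ b : ℝ, 0 < b ∧ ∀ c : ℂ, ‖c‖ ≤ 1 → |(Rc n c).det| ≤ b := by
  obtain ⟨c2, hc2, h2⟩ := (isCompact_closedBall (0 : ℂ) 1).exists_isMaxOn
    ⟨0, by simp⟩ (cont_det n).continuousOn
  refine ⟨|(Rc n c2).det| + 1, by positivity, fun c h4 => ?_⟩
  have hc : c ∈ closedBall (0 : ℂ) 1 := by simpa using h4
  have := h2 hc
  have h3 : |(Rc n c).det| ≤ |(Rc n c2).det| := this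
  linarith

theorem meas_slice (c : ℂ) {G : W n → ℝ≥0∞} (hG : Measurable G) :
    Measurable fun y : V (n * 2) => G (T n (c, y)) :=
  hG.comp ((T n).continuous.measurable.comp (by fun_prop))

theorem volA_pos : (volume {c : ℂ | 1 / 8 ≤ ‖c‖ ∧ ‖c‖ ≤ 1 / 5}) ≠ 0 := by
  have h1 : ball (3 / 20 : ℂ) (1 / 40) ⊆ {c : ℂ | 1 / 8 ≤ ‖c‖ ∧ ‖c‖ ≤ 1 / 5} := by
    intro c hc
    rw [mem_ball, dist_eq_norm] at hc
    have h2 : ‖(3 / 20 : ℂ)‖ = 3 / 20 := by
      rw [norm_div]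
      norm_num
    have h3 : ‖(3 / 20 : ℂ)‖ ≤ ‖c‖ + ‖c - 3 / 20‖ := by
      calc ‖(3 / 20 : ℂ)‖ = ‖c - (c - 3 / 20)‖ := by rw [sub_sub_cancel]
        _ ≤ _ := norm_sub_le _ _
    have h4 : ‖c‖ ≤ ‖c - 3 / 20‖ + ‖(3 / 20 : ℂ)‖ := by
      calc ‖c‖ = ‖(c - 3 / 20) + 3 / 20‖ := by rw [sub_add_cancel]
        _ ≤ _ := norm_add_le _ _
    constructor <;> linarith
  have h2 : 0 < volume (ball (3 / 20 : ℂ) (1 / 40)) := measure_ball_pos _ _ (by norm_num)
  exact (h2.trans_le (measure_mono h1)).ne'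

theorem volA_top : (volume {c : ℂ | 1 / 8 ≤ ‖c‖ ∧ ‖c‖ ≤ 1 / 5}) ≠ ⊤ := by
  have h1 : {c : ℂ | 1 / 8 ≤ ‖c‖ ∧ ‖c‖ ≤ 1 / 5} ⊆ closedBall (0 : ℂ) 1 := by
    intro c hc
    rw [mem_closedBall_zero_iff]
    have := hc.2
    linarith
  exact ((measure_mono h1).trans_lt measure_closedBall_lt_top).ne

theorem measA : MeasurableSet {c : ℂ | 1 / 8 ≤ ‖c‖ ∧ ‖c‖ ≤ 1 / 5} := by
  have : {c : ℂ | 1 / 8 ≤ ‖c‖ ∧ ‖c‖ ≤ 1 / 5} = {c : ℂ | 1 / 8 ≤ ‖c‖} ∩ {c : ℂ | ‖c‖ ≤ 1 / 5} :=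
    rfl
  rw [this]
  exact ((isClosed_le continuous_const continuous_norm).inter
    (isClosed_le continuous_norm continuous_const)).measurableSet

/-- the sector of the coordinate `j` -/
def Bj (n : ℕ) (j : Fin (n + 1)) : Set (W n) := {z | ‖z‖ < 1 ∧ ∀ k, ‖z k‖ ≤ ‖z j‖}

theorem meas_Bj (j : Fin (n + 1)) : MeasurableSet (Bj n j) := by
  have h1 : Bj n j = {z : W n | ‖z‖ < 1} ∩ ⋂ k : Fin (n + 1), {z : W n | ‖z k‖ ≤ ‖z j‖} := by
    ext z
    simp [Bj]
  rw [h1]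
  refine MeasurableSet.inter (isOpen_lt continuous_norm continuous_const).measurableSet ?_
  refine MeasurableSet.iInter fun k => ?_
  exact (isClosed_le (by fun_prop) (by fun_prop)).measurableSet

theorem pre_Bj (j : Fin (n + 1)) : (Tj j : W n → W n) ⁻¹' Bj n j = Bj n 0 := by
  ext z
  simp only [Bj, mem_preimage, mem_ofPred_eq, Tj_norm, Tj_apply, Equiv.swap_apply_right]
  refine and_congr_right fun _ => ?_
  constructor
  · intro h k
    have := h (Equiv.swap 0 j k)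
    rwa [Equiv.swap_apply_self] at this
  · intro h k
    exact h _

theorem cover (z : W n) (hz : z ∈ ball (0 : W n) 1) : z ∈ ⋃ j, Bj n j := by
  obtain ⟨j, hj⟩ := Finite.exists_max (fun k => ‖z k‖)
  rw [mem_iUnion]
  exact ⟨j, by simpa using hz, hj⟩

theorem sector (n : ℕ) : ∃ C : ℝ≥0∞, C ≠ ⊤ ∧ ∀ G : W n → ℝ≥0∞, Measurable G →
    (∀ (c : ℂ) (z : W n), c ≠ 0 → z ≠ 0 → G (c • z) = G z) → ∀ j : Fin (n + 1),
    ∫⁻ z in Bj n j, G z ≤ C * ∫⁻ y in closedBall (0 : V (n * 2)) 1, G (Tj j (sl n y)) := by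
  obtain ⟨b, hb, hab⟩ := det_upper n
  obtain ⟨k, hk0, hkt, hk⟩ := slice_exists_T n
  refine ⟨k⁻¹ * (ENNReal.ofReal b * volume (ball (0 : ℂ) 1)),
    ENNReal.mul_ne_top (ENNReal.inv_ne_top.2 hk0)
      (ENNReal.mul_ne_top ENNReal.ofReal_ne_top measure_ball_lt_top.ne), fun G hG h0 j => ?_⟩
  have hGj : Measurable fun z : W n => G (Tj j z) := hG.comp (Tj j).continuous.measurable
  have e1 := (mp_Tj j).setLIntegral_comp_preimage (s := Bj n j) (meas_Bj j) hG
  rw [pre_Bj] at e1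
  rw [← e1]
  set H : W n → ℝ≥0∞ := (Bj n 0).indicator (fun z => G (Tj j z)) with hH
  have hHm : Measurable H := hGj.indicator (meas_Bj 0)
  set I := ∫⁻ y in closedBall (0 : V (n * 2)) 1, G (Tj j (sl n y)) with hI
  have key : ∀ᵐ c : ℂ, ∫⁻ y, H (T n (c, y)) ≤
      (ball (0 : ℂ) 1).indicator (fun _ => ENNReal.ofReal b * I) c := by
    filter_upwards [(Set.countable_singleton (0 : ℂ)).ae_notMem volume] with c hc
    have hc0 : c ≠ 0 := hc
    by_cases hc1 : c ∈ ball (0 : ℂ) 1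
    · rw [indicator_of_mem hc1]
      have hcn : ‖c‖ ≤ 1 := by
        rw [mem_ball_zero_iff] at hc1
        exact hc1.le
      have hdpos : 0 < |(Rc n c).det| := abs_pos.2 (det_Rc n hc0)
      have h3 := lintegral_Rc n hc0 (H := fun y => H (T n (c, y))) (meas_slice c hHm)
      have h4 : ∫⁻ y, H (T n (c, y)) =
          ENNReal.ofReal |(Rc n c).det| * ∫⁻ y, H (T n (c, Rc n c y)) := by
        rw [h3, ← mul_assoc, ← ENNReal.ofReal_mul hdpos.le, mul_inv_cancel₀ hdpos.ne',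
          ENNReal.ofReal_one, one_mul]
      rw [h4]
      refine mul_le_mul' (ENNReal.ofReal_le_ofReal (hab c hcn)) ?_
      rw [hI, ← lintegral_indicator measurableSet_closedBall]
      refine lintegral_mono fun y => ?_
      rw [← smul_sl]
      by_cases hmem : c • sl n y ∈ Bj n 0
      · have hy : y ∈ closedBall (0 : V (n * 2)) 1 := by
          rw [mem_closedBall_zero_iff]
          refine (norm_le_kap n y).trans ?_
          rw [pi_norm_le_iff_of_nonneg zero_le_one]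
          intro i
          have h5 := hmem.2 i.succ
          have h6 : (c • sl n y) i.succ = c * kap n y i := by simp [sl]
          have h7 : (c • sl n y) 0 = c := by simp [sl]
          rw [h6, h7, norm_mul] at h5
          have h8 : 0 < ‖c‖ := norm_pos_iff.2 hc0
          exact le_of_mul_le_mul_left (by rw [mul_one]; exact h5) h8
        rw [hH, indicator_of_mem hmem, indicator_of_mem hy, Tj_smul, h0 c _ hc0 (Tj_ne j y)]
      · rw [hH, indicator_of_notMem hmem]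
        exact zero_le
    · rw [indicator_of_notMem hc1]
      have : ∀ y, H (T n (c, y)) = 0 := by
        intro y
        rw [hH, indicator_of_notMem]
        intro hmem
        apply hc1
        have h5 := hmem.1
        rw [mem_ball_zero_iff]
        refine lt_of_le_of_lt ?_ h5
        have := norm_le_pi_norm (T n (c, y)) 0
        simpa [T_apply] using this
      simp [this]
  have h1 : k * ∫⁻ z in Bj n 0, G (Tj j z) ≤ ENNReal.ofReal b * I * volume (ball (0 : ℂ) 1) := by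
    rw [← lintegral_indicator (meas_Bj 0), ← hH, ← hk H hHm]
    refine (lintegral_mono_ae key).trans ?_
    rw [lintegral_indicator measurableSet_ball, setLIntegral_const]
  calc ∫⁻ z in Bj n 0, G (Tj j z) = k⁻¹ * (k * ∫⁻ z in Bj n 0, G (Tj j z)) := by
        rw [← mul_assoc, ENNReal.inv_mul_cancel hk0 hkt, one_mul]
    _ ≤ k⁻¹ * (ENNReal.ofReal b * I * volume (ball (0 : ℂ) 1)) := by gcongr
    _ = _ := by ring

end SlRAux

open SlRAux

theorem sl_fwd (n : ℕ) : ∃ C : ℝ≥0∞, C ≠ ⊤ ∧ ∀ G : W n → ℝ≥0∞, Measurable G →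
    (∀ (c : ℂ) (z : W n), c ≠ 0 → z ≠ 0 → G (c • z) = G z) → ∀ j : Fin (n + 1),
    ∫⁻ y in closedBall (0 : V (n * 2)) 2, G (Tj j (sl n y)) ≤ C * ∫⁻ z in ball (0 : W n) 1, G z := by
  obtain ⟨a, ha, hab⟩ := det_lower n
  obtain ⟨k, hk0, hkt, hk⟩ := slice_exists_T n
  set A : Set ℂ := {c : ℂ | 1 / 8 ≤ ‖c‖ ∧ ‖c‖ ≤ 1 / 5} with hA
  refine ⟨(volume A)⁻¹ * (ENNReal.ofReal a⁻¹ * k),
    ENNReal.mul_ne_top (ENNReal.inv_ne_top.2 volA_pos)
      (ENNReal.mul_ne_top ENNReal.ofReal_ne_top hkt), fun G hG h0 j => ?_⟩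
  have hGj : Measurable fun z : W n => G (Tj j z) := hG.comp (Tj j).continuous.measurable
  set G' : W n → ℝ≥0∞ := (ball (0 : W n) 1).indicator (fun z => G (Tj j z)) with hG'
  have hG'm : Measurable G' := hGj.indicator measurableSet_ball
  set I := ∫⁻ y in closedBall (0 : V (n * 2)) 2, G (Tj j (sl n y)) with hI
  have key : I * volume A ≤ ENNReal.ofReal a⁻¹ * (k * ∫⁻ z in ball (0 : W n) 1, G z) := by
    calc I * volume A = ∫⁻ _ in A, I := by rw [setLIntegral_const]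
      _ ≤ ∫⁻ c in A, ENNReal.ofReal a⁻¹ * ∫⁻ y, G' (T n (c, y)) := by
        refine setLIntegral_mono' measA fun c hc => ?_
        have hc0 : c ≠ 0 := by
          intro h0
          have := hc.1
          rw [h0, norm_zero] at this
          norm_num at this
        calc I ≤ ∫⁻ y in closedBall (0 : V (n * 2)) 2, G' (T n (c, Rc n c y)) := by
              refine setLIntegral_mono' measurableSet_closedBall fun y hy => ?_
              rw [← smul_sl, hG', indicator_of_mem]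
              · rw [Tj_smul, h0 c _ hc0 (Tj_ne j y)]
              · have hy' : ‖y‖ ≤ 2 := by simpa using hy
                rw [mem_ball_zero_iff, norm_smul]
                have h1 := sl_four hy'
                have h2 := hc.2
                have h3 : 0 ≤ ‖c‖ := norm_nonneg c
                nlinarith
          _ ≤ ∫⁻ y, G' (T n (c, Rc n c y)) := setLIntegral_le_lintegral _ _
          _ = ENNReal.ofReal |(Rc n c).det|⁻¹ * ∫⁻ y, G' (T n (c, y)) :=
              lintegral_Rc n hc0 (H := fun y => G' (T n (c, y))) (meas_slice c hG'm)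
          _ ≤ ENNReal.ofReal a⁻¹ * ∫⁻ y, G' (T n (c, y)) := by
              gcongr
              exact hab c hc.1 (hc.2.trans (by norm_num))
      _ ≤ ∫⁻ c, ENNReal.ofReal a⁻¹ * ∫⁻ y, G' (T n (c, y)) := setLIntegral_le_lintegral _ _
      _ = ENNReal.ofReal a⁻¹ * ∫⁻ c, ∫⁻ y, G' (T n (c, y)) :=
        lintegral_const_mul' _ _ ENNReal.ofReal_ne_top
      _ = ENNReal.ofReal a⁻¹ * (k * ∫⁻ z in ball (0 : W n) 1, G z) := by
        rw [hk G' hG'm, hG', lintegral_indicator measurableSet_ball, lint_Tj j hG]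
  calc I = (volume A)⁻¹ * (I * volume A) := by
        rw [mul_comm I, ← mul_assoc, ENNReal.inv_mul_cancel volA_pos volA_top, one_mul]
    _ ≤ (volume A)⁻¹ * (ENNReal.ofReal a⁻¹ * (k * ∫⁻ z in ball (0 : W n) 1, G z)) := by gcongr
    _ = _ := by ring

theorem sl_bwd (n : ℕ) : ∃ C : ℝ≥0∞, C ≠ ⊤ ∧ ∀ G : W n → ℝ≥0∞, Measurable G →
    (∀ (c : ℂ) (z : W n), c ≠ 0 → z ≠ 0 → G (c • z) = G z) →
    ∫⁻ z in ball (0 : W n) 1, G z ≤ C * ∑ j : Fin (n + 1), ∫⁻ y in closedBall (0 : V (n * 2)) 1, G (Tj j (sl n y)) := by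
  obtain ⟨C, hC, h⟩ := sector n
  refine ⟨C, hC, fun G hG h0 => ?_⟩
  calc ∫⁻ z in ball (0 : W n) 1, G z ≤ ∫⁻ z in ⋃ j, Bj n j, G z :=
        lintegral_mono_set fun z hz => cover z hz
    _ ≤ ∑' j, ∫⁻ z in Bj n j, G z := lintegral_iUnion_le _ _
    _ = ∑ j, ∫⁻ z in Bj n j, G z := tsum_fintype _
    _ ≤ ∑ j, C * ∫⁻ y in closedBall (0 : V (n * 2)) 1, G (Tj j (sl n y)) :=
        Finset.sum_le_sum fun j _ => h G hG h0 j
    _ = _ := by rw [Finset.mul_sum]

end Pool.Agent.Lib.P28u
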