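import Pool.Agent.Lib.P28u.LevS
import Pool.Agent.Lib.P28u.SlR

set_option autoImplicit false
set_option maxSynthPendingDepth 3

/-!
# The recursive inequality for the volumes of the superlevel sets

PROOF. `h = 2 + 2 log K`. Given `t` put `k = t + log K`. All sets `{e^s ≤ κ²}` are invariant under `z ↦ c z` and measurable (`κ` is measurable: continuous off `0`, `measurable_of_continuousOn_compl_singleton`). For `‖y‖ ≤ 2`, `z = Tj j (sl n y)` (`lo`, `up`): (i) `e^(t+h) ≤ κ z ^ 2` gives `F_j y ≥ t + h - log K ≥ k + 1`; (ii) `k ≤ F_j y` gives `κ z ^ 2 ≥ e^(F_j) / K ≥ e^t`;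
(iii) `F_j y ≤ k + 1` gives `κ z ^ 2 ≤ K e^(k+1) < e^(t+h)`. By `sl_bwd` for the indicator of `{e^(t+h) ≤ κ²}` and (i): `lv κ (t + h) ≤ C ∑ j, volume {‖y‖ ≤ 1, k + 1 ≤ F_j y}`. By `lev_s` with `G y = ENNReal.ofReal (K * (1 + a (Tj j (sl n y))))` (`der`) each term is at most `C (volume {‖y‖ ≤ 2, k ≤ F_j y} + ∫⁻ y in {‖y‖ ≤ 2, k ≤ F_j y ≤ k + 1}, G y) ^ (1 + qe n)`;
by (ii), (iii) and `sl_fwd` (for the indicator of `{e^t ≤ κ²}` and for `ofReal (K (1 + a))` times the indicator of `A = {e^t ≤ κ² < e^(t+h)}`) this is at most `C (lv κ t + K ∫⁻ z in ball 0 1 ∩ A, (1 + ofReal (a z))) ^ (1 + qe n)`. Hölder (`ENNReal.lintegral_mul_le_Lp_mul_Lq`, exponents `2 n` and `2 n / (2 n - 1)`; `n ≥ 1`):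
`∫⁻ z in ball 0 1 ∩ A, ofReal (a z) ≤ (ge a κ t h) ^ (1 / (2 n)) * (lv κ t) ^ (1 - 1 / (2 n))`. Finally `(x + y) ^ p ≤ 2 ^ (p - 1) (x ^ p + y ^ p)` (`ENNReal.rpow_add_le_mul_rpow_add_rpow`), `p = 1 + qe n = 2 n / (2 n - 1)`: `(lv ^ (1 - 1/(2n))) ^ p = lv`, `(ge ^ (1/(2n))) ^ p = ge ^ (qe n)`. (`lv` is finite.)
-/

open MeasureTheory Set Metric
open scoped ContDiff Topology ENNReal

namespace Pool.Agent.Lib.P28u

open Pool.Agent.P28b04d Pool.Agent.Lib.P28e Pool.Agent.Lib.P28c Pool.Agent.Lib.P28t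
open Pool.Agent.Lib.P28f (V EV)

variable {n : ℕ}

namespace LevGAux

/-- the superlevel set -/
def SL (κ : W n → ℝ) (s : ℝ) : Set (W n) := {z | Real.exp s ≤ κ z ^ 2}

/-- the set between two levels -/
def SA (κ : W n → ℝ) (s h : ℝ) : Set (W n) := {z | Real.exp s ≤ κ z ^ 2 ∧ κ z ^ 2 < Real.exp (s + h)}

theorem meas_of {f : W n → ℝ} (hf : ContinuousOn f {0}ᶜ) : Measurable f :=
  measurable_of_continuousOn_compl_singleton 0 hf

theorem meas_SL {κ : W n → ℝ} (hκ : Measurable κ) (s : ℝ) : MeasurableSet (SL κ s) :=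
  measurableSet_le measurable_const (hκ.pow_const 2)

theorem meas_SA {κ : W n → ℝ} (hκ : Measurable κ) (s h : ℝ) : MeasurableSet (SA κ s h) :=
  (meas_SL hκ s).inter (measurableSet_lt (hκ.pow_const 2) measurable_const)

theorem lv_eq {κ : W n → ℝ} (hκ : Measurable κ) (s : ℝ) :
    lv κ s = ∫⁻ z in ball (0 : W n) 1, (SL κ s).indicator 1 z := by
  rw [lintegral_indicator_one (meas_SL hκ s), Measure.restrict_apply (meas_SL hκ s), inter_comm]
  rfl

theorem SL_smul {κ : W n → ℝ} (hk : ∀ (c : ℂ) (z : W n), c ≠ 0 → z ≠ 0 → κ (c • z) = κ z) (s : ℝ) :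
    ∀ (c : ℂ) (z : W n), c ≠ 0 → z ≠ 0 →
      (SL κ s).indicator (1 : W n → ℝ≥0∞) (c • z) = (SL κ s).indicator 1 z := by
  intro c z hc hz
  by_cases h : z ∈ SL κ s
  · rw [indicator_of_mem h, indicator_of_mem]
    · rfl
    · show Real.exp s ≤ κ (c • z) ^ 2
      rw [hk c z hc hz]
      exact h
  · rw [indicator_of_notMem h, indicator_of_notMem]
    show ¬ Real.exp s ≤ κ (c • z) ^ 2
    rw [hk c z hc hz]
    exact h

theorem SA_smul {κ : W n → ℝ} (hk : ∀ (c : ℂ) (z : W n), c ≠ 0 → z ≠ 0 → κ (c • z) = κ z) (s h : ℝ)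
    {g : W n → ℝ≥0∞} (hg : ∀ (c : ℂ) (z : W n), c ≠ 0 → z ≠ 0 → g (c • z) = g z) :
    ∀ (c : ℂ) (z : W n), c ≠ 0 → z ≠ 0 →
      (SA κ s h).indicator g (c • z) = (SA κ s h).indicator g z := by
  intro c z hc hz
  by_cases hm : z ∈ SA κ s h
  · rw [indicator_of_mem hm, indicator_of_mem, hg c z hc hz]
    show Real.exp s ≤ κ (c • z) ^ 2 ∧ κ (c • z) ^ 2 < Real.exp (s + h)
    rw [hk c z hc hz]
    exact hm
  · rw [indicator_of_notMem hm, indicator_of_notMem]
    show ¬ (Real.exp s ≤ κ (c • z) ^ 2 ∧ κ (c • z) ^ 2 < Real.exp (s + h))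
    rw [hk c z hc hz]
    exact hm

/-- Hölder -/
theorem hoelder (hn : 1 ≤ n) {a κ : W n → ℝ} (ha : Measurable a) (t h : ℝ) :
    ∫⁻ z in ball (0 : W n) 1 ∩ SA κ t h, ENNReal.ofReal (a z) ≤
      ge a κ t h ^ (1 / (2 * n : ℝ)) * lv κ t ^ (1 - 1 / (2 * n : ℝ)) := by
  have hn' : (1 : ℝ) ≤ n := by exact_mod_cast hn
  have hpq : (2 * n : ℝ).HolderConjugate (2 * n / (2 * n - 1)) := by
    refine (Real.holderConjugate_iff).2 ⟨by linarith, ?_⟩
    have h1 : (2 * n : ℝ) ≠ 0 := by positivity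
    have h2 : (2 * n - 1 : ℝ) ≠ 0 := by
      have : (0 : ℝ) < 2 * n - 1 := by linarith
      exact this.ne'
    field_simp
    ring
  have key := ENNReal.lintegral_mul_le_Lp_mul_Lq (volume.restrict (ball (0 : W n) 1 ∩ SA κ t h)) hpq
    (f := fun z => ENNReal.ofReal (a z)) (g := fun _ => 1)
    (ha.ennreal_ofReal.aemeasurable) aemeasurable_const
  have e1 : (fun z => ENNReal.ofReal (a z)) * (fun _ => (1 : ℝ≥0∞)) = fun z : W n => ENNReal.ofReal (a z) := by
    funext z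
    simp
  rw [e1] at key
  refine key.trans ?_
  refine mul_le_mul' ?_ ?_
  · refine ENNReal.rpow_le_rpow (le_of_eq ?_) (by positivity)
    unfold ge
    refine lintegral_congr fun z => ?_
    rw [show (2 * n : ℝ) = ((2 * n : ℕ) : ℝ) by push_cast; ring, ENNReal.rpow_natCast]
  · have h3 : (1 / (2 * n / (2 * n - 1)) : ℝ) = 1 - 1 / (2 * n) := by
      have h1 : (2 * n : ℝ) ≠ 0 := by positivity
      have h2 : (2 * n - 1 : ℝ) ≠ 0 := by
        have : (0 : ℝ) < 2 * n - 1 := by linarith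
        exact this.ne'
      field_simp
    rw [h3]
    refine ENNReal.rpow_le_rpow ?_ ?_
    · simp only [ENNReal.one_rpow, lintegral_const, one_mul, Measure.restrict_apply MeasurableSet.univ,
        univ_inter]
      refine measure_mono fun z hz => ⟨hz.1, hz.2.1⟩
    · have : (1 : ℝ) / (2 * n) ≤ 1 := by
        rw [div_le_one (by positivity)]
        linarith
      linarith

/-- the energy term -/
theorem energy (hn : 1 ≤ n) {K : ℝ} (hK : 1 ≤ K) {a κ : W n → ℝ} (ha : Measurable a) (hκ : Measurable κ)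
    (na : ∀ z, 0 ≤ a z) (t h : ℝ) :
    ∫⁻ z in ball (0 : W n) 1, (SA κ t h).indicator (fun z => ENNReal.ofReal (K * (1 + a z))) z ≤
      ENNReal.ofReal K * (lv κ t + ge a κ t h ^ (1 / (2 * n : ℝ)) * lv κ t ^ (1 - 1 / (2 * n : ℝ))) := by
  have h1 : ∫⁻ z in ball (0 : W n) 1, (SA κ t h).indicator (fun z => ENNReal.ofReal (K * (1 + a z))) z =
      ∫⁻ z in ball (0 : W n) 1 ∩ SA κ t h, ENNReal.ofReal (K * (1 + a z)) := by
    rw [lintegral_indicator (meas_SA hκ t h), Measure.restrict_restrict (meas_SA hκ t h), inter_comm]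
  rw [h1]
  have h2 : ∀ z : W n, ENNReal.ofReal (K * (1 + a z)) = ENNReal.ofReal K * (1 + ENNReal.ofReal (a z)) := by
    intro z
    rw [ENNReal.ofReal_mul (by linarith), ENNReal.ofReal_add zero_le_one (na z), ENNReal.ofReal_one]
  simp only [h2]
  rw [lintegral_const_mul _ (ha.ennreal_ofReal.const_add 1), lintegral_add_left measurable_const]
  refine mul_le_mul' le_rfl (add_le_add ?_ (hoelder hn ha t h))
  simp only [lintegral_const, one_mul, Measure.restrict_apply MeasurableSet.univ, univ_inter]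
  exact measure_mono fun z hz => ⟨hz.1, hz.2.1⟩

theorem final (hn : 1 ≤ n) (C : ℝ≥0∞) (L g : ℝ≥0∞) :
    (C * (L + g ^ (1 / (2 * n : ℝ)) * L ^ (1 - 1 / (2 * n : ℝ)))) ^ (1 + qe n) ≤
      C ^ (1 + qe n) * (2 ^ qe n * (L ^ (1 + qe n) + L * g ^ qe n)) := by
  have hn' : (1 : ℝ) ≤ n := by exact_mod_cast hn
  have h0 : (0 : ℝ) < 2 * n - 1 := by linarith
  have hq : 0 < qe n := by
    unfold qe
    positivity
  rw [ENNReal.mul_rpow_of_nonneg _ _ (by linarith)]
  refine mul_le_mul' le_rfl ?_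
  refine (ENNReal.rpow_add_le_mul_rpow_add_rpow _ _ (by linarith)).trans ?_
  rw [add_sub_cancel_left, ENNReal.mul_rpow_of_nonneg _ _ (by linarith), ← ENNReal.rpow_mul, ← ENNReal.rpow_mul]
  have e1 : 1 / (2 * n : ℝ) * (1 + qe n) = qe n := by
    unfold qe
    have h1 : (2 * n : ℝ) ≠ 0 := by positivity
    field_simp
    ring
  have e2 : (1 - 1 / (2 * n : ℝ)) * (1 + qe n) = 1 := by
    unfold qe
    have h1 : (2 * n : ℝ) ≠ 0 := by positivity
    field_simp
    ring
  rw [e1, e2, ENNReal.rpow_one, mul_comm L]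

end LevGAux

open LevGAux

theorem lev_g (n : ℕ) (hn : 1 ≤ n) (K : ℝ) (hK : 1 ≤ K) : ∃ C : ℝ≥0∞, C ≠ ⊤ ∧
    ∀ (a κ : W n → ℝ) (F : Fin (n + 1) → V (n * 2) → ℝ), Mos K a κ F → ∀ t : ℝ,
    lv κ (t + (2 + 2 * Real.log K)) ≤
      C * (lv κ t ^ (1 + qe n) + lv κ t * ge a κ t (2 + 2 * Real.log K) ^ qe n) := by
  obtain ⟨C1, hC1, hs⟩ := lev_s n hn
  obtain ⟨C2, hC2, hf⟩ := sl_fwd n
  obtain ⟨C3, hC3, hb⟩ := sl_bwd n
  have hn' : (1 : ℝ) ≤ n := by exact_mod_cast hn
  have h0 : (0 : ℝ) < 2 * n - 1 := by linarith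
  have hq : 0 < qe n := by
    unfold qe
    positivity
  have hK0 : 0 < K := by linarith
  have hL : 0 ≤ Real.log K := Real.log_nonneg hK
  have hexp : Real.exp (Real.log K) = K := Real.exp_log hK0
  refine ⟨C3 * ((n + 1 : ℕ) * (C1 * ((C2 * (1 + ENNReal.ofReal K)) ^ (1 + qe n) * 2 ^ qe n))), ?_, ?_⟩
  · refine ENNReal.mul_ne_top hC3 (ENNReal.mul_ne_top (ENNReal.natCast_ne_top _) (ENNReal.mul_ne_top hC1
      (ENNReal.mul_ne_top (ENNReal.rpow_ne_top_of_nonneg (by linarith) (ENNReal.mul_ne_top hC2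
        (ENNReal.add_ne_top.2 ⟨ENNReal.one_ne_top, ENNReal.ofReal_ne_top⟩)))
        (ENNReal.rpow_ne_top_of_nonneg hq.le (by norm_num)))))
  intro a κ F hM t
  set h : ℝ := 2 + 2 * Real.log K with hh
  set k : ℝ := t + Real.log K with hk
  have ma : Measurable a := meas_of hM.ca
  have mk : Measurable κ := meas_of hM.ck
  have mT : ∀ j, Measurable fun y : V (n * 2) => Tj j (sl n y) := fun j =>
    ((Tj j).continuous.comp continuous_sl).measurable
  -- (i)
  have p1 : ∀ j y, ‖y‖ ≤ 2 → Tj j (sl n y) ∈ SL κ (t + h) → k + 1 ≤ F j y := by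
    intro j y hy hz
    have h1 : Real.exp (t + h) ≤ K * Real.exp (F j y) := le_trans hz (hM.lo j y hy)
    rw [← hexp, ← Real.exp_add, Real.exp_le_exp] at h1
    linarith
  -- (ii)
  have p2 : ∀ j y, ‖y‖ ≤ 2 → k ≤ F j y → Tj j (sl n y) ∈ SL κ t := by
    intro j y hy hz
    have h1 := hM.up j y hy
    have h2 : Real.exp k ≤ Real.exp (F j y) := Real.exp_le_exp.2 hz
    rw [hk, Real.exp_add, hexp] at h2
    show Real.exp t ≤ κ (Tj j (sl n y)) ^ 2
    have h3 : K * Real.exp t ≤ K * κ (Tj j (sl n y)) ^ 2 := by linarith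
    exact le_of_mul_le_mul_left h3 hK0
  -- (iii)
  have p3 : ∀ j y, ‖y‖ ≤ 2 → k ≤ F j y → F j y ≤ k + 1 → Tj j (sl n y) ∈ SA κ t h := by
    intro j y hy hz hz'
    refine ⟨p2 j y hy hz, ?_⟩
    have h1 := hM.lo j y hy
    refine lt_of_le_of_lt h1 ?_
    calc K * Real.exp (F j y) ≤ K * Real.exp (k + 1) :=
          mul_le_mul_of_nonneg_left (Real.exp_le_exp.2 hz') hK0.le
      _ = Real.exp (Real.log K + (k + 1)) := by rw [Real.exp_add (Real.log K), hexp]
      _ < Real.exp (t + h) := Real.exp_lt_exp.2 (by linarith)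
  have step : ∀ j, ∫⁻ y in closedBall (0 : V (n * 2)) 1, (SL κ (t + h)).indicator 1 (Tj j (sl n y)) ≤
      C1 * ((C2 * (1 + ENNReal.ofReal K)) ^ (1 + qe n) * (2 ^ qe n *
        (lv κ t ^ (1 + qe n) + lv κ t * ge a κ t h ^ qe n))) := by
    intro j
    have mF : Measurable (F j) := (hM.sm j).continuous.measurable
    have hG : Measurable fun y : V (n * 2) => ENNReal.ofReal (K * (1 + a (Tj j (sl n y)))) :=
      (((ma.comp (mT j)).const_add 1).const_mul K).ennreal_ofReal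
    have s1 : ∫⁻ y in closedBall (0 : V (n * 2)) 1, (SL κ (t + h)).indicator 1 (Tj j (sl n y)) ≤
        volume {y | ‖y‖ ≤ 1 ∧ k + 1 ≤ F j y} := by
      have mS : MeasurableSet {y : V (n * 2) | ‖y‖ ≤ 1 ∧ k + 1 ≤ F j y} :=
        (measurableSet_le measurable_norm measurable_const).inter (measurableSet_le measurable_const mF)
      rw [← lintegral_indicator_one mS, ← lintegral_indicator measurableSet_closedBall]
      refine lintegral_mono fun y => ?_
      by_cases hy : y ∈ closedBall (0 : V (n * 2)) 1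
      · rw [indicator_of_mem hy]
        by_cases hz : Tj j (sl n y) ∈ SL κ (t + h)
        · rw [indicator_of_mem hz, indicator_of_mem]
          · rfl
          · have hy' : ‖y‖ ≤ 1 := by simpa using hy
            exact ⟨hy', p1 j y (by linarith) hz⟩
        · rw [indicator_of_notMem hz]
          exact zero_le
      · rw [indicator_of_notMem hy]
        exact zero_le
    have s2 := hs (F j) _ (hM.sm j) hG (fun y hy => by
      rw [← ofReal_norm]
      exact ENNReal.ofReal_le_ofReal (hM.der j y hy)) k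
    have s3 : volume {y | ‖y‖ ≤ 2 ∧ k ≤ F j y} ≤ C2 * lv κ t := by
      refine le_trans ?_ (le_trans (hf _ (measurable_one.indicator (meas_SL mk t)) (SL_smul hM.hk t) j) ?_)
      · have mS : MeasurableSet {y : V (n * 2) | ‖y‖ ≤ 2 ∧ k ≤ F j y} :=
          (measurableSet_le measurable_norm measurable_const).inter (measurableSet_le measurable_const mF)
        rw [← lintegral_indicator_one mS, ← lintegral_indicator measurableSet_closedBall]
        refine lintegral_mono fun y => ?_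
        by_cases hy : y ∈ {y : V (n * 2) | ‖y‖ ≤ 2 ∧ k ≤ F j y}
        · rw [indicator_of_mem hy, indicator_of_mem (by simpa using hy.1),
            indicator_of_mem (p2 j y hy.1 hy.2)]
          exact le_rfl
        · rw [indicator_of_notMem hy]
          exact zero_le
      · rw [lv_eq mk]
    have s4 : ∫⁻ y in {y | ‖y‖ ≤ 2 ∧ k ≤ F j y ∧ F j y ≤ k + 1}, ENNReal.ofReal (K * (1 + a (Tj j (sl n y)))) ≤
        C2 * (ENNReal.ofReal K * (lv κ t + ge a κ t h ^ (1 / (2 * n : ℝ)) * lv κ t ^ (1 - 1 / (2 * n : ℝ)))) := by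
      have mg : Measurable fun z : W n => ENNReal.ofReal (K * (1 + a z)) :=
        ((ma.const_add 1).const_mul K).ennreal_ofReal
      refine le_trans ?_ (le_trans (hf _ (mg.indicator (meas_SA mk t h)) (SA_smul hM.hk t h
        (fun c z hc hz => by rw [hM.ha c z hc hz])) j) ?_)
      · have mS : MeasurableSet {y : V (n * 2) | ‖y‖ ≤ 2 ∧ k ≤ F j y ∧ F j y ≤ k + 1} :=
          (measurableSet_le measurable_norm measurable_const).inter
            ((measurableSet_le measurable_const mF).inter (measurableSet_le mF measurable_const))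
        rw [← lintegral_indicator mS, ← lintegral_indicator measurableSet_closedBall]
        refine lintegral_mono fun y => ?_
        by_cases hy : y ∈ {y : V (n * 2) | ‖y‖ ≤ 2 ∧ k ≤ F j y ∧ F j y ≤ k + 1}
        · rw [indicator_of_mem hy, indicator_of_mem (by simpa using hy.1),
            indicator_of_mem (p3 j y hy.1 hy.2.1 hy.2.2)]
        · rw [indicator_of_notMem hy]
          exact zero_le
      · exact mul_le_mul' le_rfl (energy hn hK ma mk hM.na t h)
    refine s1.trans (s2.trans (mul_le_mul' le_rfl ?_))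
    refine le_trans (ENNReal.rpow_le_rpow (z := 1 + qe n) ?_ (by linarith)) (final hn _ _ _)
    refine (add_le_add s3 s4).trans ?_
    calc C2 * lv κ t + C2 * (ENNReal.ofReal K *
            (lv κ t + ge a κ t h ^ (1 / (2 * n : ℝ)) * lv κ t ^ (1 - 1 / (2 * n : ℝ))))
        ≤ C2 * (lv κ t + ge a κ t h ^ (1 / (2 * n : ℝ)) * lv κ t ^ (1 - 1 / (2 * n : ℝ))) +
          C2 * (ENNReal.ofReal K *
            (lv κ t + ge a κ t h ^ (1 / (2 * n : ℝ)) * lv κ t ^ (1 - 1 / (2 * n : ℝ)))) :=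
          add_le_add (mul_le_mul' le_rfl le_self_add) le_rfl
      _ = C2 * (1 + ENNReal.ofReal K) *
            (lv κ t + ge a κ t h ^ (1 / (2 * n : ℝ)) * lv κ t ^ (1 - 1 / (2 * n : ℝ))) := by ring
  calc lv κ (t + h) = ∫⁻ z in ball (0 : W n) 1, (SL κ (t + h)).indicator 1 z := lv_eq mk _
    _ ≤ C3 * ∑ j : Fin (n + 1), ∫⁻ y in closedBall (0 : V (n * 2)) 1,
          (SL κ (t + h)).indicator 1 (Tj j (sl n y)) :=
        hb _ (measurable_one.indicator (meas_SL mk (t + h))) (SL_smul hM.hk (t + h))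
    _ ≤ C3 * ∑ _j : Fin (n + 1), C1 * ((C2 * (1 + ENNReal.ofReal K)) ^ (1 + qe n) * (2 ^ qe n *
          (lv κ t ^ (1 + qe n) + lv κ t * ge a κ t h ^ qe n))) :=
        mul_le_mul' le_rfl (Finset.sum_le_sum fun j _ => step j)
    _ = C3 * ((n + 1 : ℕ) * (C1 * ((C2 * (1 + ENNReal.ofReal K)) ^ (1 + qe n) * 2 ^ qe n))) *
          (lv κ t ^ (1 + qe n) + lv κ t * ge a κ t h ^ qe n) := by
        rw [Finset.sum_const, Finset.card_univ, Fintype.card_fin, nsmul_eq_mul]
        ring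

end Pool.Agent.Lib.P28u
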