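import Pool.Agent.Lib.P28u.Defs2

set_option autoImplicit false
set_option maxSynthPendingDepth 3

/-!
# The numerical iteration

PROOF. Choose `δ > 0` (real) with `C * (2 * ofReal δ ^ q) ≤ ofReal (exp (-P))` (possible since `C ≠ ⊤`, `q > 0`); `ε = δ`, `D = δ exp (P E' / δ)`, `E' = max E 0`. Put `s_j = ∑_{i < j} g i` (finite, `≤ E'` as a real number; all `g i` are finite). CLAIM: `lam j ≤ ofReal (δ * exp (-P * j + (P / δ) * s_j))`. Induction: `j = 0` is the hypothesis. Step: if `g j ≤ ofReal δ` then, as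
`lam j ≤ lam 0 ≤ ofReal δ` (antitone), `lam j ^ (1 + q) = lam j * lam j ^ q ≤ lam j * ofReal δ ^ q` (`ENNReal.rpow_add_of_nonneg` or the case `lam j = 0`), `lam (j + 1) ≤ C * 2 * ofReal δ ^ q * lam j ≤ ofReal (exp (-P)) * lam j`, and `s_(j+1) ≥ s_j`. If `g j > ofReal δ` then `lam (j + 1) ≤ lam j` and `(P / δ) (s_(j+1) - s_j) ≥ P`. Since `s_j ≤ E'` the claim gives the assertion.
-/

open MeasureTheory Set Metric
open scoped ContDiff Topology ENNReal

namespace Pool.Agent.Lib.P28u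

open Pool.Agent.P28b04d Pool.Agent.Lib.P28e Pool.Agent.Lib.P28c Pool.Agent.Lib.P28t
open Pool.Agent.Lib.P28f (V EV)

variable {n : ℕ}

namespace LevIAux

open Finset in
/-- the iteration for real numbers -/
theorem real_iter {q c δ P : ℝ} (hq : 0 < q) (hc : 0 ≤ c) (hδ : 0 < δ) (hP : 0 ≤ P)
    (hcδ : c * (2 * δ ^ q) ≤ Real.exp (-P)) {L G : ℕ → ℝ} (hL0 : ∀ j, 0 ≤ L j)
    (hG0 : ∀ j, 0 ≤ G j) (hanti : ∀ j, L (j + 1) ≤ L j) (h0 : L 0 ≤ δ)
    (hrec : ∀ j, L (j + 1) ≤ c * (L j ^ (1 + q) + L j * G j ^ q)) (j : ℕ) :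
    L j ≤ δ * Real.exp (-(P * j) + P / δ * ∑ i ∈ range j, G i) := by
  have hLδ : ∀ j, L j ≤ δ := by
    intro j
    induction j with
    | zero => exact h0
    | succ j ih => exact (hanti j).trans ih
  induction j with
  | zero => simpa using h0
  | succ j ih =>
    rw [sum_range_succ]
    have hPδ : 0 ≤ P / δ := div_nonneg hP hδ.le
    rcases le_or_gt (G j) δ with hG | hG
    · have h1 : L j ^ (1 + q) ≤ L j * δ ^ q := by
        rw [Real.rpow_add' (hL0 j) (by linarith), Real.rpow_one]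
        exact mul_le_mul_of_nonneg_left (Real.rpow_le_rpow (hL0 j) (hLδ j) hq.le) (hL0 j)
      have h2 : L j * G j ^ q ≤ L j * δ ^ q :=
        mul_le_mul_of_nonneg_left (Real.rpow_le_rpow (hG0 j) hG hq.le) (hL0 j)
      have h3 : L (j + 1) ≤ Real.exp (-P) * L j := by
        calc L (j + 1) ≤ c * (L j ^ (1 + q) + L j * G j ^ q) := hrec j
          _ ≤ c * (L j * δ ^ q + L j * δ ^ q) :=
              mul_le_mul_of_nonneg_left (add_le_add h1 h2) hc
          _ = c * (2 * δ ^ q) * L j := by ring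
          _ ≤ Real.exp (-P) * L j := mul_le_mul_of_nonneg_right hcδ (hL0 j)
      calc L (j + 1) ≤ Real.exp (-P) * L j := h3
        _ ≤ Real.exp (-P) * (δ * Real.exp (-(P * j) + P / δ * ∑ i ∈ range j, G i)) :=
            mul_le_mul_of_nonneg_left ih (Real.exp_pos _).le
        _ = δ * Real.exp (-P + (-(P * j) + P / δ * ∑ i ∈ range j, G i)) := by
            rw [Real.exp_add (-P)]
            ring
        _ ≤ _ := by
            refine mul_le_mul_of_nonneg_left (Real.exp_le_exp.2 ?_) hδ.le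
            have h4 : 0 ≤ P / δ * G j := mul_nonneg hPδ (hG0 j)
            push_cast
            rw [mul_add]
            linarith
    · refine (hanti j).trans (ih.trans ?_)
      refine mul_le_mul_of_nonneg_left (Real.exp_le_exp.2 ?_) hδ.le
      have h4 : P ≤ P / δ * G j := by
        calc P = P / δ * δ := by rw [div_mul_cancel₀ P hδ.ne']
          _ ≤ P / δ * G j := mul_le_mul_of_nonneg_left hG.le hPδ
      push_cast
      rw [mul_add]
      linarith

end LevIAux

open LevIAux in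
theorem lev_i (q : ℝ) (hq : 0 < q) (C : ℝ≥0∞) (hC : C ≠ ⊤) (E P : ℝ) (hP : 0 ≤ P) :
    ∃ ε D : ℝ, 0 < ε ∧ ∀ lam g : ℕ → ℝ≥0∞, Antitone lam → ∑' j, g j ≤ ENNReal.ofReal E →
    (∀ j, lam (j + 1) ≤ C * (lam j ^ (1 + q) + lam j * g j ^ q)) → lam 0 ≤ ENNReal.ofReal ε →
    ∀ j : ℕ, lam j ≤ ENNReal.ofReal (D * Real.exp (-(P * j))) := by
  set c : ℝ := C.toReal with hc
  have hc0 : 0 ≤ c := ENNReal.toReal_nonneg
  set b : ℝ := Real.exp (-P) / (2 * (c + 1)) with hb
  have hb0 : 0 < b := by positivity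
  set δ : ℝ := b ^ (1 / q) with hδ
  have hδ0 : 0 < δ := Real.rpow_pos_of_pos hb0 _
  have hδq : δ ^ q = b := by
    rw [hδ, ← Real.rpow_mul hb0.le, one_div_mul_cancel hq.ne', Real.rpow_one]
  have hcδ : c * (2 * δ ^ q) ≤ Real.exp (-P) := by
    rw [hδq, hb]
    have h1 : c * (2 * (Real.exp (-P) / (2 * (c + 1)))) = Real.exp (-P) * (c / (c + 1)) := by
      field_simp
    rw [h1]
    have h2 : c / (c + 1) ≤ 1 := by
      rw [div_le_one (by linarith)]
      linarith
    calc Real.exp (-P) * (c / (c + 1)) ≤ Real.exp (-P) * 1 :=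
          mul_le_mul_of_nonneg_left h2 (Real.exp_pos _).le
      _ = _ := mul_one _
  refine ⟨δ, δ * Real.exp (P / δ * max E 0), hδ0, fun lam g hanti hg hrec h0 j => ?_⟩
  have hlam : ∀ j, lam j ≠ ⊤ := fun j =>
    ne_top_of_le_ne_top ENNReal.ofReal_ne_top ((hanti (Nat.zero_le j)).trans h0)
  have hgt : ∀ j, g j ≠ ⊤ := fun j =>
    ne_top_of_le_ne_top ENNReal.ofReal_ne_top ((ENNReal.le_tsum j).trans hg)
  have hsum : ∀ j : ℕ, ∑ i ∈ Finset.range j, (g i).toReal ≤ max E 0 := by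
    intro j
    rw [← ENNReal.toReal_sum fun i _ => hgt i]
    have h1 : ∑ i ∈ Finset.range j, g i ≤ ENNReal.ofReal E := (ENNReal.sum_le_tsum _).trans hg
    have h2 := ENNReal.toReal_mono ENNReal.ofReal_ne_top h1
    refine h2.trans ?_
    rw [ENNReal.toReal_ofReal']
  have hmain := real_iter (L := fun j => (lam j).toReal) (G := fun j => (g j).toReal) hq hc0 hδ0 hP
    hcδ (fun j => ENNReal.toReal_nonneg) (fun j => ENNReal.toReal_nonneg)
    (fun j => ENNReal.toReal_mono (hlam j) (hanti (Nat.le_succ j)))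
    (by
      have h1 := ENNReal.toReal_mono ENNReal.ofReal_ne_top h0
      rwa [ENNReal.toReal_ofReal hδ0.le] at h1)
    (fun j => by
      have e1 : lam j ^ (1 + q) ≠ ⊤ := ENNReal.rpow_ne_top_of_nonneg (by linarith) (hlam j)
      have e2 : g j ^ q ≠ ⊤ := ENNReal.rpow_ne_top_of_nonneg hq.le (hgt j)
      have e3 : lam j * g j ^ q ≠ ⊤ := ENNReal.mul_ne_top (hlam j) e2
      have e4 : C * (lam j ^ (1 + q) + lam j * g j ^ q) ≠ ⊤ :=
        ENNReal.mul_ne_top hC (ENNReal.add_ne_top.2 ⟨e1, e3⟩)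
      have h1 := ENNReal.toReal_mono e4 (hrec j)
      rw [ENNReal.toReal_mul, ENNReal.toReal_add e1 e3, ENNReal.toReal_mul,
        ← ENNReal.toReal_rpow, ← ENNReal.toReal_rpow] at h1
      exact h1) j
  rw [← ENNReal.ofReal_toReal (hlam j)]
  refine ENNReal.ofReal_le_ofReal (hmain.trans ?_)
  rw [Real.exp_add, mul_assoc, mul_comm (Real.exp (P / δ * max E 0))]
  refine mul_le_mul_of_nonneg_left (mul_le_mul_of_nonneg_left (Real.exp_le_exp.2 ?_)
    (Real.exp_pos _).le) hδ0.le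
  exact mul_le_mul_of_nonneg_left (hsum j) (div_nonneg hP hδ0.le)

end Pool.Agent.Lib.P28u
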