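import Pool.Agent.Lib.P28u.Defs2

set_option autoImplicit false
set_option maxSynthPendingDepth 3

/-!
# Superlevel sets and the Gagliardo-Nirenberg-Sobolev inequality in a chart

PROOF. `m = 2 n ≥ 2`, `p = 1 + qe n = m / (m - 1)`. `θ = Real.smoothTransition`: `0` on `(-∞, 0]`, `1` on `[1, ∞)`, `|θ'| ≤ M₀` (continuous, zero off `[0, 1]`), `0 ≤ θ ≤ 1`. `χ` a `ContDiffBump (0 : V (n * 2))` with radii `1 < 2`: `χ = 1` on `closedBall 0 1`, zero off `ball 0 2`, `0 ≤ χ ≤ 1`, `‖fderiv χ‖ ≤ M₁` (compact support), `fderiv χ = 0` off `closedBall 0 2`.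
`u y = χ y * θ (F y - k)` is `C^1` with compact support. `fderiv u y = θ (F y - k) • fderiv χ y + (χ y * θ' (F y - k)) • fderiv F y`, so `‖fderiv u y‖ₑ ≤ M₁ 1_{‖y‖ ≤ 2, k ≤ F y} + M₀ G y 1_{‖y‖ ≤ 2, k ≤ F y ≤ k + 1}` (`θ (t) = 0` for `t ≤ 0`; `θ' (t) = 0` for `t ∉ [0, 1]`).
`MeasureTheory.lintegral_pow_le_pow_lintegral_fderiv` with the exponent `p` (`Real.HolderConjugate (finrank ℝ (V (n * 2))) p`, `finrank = n * 2`): `∫⁻ ‖u‖ₑ ^ p ≤ C (∫⁻ ‖fderiv u‖ₑ) ^ p`. The left side is at least the volume of `{‖y‖ ≤ 1, k + 1 ≤ F y}`, where `u = 1`. (`p = 2 n / (2 n - 1) = 1 + 1 / (2 n - 1)`.)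
-/

open MeasureTheory Set Metric
open scoped ContDiff Topology ENNReal

namespace Pool.Agent.Lib.P28u

open Pool.Agent.P28b04d Pool.Agent.Lib.P28e Pool.Agent.Lib.P28c Pool.Agent.Lib.P28t
open Pool.Agent.Lib.P28f (V EV)

variable {n : ℕ}

namespace LevSAux

theorem theta_bound : ∃ M : ℝ, 0 ≤ M ∧ ∀ t, |deriv Real.smoothTransition t| ≤ M := by
  have hc : Continuous (deriv Real.smoothTransition) :=
    (Real.smoothTransition.contDiff (n := 1)).continuous_deriv le_rfl
  obtain ⟨M, hM⟩ := (isCompact_Icc (a := (0 : ℝ)) (b := 1)).exists_bound_of_continuousOn hc.continuousOn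
  refine ⟨max M 0, le_max_right _ _, fun t => ?_⟩
  by_cases h0 : t ≤ 0
  · have : deriv Real.smoothTransition t = 0 := by
      apply IsLocalMin.deriv_eq_zero
      refine Filter.Eventually.of_forall fun s => ?_
      rw [Real.smoothTransition.zero_of_nonpos h0]; exact Real.smoothTransition.nonneg s
    rw [this, abs_zero]; exact le_max_right _ _
  · by_cases h1 : 1 ≤ t
    · have : deriv Real.smoothTransition t = 0 := by
        apply IsLocalMax.deriv_eq_zero
        refine Filter.Eventually.of_forall fun s => ?_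
        rw [Real.smoothTransition.one_of_one_le h1]; exact Real.smoothTransition.le_one s
      rw [this, abs_zero]; exact le_max_right _ _
    · push Not at h0 h1
      exact (hM t ⟨h0.le, h1.le⟩).trans (le_max_left _ _)

theorem theta_deriv_zero (t : ℝ) (h : ¬ (0 ≤ t ∧ t ≤ 1)) : deriv Real.smoothTransition t = 0 := by
  by_cases h0 : t ≤ 0
  · apply IsLocalMin.deriv_eq_zero
    refine Filter.Eventually.of_forall fun s => ?_
    rw [Real.smoothTransition.zero_of_nonpos h0]; exact Real.smoothTransition.nonneg s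
  · have h1 : 1 ≤ t := by
      by_contra h1
      push Not at h0 h1
      exact h ⟨h0.le, h1.le⟩
    apply IsLocalMax.deriv_eq_zero
    refine Filter.Eventually.of_forall fun s => ?_
    rw [Real.smoothTransition.one_of_one_le h1]; exact Real.smoothTransition.le_one s

theorem conj (n : ℕ) (hn : 1 ≤ n) :
    Real.HolderConjugate (Module.finrank ℝ (V (n * 2))) (1 + qe n) := by
  have h1 : (1 : ℝ) ≤ n := by exact_mod_cast hn
  rw [Real.holderConjugate_iff]
  have : (Module.finrank ℝ (V (n * 2)) : ℝ) = 2 * n := by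
    simp [mul_comm]
  rw [this]
  refine ⟨by linarith, ?_⟩
  have h2 : (2 * n - 1 : ℝ) ≠ 0 := by linarith
  have h3 : (2 * n : ℝ) ≠ 0 := by linarith
  have : (1 + qe n) = 2 * n / (2 * n - 1) := by
    unfold qe; field_simp; ring
  rw [this]; field_simp; ring

/-- The cutoff. -/
noncomputable def bmp (n : ℕ) : ContDiffBump (0 : V (n * 2)) := ⟨1, 2, one_pos, one_lt_two⟩

theorem bmp_bound (n : ℕ) : ∃ M : ℝ, 0 ≤ M ∧ ∀ y, ‖fderiv ℝ (bmp n : V (n * 2) → ℝ) y‖ ≤ M := by
  have hc : Continuous (fderiv ℝ (bmp n : V (n * 2) → ℝ)) :=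
    ((bmp n).contDiff (n := 1)).continuous_fderiv one_ne_zero
  obtain ⟨M, hM⟩ := hc.bounded_above_of_compact_support ((bmp n).hasCompactSupport.fderiv ℝ)
  exact ⟨M, (norm_nonneg _).trans (hM 0), hM⟩

theorem bmp_fderiv_zero (n : ℕ) (y : V (n * 2)) (h : ¬ ‖y‖ ≤ 2) :
    fderiv ℝ (bmp n : V (n * 2) → ℝ) y = 0 := by
  apply IsLocalMin.fderiv_eq_zero
  refine Filter.Eventually.of_forall fun s => ?_
  have : (bmp n) y = 0 := (bmp n).zero_of_le_dist (by
    rw [dist_zero_right]; exact (not_le.1 h).le)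
  simp only [this]
  exact (bmp n).nonneg

end LevSAux

open LevSAux in
theorem lev_s (n : ℕ) (hn : 1 ≤ n) : ∃ C : ℝ≥0∞, C ≠ ⊤ ∧ ∀ (F : V (n * 2) → ℝ) (G : V (n * 2) → ℝ≥0∞),
    ContDiff ℝ 1 F → Measurable G → (∀ y, ‖y‖ ≤ 2 → ‖fderiv ℝ F y‖ₑ ≤ G y) → ∀ k : ℝ,
    volume {y | ‖y‖ ≤ 1 ∧ k + 1 ≤ F y} ≤
      C * (volume {y | ‖y‖ ≤ 2 ∧ k ≤ F y} + ∫⁻ y in {y | ‖y‖ ≤ 2 ∧ k ≤ F y ∧ F y ≤ k + 1}, G y) ^ (1 + qe n) := by
  obtain ⟨M₀, hM₀0, hM₀⟩ := theta_bound
  obtain ⟨M₁, hM₁0, hM₁⟩ := bmp_bound n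
  have hp := conj n hn
  have hp0 : 0 ≤ 1 + qe n := hp.symm.nonneg
  refine ⟨(lintegralPowLePowLIntegralFDerivConst (volume : Measure (V (n * 2))) (1 + qe n) : ℝ≥0∞) *
    (ENNReal.ofReal (M₀ + M₁)) ^ (1 + qe n), ?_, ?_⟩
  · exact ENNReal.mul_ne_top ENNReal.coe_ne_top (ENNReal.rpow_ne_top_of_nonneg hp0 ENNReal.ofReal_ne_top)
  intro F G hF hG hFG k
  set χ : V (n * 2) → ℝ := (bmp n : V (n * 2) → ℝ) with hχ
  set u : V (n * 2) → ℝ := fun y => χ y * Real.smoothTransition (F y - k) with hu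
  have hχc : ContDiff ℝ 1 χ := (bmp n).contDiff
  have huc : ContDiff ℝ 1 u :=
    hχc.mul ((Real.smoothTransition.contDiff (n := 1)).comp (hF.sub contDiff_const))
  have hus : HasCompactSupport u := (bmp n).hasCompactSupport.mul_right
  have main := lintegral_pow_le_pow_lintegral_fderiv (volume : Measure (V (n * 2))) huc hus hp
  -- measurable sets
  have hFm : Measurable F := hF.continuous.measurable
  have hA : MeasurableSet {y : V (n * 2) | ‖y‖ ≤ 2 ∧ k ≤ F y} :=
    (measurableSet_le measurable_norm measurable_const).inter (measurableSet_le measurable_const hFm)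
  have hB : MeasurableSet {y : V (n * 2) | ‖y‖ ≤ 2 ∧ k ≤ F y ∧ F y ≤ k + 1} :=
    (measurableSet_le measurable_norm measurable_const).inter
      ((measurableSet_le measurable_const hFm).inter (measurableSet_le hFm measurable_const))
  have hS : MeasurableSet {y : V (n * 2) | ‖y‖ ≤ 1 ∧ k + 1 ≤ F y} :=
    (measurableSet_le measurable_norm measurable_const).inter (measurableSet_le measurable_const hFm)
  set A := {y : V (n * 2) | ‖y‖ ≤ 2 ∧ k ≤ F y} with hAdef
  set B := {y : V (n * 2) | ‖y‖ ≤ 2 ∧ k ≤ F y ∧ F y ≤ k + 1} with hBdef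
  set S := {y : V (n * 2) | ‖y‖ ≤ 1 ∧ k + 1 ≤ F y} with hSdef
  -- the derivative
  have hder : ∀ y, fderiv ℝ u y = χ y • (deriv Real.smoothTransition (F y - k) • fderiv ℝ F y) +
      Real.smoothTransition (F y - k) • fderiv ℝ χ y := by
    intro y
    have h1 : HasFDerivAt χ (fderiv ℝ χ y) y := (hχc.differentiable one_ne_zero y).hasFDerivAt
    have h2 : HasFDerivAt F (fderiv ℝ F y) y := (hF.differentiable one_ne_zero y).hasFDerivAt
    have h3 : HasDerivAt Real.smoothTransition (deriv Real.smoothTransition (F y - k)) (F y - k) :=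
      ((Real.smoothTransition.contDiff (n := 1)).differentiable one_ne_zero _).hasDerivAt
    have h4 : HasFDerivAt (fun y => Real.smoothTransition (F y - k))
        (deriv Real.smoothTransition (F y - k) • fderiv ℝ F y) y := by
      have h5 : HasFDerivAt (fun y => F y - k) (fderiv ℝ F y) y := h2.sub_const k
      exact HasDerivAt.comp_hasFDerivAt (h₂ := Real.smoothTransition) (f := fun y => F y - k) y h3 h5
    exact (h1.mul h4).fderiv
  have hbd : ∀ y, ‖fderiv ℝ u y‖ₑ ≤ A.indicator (fun _ => ENNReal.ofReal M₁) y +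
      B.indicator (fun y => ENNReal.ofReal M₀ * G y) y := by
    intro y
    have hχ0 : 0 ≤ χ y := (bmp n).nonneg
    have hχ1 : χ y ≤ 1 := (bmp n).le_one
    have ht0 := Real.smoothTransition.nonneg (F y - k)
    have ht1 := Real.smoothTransition.le_one (F y - k)
    rw [hder y, add_comm]
    refine (enorm_add_le _ _).trans (add_le_add ?_ ?_)
    · by_cases hy : y ∈ A
      · rw [Set.indicator_of_mem hy, ← ofReal_norm]
        apply ENNReal.ofReal_le_ofReal
        rw [norm_smul, Real.norm_of_nonneg ht0]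
        calc _ ≤ 1 * ‖fderiv ℝ χ y‖ := mul_le_mul_of_nonneg_right ht1 (norm_nonneg _)
          _ ≤ M₁ := by rw [one_mul]; exact hM₁ y
      · rw [Set.indicator_of_notMem hy]
        have : Real.smoothTransition (F y - k) • fderiv ℝ χ y = 0 := by
          by_cases h2 : ‖y‖ ≤ 2
          · have : F y < k := by
              by_contra h3
              exact hy ⟨h2, not_lt.1 h3⟩
            rw [Real.smoothTransition.zero_of_nonpos (by linarith), zero_smul]
          · rw [hχ, bmp_fderiv_zero n y h2, smul_zero]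
        rw [this, enorm_zero]
    · by_cases hy : y ∈ B
      · rw [Set.indicator_of_mem hy, enorm_smul, enorm_smul]
        have e1 : ‖χ y‖ₑ ≤ 1 := by
          rw [← ofReal_norm, Real.norm_of_nonneg hχ0]
          exact ENNReal.ofReal_le_one.2 hχ1
        have e2 : ‖deriv Real.smoothTransition (F y - k)‖ₑ ≤ ENNReal.ofReal M₀ := by
          rw [← ofReal_norm]
          exact ENNReal.ofReal_le_ofReal (hM₀ _)
        calc ‖χ y‖ₑ * (‖deriv Real.smoothTransition (F y - k)‖ₑ * ‖fderiv ℝ F y‖ₑ)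
            ≤ 1 * (ENNReal.ofReal M₀ * G y) := by
              gcongr
              exact hFG y hy.1
          _ = ENNReal.ofReal M₀ * G y := one_mul _
      · rw [Set.indicator_of_notMem hy]
        have : χ y • (deriv Real.smoothTransition (F y - k) • fderiv ℝ F y) = 0 := by
          by_cases h2 : ‖y‖ ≤ 2
          · have : ¬ (0 ≤ F y - k ∧ F y - k ≤ 1) := fun h3 =>
              hy ⟨h2, by linarith [h3.1], by linarith [h3.2]⟩
            rw [theta_deriv_zero _ this, zero_smul, smul_zero]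
          · have : χ y = 0 := (bmp n).zero_of_le_dist (by
              rw [dist_zero_right]; exact (not_le.1 h2).le)
            rw [this, zero_smul]
        rw [this, enorm_zero]
  have hint : ∫⁻ y, ‖fderiv ℝ u y‖ₑ ≤ ENNReal.ofReal (M₀ + M₁) * (volume A + ∫⁻ y in B, G y) := by
    calc ∫⁻ y, ‖fderiv ℝ u y‖ₑ ≤ ∫⁻ y, (A.indicator (fun _ => ENNReal.ofReal M₁) y +
          B.indicator (fun y => ENNReal.ofReal M₀ * G y) y) := lintegral_mono hbd
      _ = ENNReal.ofReal M₁ * volume A + ENNReal.ofReal M₀ * ∫⁻ y in B, G y := by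
          rw [lintegral_add_left (measurable_const.indicator hA), lintegral_indicator hA,
            lintegral_indicator hB, lintegral_const, Measure.restrict_apply_univ,
            lintegral_const_mul _ hG]
      _ ≤ ENNReal.ofReal (M₀ + M₁) * volume A + ENNReal.ofReal (M₀ + M₁) * ∫⁻ y in B, G y := by
          gcongr
          · linarith
          · linarith
      _ = _ := by rw [mul_add]
  have hlow : volume S ≤ ∫⁻ y, ‖u y‖ₑ ^ (1 + qe n) := by
    calc volume S = ∫⁻ y in S, 1 := by simp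
      _ ≤ ∫⁻ y in S, ‖u y‖ₑ ^ (1 + qe n) := by
          apply setLIntegral_mono' hS
          intro y hy
          have h1 : u y = 1 := by
            have e1 : χ y = 1 := (bmp n).one_of_mem_closedBall (by
              rw [mem_closedBall, dist_zero_right]; exact hy.1)
            have e2 : Real.smoothTransition (F y - k) = 1 :=
              Real.smoothTransition.one_of_one_le (by linarith [hy.2])
            simp only [hu, e1, e2, mul_one]
          rw [h1]; simp
      _ ≤ _ := setLIntegral_le_lintegral _ _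
  calc volume S ≤ ∫⁻ y, ‖u y‖ₑ ^ (1 + qe n) := hlow
    _ ≤ _ := main
    _ ≤ (lintegralPowLePowLIntegralFDerivConst (volume : Measure (V (n * 2))) (1 + qe n) : ℝ≥0∞) *
        (ENNReal.ofReal (M₀ + M₁) * (volume A + ∫⁻ y in B, G y)) ^ (1 + qe n) := by
        gcongr
    _ = _ := by rw [ENNReal.mul_rpow_of_nonneg _ _ hp0, mul_assoc]

end Pool.Agent.Lib.P28u
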