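import Pool.Agent.Lib.P28u.FrA
import Pool.Agent.Lib.P28u.MatG

set_option autoImplicit false
set_option maxSynthPendingDepth 3

/-!
# The derivative of the logarithm of the condition number

PROOF. Write `‖M‖` for `√(fr2 M)`, `D = DE T y v`. `DE (T⁻¹) = - T⁻¹ D T⁻¹` (`DE_inv`), `fderiv_fr2`, `fr2 > 0` (`fr2_pos`, `fr2_inv_pos`), chain rule for `Real.log`. `|D log (fr2 T)| = 2 |inn T D| / fr2 T ≤ 2 ‖D‖ / ‖T‖ ≤ 2 ‖H‖ / ‖T‖ + 4 ‖L‖ ≤ 2 ‖H‖ ‖T⁻¹‖ + 4 ‖L‖` (`‖D‖ ≤ ‖H‖ + 2 ‖L‖ ‖T‖`, `1 ≤ ‖T‖ ‖T⁻¹‖` from `one_le_cond`).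
`T⁻¹ D T⁻¹ = T⁻¹ H T⁻¹ + T⁻¹ Lᵀ + L T⁻¹`, of norm `≤ ‖T⁻¹‖² ‖H‖ + 2 ‖L‖ ‖T⁻¹‖`, so `|D log (fr2 T⁻¹)| ≤ 2 ‖D(T⁻¹)‖ / ‖T⁻¹‖ ≤ 2 ‖T⁻¹‖ ‖H‖ + 4 ‖L‖`. `log_smooth`: `SM.fr2`, `SM.inv`, `ContDiffAt.log`.
-/

open MeasureTheory Set Metric
open scoped ContDiff Topology ENNReal

namespace Pool.Agent.Lib.P28u

open Pool.Agent.P28b04d Pool.Agent.Lib.P28e Pool.Agent.Lib.P28c Pool.Agent.Lib.P28t
open Pool.Agent.Lib.P28f (V EV)

variable {n : ℕ}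

theorem log_smooth (hn : 1 ≤ n) {T : V (n * 2) → MR n} {y : V (n * 2)} (hT : SM 1 T y) (hu : IsUnit (T y)) :
    ContDiffAt ℝ 1 (fun y => Real.log (fr2 (T y)) + Real.log (fr2 (T y)⁻¹)) y :=
  (hT.fr2.log (fr2_pos hn hu).ne').add ((hT.inv hu).fr2.log (fr2_inv_pos hn hu).ne')

theorem log_f (hn : 1 ≤ n) {T : V (n * 2) → MR n} {y v : V (n * 2)} (hT : SM 1 T y) (hu : IsUnit (T y)) {H L : MR n}
    (hd : DE T y v = H + L.transpose * T y + T y * L) :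
    |fderiv ℝ (fun y => Real.log (fr2 (T y)) + Real.log (fr2 (T y)⁻¹)) y v| ≤
      4 * (Real.sqrt (fr2 H) * Real.sqrt (fr2 (T y)⁻¹)) + 8 * Real.sqrt (fr2 L) := by
  have p1 := fr2_pos hn hu
  have p2 := fr2_inv_pos hn hu
  have s1 : DifferentiableAt ℝ (fun y => fr2 (T y)) y := hT.fr2.differentiableAt (by norm_num)
  have s2 : DifferentiableAt ℝ (fun y => fr2 (T y)⁻¹) y :=
    (hT.inv hu).fr2.differentiableAt (by norm_num)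
  have e : fderiv ℝ (fun y => Real.log (fr2 (T y)) + Real.log (fr2 (T y)⁻¹)) y v =
      (fr2 (T y))⁻¹ * (2 * inn (T y) (DE T y v)) +
        (fr2 (T y)⁻¹)⁻¹ * (2 * inn (T y)⁻¹ (-((T y)⁻¹ * DE T y v * (T y)⁻¹))) := by
    rw [((s1.hasFDerivAt.log p1.ne').fun_add (s2.hasFDerivAt.log p2.ne')).fderiv, add_apply,
      smul_apply, smul_apply, smul_eq_mul, smul_eq_mul, fderiv_fr2 hT v, fderiv_fr2 (hT.inv hu) v,
      DE_inv hT hu v]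
  set a := Real.sqrt (fr2 (T y)) with ha
  set b := Real.sqrt (fr2 (T y)⁻¹) with hb
  set H' := Real.sqrt (fr2 H) with hH
  set L' := Real.sqrt (fr2 L) with hL
  have a0 : 0 < a := Real.sqrt_pos.2 p1
  have b0 : 0 < b := Real.sqrt_pos.2 p2
  have H0 : 0 ≤ H' := Real.sqrt_nonneg _
  have L0 : 0 ≤ L' := Real.sqrt_nonneg _
  have a2 : fr2 (T y) = a ^ 2 := (Real.sq_sqrt p1.le).symm
  have b2 : fr2 (T y)⁻¹ = b ^ 2 := (Real.sq_sqrt p2.le).symm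
  have ab : 1 ≤ a * b := by
    have h := one_le_cond hn hu
    rw [a2, b2, ← mul_pow] at h
    nlinarith [mul_pos a0 b0]
  have hLt : Real.sqrt (fr2 L.transpose) = L' := by rw [fr2_transpose]
  -- the norm of the derivative
  have d1 : Real.sqrt (fr2 (DE T y v)) ≤ H' + 2 * L' * a := by
    rw [hd]
    refine (sqrt_fr2_add _ _).trans ?_
    have h1 := sqrt_fr2_add H (L.transpose * T y)
    have h2 := sqrt_fr2_mul L.transpose (T y)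
    have h3 := sqrt_fr2_mul (T y) L
    rw [hLt] at h2
    linarith
  have hTT : T y * (T y)⁻¹ = 1 := Matrix.mul_nonsing_inv _ ((Matrix.isUnit_iff_isUnit_det _).1 hu)
  have hTT' : (T y)⁻¹ * T y = 1 := Matrix.nonsing_inv_mul _ ((Matrix.isUnit_iff_isUnit_det _).1 hu)
  have d2 : Real.sqrt (fr2 (-((T y)⁻¹ * DE T y v * (T y)⁻¹))) ≤ b ^ 2 * H' + 2 * L' * b := by
    have e1 : (T y)⁻¹ * DE T y v * (T y)⁻¹ =
        (T y)⁻¹ * H * (T y)⁻¹ + (T y)⁻¹ * L.transpose + L * (T y)⁻¹ := by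
      rw [hd, mul_add, mul_add, add_mul, add_mul]
      congr 1
      · congr 1
        rw [mul_assoc, mul_assoc, hTT, mul_one]
      · rw [← mul_assoc, hTT', one_mul]
    rw [fr2_neg, e1]
    refine (sqrt_fr2_add _ _).trans ?_
    have h1 := sqrt_fr2_add ((T y)⁻¹ * H * (T y)⁻¹) ((T y)⁻¹ * L.transpose)
    have h2 := sqrt_fr2_mul ((T y)⁻¹ * H) (T y)⁻¹
    have h3 := sqrt_fr2_mul (T y)⁻¹ H
    have h4 := sqrt_fr2_mul (T y)⁻¹ L.transpose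
    have h5 := sqrt_fr2_mul L (T y)⁻¹
    rw [hLt] at h4
    have h6 := mul_le_mul_of_nonneg_right h3 b0.le
    nlinarith
  have i1 : |(fr2 (T y))⁻¹ * (2 * inn (T y) (DE T y v))| ≤ 2 * (H' * b) + 4 * L' := by
    rw [abs_mul, abs_mul, abs_of_pos (inv_pos.2 p1), abs_of_pos (by norm_num : (0 : ℝ) < 2), a2]
    have h1 : |inn (T y) (DE T y v)| ≤ a * (H' + 2 * L' * a) :=
      (inn_le _ _).trans (mul_le_mul_of_nonneg_left d1 a0.le)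
    have h2 : H' ≤ H' * (a * b) := le_mul_of_one_le_right H0 ab
    rw [inv_mul_le_iff₀ (by positivity)]
    nlinarith [mul_nonneg a0.le H0]
  have i2 : |(fr2 (T y)⁻¹)⁻¹ * (2 * inn (T y)⁻¹ (-((T y)⁻¹ * DE T y v * (T y)⁻¹)))| ≤
      2 * (H' * b) + 4 * L' := by
    rw [abs_mul, abs_mul, abs_of_pos (inv_pos.2 p2), abs_of_pos (by norm_num : (0 : ℝ) < 2), b2]
    have h1 : |inn (T y)⁻¹ (-((T y)⁻¹ * DE T y v * (T y)⁻¹))| ≤ b * (b ^ 2 * H' + 2 * L' * b) :=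
      (inn_le _ _).trans (mul_le_mul_of_nonneg_left d2 b0.le)
    rw [inv_mul_le_iff₀ (by positivity)]
    nlinarith
  rw [e]
  refine (abs_add_le _ _).trans ?_
  linarith

end Pool.Agent.Lib.P28u
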