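import Pool.Agent.Lib.P28u.LevG
import Pool.Agent.Lib.P28u.LevI
import Pool.Agent.Lib.P28u.LayC

set_option autoImplicit false
set_option maxSynthPendingDepth 3

/-!
# The iteration theorem

PROOF. `h = 2 + 2 log K > 0`, `C₁` from `lev_g`, `P = n h + 1`; `ε`, `D` from `lev_i (qe n) _ C₁ _ E P` (`0 < qe n` for `n ≥ 1`). `t₀ = log (E' / ε)`, `E' = max E 1`: by Chebyshev `lv κ t₀ ≤ ofReal (exp (-t₀)) ∫⁻_ball ofReal (κ) ^ 2 ≤ ofReal (exp (-t₀) E') ≤ ofReal ε` (`mul_meas_ge_le_lintegral`; `κ` is measurable: `measurable_of_continuousOn_compl_singleton`).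
`lam j = lv κ (t₀ + j h)`: antitone; `g j = ge a κ (t₀ + j h) h`; the sets `{e^(t₀ + j h) ≤ κ² < e^(t₀ + (j+1) h)}` are disjoint and measurable, so `∑' j, g j ≤ ∫⁻_ball ofReal a ^ (2 n) ≤ ofReal E` (`lintegral_iUnion`). `lev_g` with `t = t₀ + j h` gives the recursion. `lev_i`, then `lay_c`.
-/

open MeasureTheory Set Metric
open scoped ContDiff Topology ENNReal

namespace Pool.Agent.Lib.P28u

open Pool.Agent.P28b04d Pool.Agent.Lib.P28e Pool.Agent.Lib.P28c Pool.Agent.Lib.P28t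
open Pool.Agent.Lib.P28f (V EV)

variable {n : ℕ}

namespace MoserAux

theorem lv_anti (κ : W n → ℝ) {s t : ℝ} (h : s ≤ t) : lv κ t ≤ lv κ s := by
  unfold lv
  apply measure_mono
  intro z hz
  exact ⟨hz.1, (Real.exp_le_exp.2 h).trans hz.2⟩

theorem cheb (κ : W n → ℝ) (hκ : Measurable κ) (h0 : ∀ z, 0 ≤ κ z) (t : ℝ) :
    ENNReal.ofReal (Real.exp t) * lv κ t ≤
      ∫⁻ z in ball (0 : W n) 1, ENNReal.ofReal (κ z) ^ 2 := by
  have hm : Measurable fun z => ENNReal.ofReal (κ z) ^ 2 := (hκ.ennreal_ofReal).pow_const 2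
  have h1 := mul_meas_ge_le_lintegral (μ := volume.restrict (ball (0 : W n) 1)) hm
    (ENNReal.ofReal (Real.exp t))
  refine le_trans (le_of_eq ?_) h1
  congr 1
  have h2 : {z : W n | ENNReal.ofReal (Real.exp t) ≤ ENNReal.ofReal (κ z) ^ 2} =
      {z | Real.exp t ≤ κ z ^ 2} := by
    ext z
    simp only [Set.mem_setOf_eq]
    rw [← ENNReal.ofReal_pow (h0 z), ENNReal.ofReal_le_ofReal_iff (by positivity)]
  rw [h2, Measure.restrict_apply (measurableSet_le measurable_const (hκ.pow_const 2)),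
    Set.inter_comm]
  rfl

theorem sum_ge (a κ : W n → ℝ) (hκ : Measurable κ) (t₀ h : ℝ) (hh : 0 < h) :
    ∑' j : ℕ, ge a κ (t₀ + j * h) h ≤ ∫⁻ z in ball (0 : W n) 1, ENNReal.ofReal (a z) ^ (2 * n) := by
  unfold ge
  rw [← lintegral_iUnion]
  · apply lintegral_mono_set
    exact Set.iUnion_subset fun j => Set.inter_subset_left
  · intro j
    exact measurableSet_ball.inter ((measurableSet_le measurable_const (hκ.pow_const 2)).inter
      (measurableSet_lt (hκ.pow_const 2) measurable_const))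
  · have key : ∀ i j : ℕ, i < j → Disjoint
        (ball (0 : W n) 1 ∩ {z | Real.exp (t₀ + i * h) ≤ κ z ^ 2 ∧
          κ z ^ 2 < Real.exp (t₀ + i * h + h)})
        (ball (0 : W n) 1 ∩ {z | Real.exp (t₀ + j * h) ≤ κ z ^ 2 ∧
          κ z ^ 2 < Real.exp (t₀ + j * h + h)}) := by
      intro i j hij
      rw [Set.disjoint_left]
      rintro z ⟨-, -, h2⟩ ⟨-, h3, -⟩
      have h4 := h3.trans_lt h2
      rw [Real.exp_lt_exp] at h4
      have h5 : (i : ℝ) + 1 ≤ j := by exact_mod_cast hij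
      nlinarith
    intro i j hij
    rcases lt_or_gt_of_ne hij with h1 | h1
    · exact key i j h1
    · exact (key j i h1).symm

end MoserAux

theorem moser (n : ℕ) (hn : 1 ≤ n) (K : ℝ) (hK : 1 ≤ K) (E : ℝ) : ∃ C : ℝ,
    ∀ (a κ : W n → ℝ) (F : Fin (n + 1) → V (n * 2) → ℝ), Mos K a κ F →
    ∫⁻ z in ball (0 : W n) 1, ENNReal.ofReal (a z) ^ (2 * n) ≤ ENNReal.ofReal E →
    ∫⁻ z in ball (0 : W n) 1, ENNReal.ofReal (κ z) ^ 2 ≤ ENNReal.ofReal E →
    ∫⁻ z in ball (0 : W n) 1, ENNReal.ofReal (κ z) ^ (2 * n) ≤ ENNReal.ofReal C := by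
  obtain ⟨C₁, hC₁, hlev⟩ := lev_g n hn K hK
  have hlogK : 0 ≤ Real.log K := Real.log_nonneg hK
  set h : ℝ := 2 + 2 * Real.log K with hdef
  have hh : 0 < h := by rw [hdef]; linarith
  have hq : 0 < qe n := by
    have : (1 : ℝ) ≤ n := by exact_mod_cast hn
    unfold qe
    apply one_div_pos.2
    linarith
  obtain ⟨ε, D, hε, hI⟩ := lev_i (qe n) hq C₁ hC₁ E (n * h + 1) (by positivity)
  have hE' : 0 < max E 1 := lt_max_of_lt_right one_pos
  obtain ⟨C, hC⟩ := lay_c n h D (Real.log (max E 1 / ε)) (n * h + 1) hh (by linarith)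
  refine ⟨C, fun a κ F hM hE hκE => ?_⟩
  have hκm : Measurable κ := measurable_of_continuousOn_compl_singleton 0 hM.ck
  apply hC κ hκm hM.nk
  refine hI (fun j => lv κ (Real.log (max E 1 / ε) + j * h))
    (fun j => ge a κ (Real.log (max E 1 / ε) + j * h) h) ?_ ?_ ?_ ?_
  · intro i j hij
    apply MoserAux.lv_anti
    have : (i : ℝ) ≤ j := by exact_mod_cast hij
    have := mul_le_mul_of_nonneg_right this hh.le
    linarith
  · exact (MoserAux.sum_ge a κ hκm _ h hh).trans hE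
  · intro j
    have h1 := hlev a κ F hM (Real.log (max E 1 / ε) + j * h)
    have e : Real.log (max E 1 / ε) + ((j + 1 : ℕ) : ℝ) * h =
        Real.log (max E 1 / ε) + j * h + h := by push_cast; ring
    simp only [e]
    exact h1
  · have h1 := MoserAux.cheb κ hκm hM.nk (Real.log (max E 1 / ε))
    rw [Real.exp_log (by positivity)] at h1
    have h2 : ENNReal.ofReal (max E 1 / ε) * lv κ (Real.log (max E 1 / ε)) ≤
        ENNReal.ofReal (max E 1 / ε) * ENNReal.ofReal ε := by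
      rw [← ENNReal.ofReal_mul (by positivity), div_mul_cancel₀ _ hε.ne']
      exact h1.trans (hκE.trans (ENNReal.ofReal_le_ofReal (le_max_left _ _)))
    have h3 : ENNReal.ofReal (max E 1 / ε) ≠ 0 := by
      rw [Ne, ENNReal.ofReal_eq_zero, not_le]; positivity
    simp only [Nat.cast_zero, zero_mul, add_zero]
    exact (ENNReal.mul_le_mul_iff_right h3 ENNReal.ofReal_ne_top).1 h2

end Pool.Agent.Lib.P28u
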