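import Pool.Agent.Lib.P28u.IrrU
import Pool.Agent.Lib.P28u.CurvU
import Pool.Agent.Lib.P28u.GiC

set_option autoImplicit false
set_option maxSynthPendingDepth 3

/-!
# Pointwise comparison on the unitary group

PROOF. `K` from `frm_un`, `C₁` from `fr_c n K`, `C₂` from `irr_u`. `Wm α g = FM α (g 0) S`, `S = (mxL g).comp (Lv n)` (`Wm_eq`). FIRST: `kO² = ‖dw‖² ‖Gi‖² ≤ C₁² fr2 (Wm α g) fr2 (Wm α g)⁻¹ ≤ C₁² C₂ (1 + ∑∑ fr2 (Qm α i j g))` (`unit_Wm`, `Qm` by definition). SECOND: `Am α k g = (Wm α g)⁻¹ * DM k (Wm α) g`, `fr2_mul`; `DM_Wm`: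
`DM k (Wm α) g l m = fderiv ℝ (dw α) (g 0) (mx g (Eb k)) (mx g (Eb l)) (mx g (Eb m)) = T3 α (g 0) (mx g (Eb k)) (mx g (Eb l)) (mx g (Eb m))` since `(1 - Pj (g 0))` fixes `mx g (Eb k)` (`hip_col`, `sub_Pj_eq`, `T3_apply`), so all entries are at most `‖T3‖ (K)³` (`‖mx g (Eb k)‖ = ‖S e_k‖ ≤ K`), `fr2 (DM k (Wm α) g) ≤ C ‖T3‖²` (`fr2_le`);
`fr2 (Wm α g)⁻¹ ≤ C₁ ‖Gi‖²`; `‖T3‖ ‖Gi‖ ≤ K ‖g 0‖ ‖T3‖ ‖Gi‖ = K aO α (g 0)`.
-/

open MeasureTheory Set Metric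
open scoped ContDiff Topology ENNReal

namespace Pool.Agent.Lib.P28u

open Pool.Agent.P28b04d Pool.Agent.Lib.P28e Pool.Agent.Lib.P28c Pool.Agent.Lib.P28t
open Pool.Agent.Lib.P28f (V EV)

variable {n : ℕ}

namespace PtUAux

theorem e_norm (i : Fin (n * 2)) : ‖(Pi.single i (1 : ℝ) : V (n * 2))‖ ≤ 1 := by
  rw [pi_norm_le_iff_of_nonneg zero_le_one]
  intro j
  by_cases hj : j = i
  · subst hj; simp
  · simp [hj]

theorem col_eq (g : XX n) (k : Fin (n * 2)) :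
    mx g (Eb k) = ((mxL g).comp (Lv n)) (Pi.single k 1) := by
  show mx g (Eb k) = mxL g (Lv n (Pi.single k 1))
  rw [mxL_apply]
  rfl

theorem col_le {K : ℝ} {g : XX n} (h : Frm K (g 0) ((mxL g).comp (Lv n))) (k : Fin (n * 2)) :
    ‖mx g (Eb k)‖ ≤ K := by
  rw [col_eq]
  refine (h.le _).trans ?_
  exact mul_le_of_le_one_right h.pos.le (e_norm k)

theorem dm_le {α : FW n} (hα : Symp α) {K : ℝ} {g : XX n} (hg : g ∈ Un n)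
    (h : Frm K (g 0) ((mxL g).comp (Lv n))) (k : Fin (n * 2)) :
    fr2 (DM k (Wm α) g) ≤ ((n : ℝ) * 2) ^ 2 * (‖T3 α (g 0)‖ * K * K * K) ^ 2 := by
  have hK := h.pos
  apply fr2_le (by positivity)
  intro l m
  rw [DM_Wm hα.1 (col_ne hg 0)]
  have e : fderiv ℝ (dw α) (g 0) (mx g (Eb k)) (mx g (Eb l)) (mx g (Eb m)) =
      T3 α (g 0) (mx g (Eb k)) (mx g (Eb l)) (mx g (Eb m)) := by
    rw [T3_apply, sub_Pj_eq (hip_col hg k), sub_Pj_eq (hip_col hg l), sub_Pj_eq (hip_col hg m)]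
  rw [e, ← Real.norm_eq_abs]
  have h1 := (T3 α (g 0) (mx g (Eb k))).le_opNorm₂ (mx g (Eb l)) (mx g (Eb m))
  have h2 := (T3 α (g 0)).le_opNorm (mx g (Eb k))
  have c1 := col_le h k
  have c2 := col_le h l
  have c3 := col_le h m
  refine h1.trans ?_
  gcongr
  refine h2.trans ?_
  gcongr

end PtUAux

open PtUAux

theorem pt_u (n : ℕ) : ∃ C : ℝ, 0 < C ∧ ∀ α : FW n, Symp α → ∀ g ∈ Un n,
    kO α (g 0) ^ 2 ≤ C * (1 + ∑ i, ∑ j, fr2 (Qm α i j g)) ∧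
      ∀ k, fr2 (Am α k g) ≤ C * aO α (g 0) ^ 2 := by
  obtain ⟨K, hK, hfr⟩ := frm_un n
  obtain ⟨C1, hC1, h1⟩ := fr_c n K
  obtain ⟨C2, hC2, h2⟩ := irr_u n
  refine ⟨C1 ^ 2 * C2 + (C1 * (((n : ℝ) * 2) ^ 2 * K ^ 8)), by positivity, ?_⟩
  intro α hα g hg
  have hF := hfr g hg
  obtain ⟨a1, a2, a3, a4⟩ := h1 α hα (g 0) _ hF
  rw [← Wm_eq] at a1 a2 a3 a4
  have hu := unit_Wm hα hg
  have b := h2 (Wm α g) hu
  have hs : (0 : ℝ) ≤ 1 + ∑ i, ∑ j, fr2 (Qm α i j g) := by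
    have : (0 : ℝ) ≤ ∑ i, ∑ j, fr2 (Qm α i j g) :=
      Finset.sum_nonneg fun i _ => Finset.sum_nonneg fun j _ => fr2_nonneg _
    linarith
  have n1 := fr2_nonneg (Wm α g)
  have n2 := fr2_nonneg (Wm α g)⁻¹
  constructor
  · have e : kO α (g 0) ^ 2 = ‖dw α (g 0)‖ ^ 2 * ‖Gi α (g 0)‖ ^ 2 := by
      unfold kO; ring
    rw [e]
    calc ‖dw α (g 0)‖ ^ 2 * ‖Gi α (g 0)‖ ^ 2
        ≤ (C1 * fr2 (Wm α g)) * (C1 * fr2 (Wm α g)⁻¹) := by gcongr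
      _ = C1 ^ 2 * (fr2 (Wm α g) * fr2 (Wm α g)⁻¹) := by ring
      _ ≤ C1 ^ 2 * (C2 * (1 + ∑ i, ∑ j, fr2 (Qm α i j g))) := by
          refine mul_le_mul_of_nonneg_left ?_ (by positivity)
          exact b
      _ = (C1 ^ 2 * C2) * (1 + ∑ i, ∑ j, fr2 (Qm α i j g)) := by ring
      _ ≤ _ := by
          refine mul_le_mul_of_nonneg_right ?_ hs
          have : (0 : ℝ) ≤ C1 * (((n : ℝ) * 2) ^ 2 * K ^ 8) := by positivity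
          linarith
  · intro k
    have m1 : fr2 (Am α k g) ≤ fr2 (Wm α g)⁻¹ * fr2 (DM k (Wm α) g) := fr2_mul _ _
    have m2 := dm_le hα hg hF k
    have hz : 1 ≤ (K * ‖g 0‖) ^ 2 := by
      have := hF.lez
      nlinarith
    have hT := norm_nonneg (T3 α (g 0))
    have hG := norm_nonneg (Gi α (g 0))
    calc fr2 (Am α k g) ≤ fr2 (Wm α g)⁻¹ * fr2 (DM k (Wm α) g) := m1
      _ ≤ (C1 * ‖Gi α (g 0)‖ ^ 2) *
          (((n : ℝ) * 2) ^ 2 * (‖T3 α (g 0)‖ * K * K * K) ^ 2) := by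
          gcongr
          exact fr2_nonneg _
      _ = (C1 * ‖Gi α (g 0)‖ ^ 2) *
          (((n : ℝ) * 2) ^ 2 * (‖T3 α (g 0)‖ * K * K * K) ^ 2) * 1 := by ring
      _ ≤ (C1 * ‖Gi α (g 0)‖ ^ 2) *
          (((n : ℝ) * 2) ^ 2 * (‖T3 α (g 0)‖ * K * K * K) ^ 2) * (K * ‖g 0‖) ^ 2 := by
          gcongr
      _ = (C1 * (((n : ℝ) * 2) ^ 2 * K ^ 8)) * aO α (g 0) ^ 2 := by
          unfold aO; ring
      _ ≤ _ := by
          refine mul_le_mul_of_nonneg_right ?_ (sq_nonneg _)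
          have : (0 : ℝ) ≤ C1 ^ 2 * C2 := by positivity
          linarith

end Pool.Agent.Lib.P28u
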