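import Pool.Agent.Lib.P28u.Defs2
import Pool.Agent.Lib.P28t.MFacts

set_option autoImplicit false
set_option maxSynthPendingDepth 3

/-!
# Unitary matrices: algebra
-/

open MeasureTheory Set Metric
open scoped ContDiff Topology ENNReal

namespace Pool.Agent.Lib.P28u

open Pool.Agent.P28b04d Pool.Agent.Lib.P28e Pool.Agent.Lib.P28c Pool.Agent.Lib.P28t
open Pool.Agent.Lib.P28f (V EV)

variable {n : ℕ}

namespace UnAAux

theorem hipAdd (z v w : W n) : hip z (v + w) = hip z v + hip z w := by
  simp only [hip, Pi.add_apply, mul_add, Finset.sum_add_distrib]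

theorem hipZero (z : W n) : hip z 0 = 0 := by
  simp [hip]

theorem hipSmul (z v : W n) (c : ℂ) : hip z (c • v) = c * hip z v := by
  simp only [hip, Pi.smul_apply, smul_eq_mul, Finset.mul_sum]
  exact Finset.sum_congr rfl fun k _ => by ring

theorem hipStar (z v : W n) : hip v z = star (hip z v) := by
  simp only [hip, star_sum, star_mul', star_star]
  exact Finset.sum_congr rfl fun k _ => by ring

theorem hipSum {ι : Type*} (s : Finset ι) (z : W n) (v : ι → W n) :
    hip z (∑ i ∈ s, v i) = ∑ i ∈ s, hip z (v i) := by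
  classical
  induction s using Finset.induction_on with
  | empty => simp [hipZero]
  | insert a s ha ih => rw [Finset.sum_insert ha, Finset.sum_insert ha, hipAdd, ih]

theorem hipSumL {ι : Type*} (s : Finset ι) (z : W n) (v : ι → W n) :
    hip (∑ i ∈ s, v i) z = ∑ i ∈ s, hip (v i) z := by
  rw [hipStar, hipSum, star_sum]
  exact Finset.sum_congr rfl fun k _ => (hipStar _ _).symm

theorem hipSmulL (z v : W n) (c : ℂ) : hip (c • v) z = star c * hip v z := by
  rw [hipStar, hipSmul, star_mul', ← hipStar]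

theorem hipSelf (z : W n) : hip z z = (nsq z : ℂ) := by
  unfold hip nsq
  rw [Complex.ofReal_sum]
  refine Finset.sum_congr rfl fun k _ => ?_
  have h := Complex.mul_conj (z k)
  rw [mul_comm] at h
  exact h

theorem nsqNonneg (z : W n) : 0 ≤ nsq z := Finset.sum_nonneg fun k _ => Complex.normSq_nonneg _

theorem eqZero {z : W n} (h : nsq z = 0) : z = 0 := by
  have h1 := MFactsAux.sq_le_nsq z
  rw [h] at h1
  have h2 : ‖z‖ = 0 := by nlinarith [norm_nonneg z]
  exact norm_eq_zero.1 h2

theorem mx_apply (g : XX n) (z : W n) (k : Fin (n + 1)) : mx g z k = ∑ j, z j * g j k := by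
  simp [mx, Finset.sum_apply]

theorem mx_single (g : XX n) (j : Fin (n + 1)) : mx g (Pi.single j 1) = g j := by
  unfold mx
  rw [Finset.sum_eq_single j]
  · simp
  · intro b _ hb
    simp [Pi.single_eq_of_ne hb]
  · intro h
    exact absurd (Finset.mem_univ j) h

/-- `mx g` as a complex linear map. -/
noncomputable def mxC (g : XX n) : W n →ₗ[ℂ] W n where
  toFun := mx g
  map_add' z w := by
    unfold mx
    simp only [Pi.add_apply, add_smul, Finset.sum_add_distrib]
  map_smul' c z := by
    unfold mx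
    simp only [Pi.smul_apply, smul_eq_mul, mul_smul, Finset.smul_sum, RingHom.id_apply]

end UnAAux

open UnAAux

theorem mxL_apply (g : XX n) (z : W n) : mxL g z = mx g z := by
  unfold mxL mx
  simp

theorem mx_add (g : XX n) (z w : W n) : mx g (z + w) = mx g z + mx g w := (mxC g).map_add z w

theorem mx_smul (g : XX n) (c : ℂ) (z : W n) : mx g (c • z) = c • mx g z := (mxC g).map_smul c z

theorem mx_rsmul (g : XX n) (r : ℝ) (z : W n) : mx g (r • z) = r • mx g z := by
  have h := mx_smul g (r : ℂ) z
  simpa [Complex.coe_smul] using h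

theorem mx_rm (g X : XX n) (z : W n) : mx (rm g X) z = mx g (mx X z) := by
  have h : mx g (mx X z) = mxC g (∑ j, z j • X j) := rfl
  rw [h, map_sum]
  unfold mx rm
  refine Finset.sum_congr rfl fun j _ => ?_
  rw [map_smul]
  rfl

theorem rm_assoc (g X Y : XX n) : rm (rm g X) Y = rm g (rm X Y) := by
  funext j
  exact mx_rm g X (Y j)

theorem mx_idm (z : W n) : mx (idm n) z = z := by
  funext k
  rw [mx_apply, Finset.sum_eq_single k]
  · simp [idm]
  · intro b _ hb
    simp [idm, Pi.single_eq_of_ne hb.symm]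
  · intro h
    exact absurd (Finset.mem_univ k) h

theorem rm_idm (g : XX n) : rm g (idm n) = g := by
  funext j
  exact mx_single g j

theorem idm_rm (g : XX n) : rm (idm n) g = g := by
  funext j
  exact mx_idm (g j)

theorem mx_e0 (g : XX n) : mx g (e0 n) = g 0 := by
  unfold mx e0
  rw [Fin.sum_univ_succ]
  simp

theorem ext_mx {X Y : XX n} (h : ∀ z, mx X z = mx Y z) : X = Y := by
  funext j
  rw [← mx_single X j, ← mx_single Y j, h]

theorem hip_mx {g : XX n} (hg : g ∈ Un n) (z w : W n) : hip (mx g z) (mx g w) = hip z w := by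
  have h1 : hip (mx g z) (mx g w) = ∑ j, ∑ k, star (z j) * (w k * hip (g j) (g k)) := by
    unfold mx
    rw [hipSumL]
    refine Finset.sum_congr rfl fun j _ => ?_
    rw [hipSum]
    refine Finset.sum_congr rfl fun k _ => ?_
    rw [hipSmulL, hipSmul]
  rw [h1]
  unfold hip
  refine Finset.sum_congr rfl fun j _ => ?_
  rw [Finset.sum_eq_single j]
  · have := hg j j
    rw [if_pos rfl] at this
    unfold hip at this
    rw [this, mul_one]
  · intro b _ hb
    have := hg j b
    rw [if_neg hb.symm] at this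
    unfold hip at this
    rw [this, mul_zero, mul_zero]
  · intro h
    exact absurd (Finset.mem_univ j) h

theorem nsq_mx {g : XX n} (hg : g ∈ Un n) (z : W n) : nsq (mx g z) = nsq z := by
  have h := hip_mx hg z z
  rw [hipSelf, hipSelf] at h
  exact_mod_cast h

theorem nsq_le (z : W n) : nsq z ≤ ((n : ℝ) + 1) * ‖z‖ ^ 2 := by
  unfold nsq
  have h : ∀ k ∈ (Finset.univ : Finset (Fin (n + 1))), Complex.normSq (z k) ≤ ‖z‖ ^ 2 := by
    intro k _
    rw [Complex.normSq_eq_norm_sq]
    exact pow_le_pow_left₀ (norm_nonneg _) (norm_le_pi_norm z k) 2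
  have h2 := Finset.sum_le_sum h
  rw [Finset.sum_const, Finset.card_univ, Fintype.card_fin, nsmul_eq_mul] at h2
  push_cast at h2
  exact h2

theorem le_nsq (z : W n) : ‖z‖ ^ 2 ≤ nsq z := MFactsAux.sq_le_nsq z

theorem nsq_col {g : XX n} (hg : g ∈ Un n) (j : Fin (n + 1)) : nsq (g j) = 1 := by
  have h := hg j j
  rw [if_pos rfl, hipSelf] at h
  exact_mod_cast h

theorem col_ne {g : XX n} (hg : g ∈ Un n) (j : Fin (n + 1)) : g j ≠ 0 := by
  intro h
  have h1 := nsq_col hg j
  rw [h] at h1
  simp [nsq] at h1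

theorem rm_mem {g k : XX n} (hg : g ∈ Un n) (hk : k ∈ Un n) : rm g k ∈ Un n := by
  intro i j
  have h : hip (rm g k i) (rm g k j) = hip (k i) (k j) := hip_mx hg (k i) (k j)
  rw [h]
  exact hk i j

theorem idm_mem : idm n ∈ Un n := by
  intro i j
  unfold hip idm
  rw [Finset.sum_eq_single i]
  · by_cases h : i = j
    · subst h; simp
    · rw [if_neg h, Pi.single_eq_of_ne h, mul_zero]
  · intro b _ hb
    rw [Pi.single_eq_of_ne hb, star_zero, zero_mul]
  · intro h
    exact absurd (Finset.mem_univ i) h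

theorem continuous_rm : Continuous fun p : XX n × XX n => rm p.1 p.2 := by
  unfold rm mx
  fun_prop

theorem continuous_mx : Continuous fun p : XX n × W n => mx p.1 p.2 := by
  unfold mx
  fun_prop

theorem isCompact_Un : IsCompact (Un n) := by
  refine Metric.isCompact_of_isClosed_isBounded ?_ ?_
  · have h : Un n = ⋂ j, ⋂ k, {g : XX n | hip (g j) (g k) = if j = k then 1 else 0} := by
      ext g; simp [Un]
    rw [h]
    refine isClosed_iInter fun j => isClosed_iInter fun k => ?_
    exact isClosed_eq (by unfold hip; fun_prop) continuous_const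
  · refine (Metric.isBounded_closedBall (x := (0 : XX n)) (r := 1)).subset ?_
    intro g hg
    rw [mem_closedBall_zero_iff, pi_norm_le_iff_of_nonneg zero_le_one]
    intro j
    have h1 := le_nsq (g j)
    rw [nsq_col hg j] at h1
    nlinarith [norm_nonneg (g j)]

theorem UnAAux.mxC_inj {g : XX n} (hg : g ∈ Un n) : Function.Injective (mxC g) := by
  rw [injective_iff_map_eq_zero]
  intro z hz
  apply eqZero
  rw [← nsq_mx hg z]
  have : mx g z = 0 := hz
  rw [this]
  simp [nsq]

theorem mx_surj {g : XX n} (hg : g ∈ Un n) (z : W n) : ∃ w, mx g w = z :=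
  LinearMap.injective_iff_surjective.1 (mxC_inj hg) z

theorem exists_inv {g : XX n} (hg : g ∈ Un n) : ∃ k ∈ Un n, rm g k = idm n ∧ rm k g = idm n := by
  choose k hk using fun j : Fin (n + 1) => mx_surj hg (idm n j)
  have h1 : rm g k = idm n := funext hk
  refine ⟨k, fun i j => ?_, h1, ?_⟩
  · rw [← hip_mx hg, hk, hk]
    exact idm_mem i j
  · apply ext_mx
    intro z
    rw [mx_idm, mx_rm]
    apply mxC_inj hg
    show mx g (mx k (mx g z)) = mx g z
    rw [← mx_rm, h1, mx_idm]

theorem exists_col {z : W n} (hz : nsq z = 1) : ∃ g ∈ Un n, g 0 = z := by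
  have hinner : ∀ x y : EuclideanSpace ℂ (Fin (n + 1)),
      inner ℂ x y = hip (n := n) (WithLp.ofLp x) (WithLp.ofLp y) := by
    intro x y
    rw [PiLp.inner_apply]
    unfold hip
    refine Finset.sum_congr rfl fun k _ => ?_
    rw [RCLike.inner_apply']
    rfl
  set v : Fin (n + 1) → EuclideanSpace ℂ (Fin (n + 1)) := fun _ => WithLp.toLp 2 z with hv
  have hon : Orthonormal ℂ (({0} : Set (Fin (n + 1))).restrict v) := by
    constructor
    · intro i
      have h2 : ‖(WithLp.toLp 2 z : EuclideanSpace ℂ (Fin (n + 1)))‖ ^ 2 = 1 := by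
        rw [← hz, EuclideanSpace.norm_sq_eq]
        unfold nsq
        refine Finset.sum_congr rfl fun k _ => ?_
        rw [Complex.normSq_eq_norm_sq]
      have h3 := norm_nonneg (WithLp.toLp 2 z : EuclideanSpace ℂ (Fin (n + 1)))
      show ‖(WithLp.toLp 2 z : EuclideanSpace ℂ (Fin (n + 1)))‖ = 1
      nlinarith
    · intro i j hij
      exact absurd (Subsingleton.elim i j) hij
  obtain ⟨b, hb⟩ := hon.exists_orthonormalBasis_extension_of_card_eq (by simp)
  refine ⟨fun j => WithLp.ofLp (b j), fun j k => ?_, ?_⟩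
  · show hip (WithLp.ofLp (b j)) (WithLp.ofLp (b k)) = _
    rw [← hinner, orthonormal_iff_ite.1 b.orthonormal]
  · show WithLp.ofLp (b 0) = z
    rw [hb 0 rfl]

end Pool.Agent.Lib.P28u
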